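import Pool.Agent.Lib.MP_436e1a_gt.A.MapsL

/-! An ample finite dimensional family of perturbations of families of spheres. -/

open scoped ContDiff Topology RealInnerProductSpace Classical
open Set

namespace Pool.Agent.CSP

variable {ι W Z : Type} [NormedAddCommGroup W] [NormedSpace ℝ W] [NormedAddCommGroup Z]
  [NormedSpace ℝ Z]

/-- perturbations that vanish at the ends, separate a point from three others and realise jets -/
structure Amp (w : ι → ℝ × E 3 → W →L[ℝ] Z) : Prop where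
  sm : ∀ k, ContDiff ℝ ∞ (w k)
  zero : ∀ k x, w k (0, x) = 0
  one : ∀ k x, w k (1, x) = 0
  val : ∀ t ∈ Ioo (0 : ℝ) 1, ∀ p₁ p₂ p₃ p₄ : ι × E 3, p₁ ≠ p₂ → p₁ ≠ p₃ → p₁ ≠ p₄ → ∀ a, ∃ β,
    w p₁.1 (t, p₁.2) β = a ∧ w p₂.1 (t, p₂.2) β = 0 ∧ w p₃.1 (t, p₃.2) β = 0 ∧
      w p₄.1 (t, p₄.2) β = 0
  jet : ∀ t ∈ Ioo (0 : ℝ) 1, ∀ k x v, v ≠ 0 → ∀ a, ∃ β,
    w k (t, x) β = 0 ∧ fderiv ℝ (w k) (t, x) (0, v) β = a

/-- the monomials of degree at most one -/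
def amp_h (x : E 3) : Fin 4 → ℝ := ![1, x 0, x 1, x 2]

theorem amp_sm (a : Fin 4) : ContDiff ℝ ∞ fun x => amp_h x a := by
  fin_cases a <;> simp only [amp_h] <;> simp <;> fun_prop

theorem amp_sum (α : ℝ) (u x : E 3) : ∑ a, ![α, u 0, u 1, u 2] a * amp_h x a = α + ⟪u, x⟫ := by
  simp [Fin.sum_univ_four, amp_h, inner_E3]
  ring

theorem amp_sep {p q : ι × E 3} (h : p ≠ q) :
    ∃ α u, α + ⟪u, p.2⟫ = (1 : ℝ) ∧ (q.1 = p.1 → α + ⟪u, q.2⟫ = 0) := by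
  by_cases e : q.1 = p.1
  · have h1 : p.2 - q.2 ≠ 0 := sub_ne_zero.2 fun e' => h (Prod.ext e.symm e')
    have h2 : ⟪p.2 - q.2, p.2 - q.2⟫ ≠ (0 : ℝ) := inner_self_ne_zero.2 h1
    refine ⟨-⟪⟪p.2 - q.2, p.2 - q.2⟫⁻¹ • (p.2 - q.2), q.2⟫, ⟪p.2 - q.2, p.2 - q.2⟫⁻¹ • (p.2 - q.2),
      ?_, fun _ => neg_add_cancel _⟩
    rw [neg_add_eq_sub, ← inner_sub_right, real_inner_smul_left, inv_mul_cancel₀ h2]
  · exact ⟨1, 0, by simp, fun e' => (e e').elim⟩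

theorem amp_of {w : ι → ℝ × E 3 → W →L[ℝ] Z} (sm : ∀ k, ContDiff ℝ ∞ (w k))
    (z : ∀ k t x, t * (1 - t) = 0 → w k (t, x) = 0)
    (h : ∀ k a (α₁ α₂ α₃ : ℝ) (u₁ u₂ u₃ : E 3), ∃ β, ∀ k' p, w k' p β = if k' = k then
      (p.1 * (1 - p.1) * ((α₁ + ⟪u₁, p.2⟫) * (α₂ + ⟪u₂, p.2⟫) * (α₃ + ⟪u₃, p.2⟫))) • a else 0) :
    Amp w := by
  refine ⟨sm, fun k x => z _ _ _ (by simp), fun k x => z _ _ _ (by simp),
    fun t ht p₁ p₂ p₃ p₄ h₂ h₃ h₄ a => ?_, fun t ht k x v hv a => ?_⟩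
  · have h0 := (mul_pos ht.1 (sub_pos.2 ht.2)).ne'
    obtain ⟨α₁, u₁, a₁, b₁⟩ := amp_sep h₂
    obtain ⟨α₂, u₂, a₂, b₂⟩ := amp_sep h₃
    obtain ⟨α₃, u₃, a₃, b₃⟩ := amp_sep h₄
    obtain ⟨β, hβ⟩ := h p₁.1 ((t * (1 - t))⁻¹ • a) α₁ α₂ α₃ u₁ u₂ u₃
    refine ⟨β, ?_, ?_, ?_, ?_⟩ <;> rw [hβ]
    · simp only [if_true, a₁, a₂, a₃, mul_one, smul_smul, mul_inv_cancel₀ h0, one_smul]
    · split_ifs with e <;> simp [b₁, *]
    · split_ifs with e <;> simp [b₂, *]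
    · split_ifs with e <;> simp [b₃, *]
  · have h0 := (mul_pos ht.1 (sub_pos.2 ht.2)).ne'
    have h1 : ⟪v, v⟫ ≠ (0 : ℝ) := inner_self_ne_zero.2 hv
    obtain ⟨β, hβ⟩ := h k ((t * (1 - t) * ⟪v, v⟫)⁻¹ • a) (-⟪v, x⟫) 1 1 v 0 0
    refine ⟨β, by simp [hβ], ?_⟩
    have h2 : HasDerivAt (fun s : ℝ => (t, x + s • v)) (0, v) 0 :=
      (hasDerivAt_const _ t).prodMk (by simpa using ((hasDerivAt_id (0 : ℝ)).smul_const v).const_add x)
    have h3 := (((sm k).differentiable (by simp) (t, x)).hasFDerivAt.comp_hasDerivAt_of_eq 0 h2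
      (by simp)).clm_apply (hasDerivAt_const _ β)
    have h4 : (fun s : ℝ => (w k ∘ fun s : ℝ => (t, x + s • v)) s β) = fun s => s • a :=
      funext fun s => by
        simp only [Function.comp, hβ, if_true, inner_add_right, inner_smul_right, inner_zero_left,
          smul_smul]
        congr 1
        linear_combination s * mul_inv_cancel₀ (mul_ne_zero h0 h1)
    rw [h4] at h3
    simpa using h3.unique ((hasDerivAt_id (0 : ℝ)).smul_const a)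

/-- cubic polynomials -/
theorem exists_amp (ι Z : Type) [Finite ι] [NormedAddCommGroup Z] [NormedSpace ℝ Z]
    [FiniteDimensional ℝ Z] : ∃ (n : ℕ) (w : ι → ℝ × E 3 → E n →L[ℝ] Z), Amp w := by
  have := Fintype.ofFinite ι
  let e : E (Module.finrank ℝ (ι × Fin 4 × Fin 4 × Fin 4 → Z)) ≃L[ℝ]
      (ι × Fin 4 × Fin 4 × Fin 4 → Z) := ContinuousLinearEquiv.ofFinrankEq (by simp)
  refine ⟨_, fun k p => ∑ a, ∑ b, ∑ d,
    (p.1 * (1 - p.1) * (amp_h p.2 a * amp_h p.2 b * amp_h p.2 d)) •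
      (ContinuousLinearMap.proj (k, a, b, d)).comp e.toContinuousLinearMap,
    amp_of (fun k => ?_) (fun k t x h => by simp [h]) fun k z α₁ α₂ α₃ u₁ u₂ u₃ => ?_⟩
  · refine ContDiff.sum fun a _ => ContDiff.sum fun b _ => ContDiff.sum fun d _ =>
      ContDiff.smul_const (ContDiff.mul (by fun_prop) ?_) _
    exact (((amp_sm a).mul (amp_sm b)).mul (amp_sm d)).comp contDiff_snd
  · refine ⟨e.symm fun m => if m.1 = k then (![α₁, u₁ 0, u₁ 1, u₁ 2] m.2.1 *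
      ![α₂, u₂ 0, u₂ 1, u₂ 2] m.2.2.1 * ![α₃, u₃ 0, u₃ 1, u₃ 2] m.2.2.2) • z else 0, fun k' p => ?_⟩
    simp only [sum_apply, smul_apply, ContinuousLinearMap.comp_apply,
      ContinuousLinearEquiv.coe_coe, e.apply_symm_apply, ContinuousLinearMap.proj_apply]
    split_ifs
    · simp only [← amp_sum, smul_smul, ← Finset.sum_smul]
      congr 1
      generalize ![α₁, u₁ 0, u₁ 1, u₁ 2] = ℓ₁
      generalize ![α₂, u₂ 0, u₂ 1, u₂ 2] = ℓ₂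
      generalize ![α₃, u₃ 0, u₃ 1, u₃ 2] = ℓ₃
      simp only [Fin.sum_univ_four]
      ring
    · simp

end Pool.Agent.CSP
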