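import Pool.Agent.Lib.MP_436e1a_gt.H.Time

/-! Automorphisms act on links, crossings and boxes; boxes depend only on germs. -/

open scoped Manifold ContDiff Topology RealInnerProductSpace Classical
open Set

namespace Pool.Agent.CSP

namespace Ctx

variable {c : Ctx} {ι : Type} {δ : Dat ι c.G} {x₀ y₀ : E 3} {L L' L'' : ι → E 3 → c.Y} {T T' r : ℝ}
  {Ψ Ψ' : ℝ × E 3 → c.Y} {i : ι}

theorem Aut.smNear (φ : c.Aut) {V : Type} [NormedAddCommGroup V] [NormedSpace ℝ V] {f : V → c.Y}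
    {K : Set V} (h : c.SmNear f K) : c.SmNear (fun v => φ.up (f v)) K :=
  let ⟨O, hO, hK, hs⟩ := h
  ⟨O, hO, hK, φ.nd_smOn hO hs⟩

/-- the differential of an automorphism is injective on the tangent space -/
theorem Aut.fderiv_eq_zero (φ : c.Aut) {V : Type} [NormedAddCommGroup V] [NormedSpace ℝ V]
    {f : V → c.Y} {x v : V} (h : c.SmNear f {x})
    (h0 : fderiv ℝ (c.am fun v => φ.up (f v)) x v = 0) : fderiv ℝ (c.am f) x v = 0 := by
  obtain ⟨D, h1, h2⟩ := φ.nd_fderiv (c.q (f x))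
  obtain ⟨ξ, hξ⟩ := nd_tangent h v
  have h3 := (h1 _ 1 ⟨ContinuousLinearMap.id ℝ _, rfl, by
    simp [ContinuousLinearMap.det]⟩).inj (a₁ := ξ) (a₂ := 0) (by
      rw [map_zero, ← h0]
      exact (congrArg D hξ).trans (DFunLike.congr_fun (h2 f x h rfl) v).symm)
  rw [← hξ, h3, map_zero]

theorem Aut.link (φ : c.Aut) (h : c.Link L) : c.Link fun k x => φ.up (L k x) :=
  ⟨fun k => φ.smNear (h.sm k),
    fun k x hx v hv h0 => h.imm k x hx v hv (φ.fderiv_eq_zero ((h.sm k).at hx) h0),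
    fun k l x hx y hy e => h.inj k l x hx y hy (φ.nd_inj (by rwa [φ.comm, φ.comm] at e))⟩

theorem Aut.cross (φ : c.Aut) {f g : ℝ × E 3 → c.Y} {ε : ℤˣ} {t : ℝ} {x y : E 3}
    (h : c.Cross f g ε t x y) (hf : c.SmNear f {(t, x)}) (hg : c.SmNear g {(t, y)}) :
    c.Cross (fun p => φ.up (f p)) (fun p => φ.up (g p)) ε t x y := by
  obtain ⟨he, v₁, v₂, w₁, w₂, hv, hw, hs⟩ := h
  obtain ⟨D, h1, h2⟩ := φ.nd_fderiv (c.q (f (t, x)))
  refine ⟨congrArg φ.up he, v₁, v₂, w₁, w₂, hv, hw, ?_⟩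
  have h3 : fderiv ℝ (c.am fun p => φ.up (f p)) (t, x) = _ := h2 f _ hf rfl
  have h4 : fderiv ℝ (c.am fun p => φ.up (g p)) (t, y) = _ := h2 g _ hg (by rw [he])
  rw [φ.comm]
  convert h1 _ _ hs using 1
  rw [crossFr, crossFr, comp_fr, h3, h4]
  congr 1
  funext k
  fin_cases k <;> simp

theorem aut_sm (hL : c.Link L) (g : c.G) (k : ι) (t : ℝ) {y : E 3} (hy : y ∈ S2) :
    c.SmNear (fun p : ℝ × E 3 => g • L k p.2) {(t, y)} :=
  SmNear.smul (f := fun p : ℝ × E 3 => L k p.2) ((hL.sm k).comp_cd (φ := Prod.snd) (K' := {(t, y)})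
    contDiff_snd fun _ hp => by rw [hp]; exact hy) g

theorem Box.aut_at (h : c.Box L δ x₀ y₀ T Ψ) {t : ℝ} (ht : t ∈ Icc 0 T) : c.SmNear Ψ {(t, x₀)} :=
  h.sm.at ⟨ht, rfl⟩

theorem Aut.box (φ : c.Aut) (hL : c.Link L) (h : c.Box L δ x₀ y₀ T Ψ) :
    c.Box (fun k x => φ.up (L k x)) δ x₀ y₀ T fun p => φ.up (Ψ p) where
  hx := h.hx
  hy := h.hy
  hT := h.hT
  sm := φ.smNear h.sm
  bot := h.bot.mono fun _ e => congrArg φ.up e
  imm t ht τ v hv h0 := h.imm t ht τ v hv (φ.fderiv_eq_zero (h.aut_at ht) h0)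
  inj t ht s hs e := h.inj ht hs (φ.nd_inj (by simpa only [φ.comm] using e))
  miss t ht k y hy e := h.miss t ht k y hy (φ.nd_inj (by rwa [φ.comm, φ.comm] at e))
  cross := by
    simpa only [φ.equi] using φ.cross h.cross (h.aut_at ⟨zero_le_one, h.hT.le⟩)
      (aut_sm hL _ _ _ h.hy)

theorem Aut.res (φ : c.Aut) (h : c.Res L i x₀ T Ψ L') :
    c.Res (fun k x => φ.up (L k x)) i x₀ T (fun p => φ.up (Ψ p)) L' :=
  h.mono fun _ hr γ hγ => (Eqv.nd_symm ⟨φ, fun _ _ _ => apply_ite φ.up _ _ _⟩).nd_trans (hr γ hγ)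

theorem Box.congr (h : c.Box L δ x₀ y₀ T Ψ) (hL : c.Link L) (hL' : c.Link L')
    (he : ∀ k, ∀ x ∈ S2, L k x = L' k x) : c.Box L' δ x₀ y₀ T Ψ :=
  have h1 := h.aut_at ⟨zero_le_one, h.hT.le⟩
  { h with
    bot := (h.bot.and self_mem_nhdsWithin).mono fun x e => e.1.trans (he _ x e.2)
    miss := fun t ht k y hy e => h.miss t ht k y hy (by rw [e, he k y hy])
    cross := h.cross.congr_sm h.hx h.hy h1 (aut_sm hL _ _ _ h.hy) h1 (aut_sm hL' _ _ _ h.hy)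
      (.refl _ _) (eventually_mem_nhdsWithin.mono fun p hp => congrArg _ (he _ _ hp.2)) }

theorem Res.congr (h : c.Res L i x₀ T Ψ L'') (he : ∀ k, ∀ x ∈ S2, L k x = L' k x) :
    c.Res L' i x₀ T Ψ L'' :=
  h.mono fun _ hr γ hγ => (Eqv.nd_refl fun k x hx => by
    rw [gr, gr, nrm_of_S2 hx, he k x hx]).nd_trans (hr γ hγ)

theorem Res.eqv (h : c.Res L i x₀ T Ψ L') (he : c.Eqv L' L'') : c.Res L i x₀ T Ψ L'' :=
  h.mono fun _ hr γ hγ => (hr γ hγ).nd_trans he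

theorem Box.ne (h : c.Box L δ x₀ y₀ T Ψ) : ¬ (δ.i = δ.j ∧ x₀ = y₀) := fun ⟨h1, h2⟩ =>
  zero_ne_one (h.inj ⟨le_rfl, zero_le_one.trans h.hT.le⟩ ⟨zero_le_one, h.hT.le⟩ (by
    have h3 := h.bot.self_of_nhdsWithin h.hx
    have h4 := h.cross.1
    simp only [h3, h4, nd_q_smul]
    rw [h1, h2]))

theorem Box.germ (h : c.Box L δ x₀ y₀ T Ψ) (h1 : 1 < T') (hT : T' ≤ T)
    (he : Ψ' =ᶠ[𝓝ˢ (Icc 0 T' ×ˢ {x₀})] Ψ) : c.Box L δ x₀ y₀ T' Ψ' := by
  have hm : Icc 0 T' ⊆ Icc 0 T := Icc_subset_Icc_right hT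
  have e : ∀ t ∈ Icc 0 T', Ψ' =ᶠ[𝓝 (t, x₀)] Ψ := fun t ht =>
    he.filter_mono (nhds_le_nhdsSet ⟨ht, rfl⟩)
  have e1 : ∀ t ∈ Icc 0 T', Ψ' (t, x₀) = Ψ (t, x₀) := fun t ht => (e t ht).self_of_nhds
  have e2 : ∀ t ∈ Icc 0 T', fderiv ℝ (c.am Ψ') (t, x₀) = fderiv ℝ (c.am Ψ) (t, x₀) := fun t ht =>
    Filter.EventuallyEq.fderiv_eq ((e t ht).fun_comp fun y => c.ι (c.q y))
  have m1 : (1 : ℝ) ∈ Icc 0 T' := ⟨zero_le_one, h1.le⟩
  refine ⟨h.hx, h.hy, h1, smNear_of_forall ?_, ?_, fun t ht τ v hv h0 => ?_, fun t ht s hs h0 => ?_,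
    fun t ht k y hy h0 => ?_, ?_⟩
  · rintro ⟨t, x⟩ ⟨ht, rfl⟩
    exact (h.aut_at (hm ht)).congr_at (e t ht)
  · filter_upwards [h.bot, (((Continuous.prodMk_right (0 : ℝ)).tendsto x₀).mono_left
      nhdsWithin_le_nhds).eventually (e 0 ⟨le_rfl, zero_le_one.trans h1.le⟩)] with x h2 h3
    exact h3.trans h2
  · exact h.imm t (hm ht) τ v hv (by rwa [e2 t ht] at h0)
  · exact h.inj (hm ht) (hm hs) (by simpa only [e1 t ht, e1 s hs] using h0)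
  · exact h.miss t ⟨ht.1, ht.2.trans hT⟩ k y hy (by rwa [e1 t ⟨ht.1.le, ht.2⟩] at h0)
  · simpa only [Cross, crossFr, e1 1 m1, e2 1 m1] using h.cross

/-- tube lemma: `Ψ' = Ψ` on `Icc 0 T' ×ˢ ball x₀ r` for small `r` -/
theorem Res.germ (h : c.Res L i x₀ T Ψ L') (hT : T' ≤ T)
    (he : Ψ' =ᶠ[𝓝ˢ (Icc 0 T' ×ˢ {x₀})] Ψ) : c.Res L i x₀ T' Ψ' L' := by
  obtain ⟨ρ, h0, hρ⟩ := Metric.eventually_nhds_iff.1
    ((isCompact_Icc (a := (0 : ℝ)) (b := T')).eventually_forall_of_forall_eventually (x₀ := x₀)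
      (P := fun x t => Ψ' (t, x) = Ψ (t, x)) fun t ht =>
        (continuous_swap.tendsto (x₀, t)).eventually (he.filter_mono (nhds_le_nhdsSet ⟨ht, rfl⟩)))
  filter_upwards [h, Ioo_mem_nhdsGT h0] with r h1 h2 γ hγ
  refine (Eqv.nd_refl fun k x _ => ?_).nd_trans
    (h1 γ ⟨hγ.sm, fun x => Icc_subset_Icc_right hT (hγ.mem x), hγ.out, hγ.top⟩)
  exact if_ctx_congr Iff.rfl
    (fun h3 => hρ ((dist_eq_norm _ _).trans_lt (h3.2.trans h2.2)) _ (hγ.mem _)) fun _ => rfl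

theorem Thk.mono (h : c.Thk L δ x₀ y₀ T r Ψ) {r' : ℝ} (h0 : 0 < r') (hr : r' ≤ r) :
    c.Thk L δ x₀ y₀ T r' Ψ :=
  { h with
    hr := h0
    far := fun e => hr.trans_lt (h.far e)
    sm := h.sm.mono (prod_mono_right (Metric.closedBall_subset_closedBall hr))
    bot := fun x hx e => h.bot x hx (e.trans hr)
    imm := fun t ht x hx e => h.imm t ht x hx (e.trans hr)
    inj := h.inj.mono (prod_mono_right
      (inter_subset_inter_right _ (Metric.closedBall_subset_closedBall hr)))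
    miss := fun t ht x hx e => h.miss t ht x hx (e.trans hr) }

/-- a bump function (`ContDiffBump`) times `T` -/
theorem exists_Ht (x₀ : E 3) (hT : 1 < T) (hr : 0 < r) : ∃ γ, Ht x₀ T r γ := by
  let b : ContDiffBump x₀ := ⟨r / 4, r / 2, by positivity, by linarith⟩
  have h0 : 0 ≤ T := zero_le_one.trans hT.le
  refine ⟨fun x => T * b x, contDiff_const.mul b.contDiff,
    fun x => ⟨mul_nonneg h0 b.nonneg, mul_le_of_le_one_right h0 b.le_one⟩, fun x hx => ?_, ?_⟩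
  · rw [b.zero_of_le_dist (by rwa [dist_eq_norm]), mul_zero]
  · rwa [b.one_of_mem_closedBall (Metric.mem_closedBall_self b.rIn_pos.le), mul_one]

theorem Res.uniq (h : c.Res L i x₀ T Ψ L') (h' : c.Res L i x₀ T Ψ L'') (hT : 1 < T) :
    c.Eqv L' L'' := by
  obtain ⟨r, ⟨h1, h2⟩, h3⟩ := ((h.and h').and self_mem_nhdsWithin).exists
  obtain ⟨γ, hγ⟩ := exists_Ht x₀ hT h3
  exact (h1 γ hγ).nd_symm.nd_trans (h2 γ hγ)

end Ctx

end Pool.Agent.CSP
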