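import Pool.Agent.Lib.MP_436e1a_gt.H.Tan

/-! Moving two points of the sphere to the poles. -/

open scoped Manifold ContDiff Topology RealInnerProductSpace Classical
open Set

namespace Pool.Agent.CSP

theorem rp1_fr (x v w : E 3) : (fr ![x, v, w]).det = det3 x v w := by
  rw [det_fr, Matrix.det_fin_three]
  simp [det3]; ring

theorem rp1_det (A : E 3 →L[ℝ] E 3) (x v w : E 3) :
    det3 (A x) (A v) (A w) = A.det * det3 x v w := by
  rw [← rp1_fr, ← rp1_fr, show ![A x, A v, A w] = fun k => A (![x, v, w] k) from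
    funext fun k => by fin_cases k <;> rfl, ← comp_fr]
  exact LinearMap.det_comp _ _

theorem rp1_fd {p : E 3} (hp : p ≠ 0) (w : E 3) :
    fderiv ℝ nrm p w = ‖p‖⁻¹ • w - ⟪nrm p, ‖p‖⁻¹ • w⟫ • nrm p := by
  have h1 := HasFDerivAt.comp p (f := fun y => ‖p‖⁻¹ • y) ((contDiffAt_nrm (ne_zero_of_S2
    (nrm_mem hp))).differentiableAt (by simp)).hasFDerivAt ((hasFDerivAt_id p).const_smul ‖p‖⁻¹)
  rw [← fderiv_nrm (norm_nrm hp), show fderiv ℝ nrm p = _ from (h1.congr_of_eventuallyEq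
    (.of_forall fun y => (nrm_smul (inv_pos.2 (norm_pos_iff.2 hp)) y).symm)).fderiv]
  rfl

theorem rp1_ob {q v w : E 3} (hq : ‖q‖ = 1) (h : 0 < det3 q v w) :
    OB q (v - ⟪q, v⟫ • q) (w - ⟪q, w⟫ • q) := by
  refine ⟨by simp [inner_sub_right, inner_smul_right, hq],
    by simp [inner_sub_right, inner_smul_right, hq], h.trans_eq ?_⟩
  simp only [det3, PiLp.sub_apply, PiLp.smul_apply, smul_eq_mul]
  ring

theorem rp_affine {A : ℝ → E 3 →L[ℝ] E 3} {b : ℝ → E 3} (hA : ContDiff ℝ ∞ A) (hb : ContDiff ℝ ∞ b)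
    (hd : ∀ u, 0 < (A u).det) (h1 : ∀ u ∈ Icc (0 : ℝ) 1, ‖b u‖ < 1) (hA0 : A 0 = 1) (hb0 : b 0 = 0) :
    Rp fun p => nrm (A p.1 (p.2 + b p.1)) := by
  have hi : ∀ u, Function.Injective (A u) := fun u =>
    ((A u).toContinuousLinearEquivOfDetNeZero (hd u).ne').injective
  have h0 : ∀ u ∈ Icc (0 : ℝ) 1, ∀ x ∈ S2, A u (x + b u) ≠ 0 := fun u hu x hx e => by
    have h2 := h1 u hu
    rw [← neg_eq_of_add_eq_zero_right (hi u (e.trans (map_zero _).symm)), norm_neg,
      mem_sphere_zero_iff_norm.1 hx] at h2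
    exact h2.false
  have hs : ContDiff ℝ ∞ fun p : ℝ × E 3 => A p.1 (p.2 + b p.1) :=
    (hA.comp contDiff_fst).clm_apply (contDiff_snd.add (hb.comp contDiff_fst))
  refine ⟨⟨_, isOpen_ne_fun hs.continuous continuous_const, fun p hp => h0 _ hp.1 _ hp.2,
    contDiffOn_nrm.comp hs.contDiffOn fun _ h => h⟩, fun u hu x hx => nrm_mem (h0 u hu x hx),
    fun u hu x hx y hy e => ?_, fun x hx => ?_, fun u hu x hx v w h => ?_⟩
  · have h2 := inv_pos.2 (norm_pos_iff.2 (h0 u hu x hx))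
    have h3 := inv_pos.2 (norm_pos_iff.2 (h0 u hu y hy))
    simp only [nrm, ← map_smul] at e
    have h4 := hi u e
    generalize ‖A u (x + b u)‖⁻¹ = s, ‖A u (y + b u)‖⁻¹ = t at h2 h3 h4
    have h5 := abs_norm_sub_norm_le (s • x) (t • y)
    rw [show s • x - t • y = -((s - t) • b u) by linear_combination (norm := module) h4, norm_neg,
      norm_smul, norm_smul, norm_smul, mem_sphere_zero_iff_norm.1 hx, mem_sphere_zero_iff_norm.1 hy,
      Real.norm_of_nonneg h2.le, Real.norm_of_nonneg h3.le, mul_one, mul_one,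
      Real.norm_eq_abs] at h5
    have h6 : |s - t| ≤ 0 := by nlinarith [h1 u hu, abs_nonneg (s - t)]
    rw [sub_eq_zero.1 (abs_nonpos_iff.1 h6)] at h4
    exact add_right_cancel (smul_right_injective _ h3.ne' h4)
  · simp [hA0, hb0, nrm_of_S2 hx]
  · have hp := h0 u hu x hx
    have hn := (contDiffAt_nrm hp).differentiableAt (by simp)
    have e : ∀ z, fderiv ℝ (fun p : ℝ × E 3 => nrm (A p.1 (p.2 + b p.1))) (u, x) (0, z) =
        fderiv ℝ nrm (A u (x + b u)) (A u z) := fun z => by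
      refine (fderiv_slice' (hn.comp (u, x) (hs.differentiable (by simp) _)) z).symm.trans ?_
      exact congrArg (· z) (hn.hasFDerivAt.comp x
        ((A u).hasFDerivAt.comp x ((hasFDerivAt_id x).add_const (b u)))).fderiv
    rw [e, e, rp1_fd hp, rp1_fd hp]
    refine rp1_ob (norm_nrm hp) ?_
    rw [nrm, ← map_smul, ← map_smul, ← map_smul, rp1_det]
    have h2 := inv_pos.2 (norm_pos_iff.2 hp)
    generalize ‖A u (x + b u)‖⁻¹ = t at h2
    have h3 : 0 < 1 + ⟪x, b u⟫ := by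
      have h4 := abs_real_inner_le_norm x (b u)
      rw [mem_sphere_zero_iff_norm.1 hx] at h4
      linarith [neg_abs_le ⟪x, b u⟫, h1 u hu]
    refine mul_pos (hd u) ((mul_pos (pow_pos h2 3) (mul_pos h3 h.2.2)).trans_eq ?_)
    have h4 := mem_S2.1 hx
    have h5 := h.1
    have h6 := h.2.1
    rw [inner_E3] at h5 h6 ⊢
    have h7 : det3 (t • (x + b u)) (t • v) (t • w) = t ^ 3 * (det3 x v w + det3 (b u) v w) := by
      simp only [det3, PiLp.add_apply, PiLp.smul_apply, smul_eq_mul]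
      ring
    rw [h7]
    congr 1
    have h8 : det3 (b u) v w * (x 0 ^ 2 + x 1 ^ 2 + x 2 ^ 2) =
        (x 0 * b u 0 + x 1 * b u 1 + x 2 * b u 2) * det3 x v w +
        (x 0 * v 0 + x 1 * v 1 + x 2 * v 2) * det3 x w (b u) +
        (x 0 * w 0 + x 1 * w 1 + x 2 * w 2) * det3 x (b u) v := by
      unfold det3
      ring
    rw [h4, h5, h6] at h8
    linear_combination -h8

theorem exists_rp {x₀ y₀ : E 3} (hx : x₀ ∈ S2) (hy : y₀ ∈ S2) (hne : x₀ ≠ y₀) :
    ∃ η, Rp η ∧ η (1, npole) = x₀ ∧ η (1, -npole) = y₀ := by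
  obtain ⟨v, w, h⟩ := exists_OB (sub_ne_zero.2 hne)
  obtain ⟨α, β, hc⟩ := h.span (u := x₀ + y₀) (by
    rw [inner_E3]
    simp only [PiLp.add_apply, PiLp.sub_apply]
    linear_combination mem_S2.1 hx - mem_S2.1 hy)
  obtain ⟨K, hK⟩ : ∃ K, K = |α| + |β| + 1 := ⟨_, rfl⟩
  have hK0 : 0 < K := by rw [hK]; positivity
  obtain ⟨A, hA, h0, h1, hd⟩ := glp_smooth (M := fr ![K • v, K • w, x₀ - y₀]) (by
    rw [rp1_fr]
    refine (mul_pos (pow_pos hK0 2) h.2.2).trans_eq ?_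
    simp only [det3, PiLp.smul_apply, smul_eq_mul]
    ring)
  have hb : ‖(!₂[α / K, β / K, 0] : E 3)‖ < 1 := by
    rw [← sq_lt_one_iff₀ (norm_nonneg _), ← real_inner_self_eq_norm_sq, inner_E3]
    simp only [Matrix.cons_val]
    field_simp
    rw [hK]
    nlinarith [sq_abs α, sq_abs β, abs_nonneg α, abs_nonneg β]
  have e1 : A 1 npole = x₀ - y₀ := by
    simp [h1 1 (by norm_num), fr_apply, Fin.sum_univ_three, npole]
  have e2 : A 1 !₂[α / K, β / K, 0] = x₀ + y₀ := by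
    simp [h1 1 (by norm_num), fr_apply, Fin.sum_univ_three, smul_smul, hK0.ne', hc]
  refine ⟨_, rp_affine (b := fun u => u • !₂[α / K, β / K, 0]) hA (by fun_prop) hd
    (fun u hu => ?_) (h0 0 (by norm_num)) (zero_smul _ _), ?_, ?_⟩
  · rw [norm_smul, Real.norm_of_nonneg hu.1]
    exact (mul_le_of_le_one_left (norm_nonneg _) hu.2).trans_lt hb
  · simp only [one_smul, map_add, e1, e2]
    rw [show x₀ - y₀ + (x₀ + y₀) = (2 : ℝ) • x₀ by module, nrm_smul two_pos, nrm_of_S2 hx]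
  · simp only [one_smul, map_add, map_neg, e1, e2]
    rw [show -(x₀ - y₀) + (x₀ + y₀) = (2 : ℝ) • y₀ by module, nrm_smul two_pos, nrm_of_S2 hy]

theorem neg_mem_S2 {x : E 3} (hx : x ∈ S2) : -x ∈ S2 := by simpa using hx

theorem ne_neg_S2 {x : E 3} (hx : x ∈ S2) : x ≠ -x := fun h =>
  ne_zero_of_S2 hx (smul_right_injective _ (two_ne_zero' ℝ) (by
    simpa [two_smul] using eq_neg_iff_add_eq_zero.1 h))

end Pool.Agent.CSP
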