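import Pool.Agent.Lib.MP_436e1a_gt.H.Ex
import Pool.Agent.Lib.MP_436e1a_gt.H.Rp1

/-! Crossing changes commute. -/

open scoped Manifold ContDiff Topology RealInnerProductSpace Classical
open Set

namespace Pool.Agent.CSP

theorem comm_far {x x₀ x₁ : E 3} {r : ℝ} (hx : 2 * r < ‖x₁ - x₀‖) (h : ‖x - x₁‖ ≤ r) :
    ¬ ‖x - x₀‖ < r := fun e => by
  have := norm_sub_le_norm_sub_add_norm_sub x₁ x x₀
  rw [norm_sub_rev x₁ x] at this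
  linarith

theorem comm_dist {x y : E 3} (hx : x ∈ S2) (hy : y ∈ S2) (h : ⟪x, y⟫ = 0) : 1 < ‖x - y‖ := by
  have h1 := norm_sub_sq_real x y
  rw [h, mem_sphere_zero_iff_norm.1 hx, mem_sphere_zero_iff_norm.1 hy] at h1
  nlinarith [norm_nonneg (x - y)]

namespace Ctx

variable {c : Ctx} {ι : Type} {L : ι → E 3 → c.Y} {δ δ' : Dat ι c.G} {x₀ y₀ x₁ y₁ : E 3}
  {T T' r : ℝ} {Ψ Ψ' : ℝ × E 3 → c.Y} {γ γ' : E 3 → ℝ}

/-- a box survives the push along a disjoint box -/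
theorem Thk.persist (hL : c.Link L) (h : c.Thk L δ x₀ y₀ T r Ψ) (h' : c.Thk L δ' x₁ y₁ T' r Ψ')
    (hγ : Ht x₀ T r γ) (hx : 2 * r < ‖x₁ - x₀‖) (hy : r < ‖y₁ - x₀‖)
    (hd : ∀ t ∈ Icc 0 T, ∀ x, ‖x - x₀‖ ≤ r → ∀ t' ∈ Icc 0 T', ∀ x', ‖x' - x₁‖ ≤ r →
      c.q (Ψ (t, x)) ≠ c.q (Ψ' (t', x'))) :
    c.Thk (gr L δ.i x₀ r Ψ γ) δ' x₁ y₁ T' r Ψ' := by
  refine { h' with
    bot := fun x m e => (h'.bot x m e).trans (gr_out m fun e' => comm_far hx e e'.2).symm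
    miss := fun t ht x m e k y my he => ?_
    cross := ?_ }
  · by_cases e' : k = δ.i ∧ ‖y - x₀‖ < r
    · obtain ⟨rfl, e'⟩ := e'
      rw [gr_in my e'] at he
      exact (hd _ (hγ.mem y) y e'.le t ht x e he.symm).elim
    · rw [gr_out my e'] at he
      exact h'.miss t ht x m e k y my he
  · have s := h'.sm.at (x := (1, x₁)) ⟨⟨zero_le_one, h'.hT.le⟩, Metric.mem_closedBall_self h'.hr.le⟩
    refine h'.cross.congr_sm h'.hx h'.hy s (aut_sm hL _ _ _ h'.hy) s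
      (aut_sm (h.gr_link hL hγ) _ _ _ h'.hy) (.refl _ _) ?_
    filter_upwards [self_mem_nhdsWithin, mem_nhdsWithin_of_mem_nhds
      ((show Continuous fun p : ℝ × E 3 => ‖p.2 - x₀‖ by fun_prop).continuousAt.eventually
        (lt_mem_nhds hy))] with p p1 p2
    rw [gr_out p1.2 fun e => lt_asymm p2 e.2]

theorem gr_comm {Y : Type} {L : ι → E 3 → Y} {i i' : ι} {Ψ Ψ' : ℝ × E 3 → Y}
    (hx : 2 * r < ‖x₁ - x₀‖) (k : ι) {x : E 3} (h : x ∈ S2) :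
    gr (gr L i x₀ r Ψ γ) i' x₁ r Ψ' γ' k x = gr (gr L i' x₁ r Ψ' γ') i x₀ r Ψ γ k x := by
  by_cases e : k = i' ∧ ‖x - x₁‖ < r
  · obtain ⟨rfl, e⟩ := e
    rw [gr_in h e, gr_out h fun e' => comm_far hx e.le e'.2, gr_in h e]
  · rw [gr_out h e]
    by_cases e' : k = i ∧ ‖x - x₀‖ < r
    · obtain ⟨rfl, e'⟩ := e'
      rw [gr_in h e', gr_in h e']
    · rw [gr_out h e', gr_out h e', gr_out h e]

/-- disjoint cores have disjoint thin neighbourhoods -/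
theorem Box.sep (h : c.Box L δ x₀ y₀ T Ψ) (h' : c.Box L δ' x₁ y₁ T' Ψ')
    (hd : ∀ t' ∈ Icc 0 T', ∀ t ∈ Icc 0 T, c.q (Ψ' (t', x₁)) ≠ c.q (Ψ (t, x₀))) :
    ∀ᶠ r in 𝓝[>] (0 : ℝ), ∀ t ∈ Icc 0 T, ∀ x, ‖x - x₀‖ ≤ r → ∀ t' ∈ Icc 0 T', ∀ x', ‖x' - x₁‖ ≤ r →
      c.q (Ψ (t, x)) ≠ c.q (Ψ' (t', x')) := by
  have h1 : ∀ᶠ z : E 3 × E 3 in 𝓝 (x₀, x₁), ∀ p ∈ Icc 0 T ×ˢ Icc 0 T',
      c.q (Ψ (p.1, z.1)) ≠ c.q (Ψ' (p.2, z.2)) :=
    (isCompact_Icc.prod isCompact_Icc).eventually_forall_of_forall_eventually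
      (P := fun (z : E 3 × E 3) (p : ℝ × ℝ) => c.q (Ψ (p.1, z.1)) ≠ c.q (Ψ' (p.2, z.2)))
      fun p hp => by
        have a₁ : ContinuousAt (fun w : (E 3 × E 3) × ℝ × ℝ => c.q (Ψ (w.2.1, w.1.1)))
            ((x₀, x₁), p) := c.continuous_q.continuousAt.comp
          (ContinuousAt.comp (g := Ψ) (h.sm.continuousAt ⟨hp.1, rfl⟩) (by fun_prop))
        have a₂ : ContinuousAt (fun w : (E 3 × E 3) × ℝ × ℝ => c.q (Ψ' (w.2.2, w.1.2)))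
            ((x₀, x₁), p) := c.continuous_q.continuousAt.comp
          (ContinuousAt.comp (g := Ψ') (h'.sm.continuousAt ⟨hp.2, rfl⟩) (by fun_prop))
        exact (a₁.prodMk a₂).eventually (isClosed_diagonal.isOpen_compl.mem_nhds
          (hd _ hp.2 _ hp.1).symm)
  obtain ⟨ρ, hρ, h2⟩ := Metric.eventually_nhds_iff.1 h1
  filter_upwards [mem_nhdsWithin_of_mem_nhds (gt_mem_nhds hρ)] with r hr t ht x hx t' ht' x' hx'
  exact h2 (y := (x, x')) (max_lt ((dist_eq_norm _ _).trans_lt (hx.trans_lt hr))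
    ((dist_eq_norm _ _).trans_lt (hx'.trans_lt hr))) (t, t') ⟨ht, ht'⟩

theorem comm [Finite ι] [PathConnectedSpace c.Y] (hL : c.Link L) (δ δ' : Dat ι c.G) :
    ∃ A B C, c.Step L δ A ∧ c.Step A δ' C ∧ c.Step L δ' B ∧ c.Step B δ C := by
  obtain ⟨e, he, hi⟩ : ∃ e ∈ S2, ⟪e, npole⟫ = 0 :=
    ⟨!₂[1, 0, 0], mem_S2.2 (by simp), by simp [inner_E3, npole]⟩
  have n := npole_mem
  have d₁ := comm_dist he n hi
  have d₂ := comm_dist (neg_mem_S2 he) n (by simp [hi])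
  have d₃ := comm_dist he (neg_mem_S2 n) (by simp [hi])
  have d₄ := comm_dist (neg_mem_S2 he) (neg_mem_S2 n) (by simp [hi])
  obtain ⟨T, Ψ, h⟩ := exists_box₀ hL δ n (neg_mem_S2 n) fun e => ne_neg_S2 n e.2
  have o : ∀ k, ∀ y ∈ S2, 1 < ‖y - npole‖ → 1 < ‖y - -npole‖ → ∀ s ∈ Icc 0 T,
      c.q (L k y) ≠ c.q (Ψ (s, npole)) := fun k y hy a₁ a₂ s hs e => by
    rcases hs.1.eq_or_lt with rfl | s0
    · rw [h.bot.self_of_nhdsWithin n] at e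
      rw [(hL.inj _ _ _ hy _ n e).2] at a₁
      norm_num at a₁
    · rw [(h.miss s ⟨s0, hs.2⟩ k y hy e.symm).2.2] at a₂
      norm_num at a₂
  obtain ⟨T', Ψ', h', hd⟩ := exists_box (o := fun s => Ψ (s, npole)) (A := Icc 0 T) hL δ' he
    (neg_mem_S2 he) (fun e => ne_neg_S2 he e.2) (h.sm.comp_cd (by fun_prop) fun s hs => ⟨hs, rfl⟩)
    (o _ _ he d₁ d₃) (o _ _ (neg_mem_S2 he) d₂ d₄)
  obtain ⟨r, ⟨k, k'⟩, hs, hr⟩ := (((h.thk hL).and (h'.thk hL)).and ((h.sep h' hd).and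
    (mem_nhdsWithin_of_mem_nhds (gt_mem_nhds (half_pos one_pos))))).exists
  replace hr : r < 1 / 2 := hr
  obtain ⟨γ, hγ⟩ := exists_Ht npole k.hT k.hr
  obtain ⟨γ', hγ'⟩ := exists_Ht e k'.hT k'.hr
  have f₁ : 2 * r < ‖e - npole‖ := by linarith
  have p₁ := k.persist hL k' hγ f₁ (by linarith) hs
  have p₂ := k'.persist hL k hγ' (by rwa [norm_sub_rev]) (by rw [norm_sub_rev]; linarith)
    fun t ht x hx t' ht' x' hx' => (hs t' ht' x' hx' t ht x hx).symm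
  exact ⟨_, _, _, k.step hL hγ, p₁.step (k.gr_link hL hγ) hγ', k'.step hL hγ',
    (p₂.step (k'.gr_link hL hγ') hγ).eqv_right (Eqv.of_eq fun i x hx => (gr_comm f₁ i hx).symm)⟩

end Ctx

end Pool.Agent.CSP
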