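import Pool.Agent.Lib.MP_436e1a_gt.H.Time

/-! A generic family is a chain of crossing changes. -/

open scoped Manifold ContDiff Topology RealInnerProductSpace Classical
open Set

namespace Pool.Agent.CSP

namespace Ctx

variable {c : Ctx} {ι : Type} {F : ι → ℝ × E 3 → c.Y}

theorem cut_finite (h : c.Gen F) (k l : ι) :
    {p : ℝ × E 3 × E 3 | (p.1, (k, p.2.1), (l, p.2.2)) ∈ c.Dp F}.Finite := by
  have hK : IsCompact (Icc (0 : ℝ) 1 ×ˢ S2 ×ˢ S2) :=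
    isCompact_Icc.prod ((isCompact_sphere _ _).prod (isCompact_sphere _ _))
  obtain ⟨s, -, hs⟩ := hK.elim_nhds_subcover
    (fun p => {p' | (p'.1, (k, p'.2.1), (l, p'.2.2)) ∈ c.Dp F → p' = p}) (by
      rintro ⟨t, x, y⟩ ⟨ht, hx, hy⟩
      by_cases e : c.q (F k (t, x)) = c.q (F l (t, y))
      · by_cases n : (k, x) = (l, y)
        · obtain ⟨rfl, rfl⟩ := Prod.mk.inj n
          filter_upwards [(h.reg k).locinj ht hx (h.fam.at k ht hx)] with p hp ⟨_, a, b, d, f⟩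
          exact (d (congrArg (Prod.mk k) (hp a b f))).elim
        · obtain ⟨g, ε, hc⟩ := h.cross (t, (k, x), (l, y)) ⟨ht, hx, hy, n, e⟩
          filter_upwards [hc.tr.isolated hx hy (congrArg c.q hc.1) (h.fam.at k ht hx)
            ((h.fam.at l ht hy).smul g)] with p hp ⟨_, a, b, _, f⟩
          exact hp a b (f.trans (c.q_smul _ _).symm)
      · have a₁ : ContinuousAt (fun p : ℝ × E 3 × E 3 => c.q (F k (p.1, p.2.1))) (t, x, y) :=
          c.continuous_q.continuousAt.comp (ContinuousAt.comp (g := F k)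
            ((h.fam k).continuousAt ⟨ht, hx⟩) (by fun_prop))
        have a₂ : ContinuousAt (fun p : ℝ × E 3 × E 3 => c.q (F l (p.1, p.2.2))) (t, x, y) :=
          c.continuous_q.continuousAt.comp (ContinuousAt.comp (g := F l)
            ((h.fam l).continuousAt ⟨ht, hy⟩) (by fun_prop))
        filter_upwards [(a₁.prodMk a₂).eventually (isClosed_diagonal.isOpen_compl.mem_nhds e)]
          with p hp hp'
        exact (hp hp'.2.2.2.2).elim)
  refine s.finite_toSet.subset fun p hp => ?_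
  obtain ⟨p', h1, h2⟩ := mem_iUnion₂.1 (hs ⟨hp.1, hp.2.1, hp.2.2.1⟩)
  exact h2 hp ▸ h1

theorem Gen.finite [Finite ι] (h : c.Gen F) : (c.Dp F).Finite :=
  (finite_iUnion fun k => finite_iUnion fun l => (cut_finite h k l).image
    fun p => (p.1, (k, p.2.1), (l, p.2.2))).subset fun p hp =>
      mem_iUnion₂.2 ⟨p.2.1.1, p.2.2.1, (p.1, p.2.1.2, p.2.2.2), hp, rfl⟩

theorem Zs_sub_Dp {i : ι} {g : c.G} {p : ℝ × E 3 × E 3} (hp : p ∈ c.Zs (F i) g) :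
    (p.1, (i, p.2.1), (i, p.2.2)) ∈ c.Dp F :=
  ⟨hp.1, hp.2.1, hp.2.2.1, fun e => hp.2.2.2.1 (congrArg Prod.snd e),
    (congrArg c.q hp.2.2.2.2).trans (c.q_smul _ _)⟩

theorem Gen.finite_Zs (h : c.Gen F) (i : ι) (g : c.G) : (c.Zs (F i) g).Finite :=
  (cut_finite h i i).subset fun _ hp => Zs_sub_Dp hp

/-- the double points with label `(i, i, γ)` at the time of a given double point -/
theorem Gen.ncard_at (h : c.Gen F) {t : ℝ} {k l : ι} {x y : E 3} {g : c.G}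
    (hp : (t, (k, x), (l, y)) ∈ c.Dp F) (he : F k (t, x) = g • F l (t, y)) (i : ι) {γ : c.G}
    (hγ : γ = γ⁻¹) : {p ∈ c.Zs (F i) γ | p.1 = t}.ncard =
      if k = i ∧ l = i ∧ g = γ then 2 else 0 := by
  have key : ∀ p ∈ c.Zs (F i) γ, p.1 = t →
      (k = i ∧ l = i ∧ g = γ) ∧ (p = (t, x, y) ∨ p = (t, y, x)) := by
    rintro ⟨t', x', y'⟩ hz rfl
    have e := hz.2.2.2.2
    rcases h.sep _ hp _ (Zs_sub_Dp hz) rfl with e' | e' <;>
      simp only [Prod.swap_prod_mk, Prod.mk.injEq] at e' <;> obtain ⟨⟨rfl, rfl⟩, rfl, rfl⟩ := e'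
    · refine ⟨⟨rfl, rfl, (inv_mul_eq_one.1 (c.smul_eq_self (y := F i (t', y')) ?_)).symm⟩, .inl rfl⟩
      rw [mul_smul, ← he, inv_smul_eq_iff]
      exact e
    · refine ⟨⟨rfl, rfl, (eq_inv_of_mul_eq_one_left (c.smul_eq_self (y := F i (t', y')) ?_)).trans
        hγ.symm⟩, .inr rfl⟩
      rw [mul_smul]
      exact (congrArg (g • ·) e.symm).trans he.symm
  split_ifs with e
  · obtain ⟨rfl, rfl, rfl⟩ := e
    have n : x ≠ y := fun e => hp.2.2.2.1 (congrArg (Prod.mk l) e)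
    rw [← ncard_pair (a := (t, x, y)) (b := (t, y, x)) fun e => n (congrArg (·.2.1) e)]
    congr 1
    refine Subset.antisymm (fun p hz => (key p hz.1 hz.2).2) ?_
    rintro _ (rfl | rfl)
    · exact ⟨⟨hp.1, hp.2.1, hp.2.2.1, n, he⟩, rfl⟩
    · exact ⟨⟨hp.1, hp.2.2.1, hp.2.1, n.symm, by rw [hγ, eq_inv_smul_iff]; exact he.symm⟩, rfl⟩
  · rw [eq_empty_of_forall_notMem fun p (hz : p ∈ {p ∈ c.Zs (F i) γ | p.1 = t}) =>
      e (key p hz.1 hz.2).1, ncard_empty]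

/-- one step -/
theorem Gen.step (h : c.Gen F) {a b t₀ : ℝ} (ha : 0 ≤ a) (hb : b ≤ 1) (ht : t₀ ∈ Ioo a b)
    (ho : ∀ p ∈ c.Dp F, p.1 ∈ Icc a b → p.1 = t₀) {k l : ι} {x y : E 3} {g : c.G} {ε : ℤˣ}
    (hp : (t₀, (k, x), (l, y)) ∈ c.Dp F) (hc : c.Cross (F k) (fun w => g • F l w) ε t₀ x y) :
    c.Step (sl F a) ⟨k, l, g, ε⟩ (sl F b) := by
  refine (h.fam.stepAt (δ := ⟨k, l, g, ε⟩) h.reg ha hb ht hp.2.1 hp.2.2.1
    (fun e => hp.2.2.2.1 (Prod.ext e.1 e.2)) hc fun t m k' l' x' hx y' hy e => ?_).step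
    (Eqv.of_eq fun i x _ => by simp [sl]) (Eqv.of_eq fun i x _ => by simp [sl])
  by_cases n : (k', x') = (l', y')
  · exact .inl (Prod.mk.inj n)
  have d : (t, (k', x'), (l', y')) ∈ c.Dp F := ⟨⟨ha.trans m.1, m.2.trans hb⟩, hx, hy, n, e⟩
  have e₀ := ho _ d m
  refine .inr ⟨e₀, (h.sep _ hp _ d e₀.symm).imp ?_ ?_⟩ <;>
    simp only [Prod.swap_prod_mk, Prod.mk.injEq] <;> tauto

theorem Gen.chain_from [Finite ι] (h : c.Gen F) {a : ℝ} (ha : a ∈ Icc (0 : ℝ) 1)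
    (h0 : ∀ p ∈ c.Dp F, p.1 ≠ a) : ∃ l, c.Chain (sl F a) l (sl F 1) ∧
      ∀ i g, g = g⁻¹ → 2 * cnt l i g = {p ∈ c.Zs (F i) g | a < p.1}.ncard := by
  induction hn : {p ∈ c.Dp F | a < p.1}.ncard using Nat.strong_induction_on generalizing a with
  | _ n ih =>
    have hf : {p ∈ c.Dp F | a < p.1}.Finite := h.finite.subset fun _ hp => hp.1
    rcases eq_empty_or_nonempty {p ∈ c.Dp F | a < p.1} with e | e
    · have e' : ∀ p ∈ c.Dp F, ¬ a < p.1 := fun p hp h => (e ▸ ⟨hp, h⟩ : p ∈ (∅ : Set _))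
      refine ⟨[], .nil (h.fam.eqv h.reg ha (by simp) fun t ht k l x hx y hy he => ?_),
        fun i g _ => ?_⟩
      · rw [uIcc_of_le ha.2] at ht
        by_contra n
        have d : (t, (k, x), (l, y)) ∈ c.Dp F :=
          ⟨⟨ha.1.trans ht.1, ht.2⟩, hx, hy, fun e => n (Prod.mk.inj e), he⟩
        exact e' _ d (lt_of_le_of_ne ht.1 (h0 _ d).symm)
      · rw [eq_empty_of_forall_notMem fun p (hz : p ∈ {p ∈ c.Zs (F i) g | a < p.1}) =>
          e' _ (Zs_sub_Dp hz.1) hz.2, ncard_empty]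
        rfl
    obtain ⟨⟨t₀, ⟨k, x⟩, l, y⟩, ⟨hp, a₀⟩, hm⟩ := exists_min_image _ (·.1) hf e
    obtain ⟨g, ε, hc⟩ := h.cross _ hp
    have t1 : t₀ < 1 := (h.ioo _ hp).2
    have h1 : ∀ᶠ b in 𝓝[>] t₀, b < 1 ∧ ∀ p ∈ c.Dp F, t₀ < p.1 → b < p.1 :=
      mem_nhdsWithin_of_mem_nhds ((gt_mem_nhds t1).and ((Filter.eventually_all_finite h.finite).2
        fun p _ => by
          by_cases e : t₀ < p.1
          · exact (gt_mem_nhds e).mono fun b hb _ => hb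
          · exact .of_forall fun _ e' => (e e').elim))
    obtain ⟨b, ⟨b1, hb⟩, b0⟩ := (h1.and self_mem_nhdsWithin).exists
    replace b0 : t₀ < b := b0
    replace a₀ : a < t₀ := a₀
    have tri : ∀ p ∈ c.Dp F, a < p.1 → p.1 = t₀ ∨ b < p.1 := fun p d e =>
      (hm p ⟨d, e⟩).eq_or_lt.imp Eq.symm (hb p d)
    obtain ⟨l', c₁, c₂⟩ := ih _ (hn ▸ ncard_lt_ncard ⟨fun p hp => ⟨hp.1, by linarith [hp.2]⟩,
      fun e => lt_asymm b0 (e ⟨hp, a₀⟩).2⟩ hf) (a := b) ⟨by linarith [ha.1], b1.le⟩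
      (fun p d e => by rcases tri p d (by linarith) with e' | e' <;> linarith) rfl
    refine ⟨_, .cons (h.step ha.1 b1.le ⟨a₀, b0⟩ (fun p d m => (tri p d (lt_of_le_of_ne m.1
      (h0 p d).symm)).resolve_right m.2.not_gt) hp hc) c₁, fun i γ hγ => ?_⟩
    have e₁ : {p ∈ c.Zs (F i) γ | a < p.1} =
        {p ∈ c.Zs (F i) γ | b < p.1} ∪ {p ∈ c.Zs (F i) γ | p.1 = t₀} := by
      ext p
      exact ⟨fun hz => (tri _ (Zs_sub_Dp hz.1) hz.2).symm.imp (fun e => ⟨hz.1, e⟩) fun e => ⟨hz.1, e⟩,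
        fun hz => hz.elim (fun e => ⟨e.1, by linarith [e.2]⟩) fun e => ⟨e.1, by linarith [e.2]⟩⟩
    rw [e₁, ncard_union_eq (disjoint_left.2 fun p p₁ p₂ => by linarith [p₁.2, p₂.2])
      ((h.finite_Zs i γ).subset fun _ hz => hz.1) ((h.finite_Zs i γ).subset fun _ hz => hz.1),
      ← c₂ i γ hγ, h.ncard_at hp hc.1 i hγ]
    simp only [cnt, List.countP_cons, decide_eq_true_eq]
    split_ifs <;> ring

theorem Gen.chain [Finite ι] (h : c.Gen F) : ∃ l, c.Chain (sl F 0) l (sl F 1) ∧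
    ∀ i g, g = g⁻¹ → 2 * cnt l i g = (c.Zs (F i) g).ncard := by
  obtain ⟨l, h1, h2⟩ := h.chain_from (a := 0) (by simp) fun p hp => (h.ioo p hp).1.ne'
  refine ⟨l, h1, fun i g hg => (h2 i g hg).trans (congrArg _ ?_)⟩
  exact sep_eq_self_iff_mem_true.2 fun p hp => (h.ioo _ (Zs_sub_Dp hp)).1

end Ctx

end Pool.Agent.CSP
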