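import Pool.Agent.Lib.MP_436e1a_gt.Lnk

/-! Boxes along which a sheet of a link is pushed (definitions only). -/

open scoped Manifold ContDiff Topology RealInnerProductSpace Classical
open Set

namespace Pool.Agent.CSP

noncomputable section

/-- the same crossing read from the other sheet -/
def Dat.flip {ι G : Type} [Group G] (δ : Dat ι G) : Dat ι G := ⟨δ.j, δ.i, δ.g⁻¹, -δ.ε⟩

/-- the inverse crossing -/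
def Dat.neg {ι G : Type} (δ : Dat ι G) : Dat ι G := ⟨δ.i, δ.j, δ.g, -δ.ε⟩

/-- replace component `i` near `x₀` by the graph of the height `γ` in the box `Ψ` -/
def gr {ι Y : Type} (L : ι → E 3 → Y) (i : ι) (x₀ : E 3) (r : ℝ) (Ψ : ℝ × E 3 → Y) (γ : E 3 → ℝ)
    (k : ι) (x : E 3) : Y :=
  if k = i ∧ ‖nrm x - x₀‖ < r then Ψ (γ (nrm x), nrm x) else L k (nrm x)

/-- a height function that passes the crossing level `1` -/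
structure Ht (x₀ : E 3) (T r : ℝ) (γ : E 3 → ℝ) : Prop where
  sm : ContDiff ℝ ∞ γ
  mem : ∀ x, γ x ∈ Icc 0 T
  out : ∀ x, r / 2 ≤ ‖x - x₀‖ → γ x = 0
  top : 1 < γ x₀

/-- a family of orientation preserving diffeomorphisms of the sphere that starts at the identity -/
structure Rp (η : ℝ × E 3 → E 3) : Prop where
  sm : ∃ O, IsOpen O ∧ Icc (0 : ℝ) 1 ×ˢ S2 ⊆ O ∧ ContDiffOn ℝ ∞ η O
  mem : ∀ u ∈ Icc (0 : ℝ) 1, ∀ x ∈ S2, η (u, x) ∈ S2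
  inj : ∀ u ∈ Icc (0 : ℝ) 1, InjOn (fun x => η (u, x)) S2
  zero : ∀ x ∈ S2, η (0, x) = x
  ori : ∀ u ∈ Icc (0 : ℝ) 1, ∀ x ∈ S2, ∀ v w, OB x v w →
    OB (η (u, x)) (fderiv ℝ η (u, x) (0, v)) (fderiv ℝ η (u, x) (0, w))

namespace Ctx

variable (c : Ctx) {ι : Type}

/-- `StepFam` with the crossing at the given time and points -/
structure StepAt (F : ι → ℝ × E 3 → c.Y) (δ : Dat ι c.G) (t₀ : ℝ) (x₀ y₀ : E 3) : Prop where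
  fam : c.Fam F
  reg : ∀ i, c.Reg (F i)
  ht : t₀ ∈ Ioo (0 : ℝ) 1
  hx : x₀ ∈ S2
  hy : y₀ ∈ S2
  ne : ¬ (δ.i = δ.j ∧ x₀ = y₀)
  cross : c.Cross (F δ.i) (fun p => δ.g • F δ.j p) δ.ε t₀ x₀ y₀
  only : ∀ t ∈ Icc (0 : ℝ) 1, ∀ k l, ∀ x ∈ S2, ∀ y ∈ S2, c.q (F k (t, x)) = c.q (F l (t, y)) →
    (k = l ∧ x = y) ∨ (t = t₀ ∧ ((k = δ.i ∧ x = x₀ ∧ l = δ.j ∧ y = y₀) ∨
      (k = δ.j ∧ x = y₀ ∧ l = δ.i ∧ y = x₀)))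

/-- the differential of `Ψ` at `(t, x)` is injective on vectors tangent to `ℝ × S2` -/
def ImmB (Ψ : ℝ × E 3 → c.Y) (t : ℝ) (x : E 3) : Prop :=
  ∀ (τ : ℝ) (v : E 3), ⟪x, v⟫ = 0 → fderiv ℝ (c.am Ψ) (t, x) (τ, v) = 0 → τ = 0 ∧ v = 0

/-- a box that is good along its core `Icc 0 T × {x₀}`: it starts on component `δ.i` at height `0`
and crosses `δ.g •` component `δ.j` at height `1` -/
structure Box (L : ι → E 3 → c.Y) (δ : Dat ι c.G) (x₀ y₀ : E 3) (T : ℝ) (Ψ : ℝ × E 3 → c.Y) :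
    Prop where
  hx : x₀ ∈ S2
  hy : y₀ ∈ S2
  hT : 1 < T
  sm : c.SmNear Ψ (Icc 0 T ×ˢ {x₀})
  bot : ∀ᶠ x in 𝓝[S2] x₀, Ψ (0, x) = L δ.i x
  imm : ∀ t ∈ Icc 0 T, c.ImmB Ψ t x₀
  inj : InjOn (fun t => c.q (Ψ (t, x₀))) (Icc 0 T)
  miss : ∀ t ∈ Ioc 0 T, ∀ k, ∀ y ∈ S2, c.q (Ψ (t, x₀)) = c.q (L k y) → t = 1 ∧ k = δ.j ∧ y = y₀
  cross : c.Cross Ψ (fun p => δ.g • L δ.j p.2) δ.ε 1 x₀ y₀

/-- a box that is good up to the radius `r` -/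
structure Thk (L : ι → E 3 → c.Y) (δ : Dat ι c.G) (x₀ y₀ : E 3) (T r : ℝ) (Ψ : ℝ × E 3 → c.Y) :
    Prop where
  hx : x₀ ∈ S2
  hy : y₀ ∈ S2
  hT : 1 < T
  hr : 0 < r
  far : δ.i = δ.j → r < ‖y₀ - x₀‖
  sm : c.SmNear Ψ (Icc 0 T ×ˢ Metric.closedBall x₀ r)
  bot : ∀ x ∈ S2, ‖x - x₀‖ ≤ r → Ψ (0, x) = L δ.i x
  imm : ∀ t ∈ Icc 0 T, ∀ x ∈ S2, ‖x - x₀‖ ≤ r → c.ImmB Ψ t x
  inj : InjOn (fun z => c.q (Ψ z)) (Icc 0 T ×ˢ (S2 ∩ Metric.closedBall x₀ r))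
  miss : ∀ t ∈ Icc 0 T, ∀ x ∈ S2, ‖x - x₀‖ ≤ r → ∀ k, ∀ y ∈ S2, c.q (Ψ (t, x)) = c.q (L k y) →
    (t = 0 ∧ k = δ.i ∧ y = x) ∨ (t = 1 ∧ x = x₀ ∧ k = δ.j ∧ y = y₀)
  cross : c.Cross Ψ (fun p => δ.g • L δ.j p.2) δ.ε 1 x₀ y₀

/-- `L'` is the result of pushing component `i` of `L` along the box `Ψ` -/
def Res (L : ι → E 3 → c.Y) (i : ι) (x₀ : E 3) (T : ℝ) (Ψ : ℝ × E 3 → c.Y) (L' : ι → E 3 → c.Y) :
    Prop :=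
  ∀ᶠ r in 𝓝[>] (0 : ℝ), ∀ γ, Ht x₀ T r γ → c.Eqv (gr L i x₀ r Ψ γ) L'

/-- the ordered double points of a family of links -/
def Dp (F : ι → ℝ × E 3 → c.Y) : Set (ℝ × (ι × E 3) × (ι × E 3)) :=
  {p | p.1 ∈ Icc (0 : ℝ) 1 ∧ p.2.1.2 ∈ S2 ∧ p.2.2.2 ∈ S2 ∧ p.2.1 ≠ p.2.2 ∧
    c.q (F p.2.1.1 (p.1, p.2.1.2)) = c.q (F p.2.2.1 (p.1, p.2.2.2))}

/-- a generic family: regular, all double points transverse, at most one at a time, none at the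
ends -/
structure Gen (F : ι → ℝ × E 3 → c.Y) : Prop where
  fam : c.Fam F
  reg : ∀ i, c.Reg (F i)
  ioo : ∀ p ∈ c.Dp F, p.1 ∈ Ioo (0 : ℝ) 1
  cross : ∀ p ∈ c.Dp F, ∃ (g : c.G) (ε : ℤˣ),
    c.Cross (F p.2.1.1) (fun w => g • F p.2.2.1 w) ε p.1 p.2.1.2 p.2.2.2
  sep : ∀ p ∈ c.Dp F, ∀ p' ∈ c.Dp F, p.1 = p'.1 → p'.2 = p.2 ∨ p'.2 = p.2.swap

end Ctx

end

end Pool.Agent.CSP
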