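import Pool.Agent.Lib.MP_436e1a_gt.H.Fin

/-! From maps with the right bottom and the right crossing to boxes. -/

open scoped Manifold ContDiff Topology RealInnerProductSpace Classical
open Set MeasureTheory

namespace Pool.Agent.CSP

namespace Ctx

variable {c : Ctx} {ι : Type} {δ : Dat ι c.G} {x₀ y₀ : E 3} {L : ι → E 3 → c.Y} {T : ℝ}

/-- a crossing with a stationary sheet is a point of immersion -/
theorem Cross.immB {Ψ : ℝ × E 3 → c.Y} {a : E 3 → c.Y} {g : c.G} {ε : ℤˣ} {t : ℝ}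
    (h : c.Cross Ψ (fun p => g • a p.2) ε t x₀ y₀) (ha : c.SmNear a {y₀}) : c.ImmB Ψ t x₀ := by
  intro τ v hv h0
  have h1 := h.tr τ v 0 hv (inner_zero_right _) (by
    rw [h0, c.am_smul g fun p : ℝ × E 3 => a p.2]
    exact ((fderiv_snd' (ha.differentiableAt rfl) 0).trans (map_zero _)).symm)
  exact ⟨h1.1, h1.2.1⟩

/-- the crossing depends only on the values and the differentials -/
theorem Cross.of_jet {f f' g : ℝ × E 3 → c.Y} {ε : ℤˣ} {t : ℝ} (h : c.Cross f g ε t x₀ y₀)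
    (h0 : f' (t, x₀) = f (t, x₀))
    (h1 : fderiv ℝ (c.am f') (t, x₀) = fderiv ℝ (c.am f) (t, x₀)) : c.Cross f' g ε t x₀ y₀ := by
  obtain ⟨e, v₁, v₂, w₁, w₂, hv, hw, hs⟩ := h
  refine ⟨h0.trans e, v₁, v₂, w₁, w₂, hv, hw, ?_⟩
  rw [h0, crossFr, h1]
  exact hs

theorem fin [Finite ι] {G : ℝ × ℝ × E 3 → c.Y} (hL : c.Link L) (hx : x₀ ∈ S2) (hy : y₀ ∈ S2)
    (hT : 1 < T) (hne : ¬ (δ.i = δ.j ∧ x₀ = y₀)) (hs : c.SmNear G (Icc 0 1 ×ˢ Icc 0 T ×ˢ {x₀}))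
    (hbot : ∀ u ∈ Icc (0 : ℝ) 1, ∀ᶠ x in 𝓝[S2] x₀, G (u, 0, x) = L δ.i x)
    (hc : ∀ u ∈ Icc (0 : ℝ) 1,
      c.Cross (fun z => G (u, z)) (fun p => δ.g • L δ.j p.2) δ.ε 1 x₀ y₀)
    {χ : ℝ → ℝ} (hχ : ContDiff ℝ ∞ χ) {o : ℝ → c.Y} {A : Set ℝ} (ho : c.SmNear o A)
    (h0 : ∀ s ∈ A, c.q (L δ.i x₀) ≠ c.q (o s)) (h1 : ∀ s ∈ A, c.q (L δ.j y₀) ≠ c.q (o s)) :
    ∃ Ψ : ℝ × ℝ × E 3 → c.Y, c.SmNear Ψ (Icc 0 1 ×ˢ Icc 0 T ×ˢ {x₀}) ∧
      (∀ u x, Ψ (u, 0, x) = G (u, 0, x)) ∧ (∀ u, χ u = 0 → ∀ z, Ψ (u, z) = G (u, z)) ∧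
      ∀ u ∈ Icc (0 : ℝ) 1, χ u ≠ 0 → c.Box L δ x₀ y₀ T (fun z => Ψ (u, z)) ∧
        ∀ t ∈ Icc 0 T, ∀ s ∈ A, c.q (Ψ (u, t, x₀)) ≠ c.q (o s) := by
  obtain ⟨P, hP⟩ := c.exists_psh
  borelize (E c.N × (ℝ × E 3 →L[ℝ] E c.N))
  have hsm := fw_smooth (Z := E c.N) hχ
  have e1 := eventually_Sg (w := fun p : (E c.N × (ℝ × E 3 →L[ℝ] E c.N)) × ℝ × ℝ × E 3 =>
    fw _ χ p.2 p.1) (isCompact_Icc.prod (isCompact_Icc.prod isCompact_singleton))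
    (fun x hx => hs.continuousAt hx) ((hsm.continuous.comp continuous_snd).clm_apply continuous_fst)
    fun x _ => map_zero _
  obtain ⟨O, hO, hK, hG⟩ := id hs
  obtain ⟨b, ⟨⟨a₁, a₂⟩, a₃, a₄⟩, hb⟩ := ((freq_of_ae Measure.addHaar
    (((fin_imm _ hP hx hO hG hχ).and (fin_inj (x₀ := x₀) _ hP hO hG hχ)).and
      ((ae_all_iff.2 fun k => fin_miss (x₀ := x₀) _ hP hO hG hχ (hL.sm k)).and
        (fin_obs (x₀ := x₀) _ hP hO hG hχ ho)))).and_eventually e1).exists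
  have hw : ContDiff ℝ ∞ fun p => fw (E c.N) χ p b := hsm.clm_apply contDiff_const
  have hΨ := hP.smNear hs hw hb
  have z0 : ∀ u x, P (G (u, 0, x), fw _ χ (u, 0, x) b) = G (u, 0, x) := fun u x => by
    simp [fw_apply, hP.zero]
  refine ⟨_, hΨ, z0, fun u hu z => by simp [fw_apply, hu, hP.zero], fun u hu hχu => ?_⟩
  have m : ∀ t ∈ Icc 0 T, (u, t, x₀) ∈ Icc (0 : ℝ) 1 ×ˢ Icc 0 T ×ˢ ({x₀} : Set (E 3)) :=
    fun t ht => ⟨hu, ht, rfl⟩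
  have m0 : (0 : ℝ) ∈ Icc 0 T := ⟨le_rfl, by linarith⟩
  have m1 : (1 : ℝ) ∈ Icc 0 T := ⟨zero_le_one, hT.le⟩
  have z1 : P (G (u, 1, x₀), fw _ χ (u, 1, x₀) b) = G (u, 1, x₀) := by
    rw [(fw_one hχ u x₀ b).1, hP.zero]
  have q0 : P (G (u, 0, x₀), fw _ χ (u, 0, x₀) b) = L δ.i x₀ :=
    (z0 u x₀).trans ((hbot u hu).self_of_nhdsWithin hx)
  have q1 : c.q (P (G (u, 1, x₀), fw _ χ (u, 1, x₀) b)) = c.q (L δ.j y₀) :=
    (congrArg c.q (z1.trans (hc u hu).1)).trans (c.q_smul _ _)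
  have cr : c.Cross (fun z => P (G (u, z), fw _ χ (u, z) b)) (fun p => δ.g • L δ.j p.2) δ.ε 1
      x₀ y₀ := (hc u hu).of_jet z1 (ContinuousLinearMap.ext fun v => hP.fderiv_eq
        ((hs.slice hu).at (x := (1, x₀)) ⟨m1, rfl⟩) (hw.comp (contDiff_const.prodMk contDiff_id))
        (fw_one hχ u x₀ b).1 (DFunLike.congr_fun (fw_one hχ u x₀ b).2 v))
  have n01 : c.q (L δ.i x₀) ≠ c.q (L δ.j y₀) := fun e => hne (hL.inj _ _ _ hx _ hy e)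
  have bt : ∀ᶠ x in 𝓝[S2] x₀, P (G (u, 0, x), fw _ χ (u, 0, x) b) = L δ.i x :=
    (hbot u hu).mono fun x h => (z0 u x).trans h
  refine ⟨⟨hx, hy, hT, hΨ.slice hu, bt, fun t ht => ?_, fun t ht t' ht' e => ?_,
    fun t ht k y hy' e => ?_, cr⟩, fun t ht s hA => ?_⟩
  · rcases eq_or_ne t 1 with rfl | t1
    · exact cr.immB ((hL.sm _).at hy)
    intro τ v hv e
    by_cases h2 : t ≠ 0 ∨ τ ≠ 0
    · exact a₁ u t (hK (m t ht)) hχu t1 (hb _ (m t ht)) τ v hv h2 e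
    push Not at h2
    obtain ⟨rfl, rfl⟩ := h2
    have d := ((hΨ.slice hu).at (x := (0, x₀)) ⟨m0, rfl⟩)
    refine ⟨rfl, hL.imm δ.i x₀ hx v hv ?_⟩
    rw [← fderiv_slice (d.differentiableAt rfl)] at e
    rw [← e]
    exact fderiv_congr_S2 hx hv ((d.comp_cd (φ := fun y => (0, y)) (K' := {x₀}) (by fun_prop)
      (by rintro _ rfl; rfl)).differentiableAt rfl) ((hL.sm _).differentiableAt hx)
      (bt.mono fun x h => congrArg c.q h.symm)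
  · by_contra hn
    by_cases h2 : t ≠ 0 ∧ t ≠ 1
    · exact a₂ u t t' (hK (m t ht)) (hK (m t' ht')) hχu h2.1 h2.2 hn (hb _ (m t ht))
        (hb _ (m t' ht')) e
    by_cases h3 : t' ≠ 0 ∧ t' ≠ 1
    · exact a₂ u t' t (hK (m t' ht')) (hK (m t ht)) hχu h3.1 h3.2 (Ne.symm hn) (hb _ (m t' ht'))
        (hb _ (m t ht)) e.symm
    rcases not_and_or.1 h2 with h2 | h2 <;> rcases not_and_or.1 h3 with h3 | h3 <;>
      obtain rfl := not_not.1 h2 <;> obtain rfl := not_not.1 h3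
    · exact hn rfl
    · exact n01 ((congrArg c.q q0).symm.trans (e.trans q1))
    · exact n01 ((congrArg c.q q0).symm.trans (e.symm.trans q1))
    · exact hn rfl
  · rcases eq_or_ne t 1 with rfl | t1
    · have h2 := hL.inj _ _ _ hy' _ hy (e.symm.trans q1)
      exact ⟨rfl, h2⟩
    · exact (a₃ k u t (hK (m t (Ioc_subset_Icc_self ht))) hχu ht.1.ne' t1
        (hb _ (m t (Ioc_subset_Icc_self ht))) y hy' e).elim
  · rcases eq_or_ne t 0 with rfl | t0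
    · exact fun e => h0 s hA ((congrArg c.q q0).symm.trans e)
    rcases eq_or_ne t 1 with rfl | t1
    · exact fun e => h1 s hA (q1.symm.trans e)
    exact a₄ u t (hK (m t ht)) hχu t0 t1 (hb _ (m t ht)) s hA

end Ctx

end Pool.Agent.CSP
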