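import Pool.Agent.Lib.MP_436e1a_gt.H.Aut

/-! Graphs in boxes. -/

open scoped Manifold ContDiff Topology RealInnerProductSpace Classical
open Set

namespace Pool.Agent.CSP

theorem gr_in {ι Y : Type} {L : ι → E 3 → Y} {i : ι} {x₀ x : E 3} {r : ℝ} {Ψ : ℝ × E 3 → Y}
    {γ : E 3 → ℝ} (hx : x ∈ S2) (h : ‖x - x₀‖ < r) : gr L i x₀ r Ψ γ i x = Ψ (γ x, x) := by
  unfold gr
  rw [nrm_of_S2 hx, if_pos ⟨rfl, h⟩]

theorem gr_out {ι Y : Type} {L : ι → E 3 → Y} {i k : ι} {x₀ x : E 3} {r : ℝ} {Ψ : ℝ × E 3 → Y}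
    {γ : E 3 → ℝ} (hx : x ∈ S2) (h : ¬ (k = i ∧ ‖x - x₀‖ < r)) : gr L i x₀ r Ψ γ k x = L k x := by
  unfold gr
  rw [nrm_of_S2 hx, if_neg h]

theorem gr_off {ι Y : Type} {L : ι → E 3 → Y} {i k : ι} {x₀ x : E 3} {r : ℝ} {Ψ : ℝ × E 3 → Y}
    {γ : E 3 → ℝ} (hx : x ∈ S2) (hb : ‖x - x₀‖ ≤ r → Ψ (0, x) = L i x) (h : k = i → γ x = 0) :
    gr L i x₀ r Ψ γ k x = L k x := by
  by_cases h1 : k = i ∧ ‖x - x₀‖ < r
  · obtain ⟨rfl, h2⟩ := h1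
    rw [gr_in hx h2, h rfl, hb h2.le]
  · exact gr_out hx h1

theorem gr_nrm {ι Y : Type} {L : ι → E 3 → Y} {i k : ι} {x₀ x : E 3} {r : ℝ} {Ψ : ℝ × E 3 → Y}
    {γ : E 3 → ℝ} (hx : x ≠ 0) : gr L i x₀ r Ψ γ k x = gr L i x₀ r Ψ γ k (nrm x) := by
  unfold gr
  rw [nrm_of_S2 (nrm_mem hx)]

theorem gr_far {ι : Type} {i k : ι} {x₀ x : E 3} {r : ℝ} (hr : 0 < r)
    (h : ¬ (k = i ∧ ‖x - x₀‖ < r)) : ∀ᶠ y in 𝓝 x, k = i → r / 2 ≤ ‖y - x₀‖ := by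
  by_cases hk : k = i
  · have h1 : r / 2 < ‖x - x₀‖ := (half_lt_self hr).trans_le (not_lt.1 fun h2 => h ⟨hk, h2⟩)
    have h2 : Continuous fun y : E 3 => ‖y - x₀‖ := by fun_prop
    filter_upwards [h2.continuousAt.eventually (lt_mem_nhds h1)] with y hy _ using hy.le
  · exact Filter.Eventually.of_forall fun _ h1 => absurd h1 hk

theorem gr_near {x₀ x : E 3} {r : ℝ} (h : ‖x - x₀‖ < r) : ∀ᶠ y in 𝓝 x, ‖y - x₀‖ < r := by
  have h2 : Continuous fun y : E 3 => ‖y - x₀‖ := by fun_prop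
  exact h2.continuousAt.eventually (gt_mem_nhds h)

theorem gr_tend {u : ℝ} {x : E 3} (hx : x ∈ S2) :
    Filter.Tendsto (fun p : ℝ × E 3 => nrm p.2) (𝓝 (u, x)) (𝓝 x) := by
  have h1 := (contDiffAt_nrm (ne_zero_of_S2 hx)).continuousAt.tendsto
  rw [nrm_of_S2 hx] at h1
  exact h1.comp continuous_snd.continuousAt

theorem gr_fderiv {W : Type} [NormedAddCommGroup W] [NormedSpace ℝ W] {f : ℝ × E 3 → W}
    {γ : E 3 → ℝ} {t : ℝ} {x : E 3} (hγ : DifferentiableAt ℝ γ x)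
    (hf : DifferentiableAt ℝ f (t * γ x, x)) (τ : ℝ) (v : E 3) :
    fderiv ℝ (fun p : ℝ × E 3 => f (p.1 * γ p.2, p.2)) (t, x) (τ, v) =
      fderiv ℝ f (t * γ x, x) (0, v) +
        (t * fderiv ℝ γ x v + γ x * τ) • fderiv ℝ f (t * γ x, x) (1, 0) := by
  have h0 : HasFDerivAt (fun p : ℝ × E 3 => γ p.2)
      ((fderiv ℝ γ x).comp (ContinuousLinearMap.snd ℝ ℝ (E 3))) (t, x) :=
    HasFDerivAt.comp (f := Prod.snd) (t, x) hγ.hasFDerivAt hasFDerivAt_snd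
  have h1 := (hasFDerivAt_fst.mul h0).prodMk (hasFDerivAt_snd (p := (t, x)))
  have h2 := (HasFDerivAt.comp (g := f) (t, x) hf.hasFDerivAt h1).fderiv
  refine (congrArg (fun A : ℝ × E 3 →L[ℝ] W => A (τ, v)) h2).trans ?_
  rw [← map_smul, ← map_add]
  simp

namespace Ctx

variable {c : Ctx} {ι : Type} {δ : Dat ι c.G} {x₀ y₀ : E 3} {L : ι → E 3 → c.Y} {T r : ℝ}

section
variable {Ψ : ℝ × ℝ × E 3 → c.Y} {γ : ℝ × E 3 → ℝ}

theorem graph_fam (hL : c.Link L) (hr : 0 < r)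
    (hs : c.SmNear Ψ (Icc 0 1 ×ˢ Icc 0 T ×ˢ Metric.closedBall x₀ r))
    (hb : ∀ u, ∀ x ∈ S2, ‖x - x₀‖ ≤ r → Ψ (u, 0, x) = L δ.i x) (hγ : ContDiff ℝ ∞ γ)
    (hm : ∀ u ∈ Icc (0 : ℝ) 1, ∀ x, γ (u, x) ∈ Icc 0 T)
    (ho : ∀ u x, r / 2 ≤ ‖x - x₀‖ → γ (u, x) = 0) :
    c.Fam fun k p => gr L δ.i x₀ r (fun z => Ψ (p.1, z)) (fun x => γ (p.1, x)) k p.2 := by
  refine fun k => smNear_of_forall ?_
  rintro ⟨u, x⟩ ⟨hu, hx⟩
  have hO : IsOpen (Prod.snd ⁻¹' {(0 : E 3)}ᶜ : Set (ℝ × E 3)) :=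
    isOpen_compl_singleton.preimage continuous_snd
  have hK : {(u, x)} ⊆ (Prod.snd ⁻¹' {(0 : E 3)}ᶜ : Set (ℝ × E 3)) :=
    singleton_subset_iff.2 (ne_zero_of_S2 hx)
  have hn : ContDiffOn ℝ ∞ (fun p : ℝ × E 3 => nrm p.2) (Prod.snd ⁻¹' {(0 : E 3)}ᶜ) :=
    contDiffOn_nrm.comp contDiff_snd.contDiffOn fun _ hp => hp
  have e : nrm x = x := nrm_of_S2 hx
  by_cases h1 : k = δ.i ∧ ‖x - x₀‖ < r
  · obtain ⟨rfl, h2⟩ := h1
    refine (hs.comp_on (φ := fun p : ℝ × E 3 => (p.1, γ (p.1, nrm p.2), nrm p.2)) hO hK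
      (contDiffOn_fst.prodMk ((hγ.comp_contDiffOn (contDiffOn_fst.prodMk hn)).prodMk hn))
      ?_).congr_at ?_
    · rintro _ rfl
      exact ⟨hu, hm u hu _, by simpa only [e, mem_closedBall_iff_norm] using h2.le⟩
    · filter_upwards [hO.mem_nhds (hK rfl), (gr_tend hx).eventually (gr_near h2)] with p hp h3
      rw [gr_nrm hp, gr_in (nrm_mem hp) h3]
  · refine ((hL.sm k).comp_on (φ := fun p : ℝ × E 3 => nrm p.2) hO hK hn ?_).congr_at ?_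
    · rintro _ rfl
      exact nrm_mem (ne_zero_of_S2 hx)
    · filter_upwards [hO.mem_nhds (hK rfl), (gr_tend hx).eventually (gr_far hr h1)] with p hp h3
      rw [gr_nrm hp]
      exact gr_off (nrm_mem hp) (hb _ _ (nrm_mem hp)) fun h4 => ho _ _ (h3 h4)

end

variable {Ψ : ℝ × E 3 → c.Y} {γ : E 3 → ℝ}

theorem Thk.gr_sm (hL : c.Link L) (h : c.Thk L δ x₀ y₀ T r Ψ) (hγ : ContDiff ℝ ∞ γ)
    (hm : ∀ x, γ x ∈ Icc 0 T) (ho : ∀ x, r / 2 ≤ ‖x - x₀‖ → γ x = 0) (k : ι) :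
    c.SmNear (gr L δ.i x₀ r Ψ γ k) S2 :=
  (graph_fam (Ψ := fun p => Ψ p.2) (γ := fun p => γ p.2) hL h.hr (h.sm.const _) (fun _ => h.bot)
    (hγ.comp contDiff_snd) (fun _ _ => hm) (fun _ => ho) k).slice (t := 0) ⟨le_rfl, zero_le_one⟩

theorem Thk.gr_imm (hL : c.Link L) (h : c.Thk L δ x₀ y₀ T r Ψ) (hγ : ContDiff ℝ ∞ γ)
    (hm : ∀ x, γ x ∈ Icc 0 T) (ho : ∀ x, r / 2 ≤ ‖x - x₀‖ → γ x = 0) (k : ι) :
    c.Imm (gr L δ.i x₀ r Ψ γ k) := by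
  intro x hx v hv h0
  have hd := (h.gr_sm hL hγ hm ho k).differentiableAt hx
  by_cases h1 : k = δ.i ∧ ‖x - x₀‖ < r
  · obtain ⟨rfl, h2⟩ := h1
    have h3 := h.sm.differentiableAt (v := (γ x, x)) ⟨hm x, mem_closedBall_iff_norm.2 h2.le⟩
    have h4 := HasFDerivAt.comp (g := c.am Ψ) (f := fun y => (γ y, y)) x h3.hasFDerivAt
      ((hγ.differentiable (by simp) x).hasFDerivAt.prodMk (hasFDerivAt_id x))
    rw [tan_congr₀ hx hd h4.differentiableAt ?_ hv, h4.fderiv] at h0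
    · exact (h.imm _ (hm x) x hx h2.le _ v hv h0).2
    · filter_upwards [self_mem_nhdsWithin, nhdsWithin_le_nhds (gr_near h2)] with y hy h5
      exact congrArg (fun z => c.ι (c.q z)) (gr_in hy h5)
  · rw [tan_congr₀ hx hd ((hL.sm k).differentiableAt hx) ?_ hv] at h0
    · exact hL.imm k x hx v hv h0
    · filter_upwards [self_mem_nhdsWithin, nhdsWithin_le_nhds (gr_far h.hr h1)] with y hy h5
      exact congrArg (fun z => c.ι (c.q z)) (gr_off hy (h.bot y hy) fun h6 => ho y (h5 h6))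

theorem Thk.gr_inj (hL : c.Link L) (h : c.Thk L δ x₀ y₀ T r Ψ) (hm : ∀ x, γ x ∈ Icc 0 T) {k l : ι}
    {x y : E 3} (hx : x ∈ S2) (hy : y ∈ S2)
    (he : c.q (gr L δ.i x₀ r Ψ γ k x) = c.q (gr L δ.i x₀ r Ψ γ l y)) :
    (k = l ∧ x = y) ∨ (γ x₀ = 1 ∧ ((k = δ.i ∧ x = x₀ ∧ l = δ.j ∧ y = y₀) ∨
      (k = δ.j ∧ x = y₀ ∧ l = δ.i ∧ y = x₀))) := by
  by_cases h1 : k = δ.i ∧ ‖x - x₀‖ < r <;> by_cases h2 : l = δ.i ∧ ‖y - x₀‖ < r
  · obtain ⟨rfl, h1⟩ := h1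
    obtain ⟨rfl, h2⟩ := h2
    rw [gr_in hx h1, gr_in hy h2] at he
    have h3 := h.inj (mk_mem_prod (hm x) (mem_inter hx (mem_closedBall_iff_norm.2 h1.le)))
      (mk_mem_prod (hm y) (mem_inter hy (mem_closedBall_iff_norm.2 h2.le))) he
    exact Or.inl ⟨rfl, (Prod.mk.inj h3).2⟩
  · obtain ⟨rfl, h1⟩ := h1
    rw [gr_in hx h1, gr_out hy h2] at he
    rcases h.miss _ (hm x) x hx h1.le l y hy he with ⟨-, h3, h4⟩ | ⟨h3, h4, h5, h6⟩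
    · exact Or.inl ⟨h3.symm, h4.symm⟩
    · exact Or.inr ⟨h4 ▸ h3, Or.inl ⟨rfl, h4, h5, h6⟩⟩
  · obtain ⟨rfl, h2⟩ := h2
    rw [gr_out hx h1, gr_in hy h2] at he
    rcases h.miss _ (hm y) y hy h2.le k x hx he.symm with ⟨-, h3, h4⟩ | ⟨h3, h4, h5, h6⟩
    · exact Or.inl ⟨h3, h4⟩
    · exact Or.inr ⟨h4 ▸ h3, Or.inr ⟨h5, h6, rfl, h4⟩⟩
  · rw [gr_out hx h1, gr_out hy h2] at he
    exact Or.inl (hL.inj k l x hx y hy he)

theorem Thk.gr_link (hL : c.Link L) (h : c.Thk L δ x₀ y₀ T r Ψ) (hγ : Ht x₀ T r γ) :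
    c.Link (gr L δ.i x₀ r Ψ γ) :=
  ⟨h.gr_sm hL hγ.sm hγ.mem hγ.out, h.gr_imm hL hγ.sm hγ.mem hγ.out, fun _ _ _ hx _ hy he =>
    (h.gr_inj hL hγ.mem hx hy he).resolve_right fun h1 => hγ.top.ne' h1.1⟩

theorem graph_eqv [Finite ι] {Ψ : ℝ × ℝ × E 3 → c.Y} {γ : ℝ × E 3 → ℝ} (hL : c.Link L)
    (hs : c.SmNear Ψ (Icc 0 1 ×ˢ Icc 0 T ×ˢ Metric.closedBall x₀ r))
    (h : ∀ u ∈ Icc (0 : ℝ) 1, c.Thk L δ x₀ y₀ T r fun z => Ψ (u, z)) (hγ : ContDiff ℝ ∞ γ)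
    (hH : ∀ u ∈ Icc (0 : ℝ) 1, Ht x₀ T r fun x => γ (u, x)) :
    c.Eqv (gr L δ.i x₀ r (fun z => Ψ (0, z)) fun x => γ (0, x))
      (gr L δ.i x₀ r (fun z => Ψ (1, z)) fun x => γ (1, x)) := by
  have hm : ∀ u, Real.smoothTransition u ∈ Icc (0 : ℝ) 1 := fun u =>
    ⟨Real.smoothTransition.nonneg u, Real.smoothTransition.le_one u⟩
  have hc : ContDiff ℝ ∞ Real.smoothTransition := Real.smoothTransition.contDiff
  have h1 : c.Iso fun k p => gr L δ.i x₀ r (fun z => Ψ (Real.smoothTransition p.1, z))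
      (fun x => γ (Real.smoothTransition p.1, x)) k p.2 :=
    ⟨graph_fam (Ψ := fun p => Ψ (Real.smoothTransition p.1, p.2))
      (γ := fun p => γ (Real.smoothTransition p.1, p.2)) hL (h _ (hm 0)).hr
      (hs.comp_cd ((hc.comp contDiff_fst).prodMk contDiff_snd) fun _ hp => ⟨hm _, hp.2⟩)
      (fun u => (h _ (hm u)).bot) (hγ.comp ((hc.comp contDiff_fst).prodMk contDiff_snd))
      (fun u _ => (hH _ (hm u)).mem) fun u => (hH _ (hm u)).out,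
      fun t _ => (h _ (hm t)).gr_link hL (hH _ (hm t))⟩
  refine (Eqv.nd_refl fun i x _ => ?_).nd_trans (h1.nd_eqv.nd_trans (Eqv.nd_refl fun i x _ => ?_))
  · simp only [sl, Real.smoothTransition.zero]
  · simp only [sl, Real.smoothTransition.one]

theorem Thk.res [Finite ι] (hL : c.Link L) (h : c.Thk L δ x₀ y₀ T r Ψ) (hγ : Ht x₀ T r γ) :
    c.Res L δ.i x₀ T Ψ (gr L δ.i x₀ r Ψ γ) := by
  filter_upwards [Ioc_mem_nhdsGT h.hr] with r' hr γ' hγ'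
  have h1 := graph_eqv (Ψ := fun p => Ψ p.2) (γ := fun p => (1 - p.1) * γ' p.2 + p.1 * γ p.2) hL
    (h.sm.const _) (fun _ _ => h)
    (((contDiff_const.sub contDiff_fst).mul (hγ'.sm.comp contDiff_snd)).add
      (contDiff_fst.mul (hγ.sm.comp contDiff_snd))) fun u hu =>
    ⟨((contDiff_const (c := 1 - u)).mul hγ'.sm).add ((contDiff_const (c := u)).mul hγ.sm), fun x =>
      convex_Icc 0 T (hγ'.mem x) (hγ.mem x) (sub_nonneg.2 hu.2) hu.1 (sub_add_cancel _ _),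
      fun x hx => by
        rw [hγ.out x hx, hγ'.out x (by linarith [hr.2]), mul_zero, mul_zero, add_zero],
      convex_Ioi (1 : ℝ) hγ'.top hγ.top (sub_nonneg.2 hu.2) hu.1 (sub_add_cancel _ _)⟩
  simp only [sub_zero, one_mul, zero_mul, add_zero, sub_self, zero_add] at h1
  refine (Eqv.nd_refl fun k x hx => ?_).nd_trans h1
  by_cases h2 : k = δ.i ∧ ‖x - x₀‖ < r'
  · obtain ⟨rfl, h2⟩ := h2
    rw [gr_in hx h2, gr_in hx (h2.trans_le hr.2)]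
  · rw [gr_out hx h2, gr_off hx (h.bot x hx) fun h3 => hγ'.out x
      ((half_le_self hr.1.le).trans (not_lt.1 fun h4 => h2 ⟨h3, h4⟩))]

theorem gr_cross {a : E 3 → c.Y} {ε : ℤˣ} {t : ℝ} (h : c.Cross Ψ (fun p => a p.2) ε 1 x₀ y₀)
    (hs : c.SmNear Ψ {(1, x₀)}) (ha : c.SmNear a {y₀}) (hγ : DifferentiableAt ℝ γ x₀)
    (h0 : 0 < γ x₀) (ht : t * γ x₀ = 1) :
    c.Cross (fun p => Ψ (p.1 * γ p.2, p.2)) (fun p => a p.2) ε t x₀ y₀ := by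
  obtain ⟨he, v₁, v₂, w₁, w₂, hv, hw, hS⟩ := h
  have d1 := gr_fderiv (f := c.am Ψ) (t := t) hγ (by rw [ht]; exact hs.differentiableAt rfl)
  have d2 : ∀ (s τ : ℝ) (w : E 3), fderiv ℝ (c.am fun p : ℝ × E 3 => a p.2) (s, y₀) (τ, w) =
      fderiv ℝ (c.am a) y₀ w := fun s τ w => fderiv_snd' (ha.differentiableAt rfl) w
  have e1 : c.am (fun p : ℝ × E 3 => Ψ (p.1 * γ p.2, p.2)) =
      fun p : ℝ × E 3 => c.am Ψ (p.1 * γ p.2, p.2) := rfl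
  refine ⟨by simpa only [ht] using he, v₁, v₂, w₁, w₂, hv, hw, ?_⟩
  rw [crossFr, d2, d2, d2, map_zero, sub_zero] at hS
  have h3 := Sgn.last hS (t * fderiv ℝ γ x₀ v₁) (t * fderiv ℝ γ x₀ v₂) (s := 1) (τ := γ x₀)
    (by simpa using h0)
  rw [one_mul] at h3
  rw [crossFr, d2, d2, d2, map_zero, sub_zero, e1, d1, d1, d1]
  simpa only [ht, mul_zero, add_zero, map_zero, zero_add, mul_one, Prod.mk_zero_zero] using h3

theorem Thk.stepAt (hL : c.Link L) (h : c.Thk L δ x₀ y₀ T r Ψ) (hγ : Ht x₀ T r γ) :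
    c.StepAt (fun k p => gr L δ.i x₀ r Ψ (fun x => p.1 * γ x) k p.2) δ (γ x₀)⁻¹ x₀ y₀ := by
  have h0 : 0 < γ x₀ := zero_lt_one.trans hγ.top
  have ht : (γ x₀)⁻¹ ∈ Ioo (0 : ℝ) 1 := ⟨inv_pos.2 h0, inv_lt_one_of_one_lt₀ hγ.top⟩
  have e : (γ x₀)⁻¹ * γ x₀ = 1 := inv_mul_cancel₀ h0.ne'
  have hm : ∀ u ∈ Icc (0 : ℝ) 1, ∀ x, u * γ x ∈ Icc 0 T := fun u hu x =>
    ⟨mul_nonneg hu.1 (hγ.mem x).1, (mul_le_of_le_one_left (hγ.mem x).1 hu.2).trans (hγ.mem x).2⟩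
  have ho : ∀ (u : ℝ) x, r / 2 ≤ ‖x - x₀‖ → u * γ x = 0 := fun u x hx => by
    rw [hγ.out x hx, mul_zero]
  have hc : ContDiff ℝ ∞ fun p : ℝ × E 3 => p.1 * γ p.2 :=
    contDiff_fst.mul (hγ.sm.comp contDiff_snd)
  have hF : c.Fam fun k p => gr L δ.i x₀ r Ψ (fun x => p.1 * γ x) k p.2 :=
    graph_fam (Ψ := fun p => Ψ p.2) (γ := fun p => p.1 * γ p.2) hL h.hr (h.sm.const _)
      (fun _ => h.bot) hc hm ho
  have hs : c.SmNear Ψ {(1, x₀)} :=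
    h.sm.at ⟨⟨zero_le_one, h.hT.le⟩, Metric.mem_closedBall_self h.hr.le⟩
  have ha : c.SmNear (fun y => δ.g • L δ.j y) {y₀} := ((hL.sm δ.j).at h.hy).smul δ.g
  refine ⟨hF, fun k t ht => h.gr_imm hL (contDiff_const.mul hγ.sm) (hm t ht) (ho t) k, ht, h.hx,
    h.hy, fun h1 => ?_, ?_, fun t ht k l x hx y hy he => ?_⟩
  · have h2 := h.far h1.1
    rw [h1.2, sub_self, norm_zero] at h2
    exact h2.not_gt h.hr
  · refine (gr_cross h.cross hs ha (hγ.sm.differentiable (by simp) x₀) h0 e).congr_sm h.hx h.hy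
      (hs.comp_cd (hc.prodMk contDiff_snd) ?_) (ha.comp_cd contDiff_snd ?_)
      (hF.at _ (Ioo_subset_Icc_self ht) h.hx) ((hF.at _ (Ioo_subset_Icc_self ht) h.hy).smul _)
      ?_ ?_
    · rintro _ rfl
      exact Prod.ext e rfl
    · rintro _ rfl
      rfl
    · filter_upwards [self_mem_nhdsWithin, nhdsWithin_le_nhds (continuous_snd.continuousAt.eventually
        (gr_near (x := x₀) (x₀ := x₀) (by simpa using h.hr)))] with p hp h1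
      exact (gr_in (γ := fun x => p.1 * γ x) hp.2 h1).symm
    · have h1 : ∀ᶠ y in 𝓝 y₀, ¬ (δ.j = δ.i ∧ ‖y - x₀‖ < r) := by
        by_cases h2 : δ.i = δ.j
        · have h3 : Continuous fun y : E 3 => ‖y - x₀‖ := by fun_prop
          filter_upwards [h3.continuousAt.eventually (lt_mem_nhds (h.far h2))] with y hy h4
          exact hy.not_gt h4.2
        · exact Filter.Eventually.of_forall fun _ h3 => h2 h3.1.symm
      filter_upwards [self_mem_nhdsWithin,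
        nhdsWithin_le_nhds (continuous_snd.continuousAt.eventually h1)] with p hp h2
      rw [gr_out hp.2 h2]
  · exact (h.gr_inj hL (hm t ht) hx hy he).imp_right fun h1 =>
      ⟨eq_inv_of_mul_eq_one_left h1.1, h1.2⟩

theorem Thk.step (hL : c.Link L) (h : c.Thk L δ x₀ y₀ T r Ψ) (hγ : Ht x₀ T r γ) :
    c.Step L δ (gr L δ.i x₀ r Ψ γ) := by
  refine (h.stepAt hL hγ).step (Eqv.nd_refl fun k x hx => ?_) (Eqv.nd_refl fun k x _ => ?_)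
  · exact (gr_off (γ := fun x => 0 * γ x) hx (h.bot x hx) fun _ => zero_mul _).symm
  · simp only [sl, one_mul]

end Ctx

end Pool.Agent.CSP
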