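import Pool.Agent.Lib.MP_436e1a_gt.H.Aut

/-! A family of boxes that are good along the core is good on a thin neighbourhood of the core. -/

open scoped Manifold ContDiff Topology RealInnerProductSpace Classical
open Set

namespace Pool.Agent.CSP

theorem thin_n : ContDiff ℝ ∞ fun p : ℝ × E 3 => ‖p.2‖ ^ 2 - 1 :=
  ((contDiff_norm_sq ℝ).comp contDiff_snd).sub contDiff_const

theorem thin_dn (t τ : ℝ) (x v : E 3) :
    fderiv ℝ (fun p : ℝ × E 3 => ‖p.2‖ ^ 2 - 1) (t, x) (τ, v) = 2 * ⟪x, v⟫ := by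
  rw [← fderiv_norm_sq]
  exact fderiv_snd' (f := fun x : E 3 => ‖x‖ ^ 2 - 1)
    ((hasStrictFDerivAt_norm_sq x).hasFDerivAt.sub_const 1).differentiableAt v

theorem thin_ball {x₀ : E 3} {P : E 3 → Prop} (h : ∀ᶠ x in 𝓝 x₀, P x) :
    ∀ᶠ r in 𝓝[>] (0 : ℝ), ∀ x, ‖x - x₀‖ ≤ r → P x :=
  ((eventually_closedBall_subset h).filter_mono nhdsWithin_le_nhds).mono
    fun _ hr _ hx => hr (mem_closedBall_iff_norm.2 hx)

namespace Ctx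

variable {c : Ctx} {ι : Type} {δ : Dat ι c.G} {x₀ y₀ : E 3} {L : ι → E 3 → c.Y} {T : ℝ}
  {Ψ : ℝ × ℝ × E 3 → c.Y}

/-- `locinj` for `(u, z) ↦ (am Ψ (u, z), ‖z.2‖ ^ 2 - 1)` with `A = Icc 0 1`, `K = Icc 0 T ×ˢ {x₀}`; then
the tube lemma gives `r`. `ImmB` of a slice: `fderiv_slice'`. -/
theorem thin_inj (hx : x₀ ∈ S2) (hs : c.SmNear Ψ (Icc 0 1 ×ˢ Icc 0 T ×ˢ {x₀}))
    (hi : ∀ u ∈ Icc (0 : ℝ) 1, ∀ t ∈ Icc 0 T, c.ImmB (fun z => Ψ (u, z)) t x₀)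
    (hj : ∀ u ∈ Icc (0 : ℝ) 1, InjOn (fun t => c.q (Ψ (u, t, x₀))) (Icc 0 T)) :
    ∀ᶠ r in 𝓝[>] (0 : ℝ), c.SmNear Ψ (Icc 0 1 ×ˢ Icc 0 T ×ˢ Metric.closedBall x₀ r) ∧
      ∀ u ∈ Icc (0 : ℝ) 1, (∀ t ∈ Icc 0 T, ∀ x ∈ S2, ‖x - x₀‖ ≤ r → c.ImmB (fun z => Ψ (u, z)) t x) ∧
        InjOn (fun z => c.q (Ψ (u, z))) (Icc 0 T ×ˢ (S2 ∩ Metric.closedBall x₀ r)) := by
  obtain ⟨O, hO, h1, h2⟩ := hs
  have key : ∀ u t x, (u, t, x) ∈ O → (c.ImmB (fun z => Ψ (u, z)) t x ↔ ∀ v,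
      fderiv ℝ (fun p : ℝ × ℝ × E 3 => (c.am Ψ p, ‖p.2.2‖ ^ 2 - 1)) (u, t, x) (0, v) = 0 →
        v = 0) := fun u t x hm => by
    have hd : DifferentiableAt ℝ (c.am Ψ) (u, t, x) :=
      (h2.2.contDiffAt (hO.mem_nhds hm)).differentiableAt (by simp)
    have hn : DifferentiableAt ℝ (fun p : ℝ × ℝ × E 3 => ‖p.2.2‖ ^ 2 - 1) (u, t, x) :=
      (thin_n.comp contDiff_snd).differentiable (by simp) _
    have e : ∀ τ v, fderiv ℝ (fun p : ℝ × ℝ × E 3 => (c.am Ψ p, ‖p.2.2‖ ^ 2 - 1)) (u, t, x)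
        (0, τ, v) = (fderiv ℝ (c.am fun z => Ψ (u, z)) (t, x) (τ, v), 2 * ⟪x, v⟫) := fun τ v => by
      rw [hd.fderiv_prodMk hn]
      exact Prod.ext (fderiv_slice' hd (τ, v)).symm
        ((fderiv_slice' hn (τ, v)).symm.trans (thin_dn t τ x v))
    refine ⟨fun h ⟨τ, v⟩ h0 => ?_, fun h τ v hv h0 => ?_⟩
    · rw [e, Prod.mk_eq_zero] at h0
      exact Prod.mk_eq_zero.2 (h τ v (by linarith [h0.2]) h0.1)
    · exact Prod.mk_eq_zero.1 (h (τ, v) (by rw [e, h0, hv, mul_zero]; rfl))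
  obtain ⟨A', K', -, hK', hA, hK, hAK, h⟩ := locinj (B := ℝ) (V := ℝ × E 3)
    (f := fun p => (c.am Ψ p, ‖p.2.2‖ ^ 2 - 1)) hO
    (h2.2.prodMk (thin_n.comp contDiff_snd).contDiffOn) isCompact_Icc
    (isCompact_Icc.prod isCompact_singleton) h1
    (by
      rintro u hu ⟨t, x⟩ ⟨ht, rfl⟩
      exact (key u t _ (h1 ⟨hu, ht, rfl⟩)).1 (hi u hu t ht))
    (by
      rintro u hu ⟨t, x⟩ ⟨ht, rfl⟩ ⟨t', x'⟩ ⟨ht', hx'⟩ e
      obtain rfl : x' = x := hx'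
      exact Prod.ext (hj u hu ht ht' (c.ι_inj (congrArg Prod.fst e))) rfl)
  obtain ⟨T₁, B₁, -, hB₁, hT, hB, hTB⟩ :=
    generalized_tube_lemma isCompact_Icc isCompact_singleton hK' hK
  filter_upwards [thin_ball (hB₁.mem_nhds (hB rfl))] with r hr
  have hm : ∀ t ∈ Icc 0 T, ∀ x ∈ Metric.closedBall x₀ r, (t, x) ∈ K' := fun t ht x hx =>
    hTB ⟨hT ht, hr x (mem_closedBall_iff_norm.1 hx)⟩
  refine ⟨⟨O, hO, fun p hp => hAK ⟨hA hp.1, hm _ hp.2.1 _ hp.2.2⟩, h2⟩, fun u hu =>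
    ⟨fun t ht x _ hx => ?_, fun z hz z' hz' e => ?_⟩⟩
  · have h3 := hm t ht x (mem_closedBall_iff_norm.2 hx)
    exact (key u t x (hAK ⟨hA hu, h3⟩)).2 ((h u (hA hu)).2 _ h3)
  · refine (h u (hA hu)).1 (hm _ hz.1 _ hz.2.2) (hm _ hz'.1 _ hz'.2.2)
      (Prod.ext (congrArg c.ι e) ?_)
    simp only [mem_sphere_zero_iff_norm.1 hz.2.1, mem_sphere_zero_iff_norm.1 hz'.2.1]

/-- uniqueness of the crossing: `locinj_at` for
`(u, (t, x, y)) ↦ (am Ψ (u, t, x) - am (L δ.j) y, ‖x‖ ^ 2 - 1, ‖y‖ ^ 2 - 1)` (`Cross.tr`); for `u'` in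
`Icc 0 1` the point `(1, x₀, y₀)` is a zero -/
theorem thin_cross (hL : c.Link L) (hx : x₀ ∈ S2) (hy : y₀ ∈ S2) {u : ℝ}
    (hs : c.SmNear Ψ {(u, 1, x₀)}) (hu : u ∈ Icc (0 : ℝ) 1) (hc : ∀ u ∈ Icc (0 : ℝ) 1,
      c.Cross (fun z => Ψ (u, z)) (fun p => δ.g • L δ.j p.2) δ.ε 1 x₀ y₀) :
    ∀ᶠ p : (ℝ × ℝ × E 3) × E 3 in 𝓝 ((u, 1, x₀), y₀), p.1.1 ∈ Icc (0 : ℝ) 1 → p.1.2.2 ∈ S2 →
      p.2 ∈ S2 → c.q (Ψ p.1) = c.q (L δ.j p.2) → p.1.2 = (1, x₀) ∧ p.2 = y₀ := by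
  let g : ℝ × E 3 → c.Y := fun p => δ.g • L δ.j p.2
  have hg : c.SmNear g {(1, y₀)} :=
    ((hL.sm δ.j).comp_cd contDiff_snd (by rintro _ rfl; exact hy)).smul δ.g
  have hf : c.SmNear (fun z => Ψ (u, z)) {(1, x₀)} :=
    hs.comp_cd (φ := fun z => (u, z)) (by fun_prop) (by rintro _ rfl; rfl)
  let a : ℝ × E 3 × E 3 →L[ℝ] ℝ × E 3 := (ContinuousLinearMap.id ℝ ℝ).prodMap
    (ContinuousLinearMap.fst ℝ (E 3) (E 3))
  let b : ℝ × E 3 × E 3 →L[ℝ] ℝ × E 3 := (ContinuousLinearMap.id ℝ ℝ).prodMap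
    (ContinuousLinearMap.snd ℝ (E 3) (E 3))
  let n : ℝ × E 3 → ℝ := fun p => ‖p.2‖ ^ 2 - 1
  let Φ : ℝ × ℝ × E 3 × E 3 → E c.N × ℝ × ℝ := fun p =>
    (c.am Ψ (p.1, a p.2) - c.am g (b p.2), n (a p.2), n (b p.2))
  have ha : ContDiff ℝ ∞ fun p : ℝ × ℝ × E 3 × E 3 => a p.2 := a.contDiff.comp contDiff_snd
  have hb : ContDiff ℝ ∞ fun p : ℝ × ℝ × E 3 × E 3 => b p.2 := b.contDiff.comp contDiff_snd
  obtain ⟨O₁, hO₁, h1, h1'⟩ := hs.comp_cd (contDiff_fst.prodMk ha) (K' := {(u, 1, x₀, y₀)})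
    (by rintro _ rfl; rfl)
  obtain ⟨O₂, hO₂, h2, h2'⟩ := hg.comp_cd hb (K' := {(u, 1, x₀, y₀)}) (by rintro _ rfl; rfl)
  have hΦ : ContDiffOn ℝ ∞ Φ (O₁ ∩ O₂) :=
    ((h1'.2.mono inter_subset_left).sub (h2'.2.mono inter_subset_right)).prodMk
      ((thin_n.comp ha).prodMk (thin_n.comp hb)).contDiffOn
  have hm : (u, 1, x₀, y₀) ∈ O₁ ∩ O₂ := ⟨h1 rfl, h2 rfl⟩
  have hD : HasFDerivAt (fun z => Φ (u, z))
      (((fderiv ℝ (c.am fun z => Ψ (u, z)) (1, x₀)).comp a -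
        (fderiv ℝ (c.am g) (1, y₀)).comp b).prod
      (((fderiv ℝ n (1, x₀)).comp a).prod ((fderiv ℝ n (1, y₀)).comp b))) (1, x₀, y₀) :=
    ((HasFDerivAt.comp (1, x₀, y₀) (hf.differentiableAt rfl).hasFDerivAt a.hasFDerivAt).sub
      (HasFDerivAt.comp (1, x₀, y₀) (hg.differentiableAt rfl).hasFDerivAt b.hasFDerivAt)).prodMk
      ((HasFDerivAt.comp (1, x₀, y₀) (thin_n.differentiable (by simp) _).hasFDerivAt
        a.hasFDerivAt).prodMk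
        (HasFDerivAt.comp (1, x₀, y₀) (thin_n.differentiable (by simp) _).hasFDerivAt
          b.hasFDerivAt))
  obtain ⟨A', K', hA', hK', h3, h4, -, h⟩ := locinj_at (hO₁.inter hO₂) hΦ hm (by
    rintro ⟨τ, v, w⟩ h0
    rw [← fderiv_slice' ((hΦ.contDiffAt ((hO₁.inter hO₂).mem_nhds hm)).differentiableAt
      (by simp)), hD.fderiv] at h0
    have e1 : fderiv ℝ (c.am fun z => Ψ (u, z)) (1, x₀) (τ, v) -
      fderiv ℝ (c.am g) (1, y₀) (τ, w) = 0 := congrArg Prod.fst h0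
    have e2 : fderiv ℝ n (1, x₀) (τ, v) = 0 := congrArg (fun z => z.2.1) h0
    have e3 : fderiv ℝ n (1, y₀) (τ, w) = 0 := congrArg (fun z => z.2.2) h0
    rw [thin_dn] at e2 e3
    obtain ⟨rfl, rfl, rfl⟩ := (hc u hu).tr τ v w (by linarith) (by linarith) (sub_eq_zero.1 e1)
    rfl)
  have z : ∀ (u t : ℝ) (x y : E 3), x ∈ S2 → y ∈ S2 → c.q (Ψ (u, t, x)) = c.q (L δ.j y) →
      Φ (u, t, x, y) = 0 := fun u t x y h1 h2 e => by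
    refine Prod.ext (sub_eq_zero.2 (congrArg c.ι (e.trans (c.q_smul _ _).symm))) (Prod.ext ?_ ?_)
    · change ‖x‖ ^ 2 - 1 = 0
      rw [mem_sphere_zero_iff_norm.1 h1, one_pow, sub_self]
    · change ‖y‖ ^ 2 - 1 = 0
      rw [mem_sphere_zero_iff_norm.1 h2, one_pow, sub_self]
  have hc' : Continuous fun p : (ℝ × ℝ × E 3) × E 3 => (p.1.1, p.1.2.1, p.1.2.2, p.2) := by
    fun_prop
  filter_upwards [hc'.continuousAt.preimage_mem_nhds ((hA'.prod hK').mem_nhds ⟨h3, h4⟩)]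
    with p hp k1 k2 k3 e
  have : (p.1.2.1, p.1.2.2, p.2) = (1, x₀, y₀) := (h _ hp.1).1 hp.2 h4 ((z _ _ _ _ k2 k3 e).trans
    (z _ _ _ _ hx hy ((congrArg c.q (hc _ k1).1).trans (c.q_smul _ _))).symm)
  simp only [Prod.mk.injEq] at this
  exact ⟨Prod.ext this.1 this.2.1, this.2.2⟩

/-- For `miss`: fix `k`; every point `((u, t, x₀), y)` of the compact set
`(Icc 0 1 ×ˢ Icc 0 T ×ˢ {x₀}) ×ˢ S2` has a neighbourhood on which the implication holds: if the two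
points of `c.M` differ by continuity; if `t = 0` then `k = δ.i`, `y = x₀`, write
`L δ.i y' = Ψ (u', 0, y')` and use `thin_inj`; else `thin_cross`. Then
`IsCompact.eventually_forall_of_forall_eventually` (or the generalized tube lemma). -/
theorem thin [Finite ι] (hL : c.Link L) (hs : c.SmNear Ψ (Icc 0 1 ×ˢ Icc 0 T ×ˢ {x₀}))
    (hb : ∀ u ∈ Icc (0 : ℝ) 1, c.Box L δ x₀ y₀ T fun z => Ψ (u, z))
    (hbot : ∀ᶠ x in 𝓝[S2] x₀, ∀ u ∈ Icc (0 : ℝ) 1, Ψ (u, 0, x) = L δ.i x) :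
    ∀ᶠ r in 𝓝[>] (0 : ℝ), c.SmNear Ψ (Icc 0 1 ×ˢ Icc 0 T ×ˢ Metric.closedBall x₀ r) ∧
      ∀ u ∈ Icc (0 : ℝ) 1, c.Thk L δ x₀ y₀ T r fun z => Ψ (u, z) := by
  have h0 := hb 0 ⟨le_rfl, zero_le_one⟩
  have hx := h0.hx
  have hT : (0 : ℝ) ∈ Icc 0 T := ⟨le_rfl, by linarith [h0.hT]⟩
  have hI := thin_inj hx hs (fun u hu => (hb u hu).imm) fun u hu => (hb u hu).inj
  obtain ⟨r₀, ⟨-, hr₀⟩, hr₀'⟩ := (hI.and self_mem_nhdsWithin).exists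
  rw [eventually_nhdsWithin_iff] at hbot
  have hM : ∀ k, ∀ᶠ x in 𝓝 x₀, ∀ w ∈ Icc (0 : ℝ) 1 ×ˢ Icc 0 T ×ˢ S2,
      w ∈ Icc (0 : ℝ) 1 ×ˢ Icc 0 T ×ˢ S2 → x ∈ S2 → c.q (Ψ (w.1, w.2.1, x)) = c.q (L k w.2.2) →
      (w.2.1 = 0 ∧ k = δ.i ∧ w.2.2 = x) ∨ (w.2.1 = 1 ∧ x = x₀ ∧ k = δ.j ∧ w.2.2 = y₀) := fun k => by
    refine (isCompact_Icc.prod (isCompact_Icc.prod
      (isCompact_sphere _ _))).eventually_forall_of_forall_eventually ?_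
    rintro ⟨u, t, y⟩ ⟨hu, ht, hy⟩
    by_cases e : c.q (Ψ (u, t, x₀)) = c.q (L k y)
    · rcases (show (0 : ℝ) ≤ t from ht.1).eq_or_lt with rfl | h1
      · rw [hbot.self_of_nhds hx u hu] at e
        obtain ⟨rfl, rfl⟩ := hL.inj _ _ _ hx _ hy e
        have c1 : Filter.Tendsto (fun z : E 3 × ℝ × ℝ × E 3 => z.1) (𝓝 (x₀, u, 0, x₀)) (𝓝 x₀) :=
          continuous_fst.tendsto _
        have c2 : Filter.Tendsto (fun z : E 3 × ℝ × ℝ × E 3 => z.2.2.2) (𝓝 (x₀, u, 0, x₀))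
            (𝓝 x₀) := continuous_snd.snd.snd.tendsto _
        filter_upwards [c1.eventually (Metric.closedBall_mem_nhds x₀ hr₀'),
          c2.eventually (Metric.closedBall_mem_nhds x₀ hr₀'), c2.eventually hbot]
          with z k1 k2 k3 k4 k5 k6
        rw [← k3 k4.2.2 _ k4.1] at k6
        have := (hr₀ _ k4.1).2 (mk_mem_prod k4.2.1 ⟨k5, k1⟩) (mk_mem_prod hT ⟨k4.2.2, k2⟩) k6
        exact Or.inl ⟨congrArg Prod.fst this, rfl, (congrArg Prod.snd this).symm⟩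
      · obtain ⟨rfl, rfl, rfl⟩ := (hb u hu).miss t ⟨h1, ht.2⟩ k y hy e
        have c1 : Continuous fun z : E 3 × ℝ × ℝ × E 3 => ((z.2.1, z.2.2.1, z.1), z.2.2.2) := by
          fun_prop
        filter_upwards [(c1.tendsto (x₀, u, 1, y)).eventually
          (thin_cross hL hx hy (hs.at ⟨hu, ht, rfl⟩) hu fun u hu => (hb u hu).cross)]
          with z k1 k4 k5 k6
        obtain ⟨k7, k8⟩ := k1 k4.1 k5 k4.2.2 k6
        exact Or.inr ⟨congrArg Prod.fst k7, congrArg Prod.snd k7, rfl, k8⟩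
    · have c1 : ContinuousAt (fun z : E 3 × ℝ × ℝ × E 3 => c.q (Ψ (z.2.1, z.2.2.1, z.1)))
          (x₀, u, t, y) := c.continuous_q.continuousAt.comp
        (ContinuousAt.comp (g := Ψ) (hs.continuousAt ⟨hu, ht, rfl⟩) (by fun_prop))
      have c2 : ContinuousAt (fun z : E 3 × ℝ × ℝ × E 3 => c.q (L k z.2.2.2)) (x₀, u, t, y) :=
        c.continuous_q.continuousAt.comp
          (ContinuousAt.comp (g := L k) ((hL.sm k).continuousAt hy) (by fun_prop))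
      exact ((c1.ne_iff_eventually_ne c2).1 e).mono fun z hz _ _ e' => absurd e' hz
  have hfar : ∀ᶠ r in 𝓝[>] (0 : ℝ), δ.i = δ.j → r < ‖y₀ - x₀‖ := by
    by_cases e : δ.i = δ.j
    · have : 0 < ‖y₀ - x₀‖ := norm_pos_iff.2 (sub_ne_zero.2 fun e' => h0.ne ⟨e, e'.symm⟩)
      exact ((eventually_lt_nhds this).filter_mono nhdsWithin_le_nhds).mono fun r hr _ => hr
    · exact Filter.Eventually.of_forall fun r e' => absurd e' e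
  filter_upwards [hI, thin_ball (Filter.eventually_all.2 hM), thin_ball hbot, hfar,
    self_mem_nhdsWithin] with r k1 k2 k3 k4 k5
  exact ⟨k1.1, fun u hu => ⟨hx, h0.hy, h0.hT, k5, k4,
    k1.1.comp_cd (φ := fun z => (u, z)) (by fun_prop) fun z hz => ⟨hu, hz⟩,
    fun x h1 h2 => k3 x h2 h1 u hu, (k1.2 u hu).1, (k1.2 u hu).2,
    fun t ht x h1 h2 k y hy => k2 x h2 k (u, t, y) ⟨hu, ht, hy⟩ ⟨hu, ht, hy⟩ h1, (hb u hu).cross⟩⟩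

/-- the constant family -/
theorem Box.thk [Finite ι] {Ψ : ℝ × E 3 → c.Y} (hL : c.Link L) (h : c.Box L δ x₀ y₀ T Ψ) :
    ∀ᶠ r in 𝓝[>] (0 : ℝ), c.Thk L δ x₀ y₀ T r Ψ :=
  (thin (Ψ := fun p => Ψ p.2) hL (h.sm.comp_cd contDiff_snd fun _ hp => hp.2) (fun _ _ => h)
    (h.bot.mono fun _ hx _ _ => hx)).mono fun _ hr => hr.2 0 ⟨le_rfl, zero_le_one⟩

end Ctx

end Pool.Agent.CSP
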