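import Pool.Agent.Lib.MP_436e1a_gt.H.Pre
import Pool.Agent.Lib.MP_436e1a_gt.H.Fin2
import Pool.Agent.Lib.MP_436e1a_gt.H.Thin
import Pool.Agent.Lib.MP_436e1a_gt.H.Gr

/-! Existence of boxes and of crossing changes. -/

open scoped Manifold ContDiff Topology RealInnerProductSpace Classical
open Set

namespace Pool.Agent.CSP

namespace Ctx

variable {c : Ctx} {ι : Type} [Finite ι] [PathConnectedSpace c.Y] {x₀ y₀ : E 3} {L : ι → E 3 → c.Y}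

theorem exists_box (hL : c.Link L) (δ : Dat ι c.G) (hx : x₀ ∈ S2) (hy : y₀ ∈ S2)
    (hne : ¬ (δ.i = δ.j ∧ x₀ = y₀)) {o : ℝ → c.Y} {A : Set ℝ} (ho : c.SmNear o A)
    (h0 : ∀ s ∈ A, c.q (L δ.i x₀) ≠ c.q (o s)) (h1 : ∀ s ∈ A, c.q (L δ.j y₀) ≠ c.q (o s)) :
    ∃ T Ψ, c.Box L δ x₀ y₀ T Ψ ∧ ∀ t ∈ Icc 0 T, ∀ s ∈ A, c.q (Ψ (t, x₀)) ≠ c.q (o s) := by
  obtain ⟨T, G, hT, hs, hb, hc⟩ := exists_prebox hL δ hx hy
  obtain ⟨Ψ, -, -, -, hΨ⟩ := fin (G := fun p => G p.2) (χ := fun _ => 1) hL hx hy hT hne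
    (hs.const _) (fun _ _ => hb) (fun _ _ => hc) contDiff_const ho h0 h1
  exact ⟨T, _, hΨ 0 (left_mem_Icc.2 zero_le_one) one_ne_zero⟩

theorem exists_box₀ (hL : c.Link L) (δ : Dat ι c.G) (hx : x₀ ∈ S2) (hy : y₀ ∈ S2)
    (hne : ¬ (δ.i = δ.j ∧ x₀ = y₀)) : ∃ T Ψ, c.Box L δ x₀ y₀ T Ψ :=
  let ⟨T, Ψ, h, _⟩ := exists_box (o := fun _ => L δ.i x₀) (A := ∅) hL δ hx hy hne
    ⟨∅, isOpen_empty, Subset.rfl, continuousOn_empty _, contDiffOn_empty⟩ (fun _ h => h.elim)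
    fun _ h => h.elim
  ⟨T, Ψ, h⟩

/-- a crossing change with given datum that moves one component only -/
theorem exists_step (hL : c.Link L) (δ : Dat ι c.G) (hx : x₀ ∈ S2) (hy : y₀ ∈ S2)
    (hne : ¬ (δ.i = δ.j ∧ x₀ = y₀)) : ∃ F t₀, c.StepAt F δ t₀ x₀ y₀ ∧
      (∀ k, k ≠ δ.i → ∀ t, ∀ x ∈ S2, F k (t, x) = L k x) ∧ ∀ k, ∀ x ∈ S2, F k (0, x) = L k x := by
  obtain ⟨T, Ψ, h⟩ := exists_box₀ hL δ hx hy hne
  obtain ⟨r, hr⟩ := (h.thk hL).exists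
  obtain ⟨γ, hγ⟩ := exists_Ht x₀ hr.hT hr.hr
  refine ⟨_, _, hr.stepAt hL hγ, fun k hk t x hx => gr_out hx fun e => hk e.1, fun k x hx => ?_⟩
  by_cases e : k = δ.i ∧ ‖x - x₀‖ < r
  · obtain ⟨rfl, e⟩ := e
    refine (gr_in hx e).trans ?_
    rw [zero_mul]
    exact hr.bot x hx e.le
  · exact gr_out hx e

end Ctx

end Pool.Agent.CSP
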