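import Mathlib

/-! Filling intervals and rectangles, with parameters. -/

open scoped Topology
open Set

namespace Pool.Agent.CSP

variable {Y : Type} [TopologicalSpace Y]

theorem ext_interval [PathConnectedSpace Y] {a b : ℝ} (hab : a < b) (g : ℝ → Y) :
    ∃ G : ℝ → Y, ContinuousOn G (Icc a b) ∧ EqOn G g (frontier (Icc a b)) := by
  obtain ⟨γ⟩ := PathConnectedSpace.joined (g a) (g b)
  refine ⟨fun t => γ.extend ((t - a) / (b - a)),
    (γ.continuous_extend.comp (by fun_prop)).continuousOn, ?_⟩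
  rw [frontier_Icc hab.le]
  rintro t (rfl | rfl)
  · simp
  · simp [div_self (sub_pos.2 hab).ne']

/-- a map of a compact space descends along a continuous map to a Hausdorff space -/
theorem ext_quot {X Z : Type} [TopologicalSpace X] [CompactSpace X] [Nonempty X]
    [TopologicalSpace Z] [T2Space Z] {π : X → Z} (hπ : Continuous π) {K : X → Y} (hK : Continuous K)
    (h : ∀ x x', π x = π x' → K x = K x') :
    ∃ G : Z → Y, ContinuousOn G (range π) ∧ ∀ x, G (π x) = K x := by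
  have e : ∀ x, K (Function.invFun π (π x)) = K x := fun x => h _ _ (Function.invFun_eq ⟨x, rfl⟩)
  refine ⟨fun z => K (Function.invFun π z), continuousOn_iff_isClosed.2 fun t ht =>
    ⟨π '' (K ⁻¹' t), ((ht.preimage hK).isCompact.image hπ).isClosed, ?_⟩, e⟩
  ext z
  constructor
  · rintro ⟨hz, x, rfl⟩
    exact ⟨⟨x, by rwa [mem_preimage, e] at hz, rfl⟩, x, rfl⟩
  · rintro ⟨⟨x, hx, rfl⟩, hz⟩
    exact ⟨by rwa [mem_preimage, e], hz⟩

/-- lower end of the antidiagonal -/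
noncomputable def ext_lo (τ : ℝ) : ℝ := max 0 (2 * τ - 1)

/-- upper end of the antidiagonal -/
noncomputable def ext_hi (τ : ℝ) : ℝ := min 1 (2 * τ)

theorem ext_lo_cont : Continuous ext_lo := by unfold ext_lo; fun_prop

theorem ext_hi_cont : Continuous ext_hi := by unfold ext_hi; fun_prop

theorem ext_cases (τ : ℝ) : (τ ≤ 1 / 2 ∧ ext_lo τ = 0 ∧ ext_hi τ = 2 * τ) ∨
    (1 / 2 ≤ τ ∧ ext_lo τ = 2 * τ - 1 ∧ ext_hi τ = 1) := by
  rcases le_total τ (1 / 2) with h | h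
  · exact Or.inl ⟨h, max_eq_left (by linarith), min_eq_right (by linarith)⟩
  · exact Or.inr ⟨h, max_eq_right (by linarith), min_eq_left (by linarith)⟩

/-- the boundary of the unit square -/
def ext_bd : Set (ℝ × ℝ) :=
  {p | p ∈ Icc (0 : ℝ) 1 ×ˢ Icc (0 : ℝ) 1 ∧ (p.1 = 0 ∨ p.1 = 1 ∨ p.2 = 0 ∨ p.2 = 1)}

theorem ext_sq [SimplyConnectedSpace Y] {g : ℝ × ℝ → Y} (hg : ContinuousOn g ext_bd) :
    ∃ G : ℝ × ℝ → Y, ContinuousOn G (Icc 0 1 ×ˢ Icc 0 1) ∧ EqOn G g ext_bd := by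
  have hlo := ext_lo_cont
  have hhi := ext_hi_cont
  have m1 : ∀ τ : unitInterval, (ext_lo τ, ext_hi τ) ∈ ext_bd := fun τ => by
    have h0 := τ.2.1
    have h1 := τ.2.2
    rcases ext_cases τ with ⟨h, e, e'⟩ | ⟨h, e, e'⟩ <;> rw [e, e']
    · exact ⟨⟨⟨le_rfl, zero_le_one⟩, by linarith, by linarith⟩, Or.inl rfl⟩
    · exact ⟨⟨⟨by linarith, by linarith⟩, zero_le_one, le_rfl⟩, Or.inr (Or.inr (Or.inr rfl))⟩
  have m2 : ∀ τ : unitInterval, (ext_hi τ, ext_lo τ) ∈ ext_bd := fun τ => by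
    obtain ⟨⟨h1, h2⟩, h⟩ := m1 τ
    exact ⟨⟨h2, h1⟩, by tauto⟩
  have l0 : ext_lo 0 = 0 := by norm_num [ext_lo]
  have l1 : ext_lo 1 = 1 := by norm_num [ext_lo]
  have u0 : ext_hi 0 = 0 := by norm_num [ext_hi]
  have u1 : ext_hi 1 = 1 := by norm_num [ext_hi]
  obtain ⟨K⟩ := SimplyConnectedSpace.paths_homotopic (x := g (0, 0)) (y := g (1, 1))
    ⟨⟨fun τ => g (ext_lo τ, ext_hi τ), hg.comp_continuous (by fun_prop) m1⟩,
      by simp [l0, u0], by simp [l1, u1]⟩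
    ⟨⟨fun τ => g (ext_hi τ, ext_lo τ), hg.comp_continuous (by fun_prop) m2⟩,
      by simp [l0, u0], by simp [l1, u1]⟩
  obtain ⟨G, hG, e⟩ := ext_quot (X := unitInterval × unitInterval)
    (π := fun p => ((1 - (p.1 : ℝ)) * ext_lo p.2 + p.1 * ext_hi p.2,
      (1 - (p.1 : ℝ)) * ext_hi p.2 + p.1 * ext_lo p.2)) (by fun_prop) K.continuous (by
    rintro ⟨s, τ⟩ ⟨s', τ'⟩ h
    obtain ⟨h1, h2⟩ := Prod.ext_iff.1 h
    dsimp only at h1 h2
    have hτ : τ = τ' := Subtype.ext (by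
      rcases ext_cases τ with ⟨-, e, e'⟩ | ⟨-, e, e'⟩ <;>
        rcases ext_cases τ' with ⟨-, f, f'⟩ | ⟨-, f, f'⟩ <;> rw [e, e', f, f'] at h1 h2 <;> linarith)
    subst hτ
    by_cases t0 : τ = 0
    · subst t0
      exact (K.source s).trans (K.source s').symm
    by_cases t1 : τ = 1
    · subst t1
      exact (K.target s).trans (K.target s').symm
    have p0 : (0 : ℝ) < τ := lt_of_le_of_ne τ.2.1 fun h => t0 (Subtype.ext h.symm)
    have p1 : (τ : ℝ) < 1 := lt_of_le_of_ne τ.2.2 fun h => t1 (Subtype.ext h)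
    have hd : ext_hi τ - ext_lo τ ≠ 0 := by
      rcases ext_cases τ with ⟨-, e, e'⟩ | ⟨-, e, e'⟩ <;> rw [e, e'] <;> intro h <;> linarith
    have hs : s = s' := Subtype.ext (mul_right_cancel₀ hd (by linarith))
    rw [hs])
  have e0 : ∀ τ : unitInterval, G (ext_lo τ, ext_hi τ) = g (ext_lo τ, ext_hi τ) := fun τ => by
    have h := e (0, τ)
    simp only [Icc.coe_zero, sub_zero, one_mul, zero_mul, add_zero] at h
    rw [h]
    exact K.apply_zero τ
  have e1 : ∀ τ : unitInterval, G (ext_hi τ, ext_lo τ) = g (ext_hi τ, ext_lo τ) := fun τ => by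
    have h := e (1, τ)
    simp only [Icc.coe_one, sub_self, one_mul, zero_mul, zero_add] at h
    rw [h]
    exact K.apply_one τ
  refine ⟨G, hG.mono ?_, ?_⟩
  · rintro ⟨u, t⟩ ⟨⟨a0, a1⟩, b0, b1⟩
    dsimp only at a0 a1 b0 b1
    have hl : ext_lo ((u + t) / 2) ≤ u := max_le a0 (by linarith)
    have hu : u ≤ ext_hi ((u + t) / 2) := le_min a1 (by linarith)
    have hs : ext_lo ((u + t) / 2) + ext_hi ((u + t) / 2) = u + t := by
      rcases ext_cases ((u + t) / 2) with ⟨-, e, e'⟩ | ⟨-, e, e'⟩ <;> rw [e, e'] <;> ring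
    obtain ⟨a, b, ha, hb, hab, h⟩ := (Convex.mem_Icc (hl.trans hu)).1 ⟨hl, hu⟩
    have ea : a = 1 - b := by linarith
    subst ea
    refine ⟨(⟨b, hb, by linarith⟩, ⟨(u + t) / 2, by linarith, by linarith⟩), Prod.ext h ?_⟩
    dsimp only
    linarith
  · rintro ⟨u, t⟩ ⟨⟨⟨a0, a1⟩, b0, b1⟩, h⟩
    dsimp only at a0 a1 b0 b1 h
    have f0 := e0 ⟨(u + t) / 2, by linarith, by linarith⟩
    have f1 := e1 ⟨(u + t) / 2, by linarith, by linarith⟩
    dsimp only at f0 f1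
    rcases h with rfl | rfl | rfl | rfl
    · rwa [show ext_lo ((0 + t) / 2) = 0 from max_eq_left (by linarith),
        show ext_hi ((0 + t) / 2) = t from (min_eq_right (by linarith)).trans (by ring)] at f0
    · rwa [show ext_lo ((1 + t) / 2) = t from (max_eq_right (by linarith)).trans (by ring),
        show ext_hi ((1 + t) / 2) = 1 from min_eq_left (by linarith)] at f1
    · rwa [show ext_lo ((u + 0) / 2) = 0 from max_eq_left (by linarith),
        show ext_hi ((u + 0) / 2) = u from (min_eq_right (by linarith)).trans (by ring)] at f1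
    · rwa [show ext_lo ((u + 1) / 2) = u from (max_eq_right (by linarith)).trans (by ring),
        show ext_hi ((u + 1) / 2) = 1 from min_eq_left (by linarith)] at f0

theorem ext_fr {a₀ a₁ b₀ b₁ : ℝ} (ha : a₀ < a₁) (hb : b₀ < b₁) (p : ℝ × ℝ) :
    p ∈ frontier (Icc a₀ a₁ ×ˢ Icc b₀ b₁) ↔
      p ∈ Icc a₀ a₁ ×ˢ Icc b₀ b₁ ∧ (p.1 = a₀ ∨ p.1 = a₁ ∨ p.2 = b₀ ∨ p.2 = b₁) := by
  rw [frontier_prod_eq, closure_Icc, closure_Icc, frontier_Icc ha.le, frontier_Icc hb.le]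
  constructor
  · rintro (⟨h, h' | h'⟩ | ⟨h | h, h'⟩)
    · exact ⟨⟨h, h'.ge, h'.le.trans hb.le⟩, Or.inr (Or.inr (Or.inl h'))⟩
    · exact ⟨⟨h, hb.le.trans (Eq.ge h'), Eq.le h'⟩, Or.inr (Or.inr (Or.inr h'))⟩
    · exact ⟨⟨⟨h.ge, h.le.trans ha.le⟩, h'⟩, Or.inl h⟩
    · exact ⟨⟨⟨ha.le.trans (Eq.ge h), Eq.le h⟩, h'⟩, Or.inr (Or.inl h)⟩
  · rintro ⟨⟨h1, h2⟩, h | h | h | h⟩
    · exact Or.inr ⟨Or.inl h, h2⟩
    · exact Or.inr ⟨Or.inr h, h2⟩
    · exact Or.inl ⟨h1, Or.inl h⟩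
    · exact Or.inl ⟨h1, Or.inr h⟩

theorem ext_aff {a b u : ℝ} (h : a < b) (hu : u ∈ Icc (0 : ℝ) 1) : a + u * (b - a) ∈ Icc a b :=
  ⟨by nlinarith [hu.1], by nlinarith [hu.2]⟩

theorem ext_aff' {a b u : ℝ} (h : a < b) (hu : u ∈ Icc a b) : (u - a) / (b - a) ∈ Icc (0 : ℝ) 1 :=
  ⟨div_nonneg (sub_nonneg.2 hu.1) (sub_pos.2 h).le,
    (div_le_one (sub_pos.2 h)).2 (sub_le_sub_right hu.2 a)⟩

/-- rescale to the unit square -/
theorem ext_rect [SimplyConnectedSpace Y] {a₀ a₁ b₀ b₁ : ℝ} (ha : a₀ < a₁) (hb : b₀ < b₁)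
    {g : ℝ × ℝ → Y} (hg : ContinuousOn g (frontier (Icc a₀ a₁ ×ˢ Icc b₀ b₁))) :
    ∃ G : ℝ × ℝ → Y, ContinuousOn G (Icc a₀ a₁ ×ˢ Icc b₀ b₁) ∧
      EqOn G g (frontier (Icc a₀ a₁ ×ˢ Icc b₀ b₁)) := by
  have ha' := (sub_pos.2 ha).ne'
  have hb' := (sub_pos.2 hb).ne'
  obtain ⟨G, hG, e⟩ := ext_sq (g := fun p => g (a₀ + p.1 * (a₁ - a₀), b₀ + p.2 * (b₁ - b₀)))
    (hg.comp (Continuous.continuousOn (by fun_prop)) fun p hp => (ext_fr ha hb _).2
      ⟨⟨ext_aff ha hp.1.1, ext_aff hb hp.1.2⟩, by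
        rcases hp.2 with h | h | h | h <;> simp [h]⟩)
  refine ⟨fun p => G ((p.1 - a₀) / (a₁ - a₀), (p.2 - b₀) / (b₁ - b₀)),
    hG.comp (Continuous.continuousOn (by fun_prop))
      fun p hp => ⟨ext_aff' ha hp.1, ext_aff' hb hp.2⟩, fun p hp => ?_⟩
  obtain ⟨h1, h2⟩ := (ext_fr ha hb p).1 hp
  refine (e ⟨⟨ext_aff' ha h1.1, ext_aff' hb h1.2⟩, ?_⟩).trans ?_
  · rcases h2 with h | h | h | h <;> simp [h, div_self ha', div_self hb']
  · simp [div_mul_cancel₀ _ ha', div_mul_cancel₀ _ hb']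

/-- glue on the closed pieces `p ∈ K` and `p ∉ interior K` -/
theorem ext_param {P V : Type} [MetricSpace P] [NormedAddCommGroup V] [NormedSpace ℝ V]
    {K A : Set P} (hK : IsClosed K) (hne : K.Nonempty) {D : Set V} {x₀ : V}
    (hD : StarConvex ℝ x₀ D) (h0 : x₀ ∈ D) {g : P × V → Y}
    (hg : ContinuousOn g ((A \ interior K) ×ˢ D)) {G₀ : P → Y} (hG : ContinuousOn G₀ K)
    (he : ∀ p ∈ frontier K, G₀ p = g (p, x₀)) {η : ℝ} (hη : 0 < η) :
    ∃ G : P × V → Y, ContinuousOn G (A ×ˢ D) ∧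
      ∀ p x, η ≤ Metric.infDist p K → G (p, x) = g (p, x) := by
  classical
  refine ⟨fun q => if q.1 ∈ K then G₀ q.1 else
    g (q.1, x₀ + min 1 (Metric.infDist q.1 K / η) • (q.2 - x₀)), ?_, fun p x h => ?_⟩
  · refine ContinuousOn.if ?_ ?_ ?_
    · rintro q ⟨-, hq⟩
      have h1 : q.1 ∈ frontier K := continuous_fst.frontier_preimage_subset K hq
      rw [he _ h1, Metric.infDist_zero_of_mem (hK.frontier_subset h1)]
      simp
    · refine hG.comp continuous_fst.continuousOn fun q hq => ?_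
      exact hK.closure_subset (continuous_fst.closure_preimage_subset K hq.2)
    · have hc := Metric.continuous_infDist_pt K
      refine hg.comp (Continuous.continuousOn (by fun_prop)) fun q hq => ⟨⟨hq.1.1, ?_⟩, ?_⟩
      · have h1 : q.1 ∈ closure Kᶜ := continuous_fst.closure_preimage_subset Kᶜ hq.2
        rwa [closure_compl] at h1
      · exact hD.add_smul_sub_mem hq.1.2
          (le_min zero_le_one (div_nonneg Metric.infDist_nonneg hη.le)) (min_le_left _ _)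
  · have h1 : p ∉ K := fun hp => by
      rw [Metric.infDist_zero_of_mem hp] at h
      exact absurd h hη.not_ge
    simp [h1, min_eq_left ((one_le_div hη).2 h)]

end Pool.Agent.CSP
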