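import Pool.Agent.Lib.MP_436e1a_gt.H.Tan

/-! Pushing maps by ambient vectors; convex combinations of maps near a common point. -/

open scoped Manifold ContDiff Topology RealInnerProductSpace Classical
open Set

namespace Pool.Agent.CSP

namespace Ctx

variable {c : Ctx} {V : Type} [NormedAddCommGroup V] [NormedSpace ℝ V]

/-- a lift of `(x, w) ↦ r (ι x + w)` -/
structure Psh (c : Ctx) (P : c.Y × E c.N → c.Y) : Prop where
  cont : ContinuousOn P c.Sg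
  zero : ∀ y, P (y, 0) = y
  proj : ∀ p ∈ c.Sg, c.q (P p) = c.r (c.ι (c.q p.1) + p.2)

theorem exists_psh (c : Ctx) : ∃ P, c.Psh P :=
  let ⟨P, h1, h2, h3⟩ := c.nd_push
  ⟨P, h1, h2, h3⟩

theorem zero_mem_Sg (y : c.Y) : (y, 0) ∈ c.Sg := fun s _ => by simpa using c.A.mem_U _

theorem Sg.mem_U {p : c.Y × E c.N} (h : p ∈ c.Sg) : c.ι (c.q p.1) + p.2 ∈ c.U := by
  simpa using h 1 (by simp)

variable {P : c.Y × E c.N → c.Y} {f : V → c.Y} {w : V → E c.N} {x : V}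

omit [NormedSpace ℝ V] in
theorem Psh.am (h : c.Psh P) (hf : ContinuousAt f x) (hw : ContinuousAt w x)
    (hx : (f x, w x) ∈ c.Sg) :
    c.am (fun v => P (f v, w v)) =ᶠ[𝓝 x] fun v => c.ρ (c.am f v + w v) := by
  filter_upwards [(hf.prodMk hw).eventually (nd_Sg_open.mem_nhds hx)] with v hv
  exact congrArg c.ι (h.proj _ hv)

theorem Psh.smOn (h : c.Psh P) {O : Set V} (hO : IsOpen O) (hf : c.SmOn f O)
    (hw : ContDiffOn ℝ ∞ w O) (hS : ∀ x ∈ O, (f x, w x) ∈ c.Sg) :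
    c.SmOn (fun v => P (f v, w v)) O := by
  refine ⟨h.cont.comp (hf.1.prodMk hw.continuousOn) hS, ?_⟩
  exact (c.contDiffOn_ρ.comp (hf.2.add hw) fun v hv => Sg.mem_U (hS v hv)).congr
    fun v hv => congrArg c.ι (h.proj _ (hS v hv))

theorem Psh.smNear (h : c.Psh P) {K : Set V} (hf : c.SmNear f K) (hw : ContDiff ℝ ∞ w)
    (hK : ∀ x ∈ K, (f x, w x) ∈ c.Sg) : c.SmNear (fun v => P (f v, w v)) K := by
  obtain ⟨O, hO, hKO, hs⟩ := hf
  have h1 : IsOpen (O ∩ (fun v => (f v, w v)) ⁻¹' c.Sg) :=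
    (hs.1.prodMk hw.continuous.continuousOn).isOpen_inter_preimage hO nd_Sg_open
  exact ⟨_, h1, fun x hx => ⟨hKO hx, hK x hx⟩,
    h.smOn h1 (hs.mono inter_subset_left) hw.contDiffOn fun x hx => hx.2⟩

theorem push_fderiv (h : c.Psh P) (hf : c.SmNear f {x}) (hw : DifferentiableAt ℝ w x)
    (hx : (f x, w x) ∈ c.Sg) (v : V) : fderiv ℝ (c.am fun v => P (f v, w v)) x v =
      fderiv ℝ c.ρ (c.am f x + w x) (fderiv ℝ (c.am f) x v + fderiv ℝ w x v) := by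
  have h1 : DifferentiableAt ℝ c.ρ (c.am f x + w x) :=
    (c.contDiffOn_ρ.contDiffAt (c.A.U_open.mem_nhds (Sg.mem_U hx))).differentiableAt (by simp)
  have h2 := HasFDerivAt.comp (f := fun v => c.am f v + w v) x h1.hasFDerivAt
    ((hf.differentiableAt rfl).hasFDerivAt.add hw.hasFDerivAt)
  rw [(h.am (hf.continuousAt rfl) hw.continuousAt hx).fderiv_eq]
  exact congrArg (fun L : V →L[ℝ] E c.N => L v) h2.fderiv

theorem Psh.fderiv (h : c.Psh P) (hf : c.SmNear f {x}) (hw : ContDiff ℝ ∞ w)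
    (hx : (f x, w x) ∈ c.Sg) (v : V) : fderiv ℝ (c.am fun v => P (f v, w v)) x v =
      fderiv ℝ c.ρ (c.am f x + w x) (fderiv ℝ (c.am f) x v + fderiv ℝ w x v) :=
  push_fderiv h hf (hw.differentiable (by simp) x) hx v

/-- if the perturbation vanishes to second order nothing changes (`nd_tangent`, `nd_P_dι`) -/
theorem Psh.fderiv_eq (h : c.Psh P) (hf : c.SmNear f {x}) (hw : ContDiff ℝ ∞ w) (h0 : w x = 0)
    {v : V} (h1 : _root_.fderiv ℝ w x v = 0) : _root_.fderiv ℝ (c.am fun v => P (f v, w v)) x v =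
      _root_.fderiv ℝ (c.am f) x v := by
  rw [h.fderiv hf hw (h0 ▸ zero_mem_Sg _), h0, h1, add_zero, add_zero]
  exact P_fderiv_am (hf.differentiableAt rfl) v

/-- small parameters are admissible on a compact set (tube lemma) -/
theorem eventually_Sg {B : Type} [NormedAddCommGroup B] [NormedSpace ℝ B] {K : Set V}
    (hK : IsCompact K) (hf : ∀ x ∈ K, ContinuousAt f x) {w : B × V → E c.N} (hw : Continuous w)
    (h0 : ∀ x ∈ K, w (0, x) = 0) : ∀ᶠ b in 𝓝 (0 : B), ∀ x ∈ K, (f x, w (b, x)) ∈ c.Sg := by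
  refine hK.eventually_forall_of_forall_eventually
    (P := fun (b : B) (x : V) => (f x, w (b, x)) ∈ c.Sg) fun x hx => ?_
  have h1 : ContinuousAt (fun z : B × V => (f z.2, w z)) (0, x) :=
    (ContinuousAt.comp (f := Prod.snd) (hf x hx) continuousAt_snd).prodMk hw.continuousAt
  exact h1.eventually (nd_Sg_open.mem_nhds (by simp only [h0 x hx]; exact zero_mem_Sg _))

/-- a map with prescribed value and tangent differential: `v ↦ P (y, A (v - x))` -/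
theorem exists_jet (y : c.Y) (x : V) {A : V →L[ℝ] E c.N} (hA : ∀ v, A v ∈ range (c.dι (c.q y))) :
    ∃ f : V → c.Y, c.SmNear f {x} ∧ f x = y ∧ _root_.fderiv ℝ (c.am f) x = A := by
  obtain ⟨P, h⟩ := c.exists_psh
  have hf : c.SmNear (fun _ : V => y) {x} :=
    ⟨univ, isOpen_univ, subset_univ _, continuousOn_const, contDiffOn_const⟩
  have hw : ContDiff ℝ ∞ fun v => A (v - x) := A.contDiff.comp (contDiff_id.sub contDiff_const)
  have h0 : A (x - x) = 0 := by rw [sub_self, map_zero]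
  have hx : (y, A (x - x)) ∈ c.Sg := h0 ▸ zero_mem_Sg y
  have hd : HasFDerivAt (fun v => A (v - x)) A x :=
    A.hasFDerivAt.comp x ((hasFDerivAt_id x).sub_const x)
  refine ⟨fun v => P (y, A (v - x)), h.smNear hf hw fun _ hz => hz ▸ hx, by simp only [h0, h.zero],
    ContinuousLinearMap.ext fun v => ?_⟩
  have h1 : fderiv ℝ (c.am fun _ : V => y) x = 0 := fderiv_const_apply _
  rw [h.fderiv hf hw hx, h0, add_zero, h1, hd.fderiv, zero_apply, zero_add]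
  obtain ⟨u, hu⟩ := hA v
  rw [← hu]
  exact c.P_dι _ u

/-- `m p = P (f₀ p, s p.1 • (am f₁ p - am f₀ p))`. Near `J ×ˢ {x}` the points `m p` and `f₁ p` lie in a
neighbourhood of `y` on which `q` is injective (`nd_q_locinj`). -/
theorem exists_mix {f₀ f₁ : ℝ × V → c.Y} {J : Set ℝ} {y : c.Y} (h₀ : c.SmNear f₀ (J ×ˢ {x}))
    (h₁ : c.SmNear f₁ (J ×ˢ {x})) (e₀ : ∀ u ∈ J, f₀ (u, x) = y) (e₁ : ∀ u ∈ J, f₁ (u, x) = y)
    {s : ℝ → ℝ} (hs : ContDiff ℝ ∞ s) : ∃ (m : ℝ × V → c.Y) (O : Set (ℝ × V)), IsOpen O ∧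
      J ×ˢ {x} ⊆ O ∧ c.SmOn m O ∧ (∀ p, s p.1 = 0 → m p = f₀ p) ∧ (∀ p, f₀ p = f₁ p → m p = f₀ p) ∧
      (∀ p ∈ O, s p.1 = 1 → m p = f₁ p) ∧ ∀ u ∈ J, ∀ v, _root_.fderiv ℝ (c.am m) (u, x) (0, v) =
        (1 - s u) • _root_.fderiv ℝ (c.am f₀) (u, x) (0, v) +
          s u • _root_.fderiv ℝ (c.am f₁) (u, x) (0, v) := by
  obtain ⟨P, h⟩ := c.exists_psh
  obtain ⟨O₀, hO₀, hJ₀, hs₀⟩ := id h₀
  obtain ⟨O₁, hO₁, hJ₁, hs₁⟩ := id h₁
  obtain ⟨W, hW, hi⟩ := nd_q_locinj y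
  let w : ℝ × V → E c.N := fun p => s p.1 • (c.am f₁ p - c.am f₀ p)
  have hw0 : ∀ p, f₀ p = f₁ p → w p = 0 := fun p hp => by simp [w, am, hp]
  have hw : ContDiffOn ℝ ∞ w (O₀ ∩ O₁) := (hs.comp contDiff_fst).contDiffOn.smul
    ((hs₁.2.mono inter_subset_right).sub (hs₀.2.mono inter_subset_left))
  let O₂ := O₀ ∩ O₁ ∩ (fun p => (f₀ p, w p)) ⁻¹' c.Sg
  have hO₂ : IsOpen O₂ := ((hs₀.1.mono inter_subset_left).prodMk
    hw.continuousOn).isOpen_inter_preimage (hO₀.inter hO₁) nd_Sg_open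
  have hm : c.SmOn (fun p => P (f₀ p, w p)) O₂ :=
    h.smOn hO₂ (hs₀.mono fun p hp => hp.1.1) (hw.mono inter_subset_left) fun p hp => hp.2
  have he : ∀ u ∈ J, w (u, x) = 0 := fun u hu => hw0 _ ((e₀ u hu).trans (e₁ u hu).symm)
  refine ⟨fun p => P (f₀ p, w p),
    O₂ ∩ (fun p => (P (f₀ p, w p), f₁ p)) ⁻¹' (interior W ×ˢ interior W),
    (hm.1.prodMk (hs₁.1.mono fun p hp => hp.1.2)).isOpen_inter_preimage hO₂
      (isOpen_interior.prod isOpen_interior), ?_, hm.mono inter_subset_left, fun p hp => ?_,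
    fun p hp => ?_, fun p hp h1 => ?_, fun u hu v => ?_⟩
  · rintro ⟨u, _⟩ ⟨hu, rfl⟩
    refine ⟨⟨⟨hJ₀ ⟨hu, rfl⟩, hJ₁ ⟨hu, rfl⟩⟩, ?_⟩, ?_, ?_⟩
    · simp only [mem_preimage, he u hu]
      exact zero_mem_Sg _
    · simp only [he u hu, h.zero, e₀ u hu]
      exact mem_interior_iff_mem_nhds.2 hW
    · simp only [e₁ u hu]
      exact mem_interior_iff_mem_nhds.2 hW
  · simp only [w, hp, zero_smul, h.zero]
  · simp only [hw0 p hp, h.zero]
  · refine hi (interior_subset hp.2.1) (interior_subset hp.2.2) ?_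
    rw [h.proj _ hp.1.2]
    simp only [w, h1, one_smul, am, add_sub_cancel]
    exact c.A.r_ι _
  · have a₀ := h₀.at (x := (u, x)) ⟨hu, rfl⟩
    have d₀ := a₀.differentiableAt rfl
    have d₁ := h₁.differentiableAt (v := (u, x)) ⟨hu, rfl⟩
    have ds : DifferentiableAt ℝ (fun p : ℝ × V => s p.1) (u, x) :=
      (hs.comp contDiff_fst).differentiable (by simp) _
    have dw : HasFDerivAt w _ (u, x) := ds.hasFDerivAt.smul (d₁.hasFDerivAt.sub d₀.hasFDerivAt)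
    have h0 : c.am f₁ (u, x) - c.am f₀ (u, x) = 0 := by simp [am, e₀ u hu, e₁ u hu]
    have dv : fderiv ℝ w (u, x) (0, v) =
        s u • (fderiv ℝ (c.am f₁) (u, x) (0, v) - fderiv ℝ (c.am f₀) (u, x) (0, v)) := by
      have h2 := congrArg (fun L : ℝ × V →L[ℝ] E c.N => L (0, v)) dw.fderiv
      simpa [h0] using h2
    have p₀ := P_fderiv_am d₀ (0, v)
    have p₁ := P_fderiv_am d₁ (0, v)
    rw [e₁ u hu, ← e₀ u hu] at p₁
    rw [push_fderiv h a₀ dw.differentiableAt (he u hu ▸ zero_mem_Sg _), he u hu, add_zero, dv]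
    change c.P (c.q (f₀ (u, x))) _ = _
    rw [map_add, map_smul, map_sub, p₀, p₁]
    module

end Ctx

end Pool.Agent.CSP
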