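import Pool.Agent.Lib.MP_436e1a_gt.H.Ext
import Pool.Agent.Lib.MP_436e1a_gt.H.Push
import Pool.Agent.Lib.MP_436e1a_gt.A.SmoothRel

/-! Smoothing, and filling a hole in the parameter space. -/

open scoped Manifold ContDiff Topology RealInnerProductSpace Classical
open Set

namespace Pool.Agent.CSP

namespace Ctx

variable {c : Ctx} {V : Type} [NormedAddCommGroup V] [NormedSpace ℝ V] [FiniteDimensional ℝ V]

/-- smoothing relative to a closed set near which the map is smooth -/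
theorem smoothing {f : V → c.Y} {K C O O' : Set V} (hK : IsCompact K)
    (hO : IsOpen O) (hKO : K ⊆ O) (hf : ContinuousOn f O) (hC : IsClosed C) (hO' : IsOpen O')
    (hCO : C ∩ O ⊆ O') (hs : c.SmOn f O') :
    ∃ (f' : V → c.Y) (O₁ : Set V), IsOpen O₁ ∧ K ⊆ O₁ ∧ c.SmOn f' O₁ ∧ EqOn f' f (C ∩ O₁) := by
  haveI := FiniteDimensional.proper_real V
  obtain ⟨K₁, k1, k2, k3⟩ := exists_compact_between hK hO hKO
  obtain ⟨δ, hδ, hr⟩ := c.exists_rad
  obtain ⟨P, hP⟩ := c.exists_psh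
  have ha := c.continuousOn_am (hf.mono k3)
  obtain ⟨g, g1, g2, g3⟩ := smoothkeep k1.isClosed (hC.inter k1.isClosed) hO'
    (fun x hx => hCO ⟨hx.1, k3 hx.2⟩) ha hs.2 hδ
  have hS : ∀ v ∈ K₁, (f v, g v - c.am f v) ∈ c.Sg := fun v hv s hs =>
    hr _ _ (((norm_smul_le _ _).trans (mul_le_of_le_one_left (norm_nonneg _)
      (by rw [Real.norm_of_nonneg hs.1]; exact hs.2))).trans_lt (g3 v hv))
  refine ⟨fun v => P (f v, g v - c.am f v), interior K₁, isOpen_interior, k2,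
    ⟨(hP.cont.comp ((hf.mono k3).prodMk (g1.continuous.continuousOn.sub ha)) hS).mono
      interior_subset, (c.contDiffOn_ρ.comp g1.contDiffOn fun v hv => ?_).congr fun v hv => ?_⟩,
    fun v hv => ?_⟩
  · simpa [am] using Sg.mem_U (hS v (interior_subset hv))
  · exact (congrArg c.ι (hP.proj _ (hS v (interior_subset hv)))).trans (by simp [am, ρ])
  · simp only [g2 ⟨hv.1, interior_subset hv.2⟩, sub_self, hP.zero]

theorem fill {Q : Type} [NormedAddCommGroup Q] [NormedSpace ℝ Q] [FiniteDimensional ℝ Q]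
    {K R : Set Q} (hK : IsClosed K) (hne : K.Nonempty) (hR : IsCompact R) {x₀ : V}
    {g : Q × V → c.Y} (hg : c.SmNear g ((R \ interior K) ×ˢ {x₀})) {G₀ : Q → c.Y}
    (hG : ContinuousOn G₀ K) (he : ∀ p ∈ frontier K, G₀ p = g (p, x₀)) {η : ℝ} (hη : 0 < η) :
    ∃ G : Q × V → c.Y, c.SmNear G (R ×ˢ {x₀}) ∧
      ∀ p ∈ R, η < Metric.infDist p K → G =ᶠ[𝓝 (p, x₀)] g := by
  obtain ⟨O, hO, h1, h2⟩ := hg
  obtain ⟨A, B, hA, hB, h3, h4, h5⟩ := generalized_tube_lemma (hR.diff isOpen_interior)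
    isCompact_singleton hO h1
  obtain ⟨ρ, hρ, h6⟩ := Metric.isOpen_iff.1 hB x₀ (h4 rfl)
  have h0 := Metric.mem_ball_self (x := x₀) hρ
  obtain ⟨G₁, h7, h8⟩ := ext_param (A := A ∪ interior K) hK hne
    ((convex_ball x₀ ρ).starConvex h0) h0
    (h2.1.mono fun p hp => h5 ⟨hp.1.1.resolve_right hp.1.2, h6 hp.2⟩) hG he (half_pos hη)
  have hd : Continuous fun p : Q × V => Metric.infDist p.1 K :=
    (Metric.continuous_infDist_pt K).comp continuous_fst
  have hO₁ : IsOpen ((A ∪ interior K) ×ˢ Metric.ball x₀ ρ) :=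
    (hA.union isOpen_interior).prod Metric.isOpen_ball
  obtain ⟨G, O₁, h9, h10, h11, h12⟩ := smoothing (c := c) (f := G₁) (K := R ×ˢ {x₀})
    (C := {p | η ≤ Metric.infDist p.1 K})
    (O' := (A ∪ interior K) ×ˢ Metric.ball x₀ ρ ∩ {p | η / 2 < Metric.infDist p.1 K})
    (hR.prod isCompact_singleton) hO₁
    (fun p hp => ⟨(em (p.1 ∈ interior K)).elim .inr fun e => .inl (h3 ⟨hp.1, e⟩), hp.2 ▸ h0⟩) h7
    (isClosed_le continuous_const hd) (hO₁.inter (isOpen_lt continuous_const hd))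
    (fun p hp => ⟨hp.2, (half_lt_self hη).trans_le hp.1⟩)
    ((h2.mono fun p hp => h5 ⟨hp.1.1.resolve_right fun e => by
      have := hp.2
      rw [mem_setOf_eq, Metric.infDist_zero_of_mem (interior_subset e)] at this
      linarith, h6 hp.1.2⟩).congr fun p hp => h8 p.1 p.2 (le_of_lt hp.2))
  refine ⟨G, ⟨O₁, h9, h10, h11⟩, fun p hp h => ?_⟩
  filter_upwards [h9.mem_nhds (h10 (mk_mem_prod hp rfl)),
    (isOpen_lt continuous_const hd).mem_nhds (show (p, x₀) ∈ _ from h)] with z z1 z2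
  exact (h12 ⟨le_of_lt z2, z1⟩).trans (h8 z.1 z.2 ((half_le_self hη.le).trans (le_of_lt z2)))

end Ctx

end Pool.Agent.CSP
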