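import Pool.Agent.Lib.MP_436e1a_gt.H.Need

/-! Linear algebra of frames, oriented bases and signs of crossings. -/

open scoped Manifold ContDiff Topology RealInnerProductSpace Classical
open Set

namespace Pool.Agent.CSP

section
variable {n : ℕ} {W : Type} [NormedAddCommGroup W] [NormedSpace ℝ W]

theorem fr_single (a : Fin n → W) (k : Fin n) : fr a (EuclideanSpace.single k 1) = a k := by
  simp [fr_apply]

theorem lin_self (A : E n →L[ℝ] W) : (fr fun k => A (EuclideanSpace.single k 1)) = A := by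
  ext u
  rw [fr_apply]
  conv_rhs => rw [← (EuclideanSpace.basisFun (Fin n) ℝ).sum_repr u]
  simp

theorem lin_L (L : ℝ × E 3 →L[ℝ] W) (τ a b : ℝ) (v w : E 3) :
    L (τ, a • v + b • w) = a • L (0, v) + b • L (0, w) + τ • L (1, 0) := by
  simp only [← map_smul, ← map_add]
  simp

end

theorem OB.ne_zero {x v w : E 3} (h : OB x v w) : x ≠ 0 := by
  rintro rfl
  simpa [det3] using h.2.2

namespace Ctx

variable {c : Ctx} {m : c.M} {ε : ℤˣ}

/-- column operations: compose with the endomorphism of `E 5` with matrix `B` -/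
theorem Sgn.mat {a : Fin 5 → E c.N} (h : c.Sgn m (fr a) ε) (B : Matrix (Fin 5) (Fin 5) ℝ) {s : ℤˣ}
    (hB : 0 < ((s : ℤ) : ℝ) * B.det) : c.Sgn m (fr fun k => ∑ l, B l k • a l) (s * ε) := by
  obtain ⟨B₀, e, h0⟩ := h
  have e1 : (fr fun k => ∑ l, B l k • a l) =
      (fr a).comp (fr fun k => (WithLp.toLp 2 fun l => B l k : E 5)) := by
    simp only [comp_fr, fr_apply]
  have e2 : (fr fun k => (WithLp.toLp 2 fun l => B l k : E 5)).det = B.det := det_fr _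
  refine ⟨B₀.comp _, by rw [e1, e]; rfl, ?_⟩
  rw [show (B₀.comp _).det = B₀.det * _ from LinearMap.det_comp _ _]
  change _ < _ * (_ * (fr _).det)
  rw [e2]
  push_cast
  nlinarith [mul_pos hB h0]

theorem Sgn.last {a₀ a₁ a₂ a₃ a₄ : E c.N} (h : c.Sgn m (fr ![a₀, a₁, a₂, a₃, a₄]) ε) (p q : ℝ)
    {τ : ℝ} {s : ℤˣ} (hs : 0 < ((s : ℤ) : ℝ) * τ) :
    c.Sgn m (fr ![a₀ + p • a₄, a₁ + q • a₄, a₂, a₃, τ • a₄]) (s * ε) := by
  have := h.mat !![1, 0, 0, 0, 0; 0, 1, 0, 0, 0; 0, 0, 1, 0, 0; 0, 0, 0, 1, 0; p, q, 0, 0, τ]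
    (s := s) (by simpa [Matrix.det_succ_row_zero, Fin.sum_univ_succ, Fin.succAbove] using hs)
  refine Eq.mp (congrArg (fun a => c.Sgn m (fr a) _) (funext fun k => ?_)) this
  fin_cases k <;> simp [Fin.sum_univ_succ]

theorem Sgn.swap {a₀ a₁ a₂ a₃ a₄ : E c.N} (h : c.Sgn m (fr ![a₀, a₁, -a₂, -a₃, a₄]) ε) :
    c.Sgn m (fr ![a₂, a₃, -a₀, -a₁, -a₄]) (-ε) := by
  have := h.mat !![0, 0, -1, 0, 0; 0, 0, 0, -1, 0; -1, 0, 0, 0, 0; 0, -1, 0, 0, 0; 0, 0, 0, 0, -1]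
    (s := -1) (by simp [Matrix.det_succ_row_zero, Fin.sum_univ_succ, Fin.succAbove])
  rw [neg_one_mul] at this
  refine Eq.mp (congrArg (fun a => c.Sgn m (fr a) _) (funext fun k => ?_)) this
  fin_cases k <;> simp [Fin.sum_univ_succ]

theorem exists_Sgn {A : E 5 →L[ℝ] E c.N} (hA : Function.Injective A)
    (h : ∀ ξ, A ξ ∈ range (c.dι m)) : ∃ ε, c.Sgn m A ε := by
  choose b hb using fun k => h (EuclideanSpace.single k 1)
  have e : A = (c.dι m).comp (fr b) := by simp only [comp_fr, hb, lin_self]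
  have h0 : (fr b).det ≠ 0 := fun e0 => LinearMap.det_eq_zero_iff_ker_ne_bot.1 e0
    (LinearMap.ker_eq_bot.2 (Function.Injective.of_comp (f := c.dι m) (g := fr b) (e ▸ hA :
      Function.Injective ((c.dι m).comp (fr b)))))
  rcases h0.lt_or_gt with h1 | h1
  · exact ⟨-1, _, e, by simpa using h1⟩
  · exact ⟨1, _, e, by simpa using h1⟩

theorem lin_blk {a₀ a₁ a₂ a₃ a₄ : E c.N} (h : c.Sgn m (fr ![a₀, a₁, a₂, a₃, a₄]) ε)
    {a b d e a' b' d' e' : ℝ} (h1 : 0 < a * e - b * d) (h2 : 0 < a' * e' - b' * d') :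
    c.Sgn m (fr ![a • a₀ + b • a₁, d • a₀ + e • a₁, a' • a₂ + b' • a₃, d' • a₂ + e' • a₃, a₄]) ε := by
  have := h.mat
    !![a, d, 0, 0, 0; b, e, 0, 0, 0; 0, 0, a', d', 0; 0, 0, b', e', 0; 0, 0, 0, 0, 1] (s := 1) (by
      simp [Matrix.det_succ_row_zero, Fin.sum_univ_succ, Fin.succAbove]
      nlinarith [mul_pos h1 h2])
  rw [one_mul] at this
  refine Eq.mp (congrArg (fun a => c.Sgn m (fr a) _) (funext fun k => ?_)) this
  fin_cases k <;> simp [Fin.sum_univ_succ]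

variable {f g : ℝ × E 3 → c.Y} {t : ℝ} {x y : E 3}

/-- the sign does not depend on the oriented bases (`OB.change`, `Sgn.mat`) -/
theorem Cross.all (h : c.Cross f g ε t x y) {v₁ v₂ w₁ w₂ : E 3} (hv : OB x v₁ v₂) (hw : OB y w₁ w₂) :
    c.Sgn (c.q (f (t, x))) (c.crossFr f g t x y v₁ v₂ w₁ w₂) ε := by
  obtain ⟨-, _, _, _, _, hv', hw', hs⟩ := h
  obtain ⟨a, b, d, e, rfl, rfl, h1⟩ := hv'.change hv
  obtain ⟨a', b', d', e', rfl, rfl, h2⟩ := hw'.change hw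
  have := lin_blk hs h1 h2
  rw [crossFr]
  simp only [lin_L, zero_smul, add_zero, neg_add, ← smul_neg]
  exact this

theorem lin_cross (v₁ v₂ w₁ w₂ : E 3) (u : E 5) : c.crossFr f g t x y v₁ v₂ w₁ w₂ u =
    fderiv ℝ (c.am f) (t, x) (u 4, u 0 • v₁ + u 1 • v₂) -
      fderiv ℝ (c.am g) (t, y) (u 4, u 2 • w₁ + u 3 • w₂) := by
  rw [crossFr, fr_apply, lin_L, lin_L, Fin.sum_univ_five]
  simp only [Matrix.cons_val, smul_neg, smul_sub]
  abel

/-- transversality without bases -/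
def Tr (c : Ctx) (f g : ℝ × E 3 → c.Y) (t : ℝ) (x y : E 3) : Prop :=
  ∀ (τ : ℝ) (v w : E 3), ⟪x, v⟫ = 0 → ⟪y, w⟫ = 0 →
    fderiv ℝ (c.am f) (t, x) (τ, v) = fderiv ℝ (c.am g) (t, y) (τ, w) → τ = 0 ∧ v = 0 ∧ w = 0

theorem Cross.tr (h : c.Cross f g ε t x y) : c.Tr f g t x y := by
  obtain ⟨-, v₁, v₂, w₁, w₂, hv, hw, hs⟩ := h
  intro τ v w h1 h2 e
  obtain ⟨a, b, rfl⟩ := hv.span h1
  obtain ⟨a', b', rfl⟩ := hw.span h2
  have := hs.inj (a₁ := !₂[a, b, a', b', τ]) (a₂ := 0) (by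
    rw [map_zero, lin_cross]
    exact sub_eq_zero.2 e)
  have h0 : ∀ k, (!₂[a, b, a', b', τ] : E 5) k = 0 := fun k => by rw [this]; rfl
  obtain rfl : a = 0 := h0 0
  obtain rfl : b = 0 := h0 1
  obtain rfl : a' = 0 := h0 2
  obtain rfl : b' = 0 := h0 3
  exact ⟨h0 4, by simp, by simp⟩

/-- `exists_OB`, `exists_Sgn`, `nd_tangent` -/
theorem Tr.cross (h : c.Tr f g t x y) (he : f (t, x) = g (t, y)) (hf : c.SmNear f {(t, x)})
    (hg : c.SmNear g {(t, y)}) (hx : x ≠ 0) (hy : y ≠ 0) : ∃ ε, c.Cross f g ε t x y := by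
  obtain ⟨v₁, v₂, hv⟩ := exists_OB hx
  obtain ⟨w₁, w₂, hw⟩ := exists_OB hy
  obtain ⟨ε, hε⟩ := exists_Sgn (m := c.q (f (t, x))) (A := c.crossFr f g t x y v₁ v₂ w₁ w₂)
    ((injective_iff_map_eq_zero _).2 fun u hu => by
      rw [lin_cross, sub_eq_zero] at hu
      obtain ⟨h4, h0, h2⟩ := h _ _ _ (by simp [inner_add_right, inner_smul_right, hv.1, hv.2.1])
        (by simp [inner_add_right, inner_smul_right, hw.1, hw.2.1]) hu
      ext k
      fin_cases k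
      exacts [(hv.indep h0).1, (hv.indep h0).2, (hw.indep h2).1, (hw.indep h2).2, h4])
    fun u => by
      obtain ⟨a, ha⟩ := nd_tangent hf (u 4, u 0 • v₁ + u 1 • v₂)
      obtain ⟨b, hb⟩ := nd_tangent hg (u 4, u 2 • w₁ + u 3 • w₂)
      rw [← he] at hb
      exact ⟨a - b, by rw [map_sub, ha, hb, lin_cross]⟩
  exact ⟨ε, he, v₁, v₂, w₁, w₂, hv, hw, hε⟩

theorem Cross.flip {γ : c.G} (h : c.Cross f (fun p => γ • g p) ε t x y) :
    c.Cross g (fun p => γ⁻¹ • f p) (-ε) t y x := by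
  obtain ⟨e, v₁, v₂, w₁, w₂, hv, hw, hs⟩ := h
  have e1 : ∀ (k : c.G) (F : ℝ × E 3 → c.Y), c.am (fun p => k • F p) = c.am F := fun k F =>
    funext fun p => congrArg c.ι (nd_q_smul k (F p))
  refine ⟨eq_inv_smul_iff.2 e.symm, w₁, w₂, v₁, v₂, hw, hv, ?_⟩
  rw [crossFr, e1, e, nd_q_smul] at hs
  rw [crossFr, e1, ← neg_sub]
  exact hs.swap

end Ctx

end Pool.Agent.CSP
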