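import Pool.Agent.Lib.MP_436e1a_gt.H.Gp1
import Pool.Agent.Lib.MP_436e1a_gt.H.Push
import Pool.Agent.Lib.MP_436e1a_gt.H.Lin

/-! A family of maps with the right bottom and the right crossing can be perturbed to boxes. -/

open scoped Manifold ContDiff Topology RealInnerProductSpace Classical
open Set MeasureTheory

namespace Pool.Agent.CSP

section
variable {Z : Type} [NormedAddCommGroup Z] [NormedSpace ℝ Z] {χ : ℝ → ℝ}

/-- the perturbation `χ u * t * (t - 1) ^ 2 • (b.1 + b.2 (t, x))` -/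
noncomputable def fw (Z : Type) [NormedAddCommGroup Z] [NormedSpace ℝ Z] (χ : ℝ → ℝ)
    (p : ℝ × ℝ × E 3) : Z × (ℝ × E 3 →L[ℝ] Z) →L[ℝ] Z :=
  (χ p.1 * (p.2.1 * (p.2.1 - 1) ^ 2)) • (ContinuousLinearMap.fst ℝ _ _ +
    (ContinuousLinearMap.apply ℝ Z p.2).comp (ContinuousLinearMap.snd ℝ _ _))

theorem fw_apply (p : ℝ × ℝ × E 3) (b : Z × (ℝ × E 3 →L[ℝ] Z)) :
    fw Z χ p b = (χ p.1 * (p.2.1 * (p.2.1 - 1) ^ 2)) • (b.1 + b.2 p.2) := rfl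

theorem fin_smul {X B Z : Type} [NormedAddCommGroup X] [NormedSpace ℝ X] [NormedAddCommGroup B]
    [NormedSpace ℝ B] [NormedAddCommGroup Z] [NormedSpace ℝ Z] {s : X → ℝ} {f : X → B →L[ℝ] Z}
    (hs : ContDiff ℝ ∞ s) (hf : ContDiff ℝ ∞ f) : ContDiff ℝ ∞ fun x => s x • f x := hs.smul hf

theorem fin_apply {X Z : Type} [NormedAddCommGroup X] [NormedSpace ℝ X] [NormedAddCommGroup Z]
    [NormedSpace ℝ Z] : ContDiff ℝ ∞ fun x : X => ContinuousLinearMap.apply ℝ Z x :=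
  ContinuousLinearMap.contDiff (𝕜 := ℝ) (E := X) (F := (X →L[ℝ] Z) →L[ℝ] Z)
    (ContinuousLinearMap.apply ℝ Z)

theorem fw_smooth (hχ : ContDiff ℝ ∞ χ) : ContDiff ℝ ∞ (fw Z χ) :=
  fin_smul ((hχ.comp contDiff_fst).mul (by fun_prop)) (contDiff_const.add
    ((fin_apply.comp contDiff_snd).clm_comp contDiff_const))

theorem fw_val {u t t' : ℝ} (hu : χ u ≠ 0) (h0 : t ≠ 0) (h1 : t ≠ 1) (ht : t ≠ t') (x : E 3) (a : Z) :
    ∃ β, fw Z χ (u, t, x) β = a ∧ fw Z χ (u, t', x) β = 0 := by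
  have h2 := sub_ne_zero.2 h1
  have h3 := sub_ne_zero.2 ht
  refine ⟨(-t' • (χ u * (t * (t - 1) ^ 2) * (t - t'))⁻¹ • a, (ContinuousLinearMap.fst ℝ _ _).smulRight
    ((χ u * (t * (t - 1) ^ 2) * (t - t'))⁻¹ • a)), ?_, ?_⟩
  · simp only [fw_apply, ContinuousLinearMap.smulRight_apply, ContinuousLinearMap.coe_fst',
      ← add_smul, smul_smul]
    convert one_smul ℝ a
    field_simp
    ring
  · simp [fw_apply]

theorem fw_deriv (hχ : ContDiff ℝ ∞ χ) (u t τ : ℝ) (x v : E 3) (β : Z × (ℝ × E 3 →L[ℝ] Z)) :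
    fderiv ℝ (fw Z χ) (u, t, x) (0, τ, v) β = (χ u * (t * (t - 1) ^ 2)) • β.2 (τ, v) +
      (χ u * (τ * ((t - 1) ^ 2 + 2 * t * (t - 1)))) • (β.1 + β.2 (t, x)) := by
  have h0 : HasDerivAt (fun s : ℝ => t + s * τ) τ 0 := by
    simpa using ((hasDerivAt_id (0 : ℝ)).mul_const τ).const_add t
  have h1 : HasDerivAt (fun s : ℝ => (t + s * τ, x + s • v)) (τ, v) 0 :=
    h0.prodMk (by simpa using ((hasDerivAt_id (0 : ℝ)).smul_const v).const_add x)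
  have h2 := (((fw_smooth (Z := Z) hχ).differentiable (by simp) (u, t, x)).hasFDerivAt.comp_hasDerivAt_of_eq
    0 ((hasDerivAt_const (0 : ℝ) u).prodMk h1) (by simp)).clm_apply (hasDerivAt_const _ β)
  have h3 := ((h0.mul ((h0.sub_const 1).pow 2)).const_mul (χ u)).smul
    ((β.2.hasFDerivAt.comp_hasDerivAt 0 h1).const_add β.1)
  have h4 := h2.unique h3
  simp only [map_zero, add_zero] at h4
  rw [h4]
  simp only [Pi.mul_apply, Pi.pow_apply, zero_mul, add_zero, Function.comp, zero_smul]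
  congr 2
  ring

theorem fw_jet (hχ : ContDiff ℝ ∞ χ) {u t τ : ℝ} {v : E 3} (hu : χ u ≠ 0) (h1 : t ≠ 1)
    (h0 : t ≠ 0 ∨ τ ≠ 0) (hv : (τ, v) ≠ 0) (x : E 3) (a : Z) :
    ∃ β, fw Z χ (u, t, x) β = 0 ∧ fderiv ℝ (fw Z χ) (u, t, x) (0, τ, v) β = a := by
  have h2 := sub_ne_zero.2 h1
  rcases eq_or_ne t 0 with rfl | ht
  · have h3 := h0.resolve_left (not_not.2 rfl)
    refine ⟨((χ u * τ)⁻¹ • a, 0), by simp [fw_apply], ?_⟩
    simp only [fw_deriv hχ, zero_apply, smul_zero, zero_add, add_zero, smul_smul]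
    convert one_smul ℝ a
    field_simp
    ring
  · obtain ⟨ℓ, hℓ⟩ := SeparatingDual.exists_eq_one (R := ℝ) hv
    refine ⟨(-(ℓ (t, x) • (χ u * (t * (t - 1) ^ 2))⁻¹ • a),
      ℓ.smulRight ((χ u * (t * (t - 1) ^ 2))⁻¹ • a)), by simp [fw_apply], ?_⟩
    simp only [fw_deriv hχ, ContinuousLinearMap.smulRight_apply, hℓ, neg_add_cancel, smul_zero,
      add_zero, smul_smul]
    convert one_smul ℝ a
    field_simp

theorem fw_one (hχ : ContDiff ℝ ∞ χ) (u : ℝ) (x : E 3) (b : Z × (ℝ × E 3 →L[ℝ] Z)) :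
    fw Z χ (u, 1, x) b = 0 ∧ fderiv ℝ (fun z : ℝ × E 3 => fw Z χ (u, z) b) (1, x) = 0 := by
  refine ⟨by simp [fw_apply], ContinuousLinearMap.ext fun ⟨τ, v⟩ => ?_⟩
  have h1 := (fw_smooth (Z := Z) hχ).differentiable (by simp) (u, 1, x)
  rw [fderiv_slice' (f := fun p => fw Z χ p b) (h1.clm_apply (differentiableAt_const _)),
    fderiv_clm_apply h1 (differentiableAt_const _)]
  simp [fw_deriv hχ]

end

theorem fin_surj {V : Type} [NormedAddCommGroup V] [NormedSpace ℝ V] (A : V →L[ℝ] E 0) :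
    Function.Surjective A := fun _ => ⟨0, Subsingleton.elim _ _⟩

namespace Ctx

variable {c : Ctx} {ι : Type} {δ : Dat ι c.G} {x₀ y₀ : E 3} {L : ι → E 3 → c.Y} {T : ℝ}
  {G : ℝ × ℝ × E 3 → c.Y} {χ : ℝ → ℝ} {P : c.Y × E c.N → c.Y} {O : Set (ℝ × ℝ × E 3)}

theorem Psh.ι_q (hP : c.Psh P) {p : c.Y × E c.N} (h : p ∈ c.Sg) :
    c.ι (c.q (P p)) = c.ρ (c.ι (c.q p.1) + p.2) := congrArg c.ι (hP.proj p h)

section
variable [MeasurableSpace (E c.N × (ℝ × E 3 →L[ℝ] E c.N))]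
  [BorelSpace (E c.N × (ℝ × E 3 →L[ℝ] E c.N))] (μ : Measure (E c.N × (ℝ × E 3 →L[ℝ] E c.N)))
  [μ.IsAddHaarMeasure]

theorem fin_imm (hP : c.Psh P) (hx : x₀ ∈ S2) (hO : IsOpen O) (hG : c.SmOn G O)
    (hχ : ContDiff ℝ ∞ χ) : ∀ᵐ b ∂μ, ∀ u t, (u, t, x₀) ∈ O → χ u ≠ 0 → t ≠ 1 →
      (G (u, t, x₀), fw _ χ (u, t, x₀) b) ∈ c.Sg → ∀ τ v, ⟪x₀, v⟫ = 0 → (t ≠ 0 ∨ τ ≠ 0) →
        fderiv ℝ (c.am fun z => P (G (u, z), fw _ χ (u, z) b)) (t, x₀) (τ, v) = 0 →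
          τ = 0 ∧ v = 0 := by
  obtain ⟨v₁, v₂, hv⟩ := exists_OB (ne_zero_of_S2 hx)
  have hc := hχ.continuous
  have hn : ∀ p : (ℝ × ℝ) × E 3, ‖p.2‖ ^ 2 - 1 = 0 → p.2 ≠ 0 := fun p h e => by simp [e] at h
  have h1 := ae_imm (c := c) (V := (ℝ × ℝ) × E 3) (K := ℝ) μ (h := c.am G) (w := fw _ χ)
    (π := fun p => (p.1.1, p.1.2, x₀)) (ξ := fun p => (0, p.2 0, p.2 1 • v₁ + p.2 2 • v₂))
    (κ := fun p => ‖p.2‖ ^ 2 - 1)
    (O := {p | (p.1.1, p.1.2, x₀) ∈ O ∧ χ p.1.1 ≠ 0 ∧ p.1.2 ≠ 1 ∧ (p.1.2 ≠ 0 ∨ p.2 0 ≠ 0)})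
    ((hO.preimage (by fun_prop)).inter ((isOpen_ne_fun (by fun_prop) continuous_const).inter
      ((isOpen_ne_fun (by fun_prop) continuous_const).inter
        ((isOpen_ne_fun (by fun_prop) continuous_const).union
          (isOpen_ne_fun (by fun_prop) continuous_const)))))
    (by fun_prop) (by fun_prop) (fun p hp => hG.2.contDiffAt (hO.mem_nhds hp.1)) (fw_smooth hχ)
    (((contDiff_norm_sq ℝ).comp contDiff_snd).sub contDiff_const) (by simp)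
    (fun p _ h r => ⟨(0, (r / 2) • p.2), by
      rw [← fderiv_slice' (f := fun p : (ℝ × ℝ) × E 3 => ‖p.2‖ ^ 2 - 1)
        ((((contDiff_norm_sq ℝ (n := 1)).comp contDiff_snd).sub contDiff_const).differentiable
          (by simp) _), fderiv_norm_sq, inner_smul_right, real_inner_self_eq_norm_sq,
        sub_eq_zero.1 h]
      ring⟩)
    fun p hp h a => fw_jet hχ hp.2.1 hp.2.2.1 hp.2.2.2 (fun e => hn p h (by
      have e1 := hv.indep (congrArg Prod.snd e)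
      exact ml_ext (congrArg Prod.fst e) e1.1 e1.2)) x₀ a
  filter_upwards [h1] with b hb u t h2 h3 h4 h5 τ v h6 h7 h8
  obtain ⟨s₁, s₂, rfl⟩ := hv.span h6
  by_contra h9
  have h10 : (!₂[τ, s₁, s₂] : E 3) ≠ 0 := fun e => h9 (by
    have e0 : τ = 0 := congrArg (fun z : E 3 => z 0) e
    have e1 : s₁ = 0 := congrArg (fun z : E 3 => z 1) e
    have e2 : s₂ = 0 := congrArg (fun z : E 3 => z 2) e
    simp [e0, e1, e2])
  have hs : c.SmNear G {(u, t, x₀)} := ⟨O, hO, singleton_subset_iff.2 h2, hG⟩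
  have hw : ContDiff ℝ ∞ fun p => fw (E c.N) χ p b := (fw_smooth hχ).clm_apply contDiff_const
  have h11 := inv_ne_zero (norm_ne_zero_iff.2 h10)
  refine hb ((u, t), nrm !₂[τ, s₁, s₂]) ⟨h2, h3, h4, h7.imp_right fun e => mul_ne_zero h11 e⟩
    (by simp [norm_nrm h10]) (Sg.mem_U h5) ?_
  rw [← hP.fderiv hs hw h5]
  rw [fderiv_slice (f := fun p => P (G p, fw _ χ p b)) ((hP.smNear hs hw
    (by rintro _ rfl; exact h5)).differentiableAt rfl)] at h8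
  have e : ((0 : ℝ), (nrm !₂[τ, s₁, s₂] : E 3) 0, (nrm !₂[τ, s₁, s₂] : E 3) 1 • v₁ +
      (nrm !₂[τ, s₁, s₂] : E 3) 2 • v₂) = ‖(!₂[τ, s₁, s₂] : E 3)‖⁻¹ • ((0 : ℝ), τ, s₁ • v₁ + s₂ • v₂) := by
    simp [nrm, smul_smul]
  rw [e, map_smul, h8, smul_zero]

theorem fin_gen {V K : Type} [NormedAddCommGroup V] [NormedSpace ℝ V] [FiniteDimensional ℝ V]
    [NormedAddCommGroup K] [NormedSpace ℝ K] [FiniteDimensional ℝ K] (hP : c.Psh P) (hO : IsOpen O)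
    (hG : c.SmOn G O) (hχ : ContDiff ℝ ∞ χ) {a : V → c.Y} {A : Set V} (ha : c.SmNear a A)
    {κ : V → K} (hκ : ContDiff ℝ ∞ κ) (hV : 2 + Module.finrank ℝ V < 5 + Module.finrank ℝ K)
    (hk : ∀ v, κ v = 0 → Function.Surjective (fderiv ℝ κ v)) :
    ∀ᵐ b ∂μ, ∀ u t, (u, t, x₀) ∈ O → χ u ≠ 0 → t ≠ 0 → t ≠ 1 →
      (G (u, t, x₀), fw _ χ (u, t, x₀) b) ∈ c.Sg → ∀ y ∈ A, κ y = 0 →
        c.q (P (G (u, t, x₀), fw _ χ (u, t, x₀) b)) ≠ c.q (a y) := by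
  obtain ⟨O', o1, o2, o3⟩ := ha
  have hc := hχ.continuous
  have hπ : ContDiff ℝ ∞ fun p : (ℝ × ℝ) × V => (p.1.1, p.1.2, x₀) := by fun_prop
  have h1 := ae_miss (c := c) (V := (ℝ × ℝ) × V) μ (h₁ := fun p => c.am G (p.1.1, p.1.2, x₀))
    (w₁ := fun p => fw _ χ (p.1.1, p.1.2, x₀)) (h₂ := fun p => c.am a p.2) (w₂ := fun _ => 0)
    (κ := fun p => κ p.2)
    (O := {p | (p.1.1, p.1.2, x₀) ∈ O ∧ p.2 ∈ O' ∧ χ p.1.1 ≠ 0 ∧ p.1.2 ≠ 0 ∧ p.1.2 ≠ 1})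
    ((hO.preimage (by fun_prop)).inter ((o1.preimage continuous_snd).inter
      ((isOpen_ne_fun (by fun_prop) continuous_const).inter
        ((isOpen_ne_fun (by fun_prop) continuous_const).inter
          (isOpen_ne_fun (by fun_prop) continuous_const)))))
    (hG.2.comp hπ.contDiffOn fun _ hp => hp.1) (o3.2.comp contDiffOn_snd fun _ hp => hp.2.1)
    ((fw_smooth (Z := E c.N) hχ).comp hπ).contDiffOn contDiffOn_const (hκ.comp contDiff_snd) (by simpa using hV)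
    (fun p _ h r => by
      obtain ⟨v, hv⟩ := hk _ h r
      exact ⟨(0, v), (fderiv_slice' (f := fun p : (ℝ × ℝ) × V => κ p.2)
        ((hκ.comp contDiff_snd).differentiable (by simp) _) v).symm.trans hv⟩)
    fun p hp _ a => (fw_val hp.2.2.1 hp.2.2.2.1 hp.2.2.2.2 hp.2.2.2.1 x₀ a).imp
      fun _ h => ⟨h.1, rfl⟩
  filter_upwards [h1] with b hb u t h2 h3 h4 h5 h6 y h7 h8 e
  refine hb ((u, t), y) ⟨h2, o2 h7, h3, h4, h5⟩ h8 (Sg.mem_U h6) (by simpa using c.am_mem_U a y) ?_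
  refine (hP.ι_q h6).symm.trans ((congrArg c.ι e).trans ?_)
  simp only [zero_apply, add_zero]
  exact (c.ρ_ι _).symm

theorem fin_inj (hP : c.Psh P) (hO : IsOpen O) (hG : c.SmOn G O) (hχ : ContDiff ℝ ∞ χ) :
    ∀ᵐ b ∂μ, ∀ u t t', (u, t, x₀) ∈ O → (u, t', x₀) ∈ O → χ u ≠ 0 → t ≠ 0 → t ≠ 1 → t ≠ t' →
      (G (u, t, x₀), fw _ χ (u, t, x₀) b) ∈ c.Sg → (G (u, t', x₀), fw _ χ (u, t', x₀) b) ∈ c.Sg →
        c.q (P (G (u, t, x₀), fw _ χ (u, t, x₀) b)) ≠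
          c.q (P (G (u, t', x₀), fw _ χ (u, t', x₀) b)) := by
  have hc := hχ.continuous
  have hπ : ContDiff ℝ ∞ fun p : ℝ × ℝ × ℝ => (p.1, p.2.1, x₀) := by fun_prop
  have hπ' : ContDiff ℝ ∞ fun p : ℝ × ℝ × ℝ => (p.1, p.2.2, x₀) := by fun_prop
  have h1 := ae_miss (c := c) (V := ℝ × ℝ × ℝ) μ (h₁ := fun p => c.am G (p.1, p.2.1, x₀))
    (w₁ := fun p => fw _ χ (p.1, p.2.1, x₀)) (h₂ := fun p => c.am G (p.1, p.2.2, x₀))
    (w₂ := fun p => fw _ χ (p.1, p.2.2, x₀)) (κ := fun _ => (0 : E 0))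
    (O := {p | (p.1, p.2.1, x₀) ∈ O ∧ (p.1, p.2.2, x₀) ∈ O ∧ χ p.1 ≠ 0 ∧ p.2.1 ≠ 0 ∧ p.2.1 ≠ 1 ∧
      p.2.1 ≠ p.2.2})
    ((hO.preimage (by fun_prop)).inter ((hO.preimage (by fun_prop)).inter
      ((isOpen_ne_fun (by fun_prop) continuous_const).inter
        ((isOpen_ne_fun (by fun_prop) continuous_const).inter
          ((isOpen_ne_fun (by fun_prop) continuous_const).inter
            (isOpen_ne_fun (by fun_prop) (by fun_prop)))))))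
    (hG.2.comp hπ.contDiffOn fun _ hp => hp.1) (hG.2.comp hπ'.contDiffOn fun _ hp => hp.2.1)
    ((fw_smooth (Z := E c.N) hχ).comp hπ).contDiffOn ((fw_smooth (Z := E c.N) hχ).comp hπ').contDiffOn contDiff_const
    (by simp) (fun _ _ _ => fin_surj _)
    fun p hp _ a => fw_val hp.2.2.1 hp.2.2.2.1 hp.2.2.2.2.1 hp.2.2.2.2.2 x₀ a
  filter_upwards [h1] with b hb u t t' h2 h3 h4 h5 h6 h7 h8 h9 e
  exact hb (u, t, t') ⟨h2, h3, h4, h5, h6, h7⟩ rfl (Sg.mem_U h8) (Sg.mem_U h9)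
    ((hP.ι_q h8).symm.trans ((congrArg c.ι e).trans (hP.ι_q h9)))

theorem fin_miss (hP : c.Psh P) (hO : IsOpen O) (hG : c.SmOn G O) (hχ : ContDiff ℝ ∞ χ)
    {a : E 3 → c.Y} (ha : c.SmNear a S2) :
    ∀ᵐ b ∂μ, ∀ u t, (u, t, x₀) ∈ O → χ u ≠ 0 → t ≠ 0 → t ≠ 1 →
      (G (u, t, x₀), fw _ χ (u, t, x₀) b) ∈ c.Sg → ∀ y ∈ S2,
        c.q (P (G (u, t, x₀), fw _ χ (u, t, x₀) b)) ≠ c.q (a y) := by
  filter_upwards [fin_gen (x₀ := x₀) μ hP hO hG hχ ha (κ := fun y => ‖y‖ ^ 2 - 1)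
    ((contDiff_norm_sq ℝ).sub contDiff_const) (by simp) fun y h r => ⟨(r / 2) • y, by
      rw [fderiv_norm_sq, inner_smul_right, real_inner_self_eq_norm_sq, sub_eq_zero.1 h]
      ring⟩] with b hb u t h2 h3 h4 h5 h6 y hy
  exact hb u t h2 h3 h4 h5 h6 y hy (by simp [mem_sphere_zero_iff_norm.1 hy])

theorem fin_obs (hP : c.Psh P) (hO : IsOpen O) (hG : c.SmOn G O) (hχ : ContDiff ℝ ∞ χ)
    {o : ℝ → c.Y} {A : Set ℝ} (ho : c.SmNear o A) :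
    ∀ᵐ b ∂μ, ∀ u t, (u, t, x₀) ∈ O → χ u ≠ 0 → t ≠ 0 → t ≠ 1 →
      (G (u, t, x₀), fw _ χ (u, t, x₀) b) ∈ c.Sg → ∀ s ∈ A,
        c.q (P (G (u, t, x₀), fw _ χ (u, t, x₀) b)) ≠ c.q (o s) := by
  filter_upwards [fin_gen (x₀ := x₀) μ hP hO hG hχ ho (κ := fun _ => (0 : E 0)) contDiff_const
    (by simp) fun _ _ => fin_surj _] with b hb u t h2 h3 h4 h5 h6 y hy
  exact hb u t h2 h3 h4 h5 h6 y hy rfl

end

end Ctx

end Pool.Agent.CSP
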