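import Pool.Agent.Lib.MP_436e1a_gt.H.Frz
import Pool.Agent.Lib.MP_436e1a_gt.H.Gr

/-! Every step is a push along a box. -/

open scoped Manifold ContDiff Topology RealInnerProductSpace Classical
open Set

namespace Pool.Agent.CSP

namespace Ctx

variable {c : Ctx} {ι : Type} {F : ι → ℝ × E 3 → c.Y} {δ : Dat ι c.G} {t₀ r : ℝ} {x₀ y₀ : E 3}

theorem flat_far (hf : δ.i = δ.j → r < ‖y₀ - x₀‖) (t : ℝ) :
    ∀ᶠ p : ℝ × E 3 in 𝓝 (t, y₀), ¬ (δ.j = δ.i ∧ ‖p.2 - x₀‖ < r) := by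
  by_cases e : δ.i = δ.j
  · have h1 : IsOpen {p : ℝ × E 3 | r < ‖p.2 - x₀‖} := isOpen_lt continuous_const (by fun_prop)
    exact Filter.mem_of_superset (h1.mem_nhds (hf e)) fun p hp e' => lt_asymm hp e'.2
  · exact .of_forall fun p e' => e e'.1.symm

theorem flat_immB (h : c.StepAt F δ t₀ x₀ y₀) (hf : δ.i = δ.j → r < ‖y₀ - x₀‖)
    (hs : ∀ t ∈ Icc (0 : ℝ) 1, ∀ k, ∀ x ∈ S2, ¬ (k = δ.i ∧ ‖x - x₀‖ < r) → F k (t, x) = F k (0, x)) :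
    c.ImmB (F δ.i) t₀ x₀ := by
  intro τ v hv e
  have h0 : DifferentiableAt ℝ (fun y => c.am (F δ.j) (0, y)) y₀ :=
    ((h.fam.at δ.j (left_mem_Icc.2 zero_le_one) h.hy).differentiableAt rfl).comp y₀
      (f := fun y : E 3 => ((0 : ℝ), y)) (by fun_prop)
  have h1 := tan_congr (τ := τ) (v := 0) (f' := fun p => c.am (F δ.j) (0, p.2)) h.hy
    ((h.fam.at δ.j (Ioo_subset_Icc_self h.ht) h.hy).differentiableAt rfl)
    (DifferentiableAt.comp (t₀, y₀) (f := Prod.snd) h0 differentiableAt_snd) (by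
      filter_upwards [self_mem_nhdsWithin, mem_nhdsWithin_of_mem_nhds (flat_far hf t₀),
        mem_nhdsWithin_of_mem_nhds ((isOpen_Ioo.preimage continuous_fst).mem_nhds
          (x := (t₀, y₀)) h.ht)] with p h1 h2 h3
      exact congrArg (fun z => c.ι (c.q z)) (hs p.1 (Ioo_subset_Icc_self h3) _ _ h1.2 h2))
    (inner_zero_right _)
  rw [fderiv_snd' h0, map_zero] at h1
  have h2 := h.cross.tr τ v 0 hv (inner_zero_right _) (by rw [am_smul, e, h1])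
  exact ⟨h2.1, h2.2.1⟩

theorem flat_fd {f : ℝ × E 3 → E c.N} {t τ : ℝ} {x v : E 3} (hf : DifferentiableAt ℝ f (t, x)) :
    fderiv ℝ (fun z : ℝ × E 3 => (f z, ‖z.2‖ ^ 2 - 1)) (t, x) (τ, v) =
      (fderiv ℝ f (t, x) (τ, v), 2 * ⟪x, v⟫) := by
  have h1 : Differentiable ℝ fun x : E 3 => ‖x‖ ^ 2 - 1 :=
    (differentiable_id.norm_sq ℝ).sub_const 1
  rw [hf.fderiv_prodMk (f₂ := fun z => ‖z.2‖ ^ 2 - 1)
    (DifferentiableAt.comp (t, x) (f := Prod.snd) (h1 x) differentiableAt_snd),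
    ContinuousLinearMap.prod_apply, ← fderiv_norm_sq, ← fderiv_snd' (t := t) (τ := τ) (h1 x)]

theorem flat_gr {f : ℝ × E 3 → c.Y} {s : E 3 → ℝ} {x v : E 3} (hs : ContDiff ℝ ∞ s) (hx : x ∈ S2)
    (hv : ⟪x, v⟫ = 0) (hf : c.SmNear f {(s x, x)}) :
    fderiv ℝ (c.am fun x => f (s (nrm x), nrm x)) x v =
      fderiv ℝ (c.am f) (s x, x) (fderiv ℝ s x v, v) := by
  have d2 := ((contDiffAt_nrm (ne_zero_of_mem_unit_sphere ⟨x, hx⟩)).differentiableAt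
    (by simp)).hasFDerivAt
  have d3 := (hs.differentiable (by simp) (nrm x)).hasFDerivAt.comp x d2
  have d4 := HasFDerivAt.comp x (f := fun x => (s (nrm x), nrm x)) (g := c.am f)
    (by rw [nrm_of_S2 hx]; exact (hf.differentiableAt rfl).hasFDerivAt) (d3.prodMk d2)
  rw [show (c.am fun x => f (s (nrm x), nrm x)) = c.am f ∘ fun x => (s (nrm x), nrm x) from rfl,
    d4.fderiv]
  simp only [ContinuousLinearMap.comp_apply, ContinuousLinearMap.prod_apply,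
    fderiv_nrm_tan hx hv, nrm_of_S2 hx]

theorem flat_tm {f : ℝ × E 3 → c.Y} {a σ t τ : ℝ} {x v : E 3} (hf : c.SmNear f {(a + σ * t, x)}) :
    fderiv ℝ (c.am fun p : ℝ × E 3 => f (a + σ * p.1, p.2)) (t, x) (τ, v) =
      fderiv ℝ (c.am f) (a + σ * t, x) (σ * τ, v) := by
  have d1 := HasFDerivAt.comp (t, x) (f := fun p : ℝ × E 3 => (a + σ * p.1, p.2)) (g := c.am f)
    (hf.differentiableAt rfl).hasFDerivAt
    (((hasFDerivAt_fst.const_mul σ).const_add a).prodMk hasFDerivAt_snd)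
  rw [show (c.am fun p : ℝ × E 3 => f (a + σ * p.1, p.2)) =
    c.am f ∘ fun p : ℝ × E 3 => (a + σ * p.1, p.2) from rfl, d1.fderiv]
  simp

theorem flat_inj {f : ℝ × E 3 → c.Y} {I : Set ℝ} {t t' : ℝ} {x y : E 3}
    (hi : InjOn (fun z => c.q (f z)) (I ×ˢ (S2 ∩ Metric.closedBall x₀ r))) (ht : t ∈ I)
    (ht' : t' ∈ I) (hx : x ∈ S2) (hy : y ∈ S2) (hx' : ‖x - x₀‖ ≤ r) (hy' : ‖y - x₀‖ ≤ r)
    (e : c.q (f (t, x)) = c.q (f (t', y))) : t = t' ∧ x = y :=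
  Prod.ext_iff.1 (hi (mk_mem_prod ht (mem_inter hx (mem_closedBall_iff_norm.2 hx')))
    (mk_mem_prod ht' (mem_inter hy (mem_closedBall_iff_norm.2 hy'))) e)

/-- Component `δ.j` is stationary near `(t₀, y₀)` on `ℝ × S2`, so its differential kills `(τ, 0)`
(`tan_congr`, `fderiv_snd'`) and `Cross.tr` gives `ImmB (F δ.i) t₀ x₀`. `nd_locinj` for
`z ↦ (am (F δ.i) z, ‖z.2‖ ^ 2 - 1)` gives `r₁`; `sep_nhds` or the tube lemma shrinks `η` for the last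
claim (at `t = t' = t₀` use `only`). -/
theorem StepAt.loc (h : c.StepAt F δ t₀ x₀ y₀) (hr : 0 < r) (hf : δ.i = δ.j → r < ‖y₀ - x₀‖)
    (hs : ∀ t ∈ Icc (0 : ℝ) 1, ∀ k, ∀ x ∈ S2, ¬ (k = δ.i ∧ ‖x - x₀‖ < r) → F k (t, x) = F k (0, x)) :
    ∃ η r₁, 0 < η ∧ 0 < t₀ - η ∧ t₀ + η < 1 ∧ 0 < r₁ ∧ r₁ ≤ r ∧
      (∀ t ∈ Icc (t₀ - η) (t₀ + η), ∀ x ∈ S2, ‖x - x₀‖ ≤ r₁ → c.ImmB (F δ.i) t x) ∧
      InjOn (fun z => c.q (F δ.i z)) (Icc (t₀ - η) (t₀ + η) ×ˢ (S2 ∩ Metric.closedBall x₀ r₁)) ∧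
      ∀ t ∈ Icc (t₀ - η) (t₀ + η), ∀ t' ∈ Icc (t₀ - η) (t₀ + η), ∀ x ∈ S2, ∀ y ∈ S2,
        ‖x - x₀‖ ≤ r₁ / 2 → r₁ ≤ ‖y - x₀‖ → ‖y - x₀‖ ≤ r → c.q (F δ.i (t, x)) ≠ c.q (F δ.i (t', y)) := by
  obtain ⟨O, hO, hK, hc, hd⟩ := h.fam δ.i
  have ht := Ioo_subset_Icc_self h.ht
  have hD : ∀ t ∈ Icc (0 : ℝ) 1, ∀ x ∈ S2, DifferentiableAt ℝ (c.am (F δ.i)) (t, x) :=
    fun t ht x hx => (h.fam.at _ ht hx).differentiableAt rfl
  obtain ⟨U, hU, h1, h2⟩ := nd_locinj (f := fun z : ℝ × E 3 => (c.am (F δ.i) z, ‖z.2‖ ^ 2 - 1))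
    (x := (t₀, x₀)) (((h.fam.at _ ht h.hx).contDiffAt rfl).prodMk
      (((contDiff_snd.norm_sq ℝ).sub contDiff_const).contDiffAt))
    ((injective_iff_map_eq_zero _).2 fun w e => by
      rw [← w.eta, flat_fd (hD _ ht _ h.hx), Prod.mk_eq_zero] at e
      exact Prod.ext_iff.2 (flat_immB h hf hs _ _ (by linarith [e.2]) e.1))
  obtain ⟨d, d0, hdU⟩ := Metric.nhds_basis_closedBall.mem_iff.1 hU
  have r0 : 0 < min d r := lt_min d0 hr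
  obtain ⟨A, K, K', hA, -, -, h3, h4, h5, -, -, h6⟩ := sep_nhds (B := ℝ × ℝ)
    (f := fun p => c.am (F δ.i) (p.1.1, p.2)) (g := fun p => c.am (F δ.i) (p.1.2, p.2))
    (hO.preimage (f := fun p : (ℝ × ℝ) × E 3 => (p.1.1, p.2)) (by fun_prop))
    (hO.preimage (f := fun p : (ℝ × ℝ) × E 3 => (p.1.2, p.2)) (by fun_prop))
    (hd.continuousOn.comp (by fun_prop) fun _ hp => hp)
    (hd.continuousOn.comp (by fun_prop) fun _ hp => hp) (A := {(t₀, t₀)})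
    (K := S2 ∩ {x | ‖x - x₀‖ ≤ min d r / 2})
    (K' := S2 ∩ ({x | min d r ≤ ‖x - x₀‖} ∩ {x | ‖x - x₀‖ ≤ r})) isCompact_singleton
    ((isCompact_sphere _ _).inter_right (isClosed_le (by fun_prop) continuous_const))
    ((isCompact_sphere _ _).inter_right ((isClosed_le continuous_const (by fun_prop)).inter
      (isClosed_le (by fun_prop) continuous_const)))
    (by rintro ⟨_, x⟩ ⟨rfl, hx⟩; exact hK ⟨ht, hx.1⟩)
    (by rintro ⟨_, x⟩ ⟨rfl, hx⟩; exact hK ⟨ht, hx.1⟩) (by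
      rintro _ rfl x ⟨hx, hx'⟩ y ⟨hy, e2, e3⟩ e
      have e1 : ‖x - x₀‖ ≤ min d r / 2 := hx'
      replace e2 : min d r ≤ ‖y - x₀‖ := e2
      rcases h.only t₀ ht _ _ x hx y hy (nd_ι_inj e) with
        ⟨-, rfl⟩ | ⟨-, ⟨-, -, e4, rfl⟩ | ⟨-, -, -, rfl⟩⟩
      · linarith
      · exact (hf e4).not_ge e3
      · rw [sub_self, norm_zero] at e2
        linarith)
  obtain ⟨d', d1, hdA⟩ := Metric.nhds_basis_closedBall.mem_iff.1 (hA.mem_nhds (h3 rfl))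
  obtain ⟨η, e0, e1⟩ := exists_between (lt_min (lt_min d0 d1) (lt_min h.ht.1 (sub_pos.2 h.ht.2)))
  simp only [lt_min_iff] at e1
  obtain ⟨⟨e1, e2⟩, e3, e4⟩ := e1
  have hb : ∀ t ∈ Icc (t₀ - η) (t₀ + η), dist t t₀ ≤ η := fun t ht => by
    rwa [← Real.closedBall_eq_Icc] at ht
  have hz : ∀ t ∈ Icc (t₀ - η) (t₀ + η), ∀ x, ‖x - x₀‖ ≤ min d r → (t, x) ∈ U := fun t ht x hx =>
    hdU (max_le ((hb t ht).trans e1.le) ((dist_eq_norm _ _).trans_le (hx.trans (min_le_left _ _))))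
  refine ⟨η, min d r, e0, by linarith, by linarith, r0, min_le_right _ _,
    fun t ht x hx hx' τ v hv e => ?_, fun z hz' w hw e => ?_, fun t ht t' ht' x hx y hy e5 e6 e7 e =>
      h6 (t, t') (hdA (max_le ((hb t ht).trans e2.le) ((hb t' ht').trans e2.le))) x (h4 ⟨hx, e5⟩) y
        (h5 ⟨hy, e6, e7⟩) (congrArg c.ι e)⟩
  · refine Prod.mk_eq_zero.1 ((injective_iff_map_eq_zero _).1 (h2 _ (hz t ht x hx')) _ ?_)
    rw [flat_fd (hD t ⟨by linarith [ht.1], by linarith [ht.2]⟩ x hx), e, hv, mul_zero]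
    rfl
  · refine h1 (hz _ hz'.1 _ (mem_closedBall_iff_norm.1 hz'.2.2))
      (hz _ hw.1 _ (mem_closedBall_iff_norm.1 hw.2.2)) (Prod.ext (congrArg c.ι e) ?_)
    simp only [mem_sphere_zero_iff_norm.1 hz'.2.1, mem_sphere_zero_iff_norm.1 hw.2.1]

/-- Graphs of time functions. Let `s k x = θ x` for `k = δ.i` and `e` otherwise. Injectivity: if
`(l, y)` is in the stationary part, `F l (s l y, y) = F l (s k x, y)` and `only` applies at the time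
`s k x` (a crossing would need `θ x₀ = t₀`, or `(l, y) = (δ.i, x₀)` stationary). Else both points lie
in `ball x₀ r` on component `δ.i`: both with `r₁ / 2 ≤ ‖· - x₀‖` (same time `e`), or `hi`, or `hd`. -/
theorem StepAt.link_time (h : c.StepAt F δ t₀ x₀ y₀) (hf : δ.i = δ.j → r < ‖y₀ - x₀‖)
    (hs : ∀ t ∈ Icc (0 : ℝ) 1, ∀ k, ∀ x ∈ S2, ¬ (k = δ.i ∧ ‖x - x₀‖ < r) → F k (t, x) = F k (0, x))
    {a b r₁ e : ℝ} (ha : 0 ≤ a) (hb : b ≤ 1) (h1 : 0 < r₁) (h2 : r₁ ≤ r)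
    (hm : ∀ t ∈ Icc a b, ∀ x ∈ S2, ‖x - x₀‖ ≤ r₁ → c.ImmB (F δ.i) t x)
    (hi : InjOn (fun z => c.q (F δ.i z)) (Icc a b ×ˢ (S2 ∩ Metric.closedBall x₀ r₁)))
    (hd : ∀ t ∈ Icc a b, ∀ t' ∈ Icc a b, ∀ x ∈ S2, ∀ y ∈ S2,
      ‖x - x₀‖ ≤ r₁ / 2 → r₁ ≤ ‖y - x₀‖ → ‖y - x₀‖ ≤ r → c.q (F δ.i (t, x)) ≠ c.q (F δ.i (t', y)))
    {θ : E 3 → ℝ} (hθ : ContDiff ℝ ∞ θ) (hθm : ∀ x, θ x ∈ Icc a b) (he : e ∈ Icc a b)
    (ho : ∀ x, r₁ / 2 ≤ ‖x - x₀‖ → θ x = e) (h0 : θ x₀ ≠ t₀) :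
    c.Link fun k x => F k (if k = δ.i then θ (nrm x) else e, nrm x) := by
  have hI : Icc a b ⊆ Icc (0 : ℝ) 1 := Icc_subset_Icc ha hb
  obtain ⟨s, hs'⟩ : ∃ s : ι → E 3 → ℝ, ∀ k x, s k x = if k = δ.i then θ x else e := ⟨_, fun _ _ => rfl⟩
  have s1 : s δ.i = θ := funext fun x => (hs' _ x).trans (if_pos rfl)
  have s2 : ∀ k, k ≠ δ.i → s k = fun _ => e := fun k hk => funext fun x => (hs' _ x).trans (if_neg hk)
  have s3 : ∀ k, ContDiff ℝ ∞ (s k) := fun k => by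
    by_cases hk : k = δ.i
    · rwa [hk, s1]
    · rw [s2 k hk]
      exact contDiff_const
  have s4 : ∀ k x, s k x ∈ Icc a b := fun k x => by
    rw [hs']
    split_ifs
    exacts [hθm x, he]
  have n0 : ∀ x ∈ S2, x ≠ (0 : E 3) := fun x hx => ne_zero_of_mem_unit_sphere ⟨x, hx⟩
  simp only [← hs']
  refine ⟨fun k => (h.fam k).comp_on (φ := fun x => (s k (nrm x), nrm x)) isOpen_compl_singleton n0
    (((s3 k).comp_contDiffOn contDiffOn_nrm).prodMk contDiffOn_nrm)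
    fun x hx => ⟨hI (s4 _ _), nrm_mem (n0 x hx)⟩, fun k x hx v hv e1 => ?_, ?_⟩
  · have d1 := h.fam.at k (hI (s4 k x)) hx
    have e2 := (flat_gr (s3 k) hx hv d1).symm.trans e1
    by_cases hk : k = δ.i ∧ ‖x - x₀‖ ≤ r₁
    · obtain ⟨rfl, hk⟩ := hk
      exact (hm _ (s4 _ x) x hx hk _ v hv e2).2
    · have e3 : s k =ᶠ[𝓝 x] fun _ => e := by
        by_cases hk' : k = δ.i
        · have o1 : IsOpen {y : E 3 | r₁ < ‖y - x₀‖} := isOpen_lt continuous_const (by fun_prop)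
          rw [hk', s1]
          exact Filter.mem_of_superset (o1.mem_nhds (not_le.1 fun e4 => hk ⟨hk', e4⟩))
            fun y hy => ho y ((half_le_self h1.le).trans (le_of_lt hy))
        · rw [s2 k hk']
      rw [e3.fderiv_eq, fderiv_fun_const, Pi.zero_apply, zero_apply,
        ← fderiv_slice (d1.differentiableAt rfl)] at e2
      exact h.reg k _ (hI (s4 k x)) x hx v hv e2
  have k1 : ∀ k l, ∀ x ∈ S2, ∀ y ∈ S2, ¬ (l = δ.i ∧ ‖y - x₀‖ < r) →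
      c.q (F k (s k x, x)) = c.q (F l (s l y, y)) → k = l ∧ x = y := fun k l x hx y hy e1 e2 => by
    rw [hs _ (hI (s4 l y)) l y hy e1, ← hs _ (hI (s4 k x)) l y hy e1] at e2
    rcases h.only _ (hI (s4 k x)) k l x hx y hy e2 with
      e3 | ⟨e3, ⟨rfl, rfl, -⟩ | ⟨-, -, e4, rfl⟩⟩
    · exact e3
    · exact (h0 (s1 ▸ e3)).elim
    · exact (e1 ⟨e4, by simpa using h1.trans_le h2⟩).elim
  have k2 : ∀ x ∈ S2, ∀ y ∈ S2, ‖y - x₀‖ < r → r₁ < ‖y - x₀‖ →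
      c.q (F δ.i (θ x, x)) = c.q (F δ.i (θ y, y)) → x = y := fun x hx y hy e1 e2 e3 => by
    by_cases e4 : ‖x - x₀‖ ≤ r₁ / 2
    · exact (hd _ (hθm x) _ (hθm y) x hx y hy e4 e2.le e1.le e3).elim
    rw [ho x (not_le.1 e4).le, ho y ((half_le_self h1.le).trans e2.le)] at e3
    rcases h.only _ (hI he) _ _ x hx y hy e3 with
      e5 | ⟨-, ⟨-, -, e5, rfl⟩ | ⟨-, -, -, rfl⟩⟩
    · exact e5.2
    · exact (lt_asymm e1 (hf e5)).elim
    · rw [sub_self, norm_zero] at e2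
      exact (lt_asymm e2 h1).elim
  intro k l x hx y hy e1
  simp only [nrm_of_S2 hx, nrm_of_S2 hy] at e1
  by_cases c1 : l = δ.i ∧ ‖y - x₀‖ < r
  swap
  · exact k1 k l x hx y hy c1 e1
  by_cases c2 : k = δ.i ∧ ‖x - x₀‖ < r
  swap
  · exact (k1 l k y hy x hx c2 e1.symm).imp .symm .symm
  obtain ⟨rfl, c1⟩ := c1
  obtain ⟨rfl, c2⟩ := c2
  rw [s1] at e1
  refine ⟨rfl, ?_⟩
  rcases lt_or_ge r₁ ‖y - x₀‖ with c3 | c3
  · exact k2 x hx y hy c1 c3 e1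
  rcases lt_or_ge r₁ ‖x - x₀‖ with c4 | c4
  · exact (k2 y hy x hx c2 c4 e1.symm).symm
  exact (flat_inj hi (hθm x) (hθm y) hx hy c4 c3 e1).2

/-- `L = sl F (t₀ - η)`, `T = 2`, `Ψ (s, x) = F δ.i (t₀ - η + η * s, x)`. For `Res`: if `r' ≤ r₁` and
`Ht x₀ 2 r' γ`, the family of `link_time` with `θ x = t₀ - η + η * ((1 - u) * γ x + 2 * u)`,
`e = t₀ - η + 2 * η * u` is an isotopy from the graph to `sl F (t₀ + η)`; `Fam.eqv`. -/
theorem StepAt.box₀ [Finite ι] (h : c.StepAt F δ t₀ x₀ y₀) (hr : 0 < r)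
    (hf : δ.i = δ.j → r < ‖y₀ - x₀‖)
    (hs : ∀ t ∈ Icc (0 : ℝ) 1, ∀ k, ∀ x ∈ S2, ¬ (k = δ.i ∧ ‖x - x₀‖ < r) → F k (t, x) = F k (0, x)) :
    ∃ L T Ψ, c.Link L ∧ c.Box L δ x₀ y₀ T Ψ ∧ c.Eqv (sl F 0) L ∧ c.Res L δ.i x₀ T Ψ (sl F 1) := by
  obtain ⟨η, r₁, e0, e1, e2, h1, h2, hm, hi, hd⟩ := h.loc hr hf hs
  have hI : Icc (t₀ - η) (t₀ + η) ⊆ Icc (0 : ℝ) 1 := Icc_subset_Icc e1.le e2.le
  have hJ : ∀ t ∈ Icc (0 : ℝ) 2, t₀ - η + η * t ∈ Icc (t₀ - η) (t₀ + η) := fun t ht => by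
    have := mul_nonneg e0.le ht.1
    have := mul_le_mul_of_nonneg_left ht.2 e0.le
    exact ⟨by linarith, by linarith⟩
  have ha : t₀ - η ∈ Icc (t₀ - η) (t₀ + η) := left_mem_Icc.2 (by linarith)
  have hb : t₀ + η ∈ Icc (t₀ - η) (t₀ + η) := right_mem_Icc.2 (by linarith)
  have n0 : ‖x₀ - x₀‖ = 0 := by simp
  have hx := n0.trans_le h1.le
  have hq : ∀ a ∈ Icc (0 : ℝ) 1, ∀ b ∈ Icc (0 : ℝ) 1, t₀ ∉ uIcc a b → c.Eqv (sl F a) (sl F b) :=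
    fun a ha b hb e => h.fam.eqv h.reg ha hb fun t ht k l x hx y hy e' =>
      (h.only t (ordConnected_Icc.uIcc_subset ha hb ht) k l x hx y hy e').resolve_right
        fun e'' => e (e''.1 ▸ ht)
  have hT : ∀ k, ∀ t ∈ Icc (0 : ℝ) 2, ∀ x ∈ S2,
      c.SmNear (fun p : ℝ × E 3 => F k (t₀ - η + η * p.1, p.2)) {(t, x)} := fun k t ht x hx =>
    (h.fam.at k (hI (hJ t ht)) hx).comp_cd (φ := fun p : ℝ × E 3 => (t₀ - η + η * p.1, p.2))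
      (by fun_prop) (by rintro _ rfl; rfl)
  have o1 : (1 : ℝ) ∈ Icc (0 : ℝ) 2 := ⟨zero_le_one, one_le_two⟩
  refine ⟨sl F (t₀ - η), 2, fun p => F δ.i (t₀ - η + η * p.1, p.2),
    h.link (hI ha) (by linarith), ⟨h.hx, h.hy, one_lt_two,
      smNear_of_forall (by rintro ⟨t, _⟩ ⟨ht, rfl⟩; exact hT _ t ht _ h.hx),
      .of_forall fun x => by simp [sl], fun t ht τ v hv e => ?_, fun t ht t' ht' e => ?_,
      fun t ht k y hy e => ?_, ?_⟩,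
    hq 0 (left_mem_Icc.2 zero_le_one) _ (hI ha) fun e => ?_, ?_⟩
  · have e3 := hm _ (hJ t ht) x₀ h.hx hx (η * τ) v hv
      ((flat_tm (h.fam.at δ.i (hI (hJ t ht)) h.hx)).symm.trans e)
    exact ⟨(mul_eq_zero.1 e3.1).resolve_left e0.ne', e3.2⟩
  · exact mul_left_cancel₀ e0.ne'
      (add_left_cancel (flat_inj hi (hJ t ht) (hJ t' ht') h.hx h.hx hx hx e).1)
  · have ht' := hJ t (Ioc_subset_Icc_self ht)
    replace e : c.q (F δ.i (t₀ - η + η * t, x₀)) = c.q (F k (t₀ - η, y)) := e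
    by_cases c1 : k = δ.i ∧ ‖y - x₀‖ < r
    · obtain ⟨rfl, c1⟩ := c1
      rcases le_total ‖y - x₀‖ r₁ with c2 | c2
      · exact ((mul_pos e0 ht.1).ne' (add_eq_left.1 (flat_inj hi ht' ha h.hx hy hx c2 e).1)).elim
      · exact (hd _ ht' _ ha x₀ h.hx y hy (n0.trans_le (half_pos h1).le) c2 c1.le e).elim
    · rw [hs _ (hI ha) k y hy c1, ← hs _ (hI ht') k y hy c1] at e
      rcases h.only _ (hI ht') _ _ x₀ h.hx y hy e with
        ⟨e3, rfl⟩ | ⟨e3, ⟨-, -, e4⟩ | ⟨e4, e5, -⟩⟩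
      · exact (c1 ⟨e3.symm, n0.trans_lt hr⟩).elim
      · exact ⟨mul_left_cancel₀ e0.ne' (by linarith), e4⟩
      · exact (h.ne ⟨e4, e5⟩).elim
  · have e : t₀ - η + η * 1 = t₀ := by ring
    have ht := Ioo_subset_Icc_self h.ht
    have e3 := Cross.time (s := 1) (a := t₀ - η) (σ := η) (t := 1) (e.symm ▸ h.cross)
      (e.symm ▸ h.fam.at _ ht h.hx) (e.symm ▸ (h.fam.at _ ht h.hy).smul _) (by simpa using e0)
    rw [one_mul] at e3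
    refine e3.congr_sm h.hx h.hy (hT _ 1 o1 _ h.hx) ((hT _ 1 o1 _ h.hy).smul _) (hT _ 1 o1 _ h.hx)
      (((h.fam.at δ.j (hI ha) h.hy).comp_cd (φ := fun p : ℝ × E 3 => (t₀ - η, p.2)) (by fun_prop)
        (by rintro _ rfl; rfl)).smul _) .rfl ?_
    filter_upwards [self_mem_nhdsWithin, mem_nhdsWithin_of_mem_nhds (flat_far hf 1),
      mem_nhdsWithin_of_mem_nhds ((isOpen_Ioo.preimage continuous_fst).mem_nhds
        (x := ((1 : ℝ), y₀)) (⟨zero_lt_one, one_lt_two⟩ : (1 : ℝ) ∈ Ioo 0 2))] with p c1 c2 c3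
    exact congrArg (δ.g • ·) ((hs _ (hI (hJ _ (Ioo_subset_Icc_self c3))) _ _ c1.2 c2).trans
      (hs _ (hI ha) _ _ c1.2 c2).symm)
  · rcases mem_uIcc.1 e with e | e <;> linarith [e.1, e.2]
  refine Filter.mem_of_superset (Ioc_mem_nhdsGT h1) fun r' hr' γ hγ => ?_
  have n1 : ∀ x ∈ S2, x ≠ (0 : E 3) := fun x hx => ne_zero_of_mem_unit_sphere ⟨x, hx⟩
  have m1 : ∀ u ∈ Icc (0 : ℝ) 1, ∀ x, (1 - u) * γ x + 2 * u ∈ Icc (0 : ℝ) 2 := fun u hu x => by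
    have := mul_nonneg (sub_nonneg.2 hu.2) (hγ.mem x).1
    have := mul_le_mul_of_nonneg_left (hγ.mem x).2 (sub_nonneg.2 hu.2)
    exact ⟨by linarith [hu.1], by linarith⟩
  have m2 : ∀ u ∈ Icc (0 : ℝ) 1, 2 * u ∈ Icc (0 : ℝ) 2 := fun u hu =>
    ⟨by linarith [hu.1], by linarith [hu.2]⟩
  have hγ' := hγ.sm
  have g1 : ContDiffOn ℝ ∞ (fun p : ℝ × E 3 => nrm p.2) (Prod.snd ⁻¹' {0}ᶜ) :=
    contDiffOn_nrm.comp contDiffOn_snd fun _ hp => hp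
  have g2 := hγ'.comp_contDiffOn g1
  have hG : c.Iso fun k p => F k (if k = δ.i then
      t₀ - η + η * ((1 - p.1) * γ (nrm p.2) + 2 * p.1) else t₀ - η + η * (2 * p.1), nrm p.2) := by
    refine ⟨fun k => (h.fam k).comp_on (isOpen_compl_singleton.preimage continuous_snd)
      (fun p hp => n1 _ hp.2) (ContDiffOn.prodMk ?_ g1) fun p hp =>
        ⟨hI ?_, nrm_mem (n1 _ hp.2)⟩, fun u hu => ?_⟩
    · split_ifs
      · exact contDiffOn_const.add (contDiffOn_const.mul (((contDiffOn_const.sub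
          contDiffOn_fst).mul g2).add (contDiffOn_const.mul contDiffOn_fst)))
      · fun_prop
    · dsimp only
      split_ifs
      exacts [hJ _ (m1 _ hp.1 _), hJ _ (m2 _ hp.1)]
    · refine h.link_time hf hs e1.le e2.le h1 h2 hm hi hd
        (θ := fun x => t₀ - η + η * ((1 - u) * γ x + 2 * u)) (by fun_prop)
        (fun x => hJ _ (m1 u hu x)) (hJ _ (m2 u hu)) (fun x hx => ?_) fun e => ?_
      · rw [hγ.out x (le_trans (by linarith [hr'.2]) hx), mul_zero, zero_add]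
      · have e3 : (1 - u) * γ x₀ + 2 * u = 1 := mul_left_cancel₀ e0.ne' (by linarith)
        have := mul_nonneg hu.1 (sub_nonneg.2 (hγ.mem x₀).2)
        linarith [hγ.top]
  refine ((Eqv.nd_refl fun k x hx => ?_).nd_trans hG.nd_eqv).nd_trans ((Eqv.nd_refl
    fun k x hx => ?_).nd_trans (hq _ (hI hb) 1 (right_mem_Icc.2 zero_le_one) fun e => ?_))
  · simp only [sl, nrm_of_S2 hx, sub_zero, one_mul, mul_zero, add_zero]
    by_cases c1 : k = δ.i ∧ ‖x - x₀‖ < r'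
    · obtain ⟨rfl, c1⟩ := c1
      rw [gr_in hx c1, if_pos rfl]
    · rw [gr_out hx c1]
      split_ifs with c2
      · rw [hγ.out x ((half_le_self hr'.1.le).trans (not_lt.1 fun c3 => c1 ⟨c2, c3⟩)), mul_zero,
          add_zero]
        rfl
      · rfl
  · simp only [sl, nrm_of_S2 hx, sub_self, zero_mul, zero_add, ite_self]
    congr 2
    ring
  · rcases mem_uIcc.1 e with e | e <;> linarith [e.1, e.2]

theorem StepAt.box [Finite ι] (h : c.StepAt F δ t₀ x₀ y₀) :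
    ∃ L T Ψ, c.Link L ∧ c.Box L δ x₀ y₀ T Ψ ∧ c.Eqv (sl F 0) L ∧ c.Res L δ.i x₀ T Ψ (sl F 1) := by
  obtain ⟨F', r, hr, hf, h', e0, e1, hs⟩ := h.freeze
  obtain ⟨L, T, Ψ, hL, hB, e2, hR⟩ := h'.box₀ hr hf hs
  exact ⟨L, T, Ψ, hL, hB, e0.nd_trans e2, hR.eqv e1.nd_symm⟩

end Ctx

end Pool.Agent.CSP
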