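import Pool.Agent.Lib.MP_436e1a_gt.H.Aut

/-! A step can be made stationary outside a small disc. -/

open scoped Manifold ContDiff Topology RealInnerProductSpace Classical
open Set

namespace Pool.Agent.CSP

namespace Ctx

variable {c : Ctx} {ι : Type}

theorem frz_fd {f f' : ℝ × E 3 → c.Y} {t₀ : ℝ} {x : E 3} (hf : c.SmNear f {(t₀, x)})
    {Φ : ℝ × E c.N → E c.N} (hΦ : ContDiffAt ℝ ∞ Φ (t₀, c.am f (t₀, x)))
    (h0 : ∀ m, Φ (t₀, c.ι m) = c.ι m) (ef : c.am f' =ᶠ[𝓝 (t₀, x)] fun p => Φ (p.1, c.am f p))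
    (τ : ℝ) (v : E 3) : fderiv ℝ (c.am f') (t₀, x) (τ, v) =
      fderiv ℝ Φ (t₀, c.am f (t₀, x)) (τ, 0) + fderiv ℝ (c.am f) (t₀, x) (τ, v) := by
  have hD := (hΦ.differentiableAt (by simp)).hasFDerivAt
  have h1 := HasFDerivAt.comp (t₀, x) (f := fun p => (p.1, c.am f p)) hD
    (hasFDerivAt_fst.prodMk (hf.differentiableAt rfl).hasFDerivAt)
  have h2 := ((nd_ρ_smooth.contDiffAt (c.A.U_open.mem_nhds
    (c.A.mem_U (c.q (f (t₀, x)))))).differentiableAt (by simp)).hasFDerivAt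
  have e : c.ρ (c.ι (c.q (f (t₀, x)))) = c.am f (t₀, x) := congrArg c.ι (c.A.r_ι _)
  have h3 := (HasFDerivAt.comp _ (f := fun z => (t₀, c.ρ z)) (e.symm ▸ hD)
    ((hasFDerivAt_const t₀ _).prodMk h2)).unique
    (h2.congr_of_eventuallyEq (.of_forall fun z => h0 _))
  obtain ⟨w, hw⟩ := nd_tangent hf (τ, v)
  have h4 : ∀ u, fderiv ℝ Φ (t₀, c.ρ (c.ι (c.q (f (t₀, x))))) (0, c.P (c.q (f (t₀, x))) u) =
      c.P (c.q (f (t₀, x))) u := DFunLike.congr_fun h3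
  replace h4 := h4 (c.dι (c.q (f (t₀, x))) w)
  rw [nd_P_dι, hw, e] at h4
  rw [ef.fderiv_eq, ← h4, ← map_add, Prod.mk_add_mk, add_zero, zero_add]
  exact DFunLike.congr_fun h1.fderiv (τ, v)

/-- a family of automorphisms that is the identity at the crossing time keeps the crossing -/
theorem cross_amb {f g f' g' : ℝ × E 3 → c.Y} {ε : ℤˣ} {t₀ : ℝ} {x y : E 3}
    (h : c.Cross f g ε t₀ x y) (hf : c.SmNear f {(t₀, x)}) (hg : c.SmNear g {(t₀, y)})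
    {Φ : ℝ × E c.N → E c.N} (hΦ : ContDiffAt ℝ ∞ Φ (t₀, c.am f (t₀, x)))
    (h0 : ∀ m, Φ (t₀, c.ι m) = c.ι m) (ef : c.am f' =ᶠ[𝓝 (t₀, x)] fun p => Φ (p.1, c.am f p))
    (eg : c.am g' =ᶠ[𝓝 (t₀, y)] fun p => Φ (p.1, c.am g p)) (e₁ : f' (t₀, x) = f (t₀, x))
    (e₂ : g' (t₀, y) = g (t₀, y)) : c.Cross f' g' ε t₀ x y := by
  obtain ⟨h1, v₁, v₂, w₁, w₂, h2, h3, h4⟩ := h
  have e : c.am g (t₀, y) = c.am f (t₀, x) := congrArg (fun z => c.ι (c.q z)) h1.symm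
  have e3 := frz_fd hf hΦ h0 ef
  have e4 := frz_fd hg (e ▸ hΦ) h0 eg
  refine ⟨e₁.trans (h1.trans e₂.symm), v₁, v₂, w₁, w₂, h2, h3, ?_⟩
  rw [e₁, crossFr]
  simp only [e3, e4, e, Prod.mk_zero_zero, map_zero, zero_add, add_sub_add_left_eq_sub]
  exact h4

theorem nd_extloc [Finite ι] {F : ι → ℝ × E 3 → c.Y} (hF : c.Fam F) (hR : ∀ i, c.Reg (F i)) {t₀ : ℝ}
    (ht : t₀ ∈ Ioo (0 : ℝ) 1) {K : ι → Set (E 3)} (hK : ∀ k, IsCompact (K k))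
    (hKS : ∀ k, K k ⊆ S2) (hi : ∀ k l, ∀ x ∈ K k, ∀ y ∈ K l,
      c.q (F k (t₀, x)) = c.q (F l (t₀, y)) → k = l ∧ x = y) :
    ∃ η > 0, ∃ (φ : ℝ → c.Aut) (Φ : ℝ × E c.N → E c.N) (O : Set (ℝ × E c.N)), IsOpen O ∧
      Ioo (t₀ - η) (t₀ + η) ×ˢ range c.ι ⊆ O ∧ ContDiffOn ℝ ∞ Φ O ∧
      ContinuousOn (fun p : ℝ × c.Y => (φ p.1).up p.2) (Ioo (t₀ - η) (t₀ + η) ×ˢ univ) ∧
      (∀ t ∈ Ioo (t₀ - η) (t₀ + η), ∀ x, c.ι ((φ t).dn x) = Φ (t, c.ι x)) ∧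
      (∀ y, (φ t₀).up y = y) ∧
      ∀ t ∈ Ioo (t₀ - η) (t₀ + η), ∀ k, ∀ x ∈ K k, (φ t).up (F k (t, x)) = F k (t₀, x) := by
  have ht' := Ioo_subset_Icc_self ht
  obtain ⟨θ, hθ, Φ, Φ₀, hA, h0, h1⟩ := extloc (c := c) (t₀ := t₀) (F := F)
    (κ := fun _ (x : E 3) => ‖x‖ ^ 2 - 1) (fun _ => (contDiff_norm_sq ℝ).sub contDiff_const) hK
    (fun k => (hF k).mono (prod_mono (singleton_subset_iff.2 ht') (hKS k)))
    (fun k x hx => by simp [mem_sphere_zero_iff_norm.1 (hKS k hx)])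
    (fun k x hx v h1 h2 => (reg_iff (hF k)).1 (hR k) t₀ ht' x (hKS k hx) v
      (by rw [fderiv_norm_sq] at h2; linarith) h1) hi isClosed_empty fun _ _ _ h => h
  obtain ⟨φ₀, -⟩ := Aut.exists_refl c
  choose φ e1 e2 using hA.aut
  have ht₀ : t₀ ∈ Ioo (t₀ - θ) (t₀ + θ) := ⟨by linarith, by linarith⟩
  refine ⟨θ, hθ, fun t => if h : t ∈ Ioo (t₀ - θ) (t₀ + θ) then φ t h else φ₀, _, _,
    isOpen_Ioo.prod c.A.U_open, prod_mono Subset.rfl (range_subset_iff.2 c.A.mem_U), hA.sm,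
    hA.cont.congr fun p hp => ?_, fun t h x => ?_, fun y => ?_, fun t h k x hx => ?_⟩
  · simp only [dif_pos hp.1, e1]
  · simp only [dif_pos h, e2]
    exact congrArg (fun z => c.ι (Φ₀ (t, z))) (c.A.r_ι x).symm
  · simp only [dif_pos ht₀, e1, h0]
  · simp only [dif_pos h, e1]
    exact (h1 t h).1 k x hx

/-- a step is equivalent to one that is stationary outside a small disc -/
theorem StepAt.freeze [Finite ι] {F : ι → ℝ × E 3 → c.Y} {δ : Dat ι c.G} {t₀ : ℝ} {x₀ y₀ : E 3}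
    (h : c.StepAt F δ t₀ x₀ y₀) : ∃ F' r, 0 < r ∧ (δ.i = δ.j → r < ‖y₀ - x₀‖) ∧
      c.StepAt F' δ (1 / 2) x₀ y₀ ∧ c.Eqv (sl F 0) (sl F' 0) ∧ c.Eqv (sl F 1) (sl F' 1) ∧
      ∀ t ∈ Icc (0 : ℝ) 1, ∀ k, ∀ x ∈ S2, ¬ (k = δ.i ∧ ‖x - x₀‖ < r) → F' k (t, x) = F' k (0, x) := by
  obtain ⟨r, hr, hr'⟩ : ∃ r, 0 < r ∧ (δ.i = δ.j → r < ‖y₀ - x₀‖) := by
    by_cases e : δ.i = δ.j
    · have : 0 < ‖y₀ - x₀‖ := norm_pos_iff.2 (sub_ne_zero.2 fun e' => h.ne ⟨e, e'.symm⟩)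
      exact ⟨_, half_pos this, fun _ => half_lt_self this⟩
    · exact ⟨1, one_pos, fun e' => (e e').elim⟩
  obtain ⟨η, hη, φ, Φ, O, hO, h1, h2, h3, h4, h5, h6⟩ := nd_extloc h.fam h.reg h.ht
    (K := fun k => S2 ∩ {x | ¬ (k = δ.i ∧ ‖x - x₀‖ < r)})
    (fun k => (isCompact_sphere _ _).inter_right
      (IsOpen.isClosed_compl (s := {x : E 3 | k = δ.i ∧ ‖x - x₀‖ < r})
        (isOpen_const.and (isOpen_lt (by fun_prop) continuous_const))))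
    (fun _ => inter_subset_left) fun k l x hx y hy e => by
      rcases h.only t₀ (Ioo_subset_Icc_self h.ht) k l x hx.1 y hy.1 e with
        e | ⟨-, ⟨e, rfl, -⟩ | ⟨-, -, e, rfl⟩⟩
      · exact e
      · exact (hx.2 ⟨e, by simpa using hr⟩).elim
      · exact (hy.2 ⟨e, by simpa using hr⟩).elim
  obtain ⟨d, d0, d1, d2, d3⟩ : ∃ d, 0 < d ∧ d < η ∧ d < t₀ ∧ d < 1 - t₀ := by
    have := lt_min hη (lt_min h.ht.1 (sub_pos.2 h.ht.2))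
    obtain ⟨d, e1, e2⟩ := exists_between this
    simp only [lt_min_iff] at e2
    exact ⟨d, e1, e2⟩
  have hI : ∀ s ∈ Icc (0 : ℝ) 1, t₀ - d + 2 * d * s ∈ Ioo (t₀ - η) (t₀ + η) ∧
      t₀ - d + 2 * d * s ∈ Icc (0 : ℝ) 1 := fun s hs => by
    have e1 := mul_nonneg d0.le hs.1
    have e2 := mul_le_of_le_one_right d0.le hs.2
    exact ⟨⟨by linarith, by linarith⟩, by linarith, by linarith⟩
  have ha : ∀ (f : ℝ × E 3 → c.Y) (p : ℝ × E 3), p.1 ∈ Ioo (t₀ - η) (t₀ + η) →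
      c.am (fun p => (φ p.1).up (f p)) p = Φ (p.1, c.am f p) := fun f p hp =>
    (congrArg c.ι ((φ p.1).comm _)).trans (h4 _ hp _)
  have hs : ∀ k, ∀ t ∈ Ioo (t₀ - η) (t₀ + η), t ∈ Icc (0 : ℝ) 1 → ∀ x ∈ S2,
      c.SmNear (fun p => (φ p.1).up (F k p)) {(t, x)} := fun k t ht ht' x hx => by
    obtain ⟨O₁, e1, e2, e3, e4⟩ := h.fam.at k ht' hx
    refine ⟨O₁ ∩ Prod.fst ⁻¹' Ioo (t₀ - η) (t₀ + η),
      e1.inter (isOpen_Ioo.preimage continuous_fst),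
      singleton_subset_iff.2 ⟨e2 rfl, ht⟩, h3.comp (f := fun p : ℝ × E 3 => (p.1, F k p))
        (continuousOn_fst.prodMk (e3.mono inter_subset_left)) fun p hp => ⟨hp.2, trivial⟩, ?_⟩
    exact (h2.comp (contDiffOn_fst.prodMk (e4.mono inter_subset_left))
      fun p hp => h1 ⟨hp.2, _, rfl⟩).congr fun p hp => ha _ p hp.2
  have ht₀ : t₀ ∈ Ioo (t₀ - η) (t₀ + η) := ⟨by linarith, by linarith⟩
  have ht₁ := Ioo_subset_Icc_self h.ht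
  have hev : ∀ x : E 3, ∀ᶠ p : ℝ × E 3 in 𝓝 (t₀, x), p.1 ∈ Ioo (t₀ - η) (t₀ + η) := fun x =>
    (isOpen_Ioo.preimage continuous_fst).mem_nhds ht₀
  have hq : ∀ s ∈ Icc (0 : ℝ) 1, ∀ u ∈ Icc (0 : ℝ) 1, t₀ ∉ uIcc u (t₀ - d + 2 * d * s) →
      c.Eqv (sl F u) (sl (fun k p => (φ (t₀ - d + 2 * d * p.1)).up
        (F k (t₀ - d + 2 * d * p.1, p.2))) s) := fun s hs u hu e =>
    (h.fam.eqv h.reg hu (hI s hs).2 fun t ht k l x hx y hy e' =>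
      (h.only t (ordConnected_Icc.uIcc_subset hu (hI s hs).2 ht) k l x hx y hy e').resolve_right
        fun e'' => e (e''.1 ▸ ht)).nd_trans
      ⟨φ (t₀ - d + 2 * d * s), fun _ _ _ => rfl⟩
  refine ⟨fun k p => (φ (t₀ - d + 2 * d * p.1)).up (F k (t₀ - d + 2 * d * p.1, p.2)), r, hr, hr',
    ⟨fun k => smNear_of_forall fun p hp => ?_, fun k s hs x hx v hv e => ?_, by norm_num, h.hx, h.hy,
      h.ne, ?_, fun s hs k l x hx y hy e => ?_⟩,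
    hq 0 (left_mem_Icc.2 zero_le_one) 0 (left_mem_Icc.2 zero_le_one) fun e => ?_,
    hq 1 (right_mem_Icc.2 zero_le_one) 1 (right_mem_Icc.2 zero_le_one) fun e => ?_,
    fun s hs k x hx e => (h6 _ (hI s hs).1 k x ⟨hx, e⟩).trans
      (h6 _ (hI 0 (left_mem_Icc.2 zero_le_one)).1 k x ⟨hx, e⟩).symm⟩
  · exact (hs k _ (hI _ hp.1).1 (hI _ hp.1).2 _ hp.2).comp_cd
      (φ := fun p : ℝ × E 3 => (t₀ - d + 2 * d * p.1, p.2)) (by fun_prop) (by rintro _ rfl; rfl)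
  · exact h.reg k _ (hI s hs).2 x hx v hv ((φ (t₀ - d + 2 * d * s)).fderiv_eq_zero
      ((h.fam.at k (hI s hs).2 hx).comp_cd (φ := fun x : E 3 => (t₀ - d + 2 * d * s, x))
        (by fun_prop) (by rintro _ rfl; rfl)) e)
  · have e : t₀ - d + 2 * d * (1 / 2) = t₀ := by ring
    have e1 := cross_amb (f' := fun p => (φ p.1).up (F δ.i p))
      (g' := fun p => δ.g • (φ p.1).up (F δ.j p)) h.cross (h.fam.at _ ht₁ h.hx)
      ((h.fam.at _ ht₁ h.hy).smul _) (h2.contDiffAt (hO.mem_nhds (h1 ⟨ht₀, _, rfl⟩)))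
      (fun m => by
        obtain ⟨y, rfl⟩ := c.C.cov.toIsQuotientMap.surjective m
        exact (h4 _ ht₀ _).symm.trans (congrArg c.ι (((φ t₀).comm y).symm.trans
          (congrArg c.q (h5 y))))) ((hev x₀).mono (ha _))
      (by rw [c.am_smul, c.am_smul]; exact (hev y₀).mono (ha _)) (h5 _) (congrArg (δ.g • ·) (h5 _))
    have e2 := Cross.time (s := 1) (a := t₀ - d) (σ := 2 * d) (t := 1 / 2) (e.symm ▸ e1)
      (e.symm ▸ hs _ _ ht₀ ht₁ _ h.hx) (e.symm ▸ (hs _ _ ht₀ ht₁ _ h.hy).smul _) (by simpa using d0)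
    rwa [one_mul] at e2
  · refine (h.only _ (hI s hs).2 k l x hx y hy ((φ _).nd_inj
      (((φ _).comm _).symm.trans (e.trans ((φ _).comm _))))).imp_right (And.imp_left fun e' => ?_)
    exact mul_left_cancel₀ d0.ne' (by linarith)
  · rcases mem_uIcc.1 e with e | e <;> linarith [e.1, e.2]
  · rcases mem_uIcc.1 e with e | e <;> linarith [e.1, e.2]

end Ctx

end Pool.Agent.CSP
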