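import Pool.Agent.Lib.MP_436e1a_gt.H.Stab

/-! The number of transverse double points is stable. -/

open scoped Manifold ContDiff Topology RealInnerProductSpace Classical
open Set

namespace Pool.Agent.CSP

namespace Ctx

variable {c : Ctx} {B : Type} [NormedAddCommGroup B] [NormedSpace ℝ B]
  {a : B × ℝ × E 3 → c.Y} {g : c.G}

theorem stab [FiniteDimensional ℝ B] (hs : c.SmNear a ({0} ×ˢ Icc 0 1 ×ˢ S2)) {l : Filter B}
    (hl : l ≤ 𝓝 0) {Z : Set (ℝ × E 3 × E 3)} (hZ : Z.Finite)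
    (h1 : ∀ p ∈ Z, p.1 ∈ Ioo (0 : ℝ) 1 ∧ p.2.1 ∈ S2 ∧ p.2.2 ∈ S2 ∧ p.2.1 ≠ p.2.2 ∧
      ∃ ε, c.Cross (fun w => a (0, w)) (fun w => g • a (0, w)) ε p.1 p.2.1 p.2.2)
    (h2 : ∀ p ∈ Icc (0 : ℝ) 1 ×ˢ S2 ×ˢ S2, p ∉ Z →
      ∃ U ∈ 𝓝 p, ∀ᶠ b in l, ∀ p' ∈ U, p' ∉ c.Zs (fun w => a (b, w)) g) :
    ∀ᶠ b in l, c.Nd (fun w => a (b, w)) g ∧ (c.Zs (fun w => a (b, w)) g).ncard = Z.ncard := by
  obtain ⟨D, hD, dj⟩ := hZ.t2_separation
  have h3 : ∀ p : ℝ × E 3 × E 3, ∃ U, (p ∈ Icc (0 : ℝ) 1 ×ˢ S2 ×ˢ S2 ∨ p ∈ Z → U ∈ 𝓝 p) ∧ U ⊆ D p ∧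
      ∀ᶠ b in l, (p ∉ Z → ∀ p' ∈ U, p' ∉ c.Zs (fun w => a (b, w)) g) ∧ (p ∈ Z →
        (∃! p', p' ∈ U ∧ p' ∈ c.Zs (fun w => a (b, w)) g) ∧ ∀ p' ∈ U,
          p' ∈ c.Zs (fun w => a (b, w)) g → ∃ ε, c.Cross (fun w => a (b, w))
            (fun w => g • a (b, w)) ε p'.1 p'.2.1 p'.2.2) := fun p => by
    have hd := (hD p).2.mem_nhds (hD p).1
    by_cases z : p ∈ Z
    · obtain ⟨ht, hx, hy, n, ε, hc⟩ := h1 p z
      have m := Ioo_subset_Icc_self ht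
      obtain ⟨U, hU, h⟩ := stab_loc ht hx hy n (hs.at ⟨rfl, m, hx⟩) (hs.at ⟨rfl, m, hy⟩) hc
      exact ⟨U ∩ D p, fun _ => Filter.inter_mem hU hd, inter_subset_right,
        ((h _ (Filter.inter_mem hU hd) inter_subset_left).filter_mono hl).mono
          fun b hb => ⟨fun e => (e z).elim, fun _ => hb⟩⟩
    by_cases k : p ∈ Icc (0 : ℝ) 1 ×ˢ S2 ×ˢ S2
    · obtain ⟨U, hU, h⟩ := h2 p k z
      exact ⟨U ∩ D p, fun _ => Filter.inter_mem hU hd, inter_subset_right,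
        h.mono fun b hb => ⟨fun _ p' e => hb p' e.1, fun e => (z e).elim⟩⟩
    · exact ⟨∅, fun e => (e.elim k z).elim, empty_subset _,
        .of_forall fun b => ⟨fun _ _ e => e.elim, fun e => (z e).elim⟩⟩
  choose U u₁ u₂ u₃ using h3
  obtain ⟨s, -, hs'⟩ := (isCompact_Icc.prod ((isCompact_sphere (0 : E 3) 1).prod
    (isCompact_sphere (0 : E 3) 1))).elim_nhds_subcover U fun p hp => u₁ p (.inl hp)
  filter_upwards [(Filter.eventually_all_finite (s.finite_toSet.union hZ)).2 fun p _ => u₃ p]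
    with b hb
  have h4 : ∀ p' ∈ c.Zs (fun w => a (b, w)) g, ∃ p ∈ Z, p' ∈ U p := fun p' hp => by
    obtain ⟨p, i₁, i₂⟩ := mem_iUnion₂.1 (hs' ⟨hp.1, hp.2.1, hp.2.2.1⟩)
    exact ⟨p, by_contra fun z => (hb p (.inl i₁)).1 z p' i₂ hp, i₂⟩
  choose! f f₁ f₂ using fun p (hp : p ∈ Z) => ((hb p (.inr hp)).2 hp).1
  have h5 : c.Zs (fun w => a (b, w)) g = f '' Z := Subset.antisymm (fun p' hp =>
    let ⟨p, i₁, i₂⟩ := h4 p' hp
    ⟨p, i₁, (f₂ p i₁ p' ⟨i₂, hp⟩).symm⟩) (image_subset_iff.2 fun p hp => (f₁ p hp).2)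
  refine ⟨⟨h5 ▸ hZ.image f, fun p' hp => ?_⟩, h5 ▸ InjOn.ncard_image fun p i₁ p' i₂ e =>
    by_contra fun n => disjoint_left.1 (dj i₁ i₂ n) (u₂ p (f₁ p i₁).1) (e ▸ u₂ p' (f₁ p' i₂).1)⟩
  obtain ⟨p, i₁, i₂⟩ := h4 p' hp
  exact ((hb p (.inr i₁)).2 i₁).2 p' i₂ hp

theorem stab_away (hs : c.SmNear a ({0} ×ˢ Icc 0 1 ×ˢ S2)) (hr : c.Reg fun w => a (0, w))
    {p : ℝ × E 3 × E 3} (hp : p ∈ Icc (0 : ℝ) 1 ×ˢ S2 ×ˢ S2) (hn : p ∉ c.Zs (fun w => a (0, w)) g) :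
    ∃ U ∈ 𝓝 p, ∀ᶠ b in 𝓝 (0 : B), ∀ p' ∈ U, p' ∉ c.Zs (fun w => a (b, w)) g := by
  obtain ⟨t, x, y⟩ := p
  obtain ⟨ht, hx, hy⟩ := hp
  suffices h : ∀ᶠ z : B × ℝ × E 3 × E 3 in 𝓝 (0, t, x, y), z.2 ∉ c.Zs (fun w => a (z.1, w)) g by
    obtain ⟨A, hA, U, hU, h⟩ := mem_nhds_prod_iff.1 h
    exact ⟨U, hU, Filter.mem_of_superset hA fun b hb p' hp => h (mk_mem_prod hb hp)⟩
  have sx := hs.at (x := (0, t, x)) ⟨rfl, ht, hx⟩
  by_cases e : a (0, t, x) = g • a (0, t, y)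
  · obtain rfl : x = y := by_contra fun n => hn ⟨ht, hx, hy, n, e⟩
    obtain ⟨O, o₁, o₂, o₃⟩ := id sx
    have π : ContDiff ℝ ∞ fun p : (B × ℝ) × E 3 => (p.1.1, p.1.2, p.2) := by fun_prop
    have n : ContDiff ℝ ∞ fun x : E 3 => ‖x‖ ^ 2 - 1 := (contDiff_norm_sq ℝ).sub contDiff_const
    have hf : ContDiffOn ℝ ∞ (fun p : (B × ℝ) × E 3 => (c.am a (p.1.1, p.1.2, p.2), ‖p.2‖ ^ 2 - 1))
        ((fun p : (B × ℝ) × E 3 => (p.1.1, p.1.2, p.2)) ⁻¹' O) :=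
      (o₃.2.comp π.contDiffOn fun _ h => h).prodMk (n.comp contDiff_snd).contDiffOn
    obtain ⟨A, K, hA, hK, a₀, k₀, -, h1⟩ := locinj_at (o₁.preimage π.continuous) hf
      (b₀ := (0, t)) (x₀ := x) (o₂ rfl) fun v h => by
        rw [← fderiv_slice' ((hf.contDiffAt (x := ((0, t), x)) ((o₁.preimage π.continuous).mem_nhds
          (o₂ rfl))).differentiableAt (by simp))] at h
        have d := (sx.comp_cd (φ := fun y : E 3 => ((0 : B), t, y)) (K' := {x}) (by fun_prop)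
          (by rintro _ rfl; rfl)).differentiableAt rfl
        have h' := (DFunLike.congr_fun (d.hasFDerivAt.prodMk
          (n.differentiable (by simp) x).hasFDerivAt).fderiv v).symm.trans h
        have h2 : 2 * ⟪x, v⟫ = 0 := (fderiv_norm_sq x v).symm.trans (congrArg Prod.snd h')
        exact hr t ht x hx v (by linarith) (congrArg Prod.fst h')
    filter_upwards [(show Continuous fun z : B × ℝ × E 3 × E 3 => (z.1, z.2.1) by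
        fun_prop).continuousAt.eventually (hA.mem_nhds a₀),
      (show Continuous fun z : B × ℝ × E 3 × E 3 => z.2.2.1 by
        fun_prop).continuousAt.eventually (hK.mem_nhds k₀),
      (show Continuous fun z : B × ℝ × E 3 × E 3 => z.2.2.2 by
        fun_prop).continuousAt.eventually (hK.mem_nhds k₀)] with z z₁ z₂ z₃ hz
    refine hz.2.2.2.1 ((h1 _ z₁).1 z₂ z₃ (Prod.ext (congrArg c.ι
      ((congrArg c.q hz.2.2.2.2).trans (c.q_smul _ _))) ?_))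
    simp only [mem_sphere_zero_iff_norm.1 hz.2.1, mem_sphere_zero_iff_norm.1 hz.2.2.1]
  · have a₁ : ContinuousAt (fun z : B × ℝ × E 3 × E 3 => a (z.1, z.2.1, z.2.2.1)) (0, t, x, y) :=
      ContinuousAt.comp (g := a) (sx.continuousAt rfl) (by fun_prop)
    have a₂ : ContinuousAt (fun z : B × ℝ × E 3 × E 3 => g • a (z.1, z.2.1, z.2.2.2)) (0, t, x, y) :=
      (c.continuous_smul g).continuousAt.comp
        (ContinuousAt.comp (g := a) (hs.continuousAt ⟨rfl, ht, hy⟩) (by fun_prop))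
    exact ((a₁.prodMk a₂).eventually (isClosed_diagonal.isOpen_compl.mem_nhds e)).mono
      fun z hz h => hz h.2.2.2.2

theorem stab_all [FiniteDimensional ℝ B] (hs : c.SmNear a ({0} ×ˢ Icc 0 1 ×ˢ S2))
    (hr : c.Reg fun w => a (0, w))
    (he : ∀ g, ∀ p ∈ c.Zs (fun w => a (0, w)) g, p.1 ∈ Ioo (0 : ℝ) 1) :
    ∀ᶠ b in 𝓝 (0 : B), ∀ g, c.Nd (fun w => a (0, w)) g →
      (c.Zs (fun w => a (b, w)) g).ncard = (c.Zs (fun w => a (0, w)) g).ncard := by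
  haveI := FiniteDimensional.proper_real B
  have hK : IsCompact (Icc (0 : ℝ) 1 ×ˢ S2) := isCompact_Icc.prod (isCompact_sphere _ _)
  obtain ⟨O, o₁, o₂, o₃⟩ := id hs
  obtain ⟨A, K, hA, -, a₀, k₀, h1⟩ := generalized_tube_lemma isCompact_singleton hK o₁ o₂
  obtain ⟨D, d₁, d₂, d₃⟩ := local_compact_nhds (hA.mem_nhds (a₀ rfl))
  have h2 := (d₃.prod hK).image_of_continuousOn (o₃.1.mono fun p hp => h1 ⟨d₂ hp.1, k₀ hp.2⟩)
  have h3 := c.finite_meet h2 h2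
  have h4 : ∀ b ∈ D, ∀ g ∉ {g : c.G | ∃ y ∈ a '' D ×ˢ Icc 0 1 ×ˢ S2,
      ∃ y' ∈ a '' D ×ˢ Icc 0 1 ×ˢ S2, y = g • y'}, c.Zs (fun w => a (b, w)) g = ∅ :=
    fun b hb g hg => eq_empty_of_forall_notMem fun p hp => hg ⟨_, ⟨(b, p.1, p.2.1),
      ⟨hb, hp.1, hp.2.1⟩, rfl⟩, _, ⟨(b, p.1, p.2.2), ⟨hb, hp.1, hp.2.2.1⟩, rfl⟩, hp.2.2.2.2⟩
  filter_upwards [d₁, (Filter.eventually_all_finite h3).2 fun g _ =>
    show ∀ᶠ b in 𝓝 (0 : B), c.Nd (fun w => a (0, w)) g →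
      (c.Zs (fun w => a (b, w)) g).ncard = (c.Zs (fun w => a (0, w)) g).ncard by
      by_cases n : c.Nd (fun w => a (0, w)) g
      · exact (stab hs le_rfl n.1 (fun p hp => ⟨he g p hp, hp.2.1, hp.2.2.1, hp.2.2.2.1, n.2 p hp⟩)
          fun p hp => stab_away hs hr hp).mono fun b hb _ => hb.2
      · exact .of_forall fun _ h => (n h).elim] with b b₁ b₂ g n
  by_cases e : g ∈ {g : c.G | ∃ y ∈ a '' D ×ˢ Icc 0 1 ×ˢ S2,
      ∃ y' ∈ a '' D ×ˢ Icc 0 1 ×ˢ S2, y = g • y'}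
  · exact b₂ g e n
  · rw [h4 b b₁ g e, h4 0 (mem_of_mem_nhds d₁) g e]

end Ctx

end Pool.Agent.CSP
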