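import Pool.Agent.Lib.MP_436e1a_gt.H.Gp2
import Pool.Agent.Lib.MP_436e1a_gt.H.Cut
import Pool.Agent.Lib.MP_436e1a_gt.H.Stab2

/-! A smooth homotopy between links gives a chain of crossing changes. -/

open scoped Manifold ContDiff Topology RealInnerProductSpace Classical
open Set MeasureTheory

namespace Pool.Agent.CSP

namespace Ctx

variable {c : Ctx} {ι : Type} [Finite ι] {F : ι → ℝ × E 3 → c.Y}

theorem gp (hF : c.Fam F) (h0 : c.Link (sl F 0)) (h1 : c.Link (sl F 1)) :
    ∃ l, c.Chain (sl F 0) l (sl F 1) ∧ ∀ i g, g = g⁻¹ → c.Reg (F i) → c.Nd (F i) g →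
      2 * cnt l i g = (c.Zs (F i) g).ncard := by
  obtain ⟨P, hP⟩ := c.exists_psh
  obtain ⟨n, w, hw⟩ := exists_amp ι (E c.N)
  have hs : ∀ k, ContDiff ℝ ∞ fun p : E n × ℝ × E 3 => w k p.2 p.1 := fun k =>
    ((hw.sm k).comp contDiff_snd).clm_apply contDiff_fst
  have e1 : ∀ᶠ b in 𝓝 (0 : E n), c.Adm F w b := Filter.eventually_all.2 fun k =>
    eventually_Sg (w := fun p : E n × ℝ × E 3 => w k p.2 p.1)
      (isCompact_Icc.prod (isCompact_sphere _ _)) (fun x hx => (hF k).continuousAt hx)
      (hs k).continuous fun x _ => map_zero _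
  have z : ∀ k, (fun p => P (F k p, w k p 0)) = F k := fun k => funext fun p => by
    rw [map_zero, hP.zero]
  have e2 : ∀ᶠ b in 𝓝 (0 : E n), ∀ i, c.Reg (F i) → ∀ g, c.Nd (F i) g →
      (c.Zs (fun p => P (F i p, w i p b)) g).ncard = (c.Zs (F i) g).ncard :=
    Filter.eventually_all.2 fun i => by
      by_cases hr : c.Reg (F i)
      · have h2 := stab_all (a := fun p : E n × ℝ × E 3 => P (F i p.2, w i p.2 p.1))
          (hP.smNear ((hF i).comp_cd contDiff_snd fun p hp => hp.2) (hs i) fun p hp => by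
            rw [show p.1 = 0 from hp.1, map_zero]; exact zero_mem_Sg _)
          (by rw [z]; exact hr) (by
            rw [z]
            rintro g ⟨t, x, y⟩ ⟨ht, hx, hy, hne, he⟩
            have e : c.q (F i (t, x)) = c.q (F i (t, y)) := (congrArg c.q he).trans (c.q_smul _ _)
            refine ⟨lt_of_le_of_ne ht.1 ?_, lt_of_le_of_ne ht.2 ?_⟩
            · rintro rfl
              exact hne (h0.inj i i x hx y hy e).2
            · rintro rfl
              exact hne (h1.inj i i x hx y hy e).2)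
        rw [z] at h2
        exact h2.mono fun b hb _ => hb
      · exact .of_forall fun _ h => (hr h).elim
  obtain ⟨b, hb, ha, hc⟩ := ((freq_of_ae volume (ae_gen hP hw hF h0 h1)).and_eventually
    (e1.and e2)).exists
  obtain ⟨l, hl, hn⟩ := (hb ha).chain
  refine ⟨l, (Chain.eqv_left (Eqv.of_eq fun i x _ => ?_) hl).eqv_right (Eqv.of_eq fun i x _ => ?_),
    fun i g hg hr hd => (hn i g hg).trans (hc i hr g hd)⟩
  · simp only [sl, hw.zero, ContinuousLinearMap.zero_apply, hP.zero]
  · simp only [sl, hw.one, ContinuousLinearMap.zero_apply, hP.zero]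

end Ctx

end Pool.Agent.CSP
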