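import Pool.Agent.Lib.MP_436e1a_gt.H.Tan

/-! General position with constraints. -/

open scoped Manifold ContDiff Topology RealInnerProductSpace Classical
open Set MeasureTheory Module

namespace Pool.Agent.CSP

section
variable {B V Z K : Type} [NormedAddCommGroup B] [NormedSpace ℝ B] [FiniteDimensional ℝ B]
  [NormedAddCommGroup V] [NormedSpace ℝ V] [FiniteDimensional ℝ V]
  [NormedAddCommGroup Z] [NormedSpace ℝ Z] [FiniteDimensional ℝ Z]
  [NormedAddCommGroup K] [NormedSpace ℝ K] [FiniteDimensional ℝ K]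
  {S : Type} [NormedAddCommGroup S] [NormedSpace ℝ S] [FiniteDimensional ℝ S]

/-- the rank of a block triangular map -/
theorem rank_block (D : B × V →L[ℝ] Z) (k : V →L[ℝ] K) (hk : Function.Surjective k) (e : S →L[ℝ] Z)
    (he : Function.Injective e) (hD : ∀ s, ∃ β, D (β, 0) = e s) :
    finrank ℝ S + finrank ℝ K ≤
      finrank ℝ (D.prod (k.comp (ContinuousLinearMap.snd ℝ B V))).range := by
  obtain ⟨j, hj⟩ := (k : V →ₗ[ℝ] K).exists_rightInverse_of_surjective (LinearMap.range_eq_top.2 hk)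
  let L : S × K →ₗ[ℝ] Z × K := ((e : S →ₗ[ℝ] Z).coprod
    ((D : B × V →ₗ[ℝ] Z) ∘ₗ LinearMap.inr ℝ B V ∘ₗ j)).prod (LinearMap.snd ℝ S K)
  have hL : Function.Injective L := (injective_iff_map_eq_zero _).2 fun ⟨s, a⟩ h => by
    obtain rfl : a = 0 := congrArg Prod.snd h
    have h1 : e s + D (0, j 0) = 0 := congrArg Prod.fst h
    rw [map_zero, Prod.mk_zero_zero, map_zero, add_zero] at h1
    rw [(map_eq_zero_iff _ he).1 h1, Prod.mk_zero_zero]
  rw [← finrank_prod, ← LinearMap.finrank_range_of_inj hL]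
  refine Submodule.finrank_mono ?_
  rintro _ ⟨⟨s, a⟩, rfl⟩
  obtain ⟨β, hβ⟩ := hD s
  refine ⟨(β, j a), Prod.ext ?_ (LinearMap.congr_fun hj a)⟩
  change D (β, j a) = e s + D (0, j a)
  rw [← hβ, ← map_add, Prod.mk_add_mk, add_zero, zero_add]

omit [FiniteDimensional ℝ B] [FiniteDimensional ℝ V] [FiniteDimensional ℝ Z]
  [FiniteDimensional ℝ K] in
theorem gp0_fderiv {O : Set (B × V)} (hO : IsOpen O) {f : B × V → Z} (hf : ContDiffOn ℝ ∞ f O)
    {κ : V → K} (hκ : ContDiff ℝ ∞ κ) {p : B × V} (hp : p ∈ O) :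
    fderiv ℝ (fun p => (f p, κ p.2)) p =
      (fderiv ℝ f p).prod ((fderiv ℝ κ p.2).comp (ContinuousLinearMap.snd ℝ B V)) :=
  (((hf.contDiffAt (hO.mem_nhds hp)).differentiableAt (by simp)).hasFDerivAt.prodMk
    ((hκ.differentiable (by simp) p.2).hasFDerivAt.comp p hasFDerivAt_snd)).fderiv

theorem gp0_rank {O : Set (B × V)} (hO : IsOpen O) {f : B × V → Z} (hf : ContDiffOn ℝ ∞ f O)
    {κ : V → K} (hκ : ContDiff ℝ ∞ κ)
    (hr : ∀ p ∈ O, f p = 0 → κ p.2 = 0 → Function.Surjective (fderiv ℝ κ p.2) ∧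
      ∃ e : S →L[ℝ] Z, Function.Injective e ∧ ∀ s, ∃ β, fderiv ℝ f p (β, 0) = e s)
    (p : B × V) (hp : p ∈ O) (h0 : (f p, κ p.2) = 0) : finrank ℝ S + finrank ℝ K ≤
      finrank ℝ (fderiv ℝ (fun p => (f p, κ p.2)) p).range := by
  obtain ⟨h1, e, h2, h3⟩ := hr p hp (congrArg Prod.fst h0) (congrArg Prod.snd h0)
  rw [gp0_fderiv hO hf hκ hp]
  exact rank_block _ _ h1 e h2 h3

variable [MeasurableSpace B] [BorelSpace B]

/-- `gen0` for the map `p ↦ (f p, κ p.2)` -/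
theorem gp_avoid (μ : Measure B) [μ.IsAddHaarMeasure] {O : Set (B × V)} (hO : IsOpen O)
    {f : B × V → Z} (hf : ContDiffOn ℝ ∞ f O) {κ : V → K} (hκ : ContDiff ℝ ∞ κ)
    (hV : finrank ℝ V < finrank ℝ S + finrank ℝ K)
    (hr : ∀ p ∈ O, f p = 0 → κ p.2 = 0 → Function.Surjective (fderiv ℝ κ p.2) ∧
      ∃ e : S →L[ℝ] Z, Function.Injective e ∧ ∀ s, ∃ β, fderiv ℝ f p (β, 0) = e s) :
    ∀ᵐ b ∂μ, ∀ v, (b, v) ∈ O → κ v = 0 → f (b, v) ≠ 0 := by
  filter_upwards [gen0 μ hV hO (hf.prodMk (hκ.comp contDiff_snd).contDiffOn)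
    (gp0_rank hO hf hκ hr)] with b hb v h1 h2 h3
  exact hb v h1 (Prod.ext h3 h2)

/-- `gen1` for the map `p ↦ (f p, κ p.2)` -/
theorem gp_trans (μ : Measure B) [μ.IsAddHaarMeasure] {O : Set (B × V)} (hO : IsOpen O)
    {f : B × V → Z} (hf : ContDiffOn ℝ ∞ f O) {κ : V → K} (hκ : ContDiff ℝ ∞ κ)
    (hV : finrank ℝ V ≤ finrank ℝ S + finrank ℝ K)
    (hr : ∀ p ∈ O, f p = 0 → κ p.2 = 0 → Function.Surjective (fderiv ℝ κ p.2) ∧
      ∃ e : S →L[ℝ] Z, Function.Injective e ∧ ∀ s, ∃ β, fderiv ℝ f p (β, 0) = e s) :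
    ∀ᵐ b ∂μ, ∀ v, (b, v) ∈ O → κ v = 0 → f (b, v) = 0 →
      ∀ ξ, fderiv ℝ f (b, v) (0, ξ) = 0 → fderiv ℝ κ v ξ = 0 → ξ = 0 := by
  filter_upwards [gen1 μ hO (w := fun p => (f p, κ p.2))
    (hf.prodMk (hκ.comp contDiff_snd).contDiffOn)
    fun p hp h0 => hV.trans (gp0_rank hO hf hκ hr p hp h0)] with b hb v h1 h2 h3 ξ h4 h5
  refine hb v h1 (Prod.ext h3 h2) ξ ?_
  rw [gp0_fderiv hO hf hκ h1]
  exact Prod.ext h4 h5

end

/-- the derivative along a line in the parameter space -/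
theorem fderiv_par {B V Z : Type} [NormedAddCommGroup B] [NormedSpace ℝ B] [NormedAddCommGroup V]
    [NormedSpace ℝ V] [NormedAddCommGroup Z] [NormedSpace ℝ Z] {f : B × V → Z} {b β : B} {v : V}
    {z : Z} (hf : DifferentiableAt ℝ f (b, v))
    (h : HasDerivAt (fun s : ℝ => f (b + s • β, v)) z 0) : fderiv ℝ f (b, v) (β, 0) = z := by
  have h1 : HasDerivAt (fun s : ℝ => (b + s • β, v)) (β, 0) 0 := by
    simpa using (((hasDerivAt_id (0 : ℝ)).smul_const β).const_add b).prodMk (hasDerivAt_const 0 v)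
  exact (hf.hasFDerivAt.comp_hasDerivAt_of_eq 0 h1 (by simp)).unique h

namespace Ctx

variable {c : Ctx} {B V : Type} [NormedAddCommGroup B] [NormedSpace ℝ B] [NormedAddCommGroup V]
  [NormedSpace ℝ V] {h : V → E c.N} {w : V → B →L[ℝ] E c.N}

/-- every tangent vector is a value of the differential of the retraction (`nd_range_ρ`) -/
theorem exists_ρ_eq {z : E c.N} (hz : z ∈ c.U) (s : E 5) :
    ∃ a, fderiv ℝ c.ρ z a = c.dι (c.r z) s :=
  (nd_range_ρ hz).ge ⟨s, rfl⟩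

theorem pert_smooth {b : B} {v : V} (hh : ContDiffAt ℝ ∞ h v) (hw : ContDiffAt ℝ ∞ w v)
    (hz : h v + w v b ∈ c.U) :
    ContDiffAt ℝ ∞ (fun p : B × V => c.ρ (h p.2 + w p.2 p.1)) (b, v) :=
  (nd_ρ_smooth.contDiffAt (c.A.U_open.mem_nhds hz)).comp (f := fun p : B × V => h p.2 + w p.2 p.1)
    (b, v) ((hh.comp (b, v) contDiffAt_snd).add
      ((hw.comp (b, v) contDiffAt_snd).clm_apply contDiffAt_fst))

theorem pert_line {b β : B} {v : V} (hz : h v + w v b ∈ c.U) :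
    HasDerivAt (fun s : ℝ => c.ρ (h v + w v (b + s • β)))
      (fderiv ℝ c.ρ (h v + w v b) (w v β)) 0 := by
  have h1 : HasDerivAt (fun s : ℝ => h v + w v (b + s • β)) (w v β) 0 := by
    simpa using (((hasDerivAt_id (0 : ℝ)).smul_const (w v β)).const_add (w v b)).const_add (h v)
  exact ((nd_ρ_smooth.contDiffAt (c.A.U_open.mem_nhds hz)).differentiableAt
    (by simp)).hasFDerivAt.comp_hasDerivAt_of_eq 0 h1 (by simp)

/-- the jet of the perturbed map depends smoothly on all variables -/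
theorem jet_smooth {b : B} {v ξ : V} (hh : ContDiffAt ℝ ∞ h v) (hw : ContDiffAt ℝ ∞ w v)
    (hz : h v + w v b ∈ c.U) : ContDiffAt ℝ ∞ (fun p : B × V × V => fderiv ℝ c.ρ
      (h p.2.1 + w p.2.1 p.1) (fderiv ℝ h p.2.1 p.2.2 + fderiv ℝ w p.2.1 p.2.2 p.1)) (b, v, ξ) := by
  have h1 : ContDiffAt ℝ ∞ (fun p : B × V × V => p.2.1) (b, v, ξ) := by fun_prop
  have h2 : ContDiffAt ℝ ∞ (fun p : B × V × V => p.2.2) (b, v, ξ) := by fun_prop
  refine (((nd_ρ_smooth.contDiffAt (c.A.U_open.mem_nhds hz)).fderiv_right (by simp)).comp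
    (f := fun p : B × V × V => h p.2.1 + w p.2.1 p.1) (b, v, ξ) ((hh.comp _ h1).add
      ((hw.comp _ h1).clm_apply contDiffAt_fst))).clm_apply ?_
  exact (((hh.fderiv_right (by simp)).comp _ h1).clm_apply h2).add
    ((((hw.fderiv_right (by simp)).comp _ h1).clm_apply h2).clm_apply contDiffAt_fst)

/-- along a direction `β` with `w v β = 0` the base point does not move -/
theorem jet_line {b β : B} {v ξ : V} (h0 : w v β = 0) : HasDerivAt (fun s : ℝ => fderiv ℝ c.ρ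
      (h v + w v (b + s • β)) (fderiv ℝ h v ξ + fderiv ℝ w v ξ (b + s • β)))
    (fderiv ℝ c.ρ (h v + w v b) (fderiv ℝ w v ξ β)) 0 := by
  simp only [map_add, map_smul, h0, smul_zero, add_zero]
  simpa using (hasDerivAt_id (0 : ℝ)).smul_const (fderiv ℝ c.ρ (h v + w v b) (fderiv ℝ w v ξ β))

end Ctx

end Pool.Agent.CSP
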