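import Pool.Agent.Lib.MP_436e1a_gt.H.Gp0

/-! General position for maps of the form `v ↦ ρ (h v + w v b)`, `b` a parameter. -/

open scoped Manifold ContDiff Topology RealInnerProductSpace Classical
open Set MeasureTheory Module

namespace Pool.Agent.CSP

namespace Ctx

variable {c : Ctx} {B V K : Type} [NormedAddCommGroup B] [NormedSpace ℝ B]
  [NormedAddCommGroup V] [NormedSpace ℝ V] [NormedAddCommGroup K] [NormedSpace ℝ K] {O : Set V}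
  {h₁ h₂ h₃ h₄ : V → E c.N} {w₁ w₂ w₃ w₄ : V → B →L[ℝ] E c.N} {κ : V → K}

theorem gp1_open (hO : IsOpen O) (s₁ : ContDiffOn ℝ ∞ h₁ O) (t₁ : ContDiffOn ℝ ∞ w₁ O) :
    IsOpen {p : B × V | p.2 ∈ O ∧ h₁ p.2 + w₁ p.2 p.1 ∈ c.U} :=
  ContinuousOn.isOpen_inter_preimage (s := Prod.snd ⁻¹' O)
    (f := fun p : B × V => h₁ p.2 + w₁ p.2 p.1)
    ((s₁.continuousOn.comp continuousOn_snd fun _ h => h).add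
      ((t₁.continuousOn.comp continuousOn_snd fun _ h => h).clm_apply continuousOn_fst))
    (hO.preimage continuous_snd) c.A.U_open

theorem gp1_sm (hO : IsOpen O) (s₁ : ContDiffOn ℝ ∞ h₁ O) (s₂ : ContDiffOn ℝ ∞ h₂ O)
    (t₁ : ContDiffOn ℝ ∞ w₁ O) (t₂ : ContDiffOn ℝ ∞ w₂ O) {p : B × V} (hp : p.2 ∈ O)
    (u₁ : h₁ p.2 + w₁ p.2 p.1 ∈ c.U) (u₂ : h₂ p.2 + w₂ p.2 p.1 ∈ c.U) : ContDiffAt ℝ ∞
      (fun p : B × V => c.ρ (h₁ p.2 + w₁ p.2 p.1) - c.ρ (h₂ p.2 + w₂ p.2 p.1)) p :=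
  (pert_smooth (s₁.contDiffAt (hO.mem_nhds hp)) (t₁.contDiffAt (hO.mem_nhds hp)) u₁).sub
    (pert_smooth (s₂.contDiffAt (hO.mem_nhds hp)) (t₂.contDiffAt (hO.mem_nhds hp)) u₂)

theorem gp1_line {b β : B} {v : V} (u₁ : h₁ v + w₁ v b ∈ c.U) (u₂ : h₂ v + w₂ v b ∈ c.U)
    (h0 : w₂ v β = 0) : HasDerivAt (fun s : ℝ => c.ρ (h₁ v + w₁ v (b + s • β)) -
      c.ρ (h₂ v + w₂ v (b + s • β))) (fderiv ℝ c.ρ (h₁ v + w₁ v b) (w₁ v β)) 0 := by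
  have h := (pert_line (β := β) u₁).sub (pert_line (β := β) u₂)
  rwa [h0, map_zero, sub_zero] at h

theorem gp1_rank (hO : IsOpen O) (s₁ : ContDiffOn ℝ ∞ h₁ O) (s₂ : ContDiffOn ℝ ∞ h₂ O)
    (t₁ : ContDiffOn ℝ ∞ w₁ O) (t₂ : ContDiffOn ℝ ∞ w₂ O) {p : B × V} (hp : p.2 ∈ O)
    (u₁ : h₁ p.2 + w₁ p.2 p.1 ∈ c.U) (u₂ : h₂ p.2 + w₂ p.2 p.1 ∈ c.U)
    (hw : ∀ a, ∃ β, w₁ p.2 β = a ∧ w₂ p.2 β = 0) : ∃ e : E 5 →L[ℝ] E c.N, Function.Injective e ∧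
      ∀ s, ∃ β, fderiv ℝ (fun p : B × V => c.ρ (h₁ p.2 + w₁ p.2 p.1) - c.ρ (h₂ p.2 + w₂ p.2 p.1)) p
        (β, 0) = e s := by
  refine ⟨_, c.dι_inj (c.r (h₁ p.2 + w₁ p.2 p.1)), fun s => ?_⟩
  obtain ⟨a, ha⟩ := exists_ρ_eq u₁ s
  obtain ⟨β, rfl, h0⟩ := hw a
  exact ⟨β, (fderiv_par ((gp1_sm hO s₁ s₂ t₁ t₂ hp u₁ u₂).differentiableAt (by simp))
    (gp1_line u₁ u₂ h0)).trans ha⟩

variable [FiniteDimensional ℝ B] [FiniteDimensional ℝ V] [FiniteDimensional ℝ K]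
  [MeasurableSpace B] [BorelSpace B] (μ : Measure B) [μ.IsAddHaarMeasure]

theorem ae_miss (hO : IsOpen O) (s₁ : ContDiffOn ℝ ∞ h₁ O) (s₂ : ContDiffOn ℝ ∞ h₂ O)
    (t₁ : ContDiffOn ℝ ∞ w₁ O) (t₂ : ContDiffOn ℝ ∞ w₂ O) (hκ : ContDiff ℝ ∞ κ)
    (hV : finrank ℝ V < 5 + finrank ℝ K)
    (hk : ∀ v ∈ O, κ v = 0 → Function.Surjective (fderiv ℝ κ v))
    (hw : ∀ v ∈ O, κ v = 0 → ∀ a, ∃ β, w₁ v β = a ∧ w₂ v β = 0) :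
    ∀ᵐ b ∂μ, ∀ v ∈ O, κ v = 0 → h₁ v + w₁ v b ∈ c.U → h₂ v + w₂ v b ∈ c.U →
      c.ρ (h₁ v + w₁ v b) ≠ c.ρ (h₂ v + w₂ v b) := by
  filter_upwards [gp_avoid (S := E 5) μ ((gp1_open hO s₁ t₁).inter (gp1_open hO s₂ t₂))
    (fun p hp => (gp1_sm hO s₁ s₂ t₁ t₂ hp.1.1 hp.1.2 hp.2.2).contDiffWithinAt) hκ (by simpa using hV)
    fun p hp _ h0 => ⟨hk _ hp.1.1 h0, gp1_rank hO s₁ s₂ t₁ t₂ hp.1.1 hp.1.2 hp.2.2 (hw _ hp.1.1 h0)⟩]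
    with b hb v hv h0 u₁ u₂
  exact sub_ne_zero.1 (hb v ⟨⟨hv, u₁⟩, hv, u₂⟩ h0)

theorem ae_trans (hO : IsOpen O) (s₁ : ContDiffOn ℝ ∞ h₁ O) (s₂ : ContDiffOn ℝ ∞ h₂ O)
    (t₁ : ContDiffOn ℝ ∞ w₁ O) (t₂ : ContDiffOn ℝ ∞ w₂ O) (hκ : ContDiff ℝ ∞ κ)
    (hV : finrank ℝ V ≤ 5 + finrank ℝ K)
    (hk : ∀ v ∈ O, κ v = 0 → Function.Surjective (fderiv ℝ κ v))
    (hw : ∀ v ∈ O, κ v = 0 → ∀ a, ∃ β, w₁ v β = a ∧ w₂ v β = 0) :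
    ∀ᵐ b ∂μ, ∀ v ∈ O, κ v = 0 → h₁ v + w₁ v b ∈ c.U → h₂ v + w₂ v b ∈ c.U →
      c.ρ (h₁ v + w₁ v b) = c.ρ (h₂ v + w₂ v b) → ∀ ξ,
        fderiv ℝ (fun v => c.ρ (h₁ v + w₁ v b)) v ξ = fderiv ℝ (fun v => c.ρ (h₂ v + w₂ v b)) v ξ →
          fderiv ℝ κ v ξ = 0 → ξ = 0 := by
  filter_upwards [gp_trans (S := E 5) μ ((gp1_open hO s₁ t₁).inter (gp1_open hO s₂ t₂))
    (fun p hp => (gp1_sm hO s₁ s₂ t₁ t₂ hp.1.1 hp.1.2 hp.2.2).contDiffWithinAt) hκ (by simpa using hV)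
    fun p hp _ h0 => ⟨hk _ hp.1.1 h0, gp1_rank hO s₁ s₂ t₁ t₂ hp.1.1 hp.1.2 hp.2.2 (hw _ hp.1.1 h0)⟩]
    with b hb v hv h0 u₁ u₂ e ξ e₁ e₂
  refine hb v ⟨⟨hv, u₁⟩, hv, u₂⟩ h0 (sub_eq_zero.2 e) ξ ?_ e₂
  have d : ∀ {h : V → E c.N} {w : V → B →L[ℝ] E c.N}, ContDiffOn ℝ ∞ h O → ContDiffOn ℝ ∞ w O →
      h v + w v b ∈ c.U → DifferentiableAt ℝ (fun v => c.ρ (h v + w v b)) v := fun s t u =>
    DifferentiableAt.comp (f := fun v => (b, v)) v ((pert_smooth (s.contDiffAt (hO.mem_nhds hv))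
      (t.contDiffAt (hO.mem_nhds hv)) u).differentiableAt (by simp)) (by fun_prop)
  rw [← fderiv_slice' ((gp1_sm (p := (b, v)) hO s₁ s₂ t₁ t₂ hv u₁ u₂).differentiableAt (by simp))]
  exact (DFunLike.congr_fun (fderiv_fun_sub (d s₁ t₁ u₁) (d s₂ t₂ u₂)) ξ).trans (sub_eq_zero.2 e₁)

/-- two coincidences at once -/
theorem ae_miss₂ (hO : IsOpen O) (s₁ : ContDiffOn ℝ ∞ h₁ O) (s₂ : ContDiffOn ℝ ∞ h₂ O)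
    (s₃ : ContDiffOn ℝ ∞ h₃ O) (s₄ : ContDiffOn ℝ ∞ h₄ O)
    (t₁ : ContDiffOn ℝ ∞ w₁ O) (t₂ : ContDiffOn ℝ ∞ w₂ O) (t₃ : ContDiffOn ℝ ∞ w₃ O)
    (t₄ : ContDiffOn ℝ ∞ w₄ O) (hκ : ContDiff ℝ ∞ κ) (hV : finrank ℝ V < 10 + finrank ℝ K)
    (hk : ∀ v ∈ O, κ v = 0 → Function.Surjective (fderiv ℝ κ v))
    (hw : ∀ v ∈ O, κ v = 0 → ∀ a a', ∃ β, w₁ v β = a ∧ w₂ v β = 0 ∧ w₃ v β = a' ∧ w₄ v β = 0) :
    ∀ᵐ b ∂μ, ∀ v ∈ O, κ v = 0 → h₁ v + w₁ v b ∈ c.U → h₂ v + w₂ v b ∈ c.U →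
      h₃ v + w₃ v b ∈ c.U → h₄ v + w₄ v b ∈ c.U → c.ρ (h₁ v + w₁ v b) = c.ρ (h₂ v + w₂ v b) →
        c.ρ (h₃ v + w₃ v b) ≠ c.ρ (h₄ v + w₄ v b) := by
  have sm := fun (p : B × V) hp u₁ u₂ u₃ u₄ => (gp1_sm (p := p) hO s₁ s₂ t₁ t₂ hp u₁ u₂).prodMk
    (gp1_sm hO s₃ s₄ t₃ t₄ hp u₃ u₄)
  filter_upwards [gp_avoid (S := E 5 × E 5) μ (((gp1_open hO s₁ t₁).inter (gp1_open hO s₂ t₂)).inter
    ((gp1_open hO s₃ t₃).inter (gp1_open hO s₄ t₄)))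
    (fun p hp => (sm p hp.1.1.1 hp.1.1.2 hp.1.2.2 hp.2.1.2 hp.2.2.2).contDiffWithinAt) hκ
    (by simpa using hV) fun p hp _ h0 => ⟨hk _ hp.1.1.1 h0,
      (c.dι (c.r (h₁ p.2 + w₁ p.2 p.1))).prodMap (c.dι (c.r (h₃ p.2 + w₃ p.2 p.1))),
      (c.dι_inj _).prodMap (c.dι_inj _), fun s => by
        obtain ⟨a, ha⟩ := exists_ρ_eq hp.1.1.2 s.1
        obtain ⟨a', ha'⟩ := exists_ρ_eq hp.2.1.2 s.2
        obtain ⟨β, rfl, e₂, rfl, e₄⟩ := hw _ hp.1.1.1 h0 a a'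
        exact ⟨β, (fderiv_par ((sm p hp.1.1.1 hp.1.1.2 hp.1.2.2 hp.2.1.2 hp.2.2.2).differentiableAt
          (by simp)) ((gp1_line hp.1.1.2 hp.1.2.2 e₂).prodMk (gp1_line hp.2.1.2 hp.2.2.2 e₄))).trans
          (Prod.ext ha ha')⟩⟩] with b hb v hv h0 u₁ u₂ u₃ u₄ e e'
  exact hb v ⟨⟨⟨hv, u₁⟩, hv, u₂⟩, ⟨hv, u₃⟩, hv, u₄⟩ h0
    (Prod.ext (sub_eq_zero.2 e) (sub_eq_zero.2 e'))

/-- the differential at `π v` in the direction `ξ v` -/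
theorem ae_imm {X : Type} [NormedAddCommGroup X] [NormedSpace ℝ X] {h : X → E c.N}
    {w : X → B →L[ℝ] E c.N} {π ξ : V → X} (hO : IsOpen O) (hπ : ContDiff ℝ ∞ π)
    (hξ : ContDiff ℝ ∞ ξ) (hh : ∀ v ∈ O, ContDiffAt ℝ ∞ h (π v)) (hw' : ContDiff ℝ ∞ w)
    (hκ : ContDiff ℝ ∞ κ) (hV : finrank ℝ V < 5 + finrank ℝ K)
    (hk : ∀ v ∈ O, κ v = 0 → Function.Surjective (fderiv ℝ κ v))
    (hw : ∀ v ∈ O, κ v = 0 → ∀ a, ∃ β, w (π v) β = 0 ∧ fderiv ℝ w (π v) (ξ v) β = a) :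
    ∀ᵐ b ∂μ, ∀ v ∈ O, κ v = 0 → h (π v) + w (π v) b ∈ c.U →
      fderiv ℝ c.ρ (h (π v) + w (π v) b)
        (fderiv ℝ h (π v) (ξ v) + fderiv ℝ (fun x => w x b) (π v) (ξ v)) ≠ 0 := by
  have sm : ∀ p : B × V, p.2 ∈ O → h (π p.2) + w (π p.2) p.1 ∈ c.U → ContDiffAt ℝ ∞
      (fun p : B × V => fderiv ℝ c.ρ (h (π p.2) + w (π p.2) p.1)
        (fderiv ℝ h (π p.2) (ξ p.2) + fderiv ℝ w (π p.2) (ξ p.2) p.1)) p := fun p hp u =>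
    ContDiffAt.comp (f := fun p : B × V => (p.1, π p.2, ξ p.2)) p
      (jet_smooth (hh _ hp) hw'.contDiffAt u) (contDiff_fst.prodMk ((hπ.comp contDiff_snd).prodMk
        (hξ.comp contDiff_snd))).contDiffAt
  filter_upwards [gp_avoid (S := E 5) μ (gp1_open (h₁ := fun v => h (π v)) (w₁ := fun v => w (π v))
    hO (fun v hv => ((hh v hv).comp v hπ.contDiffAt).contDiffWithinAt) (hw'.comp hπ).contDiffOn)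
    (fun p hp => (sm p hp.1 hp.2).contDiffWithinAt) hκ (by simpa using hV) fun p hp _ h0 =>
      ⟨hk _ hp.1 h0, _, c.dι_inj (c.r (h (π p.2) + w (π p.2) p.1)), fun s => by
        obtain ⟨a, ha⟩ := exists_ρ_eq hp.2 s
        obtain ⟨β, e, rfl⟩ := hw _ hp.1 h0 a
        exact ⟨β, (fderiv_par ((sm p hp.1 hp.2).differentiableAt (by simp))
          (jet_line (h := h) (b := p.1) (ξ := ξ p.2) e)).trans ha⟩⟩] with b hb v hv h0 u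
  have e : fderiv ℝ (fun x => w x b) (π v) (ξ v) = fderiv ℝ w (π v) (ξ v) b := by
    rw [fderiv_clm_apply (hw'.differentiable (by simp) _) (differentiableAt_const _)]
    simp
  rw [e]
  exact hb v ⟨hv, u⟩ h0

end Ctx

end Pool.Agent.CSP
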