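import Pool.Agent.Lib.MP_436e1a_gt.H.Gp1
import Pool.Agent.Lib.MP_436e1a_gt.H.Push
import Pool.Agent.Lib.MP_436e1a_gt.H.Amp
import Pool.Agent.Lib.MP_436e1a_gt.H.Lin

/-! Almost every small perturbation of a family between two links is generic. -/

open scoped Manifold ContDiff Topology RealInnerProductSpace Classical
open Set MeasureTheory

namespace Pool.Agent.CSP

theorem gp2_dir {V K : Type} [NormedAddCommGroup V] [NormedSpace ℝ V] [NormedAddCommGroup K]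
    [NormedSpace ℝ K] {κ : V → K} (hκ : ContDiff ℝ ∞ κ) {p ξ : V} {z : K}
    (h : HasDerivAt (fun s : ℝ => κ (p + s • ξ)) z 0) : fderiv ℝ κ p ξ = z := by
  have h1 : HasDerivAt (fun s : ℝ => p + s • ξ) ξ 0 := by
    simpa using ((hasDerivAt_id (0 : ℝ)).smul_const ξ).const_add p
  exact ((hκ.differentiable (by simp) p).hasFDerivAt.comp_hasDerivAt_of_eq 0 h1 (by simp)).unique h

theorem gp2_in (x a y b : E 3) :
    HasDerivAt (fun s : ℝ => ⟪x + s • a, y + s • b⟫) (⟪x, b⟫ + ⟪a, y⟫) 0 := by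
  simpa using (((hasDerivAt_id (0 : ℝ)).smul_const a).const_add x).inner ℝ
    (((hasDerivAt_id (0 : ℝ)).smul_const b).const_add y)

theorem gp2_n (x a : E 3) : HasDerivAt (fun s : ℝ => ⟪x + s • a, x + s • a⟫ - 1) (2 * ⟪x, a⟫) 0 := by
  simpa [two_mul, real_inner_comm] using (gp2_in x a x a).sub_const 1

theorem gp2_m {x : E 3} (h : ⟪x, x⟫ - 1 = 0) (r : ℝ) :
    HasDerivAt (fun s : ℝ => ⟪x + s • (r / 2) • x, x + s • (r / 2) • x⟫ - 1) r 0 := by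
  convert gp2_n x ((r / 2) • x) using 1
  rw [inner_smul_right, sub_eq_zero.1 h]
  ring

theorem gp2_S {x : E 3} (h : x ∈ S2) : ⟪x, x⟫ - 1 = 0 := by
  simp [mem_sphere_zero_iff_norm.1 h]

theorem gp2_c {V : Type} [NormedAddCommGroup V] [NormedSpace ℝ V] {f : V → E 3}
    (hf : ContDiff ℝ ∞ f) : ContDiff ℝ ∞ fun p => ⟪f p, f p⟫ - 1 :=
  (hf.inner ℝ hf).sub contDiff_const

namespace Ctx

variable {c : Ctx} {ι : Type} {n : ℕ} {F : ι → ℝ × E 3 → c.Y} {P : c.Y × E c.N → c.Y}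
  {w : ι → ℝ × E 3 → E n →L[ℝ] E c.N}

/-- the parameter `b` is admissible -/
def Adm (c : Ctx) (F : ι → ℝ × E 3 → c.Y) (w : ι → ℝ × E 3 → E n →L[ℝ] E c.N) (b : E n) : Prop :=
  ∀ k, ∀ p ∈ Icc (0 : ℝ) 1 ×ˢ S2, (F k p, w k p b) ∈ c.Sg

theorem gp2_fam (hP : c.Psh P) (hw : Amp w) (hF : c.Fam F) {b : E n} (hb : c.Adm F w b) :
    c.Fam fun k p => P (F k p, w k p b) := fun k =>
  hP.smNear (hF k) ((hw.sm k).clm_apply contDiff_const) (hb k)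

theorem ae_reg [Finite ι] (hP : c.Psh P) (hw : Amp w) (hF : c.Fam F) (h0 : c.Link (sl F 0))
    (h1 : c.Link (sl F 1)) :
    ∀ᵐ b, c.Adm F w b → ∀ k, c.Reg fun p => P (F k p, w k p b) := by
  have hκ : ContDiff ℝ ∞ fun p : ℝ × E 3 × E 3 =>
      (⟪p.2.1, p.2.1⟫ - 1, ⟪p.2.1, p.2.2⟫, ⟪p.2.2, p.2.2⟫ - 1) :=
    (gp2_c (by fun_prop)).prodMk ((ContDiff.inner ℝ (by fun_prop) (by fun_prop)).prodMk
      (gp2_c (by fun_prop)))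
  choose O o1 o2 o3 using id hF
  have h2 := fun k => ae_imm (c := c) (V := ℝ × E 3 × E 3) volume (h := c.am (F k)) (w := w k)
    (π := fun p => (p.1, p.2.1)) (ξ := fun p => (0, p.2.2))
    (O := {p | (p.1, p.2.1) ∈ O k ∧ p.1 ∈ Ioo 0 1})
    (((o1 k).preimage (by fun_prop)).inter (isOpen_Ioo.preimage continuous_fst)) (by fun_prop)
    (by fun_prop) (fun p hp => (o3 k).2.contDiffAt ((o1 k).mem_nhds hp.1)) (hw.sm k) hκ (by simp)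
    (fun p _ h r => ⟨(0, (r.1 / 2) • p.2.1, r.2.1 • p.2.1 + (r.2.2 / 2) • p.2.2), by
      simp only [Prod.mk_eq_zero, sub_eq_zero] at h
      rw [gp2_dir hκ ((gp2_n _ _).prodMk ((gp2_in _ _ _ _).prodMk (gp2_n _ _)))]
      simp only [inner_add_right, inner_smul_right, real_inner_smul_left, h.1, h.2.1, h.2.2,
        real_inner_comm p.2.1 p.2.2]
      refine Prod.ext ?_ (Prod.ext ?_ ?_) <;> ring⟩)
    fun p hp h a => hw.jet _ hp.2 k _ _ (fun e => by simp [e] at h) a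
  filter_upwards [ae_all_iff.2 h2] with b hb ha k t ht
  rcases ht.1.eq_or_lt with rfl | t0
  · simp only [hw.zero, zero_apply, hP.zero]
    exact h0.imm k
  rcases ht.2.eq_or_lt with rfl | t1
  · simp only [hw.one, zero_apply, hP.zero]
    exact h1.imm k
  intro x hx v hv e
  by_contra hn
  have m : (t, x) ∈ Icc (0 : ℝ) 1 ×ˢ S2 := ⟨ht, hx⟩
  refine hb k (t, x, nrm v) ⟨o2 k m, t0, t1⟩ (Prod.ext (gp2_S hx) (Prod.ext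
    (by simp [nrm, inner_smul_right, hv]) (gp2_S (nrm_mem hn)))) (Sg.mem_U (ha k _ m)) ?_
  rw [← hP.fderiv ((hF k).at m) ((hw.sm k).clm_apply contDiff_const) (ha k _ m)]
  rw [fderiv_slice (f := fun p => P (F k p, w k p b))
    ((gp2_fam hP hw hF ha k).differentiableAt m)] at e
  rw [show ((0 : ℝ), nrm v) = ‖v‖⁻¹ • ((0 : ℝ), v) by simp [nrm], map_smul, e, smul_zero]

theorem gp2_ι (hP : c.Psh P) {b : E n} (hb : c.Adm F w b) (k : ι) {t : ℝ} (ht : t ∈ Ioo (0 : ℝ) 1)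
    {x : E 3} (hx : x ∈ S2) : c.am (F k) (t, x) + w k (t, x) b ∈ c.U ∧
      c.ρ (c.am (F k) (t, x) + w k (t, x) b) = c.ι (c.q (P (F k (t, x), w k (t, x) b))) :=
  have h := hb k (t, x) ⟨Ioo_subset_Icc_self ht, hx⟩
  ⟨Sg.mem_U h, (congrArg c.ι (hP.proj _ h)).symm⟩

theorem gp2_ne {V : Type} [TopologicalSpace V] (k l : ι) {f g : V → E 3} (hf : Continuous f)
    (hg : Continuous g) : IsOpen {p | (k, f p) ≠ (l, g p)} := by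
  simp only [ne_eq, Prod.mk.injEq, not_and_or]
  exact isOpen_const.union (isOpen_ne_fun hf hg)

theorem ae_tr (hP : c.Psh P) (hw : Amp w) (hF : c.Fam F) (k l : ι) :
    ∀ᵐ b, c.Adm F w b → ∀ t ∈ Ioo (0 : ℝ) 1, ∀ x ∈ S2, ∀ y ∈ S2, (k, x) ≠ (l, y) →
      c.q (P (F k (t, x), w k (t, x) b)) = c.q (P (F l (t, y), w l (t, y) b)) →
        c.Tr (fun p => P (F k p, w k p b)) (fun p => P (F l p, w l p b)) t x y := by
  have hκ : ContDiff ℝ ∞ fun p : ℝ × E 3 × E 3 => (⟪p.2.1, p.2.1⟫ - 1, ⟪p.2.2, p.2.2⟫ - 1) :=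
    (gp2_c (by fun_prop)).prodMk (gp2_c (by fun_prop))
  choose O o1 o2 o3 using id hF
  let π₁ : ℝ × E 3 × E 3 →L[ℝ] ℝ × E 3 :=
    (ContinuousLinearMap.id ℝ ℝ).prodMap (ContinuousLinearMap.fst ℝ _ _)
  let π₂ : ℝ × E 3 × E 3 →L[ℝ] ℝ × E 3 :=
    (ContinuousLinearMap.id ℝ ℝ).prodMap (ContinuousLinearMap.snd ℝ _ _)
  have h2 := ae_trans (c := c) (V := ℝ × E 3 × E 3) volume (h₁ := fun p => c.am (F k) (π₁ p))
    (w₁ := fun p => w k (π₁ p)) (h₂ := fun p => c.am (F l) (π₂ p)) (w₂ := fun p => w l (π₂ p))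
    (O := {p | π₁ p ∈ O k ∧ π₂ p ∈ O l ∧ p.1 ∈ Ioo 0 1 ∧ (k, p.2.1) ≠ (l, p.2.2)})
    (((o1 k).preimage π₁.continuous).inter (((o1 l).preimage π₂.continuous).inter
      ((isOpen_Ioo.preimage continuous_fst).inter (gp2_ne k l (by fun_prop) (by fun_prop)))))
    ((o3 k).2.comp π₁.contDiff.contDiffOn fun _ h => h.1)
    ((o3 l).2.comp π₂.contDiff.contDiffOn fun _ h => h.2.1)
    ((hw.sm k).comp π₁.contDiff).contDiffOn ((hw.sm l).comp π₂.contDiff).contDiffOn hκ (by simp)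
    (fun p _ h r => ⟨(0, (r.1 / 2) • p.2.1, (r.2 / 2) • p.2.2), gp2_dir hκ
      ((gp2_m (congrArg Prod.fst h) _).prodMk (gp2_m (congrArg Prod.snd h) _))⟩)
    fun p hp _ a => (hw.val _ hp.2.2.1 (k, p.2.1) (l, p.2.2) (l, p.2.2) (l, p.2.2) hp.2.2.2 hp.2.2.2
      hp.2.2.2 a).imp fun _ h => ⟨h.1, h.2.1⟩
  filter_upwards [h2] with b hb ha t ht x hx y hy hne e τ v u hv hu e'
  have m := Ioo_subset_Icc_self ht
  have key : ∀ (j : ι) (z : E 3) (π : ℝ × E 3 × E 3 →L[ℝ] ℝ × E 3), z ∈ S2 → π (t, x, y) = (t, z) →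
      fderiv ℝ (fun p => c.ρ (c.am (F j) (π p) + w j (π p) b)) (t, x, y) (τ, v, u) =
        fderiv ℝ (c.am fun p => P (F j p, w j p b)) (t, z) (π (τ, v, u)) := fun j z π hz hπ => by
    have h3 := hP.am ((hF j).continuousAt (v := (t, z)) ⟨m, hz⟩)
      ((hw.sm j).clm_apply contDiff_const).continuous.continuousAt (ha j (t, z) ⟨m, hz⟩)
    have h4 := ((gp2_fam hP hw hF ha j).differentiableAt (v := (t, z))
      ⟨m, hz⟩).hasFDerivAt.congr_of_eventuallyEq h3.symm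
    rw [← hπ] at h4 ⊢
    exact DFunLike.congr_fun (HasFDerivAt.comp (t, x, y) h4 π.hasFDerivAt).fderiv _
  have h5 := hb (t, x, y) ⟨o2 k ⟨m, hx⟩, o2 l ⟨m, hy⟩, ht, hne⟩ (Prod.ext (gp2_S hx) (gp2_S hy))
    (gp2_ι hP ha k ht hx).1 (gp2_ι hP ha l ht hy).1
    ((gp2_ι hP ha k ht hx).2.trans ((congrArg c.ι e).trans (gp2_ι hP ha l ht hy).2.symm)) (τ, v, u)
    ((key k x π₁ hx rfl).trans (e'.trans (key l y π₂ hy rfl).symm)) (by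
      rw [gp2_dir hκ ((gp2_n x v).prodMk (gp2_n y u)), hv, hu]; simp)
  simpa using h5

theorem ae_sep (hP : c.Psh P) (hw : Amp w) (hF : c.Fam F) (k₁ k₂ k₃ k₄ : ι) :
    ∀ᵐ b, c.Adm F w b → ∀ t ∈ Ioo (0 : ℝ) 1, ∀ x₁ ∈ S2, ∀ x₂ ∈ S2, ∀ x₃ ∈ S2, ∀ x₄ ∈ S2,
      (k₁, x₁) ≠ (k₂, x₂) → (k₁, x₁) ≠ (k₃, x₃) → (k₁, x₁) ≠ (k₄, x₄) → (k₃, x₃) ≠ (k₂, x₂) →
      (k₃, x₃) ≠ (k₄, x₄) →
      c.q (P (F k₁ (t, x₁), w k₁ (t, x₁) b)) = c.q (P (F k₂ (t, x₂), w k₂ (t, x₂) b)) →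
        c.q (P (F k₃ (t, x₃), w k₃ (t, x₃) b)) ≠ c.q (P (F k₄ (t, x₄), w k₄ (t, x₄) b)) := by
  have hκ : ContDiff ℝ ∞ fun p : ℝ × (E 3 × E 3) × E 3 × E 3 =>
      ((⟪p.2.1.1, p.2.1.1⟫ - 1, ⟪p.2.1.2, p.2.1.2⟫ - 1), ⟪p.2.2.1, p.2.2.1⟫ - 1,
        ⟪p.2.2.2, p.2.2.2⟫ - 1) :=
    ((gp2_c (by fun_prop)).prodMk (gp2_c (by fun_prop))).prodMk
      ((gp2_c (by fun_prop)).prodMk (gp2_c (by fun_prop)))
  choose O o1 o2 o3 using id hF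
  have π₁ : ContDiff ℝ ∞ fun p : ℝ × (E 3 × E 3) × E 3 × E 3 => (p.1, p.2.1.1) := by fun_prop
  have π₂ : ContDiff ℝ ∞ fun p : ℝ × (E 3 × E 3) × E 3 × E 3 => (p.1, p.2.1.2) := by fun_prop
  have π₃ : ContDiff ℝ ∞ fun p : ℝ × (E 3 × E 3) × E 3 × E 3 => (p.1, p.2.2.1) := by fun_prop
  have π₄ : ContDiff ℝ ∞ fun p : ℝ × (E 3 × E 3) × E 3 × E 3 => (p.1, p.2.2.2) := by fun_prop
  have h2 := ae_miss₂ (c := c) volume
    (O := {p : ℝ × (E 3 × E 3) × E 3 × E 3 | (((p.1, p.2.1.1) ∈ O k₁ ∧ (p.1, p.2.1.2) ∈ O k₂) ∧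
      (p.1, p.2.2.1) ∈ O k₃ ∧ (p.1, p.2.2.2) ∈ O k₄) ∧ p.1 ∈ Ioo 0 1 ∧ (k₁, p.2.1.1) ≠ (k₂, p.2.1.2) ∧
      (k₁, p.2.1.1) ≠ (k₃, p.2.2.1) ∧ (k₁, p.2.1.1) ≠ (k₄, p.2.2.2) ∧
      (k₃, p.2.2.1) ≠ (k₂, p.2.1.2) ∧ (k₃, p.2.2.1) ≠ (k₄, p.2.2.2)})
    (((((o1 _).preimage π₁.continuous).inter ((o1 _).preimage π₂.continuous)).inter
      (((o1 _).preimage π₃.continuous).inter ((o1 _).preimage π₄.continuous))).inter
      ((isOpen_Ioo.preimage continuous_fst).inter ((gp2_ne _ _ (by fun_prop) (by fun_prop)).inter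
      ((gp2_ne _ _ (by fun_prop) (by fun_prop)).inter ((gp2_ne _ _ (by fun_prop) (by fun_prop)).inter
      ((gp2_ne _ _ (by fun_prop) (by fun_prop)).inter (gp2_ne _ _ (by fun_prop) (by fun_prop))))))))
    ((o3 k₁).2.comp π₁.contDiffOn fun _ h => h.1.1.1) ((o3 k₂).2.comp π₂.contDiffOn fun _ h => h.1.1.2)
    ((o3 k₃).2.comp π₃.contDiffOn fun _ h => h.1.2.1) ((o3 k₄).2.comp π₄.contDiffOn fun _ h => h.1.2.2)
    ((hw.sm k₁).comp π₁).contDiffOn ((hw.sm k₂).comp π₂).contDiffOn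
    ((hw.sm k₃).comp π₃).contDiffOn ((hw.sm k₄).comp π₄).contDiffOn hκ (by simp)
    (fun p _ h r => ⟨(0, ((r.1.1 / 2) • p.2.1.1, (r.1.2 / 2) • p.2.1.2), (r.2.1 / 2) • p.2.2.1,
      (r.2.2 / 2) • p.2.2.2), gp2_dir hκ (((gp2_m (congrArg (·.1.1) h) _).prodMk
        (gp2_m (congrArg (·.1.2) h) _)).prodMk ((gp2_m (congrArg (·.2.1) h) _).prodMk
        (gp2_m (congrArg (·.2.2) h) _)))⟩)
    fun p hp _ a a' => by
      obtain ⟨-, ht, n₁, n₂, n₃, n₄, n₅⟩ := hp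
      obtain ⟨β, a₁, a₂, a₃, a₄⟩ := hw.val _ ht _ _ _ _ n₁ n₂ n₃ a
      obtain ⟨β', b₁, b₂, b₃, b₄⟩ := hw.val _ ht _ _ _ _ n₂.symm n₄ n₅ a'
      refine ⟨β + β', ?_, ?_, ?_, ?_⟩ <;> simp only [Function.comp, map_add]
      · rw [a₁, b₂, add_zero]
      · rw [a₂, b₃, add_zero]
      · rw [a₃, b₁, zero_add]
      · rw [a₄, b₄, add_zero]
  filter_upwards [h2] with b hb ha t ht x₁ m₁ x₂ m₂ x₃ m₃ x₄ m₄ n₁ n₂ n₃ n₄ n₅ e e'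
  have m := Ioo_subset_Icc_self ht
  exact hb (t, (x₁, x₂), x₃, x₄) ⟨⟨⟨o2 _ ⟨m, m₁⟩, o2 _ ⟨m, m₂⟩⟩, o2 _ ⟨m, m₃⟩, o2 _ ⟨m, m₄⟩⟩, ht, n₁, n₂,
    n₃, n₄, n₅⟩ (Prod.ext (Prod.ext (gp2_S m₁) (gp2_S m₂)) (Prod.ext (gp2_S m₃) (gp2_S m₄)))
    (gp2_ι hP ha _ ht m₁).1 (gp2_ι hP ha _ ht m₂).1 (gp2_ι hP ha _ ht m₃).1 (gp2_ι hP ha _ ht m₄).1
    ((gp2_ι hP ha _ ht m₁).2.trans ((congrArg c.ι e).trans (gp2_ι hP ha _ ht m₂).2.symm))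
    ((gp2_ι hP ha _ ht m₃).2.trans ((congrArg c.ι e').trans (gp2_ι hP ha _ ht m₄).2.symm))

theorem ae_gen [Finite ι] (hP : c.Psh P) (hw : Amp w) (hF : c.Fam F) (h0 : c.Link (sl F 0))
    (h1 : c.Link (sl F 1)) :
    ∀ᵐ b, c.Adm F w b → c.Gen fun k p => P (F k p, w k p b) := by
  filter_upwards [ae_reg hP hw hF h0 h1, ae_all_iff.2 fun k => ae_all_iff.2 fun l => ae_tr hP hw hF k l,
    ae_all_iff.2 fun k₁ => ae_all_iff.2 fun k₂ => ae_all_iff.2 fun k₃ => ae_all_iff.2 fun k₄ =>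
      ae_sep hP hw hF k₁ k₂ k₃ k₄] with b a₁ a₂ a₃ ha
  have hf := gp2_fam hP hw hF ha
  have io : ∀ p ∈ c.Dp fun k p => P (F k p, w k p b), p.1 ∈ Ioo (0 : ℝ) 1 := by
    rintro ⟨t, ⟨k, x⟩, l, y⟩ ⟨ht, hx, hy, hn, e⟩
    refine ⟨lt_of_le_of_ne ht.1 ?_, lt_of_le_of_ne ht.2 ?_⟩ <;> rintro rfl
    · simp only [hw.zero, zero_apply, hP.zero] at e
      exact hn (Prod.ext (h0.inj k l x hx y hy e).1 (h0.inj k l x hx y hy e).2)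
    · simp only [hw.one, zero_apply, hP.zero] at e
      exact hn (Prod.ext (h1.inj k l x hx y hy e).1 (h1.inj k l x hx y hy e).2)
  refine ⟨hf, a₁ ha, io, fun p hp => ?_, ?_⟩
  · have ht := io p hp
    obtain ⟨m, hx, hy, hn, e⟩ := hp
    obtain ⟨g, hg⟩ := c.q_eq_iff.1 e
    refine ⟨g, Tr.cross (fun τ v u hv hu e' => a₂ _ _ ha _ ht _ hx _ hy hn e τ v u hv hu ?_) hg
      (hf.at _ m hx) ((hf.at _ m hy).smul g) (ne_zero_of_S2 hx) (ne_zero_of_S2 hy)⟩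
    rwa [c.am_smul g fun p' => P (F p.2.2.1 p', w p.2.2.1 p' b)] at e'
  · rintro ⟨t, p₁, p₂⟩ hp ⟨t', p₃, p₄⟩ ⟨-, m₃, m₄, n', e'⟩ rfl
    have ht := io _ hp
    obtain ⟨-, m₁, m₂, n, e⟩ := hp
    have A : ∀ p₁ p₂ p₃ p₄ : ι × E 3, p₁.2 ∈ S2 → p₂.2 ∈ S2 → p₃.2 ∈ S2 → p₄.2 ∈ S2 → p₁ ≠ p₂ →
        p₁ ≠ p₃ → p₁ ≠ p₄ → p₃ ≠ p₂ → p₃ ≠ p₄ → _ → _ := fun p₁ p₂ p₃ p₄ m₁ m₂ m₃ m₄ =>
      a₃ p₁.1 p₂.1 p₃.1 p₄.1 ha t ht _ m₁ _ m₂ _ m₃ _ m₄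
    replace n : p₁ ≠ p₂ := n
    replace n' : p₃ ≠ p₄ := n'
    by_contra hn
    simp only [Prod.swap_prod_mk, Prod.mk.injEq, not_or] at hn
    have B₁ := fun h₁ h₂ h₃ => A p₁ p₂ p₃ p₄ m₁ m₂ m₃ m₄ n h₁ h₂ h₃ n' e e'
    have B₂ := fun h₁ h₂ h₃ => A p₁ p₂ p₄ p₃ m₁ m₂ m₄ m₃ n h₁ h₂ h₃ n'.symm e e'.symm
    have B₃ := fun h₁ h₂ h₃ => A p₂ p₁ p₃ p₄ m₂ m₁ m₃ m₄ n.symm h₁ h₂ h₃ n' e.symm e'
    have B₄ := fun h₁ h₂ h₃ => A p₂ p₁ p₄ p₃ m₂ m₁ m₄ m₃ n.symm h₁ h₂ h₃ n'.symm e.symm e'.symm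
    clear A e e' a₁ a₂ a₃
    grind

end Ctx

end Pool.Agent.CSP
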