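import Pool.Agent.Lib.MP_436e1a_gt.H.ThU
import Pool.Agent.Lib.MP_436e1a_gt.H.Gp

/-! The exports of the crossing calculus (block H, helper82). -/

open scoped Topology
open Set

namespace Pool.Agent.CSP

namespace Ctx

variable {c : Ctx} {ι : Type} [Finite ι] {L L' : ι → E 3 → c.Y}

theorem if_thmU [SimplyConnectedSpace c.Y] {l : List (Dat ι c.G)} (h : c.Chain L l L')
    (h1 : ∀ i j (g : c.G), ¬ (i = j ∧ g = g⁻¹) → chi l i j g = 0)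
    (h2 : ∀ i (g : c.G), g = g⁻¹ → Even (cnt l i g)) : c.Eqv L L' :=
  thmU h h1 h2

theorem if_gp {F : ι → ℝ × E 3 → c.Y} (hF : c.Fam F) (h0 : c.Link (sl F 0)) (h1 : c.Link (sl F 1)) :
    ∃ l, c.Chain (sl F 0) l (sl F 1) ∧ ∀ i (g : c.G), g = g⁻¹ → c.Reg (F i) → c.Nd (F i) g →
      2 * cnt l i g = (c.Zs (F i) g).ncard :=
  gp hF h0 h1

theorem if_step [SimplyConnectedSpace c.Y] (hL : c.Link L) (δ : Dat ι c.G) {x₀ y₀ : E 3}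
    (hx : x₀ ∈ S2) (hy : y₀ ∈ S2) (hne : ¬ (δ.i = δ.j ∧ x₀ = y₀)) :
    ∃ F t₀, c.StepAt F δ t₀ x₀ y₀ ∧ (∀ x ∈ S2, F δ.i (0, x) = L δ.i x) ∧
      ∀ k, k ≠ δ.i → ∀ t ∈ Icc (0 : ℝ) 1, ∀ x ∈ S2, F k (t, x) = L k x :=
  let ⟨F, t₀, h, h₁, h₂⟩ := exists_step hL δ hx hy hne
  ⟨F, t₀, h, h₂ _, fun k hk t _ => h₁ k hk t⟩

omit [Finite ι] in
theorem if_stepFam {F : ι → ℝ × E 3 → c.Y} {δ : Dat ι c.G} {t₀ : ℝ} {x₀ y₀ : E 3}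
    (h : c.StepAt F δ t₀ x₀ y₀) : c.StepFam F δ :=
  ⟨h.fam, h.reg, t₀, h.ht, x₀, h.hx, y₀, h.hy, h.ne, h.cross, h.only⟩

omit [Finite ι] in
theorem if_inv {δ : Dat ι c.G} (h : c.Step L δ L') : c.Step L' δ.neg L :=
  h.neg

theorem if_stab {B : Type} [NormedAddCommGroup B] [NormedSpace ℝ B] [FiniteDimensional ℝ B]
    {a : B × ℝ × E 3 → c.Y} (ha : c.SmNear a ({0} ×ˢ Icc 0 1 ×ˢ S2)) {l : Filter B}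
    (hl : l ≤ 𝓝 0) {g : c.G} {Z₀ : Set (ℝ × E 3 × E 3)} (hf : Z₀.Finite)
    (hZ : ∀ p ∈ Z₀, p.1 ∈ Ioo (0 : ℝ) 1 ∧ p.2.1 ∈ S2 ∧ p.2.2 ∈ S2 ∧ p.2.1 ≠ p.2.2 ∧
      ∃ ε, c.Cross (fun w => a (0, w)) (fun w => g • a (0, w)) ε p.1 p.2.1 p.2.2)
    (ho : ∀ p : ℝ × E 3 × E 3, p.1 ∈ Icc (0 : ℝ) 1 → p.2.1 ∈ S2 → p.2.2 ∈ S2 → p ∉ Z₀ →
      ∃ N ∈ 𝓝 p, ∀ᶠ b in l, ∀ p' ∈ N, p' ∉ c.Zs (fun w => a (b, w)) g) :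
    ∀ᶠ b in l, c.Nd (fun w => a (b, w)) g ∧ (c.Zs (fun w => a (b, w)) g).ncard = Z₀.ncard :=
  stab ha hl hf hZ fun p hp => ho p hp.1 hp.2.1 hp.2.2

end Ctx

end Pool.Agent.CSP
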