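import Pool.Agent.Lib.MP_436e1a_gt.H.Tan

/-! Affine changes of time; symmetry and inverse of steps; chains. -/

open scoped Manifold ContDiff Topology RealInnerProductSpace Classical
open Set

namespace Pool.Agent.CSP

theorem time_fderiv {W : Type} [NormedAddCommGroup W] [NormedSpace ℝ W] {f : ℝ × E 3 → W}
    {a σ t : ℝ} {x : E 3} (hf : DifferentiableAt ℝ f (a + σ * t, x)) (τ : ℝ) (v : E 3) :
    fderiv ℝ (fun p : ℝ × E 3 => f (a + σ * p.1, p.2)) (t, x) (τ, v) =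
      fderiv ℝ f (a + σ * t, x) (σ * τ, v) := by
  have h1 : HasFDerivAt (fun p : ℝ × E 3 => (a + σ * p.1, p.2))
      ((σ • ContinuousLinearMap.fst ℝ ℝ (E 3)).prod (ContinuousLinearMap.snd ℝ ℝ (E 3))) (t, x) :=
    ((hasFDerivAt_fst.const_mul σ).const_add a).prodMk hasFDerivAt_snd
  have h2 := (hf.hasFDerivAt.comp (t, x) h1).fderiv
  have h3 : (fun p : ℝ × E 3 => f (a + σ * p.1, p.2)) =
      f ∘ fun p : ℝ × E 3 => (a + σ * p.1, p.2) := rfl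
  rw [h3, h2]
  simp

theorem time_uIcc {a b t : ℝ} (ht : t ∈ Icc (0 : ℝ) 1) : a + (b - a) * t ∈ uIcc a b := by
  rcases le_total a b with h | h
  · rw [uIcc_of_le h]
    constructor <;> nlinarith [ht.1, ht.2]
  · rw [uIcc_of_ge h]
    constructor <;> nlinarith [ht.1, ht.2]

theorem time_mem {a b t : ℝ} (ha : a ∈ Icc (0 : ℝ) 1) (hb : b ∈ Icc (0 : ℝ) 1)
    (ht : t ∈ Icc (0 : ℝ) 1) : a + (b - a) * t ∈ Icc (0 : ℝ) 1 :=
  uIcc_subset_Icc ha hb (time_uIcc ht)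

namespace Ctx

variable {c : Ctx} {ι : Type} {F : ι → ℝ × E 3 → c.Y} {δ : Dat ι c.G} {t₀ : ℝ} {x₀ y₀ : E 3}
  {L L₁ L₂ L' : ι → E 3 → c.Y}

/-- chain rule and `Sgn.last` with `p = q = 0` -/
theorem Cross.time {f g : ℝ × E 3 → c.Y} {ε s : ℤˣ} {a σ t : ℝ} {x y : E 3}
    (h : c.Cross f g ε (a + σ * t) x y) (hf : c.SmNear f {(a + σ * t, x)})
    (hg : c.SmNear g {(a + σ * t, y)}) (hs : 0 < ((s : ℤ) : ℝ) * σ) :
    c.Cross (fun p => f (a + σ * p.1, p.2)) (fun p => g (a + σ * p.1, p.2)) (s * ε) t x y := by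
  obtain ⟨he, v₁, v₂, w₁, w₂, hv, hw, hS⟩ := h
  refine ⟨he, v₁, v₂, w₁, w₂, hv, hw, ?_⟩
  have h1 := fun τ v => time_fderiv (hf.differentiableAt (mem_singleton _)) τ v
  have h2 := fun τ v => time_fderiv (hg.differentiableAt (mem_singleton _)) τ v
  have h3 := Sgn.last hS 0 0 hs
  have e1 : c.am (fun p : ℝ × E 3 => f (a + σ * p.1, p.2)) =
      fun p : ℝ × E 3 => c.am f (a + σ * p.1, p.2) := rfl
  have e2 : c.am (fun p : ℝ × E 3 => g (a + σ * p.1, p.2)) =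
      fun p : ℝ × E 3 => c.am g (a + σ * p.1, p.2) := rfl
  have e3 : ((σ * 1, 0) : ℝ × E 3) = σ • ((1, 0) : ℝ × E 3) := by simp
  rw [zero_smul, add_zero, add_zero, smul_sub] at h3
  unfold crossFr
  rw [e1, e2, h1, h1, h1, h2, h2, h2, mul_zero, e3, map_smul, map_smul]
  exact h3

theorem stepFam_iff : c.StepFam F δ ↔ ∃ t₀ x₀ y₀, c.StepAt F δ t₀ x₀ y₀ := by
  constructor
  · rintro ⟨h1, h2, t₀, h3, x₀, h4, y₀, h5, h6, h7, h8⟩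
    exact ⟨t₀, x₀, y₀, h1, h2, h3, h4, h5, h6, h7, h8⟩
  · rintro ⟨t₀, x₀, y₀, h1, h2, h3, h4, h5, h6, h7, h8⟩
    exact ⟨h1, h2, t₀, h3, x₀, h4, y₀, h5, h6, h7, h8⟩

theorem StepAt.link (h : c.StepAt F δ t₀ x₀ y₀) {t : ℝ} (ht : t ∈ Icc (0 : ℝ) 1) (hne : t ≠ t₀) :
    c.Link (sl F t) :=
  h.fam.link h.reg ht fun k l x hx y hy he =>
    (h.only t ht k l x hx y hy he).resolve_right fun h1 => hne h1.1

theorem StepAt.flip (h : c.StepAt F δ t₀ x₀ y₀) : c.StepAt F δ.flip t₀ y₀ x₀ :=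
  ⟨h.fam, h.reg, h.ht, h.hy, h.hx, fun h1 => h.ne ⟨h1.1.symm, h1.2.symm⟩, h.cross.flip,
    fun t ht k l x hx y hy he =>
      (h.only t ht k l x hx y hy he).imp_right fun h1 => ⟨h1.1, h1.2.symm⟩⟩

theorem Fam.time (h : c.Fam F) {a b : ℝ} (ha : a ∈ Icc (0 : ℝ) 1) (hb : b ∈ Icc (0 : ℝ) 1) :
    c.Fam fun k p => F k (a + (b - a) * p.1, p.2) := fun k =>
  (h k).comp_cd (φ := fun p : ℝ × E 3 => (a + (b - a) * p.1, p.2)) (by fun_prop)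
    fun _ hp => ⟨time_mem ha hb hp.1, hp.2⟩

theorem Reg.time {f : ℝ × E 3 → c.Y} (h : c.Reg f) {a b : ℝ} (ha : a ∈ Icc (0 : ℝ) 1)
    (hb : b ∈ Icc (0 : ℝ) 1) : c.Reg fun p => f (a + (b - a) * p.1, p.2) :=
  fun _ ht => h _ (time_mem ha hb ht)

theorem StepAt.neg (h : c.StepAt F δ t₀ x₀ y₀) :
    c.StepAt (fun k p => F k (1 + (0 - 1) * p.1, p.2)) δ.neg (1 - t₀) x₀ y₀ := by
  have h0 : (0 : ℝ) ∈ Icc (0 : ℝ) 1 := ⟨le_rfl, zero_le_one⟩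
  have h1 : (1 : ℝ) ∈ Icc (0 : ℝ) 1 := ⟨zero_le_one, le_rfl⟩
  have ht := h.ht
  have e : t₀ = 1 + (0 - 1) * (1 - t₀) := by ring
  have hm : 1 + (0 - 1) * (1 - t₀) ∈ Icc (0 : ℝ) 1 := e ▸ Ioo_subset_Icc_self ht
  refine ⟨h.fam.time h1 h0, fun i => (h.reg i).time h1 h0, ⟨by linarith [ht.2], by linarith [ht.1]⟩,
    h.hx, h.hy, h.ne, ?_, fun t ht' k l x hx y hy he => ?_⟩
  · have h2 : c.Cross (F δ.i) (fun p => δ.g • F δ.j p) δ.ε (1 + (0 - 1) * (1 - t₀)) x₀ y₀ :=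
      e ▸ h.cross
    have h3 := h2.time (s := -1) (h.fam.at _ hm h.hx) ((h.fam.at _ hm h.hy).smul δ.g) (by simp)
    rw [neg_one_mul] at h3
    exact h3
  · refine (h.only _ (time_mem h1 h0 ht') k l x hx y hy he).imp_right fun h2 => ⟨?_, h2.2⟩
    linarith [h2.1]

/-- no double point between the times `a` and `b` -/
theorem Fam.eqv [Finite ι] (h : c.Fam F) (hr : ∀ i, c.Reg (F i)) {a b : ℝ} (ha : a ∈ Icc (0 : ℝ) 1)
    (hb : b ∈ Icc (0 : ℝ) 1) (hi : ∀ t ∈ uIcc a b, ∀ k l, ∀ x ∈ S2, ∀ y ∈ S2,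
      c.q (F k (t, x)) = c.q (F l (t, y)) → k = l ∧ x = y) : c.Eqv (sl F a) (sl F b) := by
  have h1 : c.Iso fun k p => F k (a + (b - a) * p.1, p.2) :=
    ⟨h.time ha hb, fun t ht => (h.time ha hb).link (fun i => (hr i).time ha hb) ht
      (hi _ (time_uIcc ht))⟩
  refine (Eqv.nd_refl fun i x _ => ?_).nd_trans (h1.nd_eqv.nd_trans (Eqv.nd_refl fun i x _ => ?_))
  · simp [sl]
  · simp [sl]

/-- exactly one double point between the times `a` and `b` -/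
theorem Fam.stepAt (h : c.Fam F) (hr : ∀ i, c.Reg (F i)) {a b : ℝ} (ha : 0 ≤ a) (hb : b ≤ 1)
    (ht : t₀ ∈ Ioo a b) (hx : x₀ ∈ S2) (hy : y₀ ∈ S2) (hne : ¬ (δ.i = δ.j ∧ x₀ = y₀))
    (hc : c.Cross (F δ.i) (fun p => δ.g • F δ.j p) δ.ε t₀ x₀ y₀)
    (ho : ∀ t ∈ Icc a b, ∀ k l, ∀ x ∈ S2, ∀ y ∈ S2, c.q (F k (t, x)) = c.q (F l (t, y)) →
      (k = l ∧ x = y) ∨ (t = t₀ ∧ ((k = δ.i ∧ x = x₀ ∧ l = δ.j ∧ y = y₀) ∨
        (k = δ.j ∧ x = y₀ ∧ l = δ.i ∧ y = x₀)))) :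
    c.StepAt (fun k p => F k (a + (b - a) * p.1, p.2)) δ ((t₀ - a) / (b - a)) x₀ y₀ := by
  have hab : a < b := ht.1.trans ht.2
  have hd : 0 < b - a := sub_pos.2 hab
  have ha' : a ∈ Icc (0 : ℝ) 1 := ⟨ha, hab.le.trans hb⟩
  have hb' : b ∈ Icc (0 : ℝ) 1 := ⟨ha.trans hab.le, hb⟩
  have e : t₀ = a + (b - a) * ((t₀ - a) / (b - a)) := by
    rw [mul_div_cancel₀ _ hd.ne']
    ring
  have hm : a + (b - a) * ((t₀ - a) / (b - a)) ∈ Icc (0 : ℝ) 1 :=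
    e ▸ ⟨ha.trans ht.1.le, ht.2.le.trans hb⟩
  refine ⟨h.time ha' hb', fun i => (hr i).time ha' hb',
    ⟨div_pos (sub_pos.2 ht.1) hd, (div_lt_one hd).2 (by linarith [ht.2])⟩, hx, hy, hne, ?_,
    fun t ht' k l x hx' y hy' he => ?_⟩
  · have h2 : c.Cross (F δ.i) (fun p => δ.g • F δ.j p) δ.ε
        (a + (b - a) * ((t₀ - a) / (b - a))) x₀ y₀ := e ▸ hc
    have h3 := h2.time (s := 1) (h.at _ hm hx) ((h.at _ hm hy).smul δ.g) (by simpa using hab)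
    rw [one_mul] at h3
    exact h3
  · refine (ho _ (uIcc_of_le hab.le ▸ time_uIcc ht') k l x hx' y hy' he).imp_right
      fun h2 => ⟨?_, h2.2⟩
    rw [eq_div_iff hd.ne']
    linarith [h2.1]

theorem StepAt.step (h : c.StepAt F δ t₀ x₀ y₀) (h0 : c.Eqv L (sl F 0)) (h1 : c.Eqv (sl F 1) L') :
    c.Step L δ L' := ⟨F, stepFam_iff.2 ⟨_, _, _, h⟩, h0, h1⟩

theorem Step.eqv (h : c.Step L₁ δ L₂) (h0 : c.Eqv L L₁) (h1 : c.Eqv L₂ L') : c.Step L δ L' := by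
  obtain ⟨F, h2, h3, h4⟩ := h
  exact ⟨F, h2, h0.nd_trans h3, h4.nd_trans h1⟩

theorem Step.flip (h : c.Step L δ L') : c.Step L δ.flip L' := by
  obtain ⟨F, h2, h3, h4⟩ := h
  obtain ⟨t₀, x₀, y₀, h5⟩ := stepFam_iff.1 h2
  exact h5.flip.step h3 h4

theorem Step.neg (h : c.Step L δ L') : c.Step L' δ.neg L := by
  obtain ⟨F, h2, h3, h4⟩ := h
  obtain ⟨t₀, x₀, y₀, h5⟩ := stepFam_iff.1 h2
  refine h5.neg.step (h4.nd_symm.nd_trans (Eqv.nd_refl fun i x _ => ?_))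
    ((Eqv.nd_refl fun i x _ => ?_).nd_trans h3.nd_symm)
  · simp [sl]
  · simp [sl]

theorem Step.exists_link (h : c.Step L δ L') : ∃ L₁, c.Link L₁ ∧ c.Eqv L L₁ := by
  obtain ⟨F, h2, h3, -⟩ := h
  obtain ⟨t₀, x₀, y₀, h5⟩ := stepFam_iff.1 h2
  exact ⟨_, h5.link ⟨le_rfl, zero_le_one⟩ h5.ht.1.ne, h3⟩

theorem Chain.eqv {l : List (Dat ι c.G)} (h : c.Chain L₁ l L₂) (h0 : c.Eqv L L₁) (h1 : c.Eqv L₂ L') :
    c.Chain L l L' := by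
  induction h generalizing L with
  | nil h2 => exact Chain.nil (h0.nd_trans (h2.nd_trans h1))
  | cons h2 _ ih =>
    exact Chain.cons (h2.eqv h0 (Eqv.nd_refl fun _ _ _ => rfl)) (ih (Eqv.nd_refl fun _ _ _ => rfl) h1)

end Ctx

end Pool.Agent.CSP
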