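import Pool.Agent.Lib.MP_436e1a_gt.H.Rp1
import Pool.Agent.Lib.MP_436e1a_gt.H.Time

/-! Reparametrisation of the spheres: every step can be taken at the poles. -/

open scoped Manifold ContDiff Topology RealInnerProductSpace Classical
open Set

namespace Pool.Agent.CSP

section
variable {η : ℝ × E 3 → E 3} {u : ℝ} {x v : E 3}

theorem rp2_diff (hη : Rp η) (hu : u ∈ Icc (0 : ℝ) 1) (hx : x ∈ S2) :
    DifferentiableAt ℝ η (u, x) := by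
  obtain ⟨O, hO, h1, h2⟩ := hη.sm
  exact (h2.contDiffAt (hO.mem_nhds (h1 (mk_mem_prod hu hx)))).differentiableAt (by simp)

theorem rp2_ne (hx : x ∈ S2) : x ≠ 0 := by
  rintro rfl
  simp at hx

theorem rp2_tan (hη : Rp η) (hu : u ∈ Icc (0 : ℝ) 1) (hx : x ∈ S2) (hv : ⟪x, v⟫ = 0) :
    ⟪η (u, x), fderiv ℝ η (u, x) (0, v)⟫ = 0 ∧ (fderiv ℝ η (u, x) (0, v) = 0 → v = 0) := by
  obtain ⟨a, b, hab⟩ := exists_OB (rp2_ne hx)
  obtain ⟨s, t, rfl⟩ := hab.span hv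
  have h1 := hη.ori u hu x hx a b hab
  have e : fderiv ℝ η (u, x) (0, s • a + t • b) =
      s • fderiv ℝ η (u, x) (0, a) + t • fderiv ℝ η (u, x) (0, b) := by
    rw [← map_smul, ← map_smul, ← map_add]; simp
  rw [e]
  refine ⟨by rw [inner_add_right, inner_smul_right, inner_smul_right, h1.1, h1.2.1]; simp,
    fun h0 => ?_⟩
  obtain ⟨rfl, rfl⟩ := h1.indep h0
  simp

theorem rp2_chain {W : Type} [NormedAddCommGroup W] [NormedSpace ℝ W] {f : ℝ × E 3 → W} {t : ℝ}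
    (hη : Rp η) (hu : u ∈ Icc (0 : ℝ) 1) (hx : x ∈ S2)
    (hf : DifferentiableAt ℝ f (t, η (u, x))) (τ : ℝ) (v : E 3) :
    fderiv ℝ (fun p : ℝ × E 3 => f (p.1, η (u, p.2))) (t, x) (τ, v) =
      fderiv ℝ f (t, η (u, x)) (τ, fderiv ℝ η (u, x) (0, v)) := by
  have h1 : HasFDerivAt (fun p : ℝ × E 3 => (u, p.2))
      ((0 : ℝ × E 3 →L[ℝ] ℝ).prod (ContinuousLinearMap.snd ℝ ℝ (E 3))) (t, x) :=
    (hasFDerivAt_const u _).prodMk hasFDerivAt_snd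
  have h2 := (hasFDerivAt_fst (𝕜 := ℝ) (p := (t, x))).prodMk
    (HasFDerivAt.comp (t, x) (rp2_diff hη hu hx).hasFDerivAt h1)
  exact congrArg (fun A : ℝ × E 3 →L[ℝ] W => A (τ, v))
    (HasFDerivAt.comp (t, x) hf.hasFDerivAt h2).fderiv

end

namespace Ctx

variable {c : Ctx} {ι : Type} {F : ι → ℝ × E 3 → c.Y} {δ : Dat ι c.G} {t₀ : ℝ} {η : ι → ℝ × E 3 → E 3}

theorem Imm.rp {f : E 3 → c.Y} (h : c.Imm f) (hs : c.SmNear f S2) {η : ℝ × E 3 → E 3} (hη : Rp η)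
    {u : ℝ} (hu : u ∈ Icc (0 : ℝ) 1) : c.Imm fun x => f (η (u, x)) := by
  intro x hx v hv h0
  have hm := hη.mem u hu x hx
  have h1 : DifferentiableAt ℝ (fun x => η (u, x)) x :=
    DifferentiableAt.comp (g := η) (f := fun x => (u, x)) x (rp2_diff hη hu hx) (by fun_prop)
  have h2 := fderiv_comp (g := c.am f) (f := fun x => η (u, x)) x (hs.differentiableAt hm) h1
  have h3 : fderiv ℝ (c.am f) (η (u, x)) (fderiv ℝ η (u, x) (0, v)) = 0 := by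
    rw [← fderiv_slice' (rp2_diff hη hu hx)]
    exact (congrArg (fun A : E 3 →L[ℝ] E c.N => A v) h2).symm.trans h0
  exact (rp2_tan hη hu hx hv).2 (h _ hm _ (rp2_tan hη hu hx hv).1 h3)

theorem rp2_slice {f : ℝ × E 3 → c.Y} (h : c.SmNear f (Icc 0 1 ×ˢ S2)) {t : ℝ}
    (ht : t ∈ Icc (0 : ℝ) 1) : c.SmNear (fun x => f (t, x)) S2 :=
  h.comp_cd (φ := fun x => (t, x)) (by fun_prop) fun _ hx => ⟨ht, hx⟩

/-- the isotopy `(u, x) ↦ L k (η k (u, x))` -/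
theorem Link.eqv_rp [Finite ι] {L : ι → E 3 → c.Y} (h : c.Link L) (hη : ∀ k, Rp (η k)) :
    c.Eqv L fun k x => L k (η k (1, x)) := by
  have hf : c.Fam fun k p => L k (η k p) := fun k => by
    obtain ⟨O, hO, h1, h2⟩ := (hη k).sm
    exact (h.sm k).comp hO h1 h2 fun p hp => (hη k).mem p.1 hp.1 p.2 hp.2
  have hi : c.Iso fun k p => L k (η k p) := by
    refine ⟨hf, fun t ht => ⟨fun k => rp2_slice (hf k) ht,
      fun k => (h.imm k).rp (h.sm k) (hη k) ht, fun k l x hx y hy e => ?_⟩⟩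
    obtain ⟨rfl, e'⟩ := h.inj k l _ ((hη k).mem t ht x hx) _ ((hη l).mem t ht y hy) e
    exact ⟨rfl, (hη k).inj t ht hx hy e'⟩
  exact (Eqv.nd_refl fun k x hx => congrArg (L k) ((hη k).zero x hx).symm).nd_trans hi.nd_eqv

theorem rp2_cross {f g : ℝ × E 3 → c.Y} {ε : ℤˣ} {t : ℝ} {x y : E 3} {η₁ η₂ : ℝ × E 3 → E 3}
    (h₁ : Rp η₁) (h₂ : Rp η₂) (hx : x ∈ S2) (hy : y ∈ S2)
    (hf : c.SmNear f {(t, η₁ (1, x))}) (hg : c.SmNear g {(t, η₂ (1, y))})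
    (h : c.Cross f g ε t (η₁ (1, x)) (η₂ (1, y))) :
    c.Cross (fun p => f (p.1, η₁ (1, p.2))) (fun p => g (p.1, η₂ (1, p.2))) ε t x y := by
  have h1 : (1 : ℝ) ∈ Icc (0 : ℝ) 1 := right_mem_Icc.2 zero_le_one
  obtain ⟨v₁, v₂, hv⟩ := exists_OB (rp2_ne hx)
  obtain ⟨w₁, w₂, hw⟩ := exists_OB (rp2_ne hy)
  refine ⟨h.1, v₁, v₂, w₁, w₂, hv, hw, ?_⟩
  have h2 := h.all (h₁.ori 1 h1 x hx _ _ hv) (h₂.ori 1 h1 y hy _ _ hw)
  have e1 : ∀ τ v, fderiv ℝ (c.am fun p : ℝ × E 3 => f (p.1, η₁ (1, p.2))) (t, x) (τ, v) = _ :=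
    rp2_chain h₁ h1 hx (hf.differentiableAt rfl)
  have e2 : ∀ τ v, fderiv ℝ (c.am fun p : ℝ × E 3 => g (p.1, η₂ (1, p.2))) (t, y) (τ, v) = _ :=
    rp2_chain h₂ h1 hy (hg.differentiableAt rfl)
  have e0 : ((0 : ℝ), (0 : E 3)) = 0 := rfl
  simp only [crossFr, e1, e2, e0, map_zero] at h2 ⊢
  exact h2

/-- chain rule, `Rp.ori`, `Cross.all` -/
theorem StepAt.rp {x₁ y₁ : E 3} (hη : ∀ k, Rp (η k)) (hx : x₁ ∈ S2) (hy : y₁ ∈ S2)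
    (h : c.StepAt F δ t₀ (η δ.i (1, x₁)) (η δ.j (1, y₁))) :
    c.StepAt (fun k p => F k (p.1, η k (1, p.2))) δ t₀ x₁ y₁ := by
  have h1 : (1 : ℝ) ∈ Icc (0 : ℝ) 1 := right_mem_Icc.2 zero_le_one
  have ht := Ioo_subset_Icc_self h.ht
  refine ⟨fun k => ?_, fun k t ht => (h.reg k t ht).rp (rp2_slice (h.fam k) ht) (hη k) h1, h.ht,
    hx, hy, fun e => h.ne ⟨e.1, by rw [e.1, e.2]⟩,
    rp2_cross (hη _) (hη _) hx hy (h.fam.at _ ht h.hx) ((h.fam.at _ ht h.hy).smul δ.g) h.cross,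
    fun t ht k l x hx' y hy' e => ?_⟩
  · obtain ⟨O, hO, h2, h3⟩ := (hη k).sm
    have hc : ContDiff ℝ ∞ fun p : ℝ × E 3 => ((1 : ℝ), p.2) := by fun_prop
    exact (h.fam k).comp (φ := fun p : ℝ × E 3 => (p.1, η k (1, p.2)))
      (hO.preimage hc.continuous) (fun p hp => h2 ⟨h1, hp.2⟩)
      (contDiffOn_fst.prodMk (h3.comp hc.contDiffOn fun _ hp => hp))
      fun p hp => ⟨hp.1, (hη k).mem 1 h1 _ hp.2⟩
  · rcases h.only t ht k l _ ((hη k).mem 1 h1 x hx') _ ((hη l).mem 1 h1 y hy') e with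
      ⟨rfl, e'⟩ | ⟨e0, ⟨rfl, e1, rfl, e2⟩ | ⟨rfl, e1, rfl, e2⟩⟩
    · exact Or.inl ⟨rfl, (hη k).inj 1 h1 hx' hy' e'⟩
    · exact Or.inr ⟨e0, Or.inl ⟨rfl, (hη _).inj 1 h1 hx' hx e1, rfl, (hη _).inj 1 h1 hy' hy e2⟩⟩
    · exact Or.inr ⟨e0, Or.inr ⟨rfl, (hη _).inj 1 h1 hx' hy e1, rfl, (hη _).inj 1 h1 hy' hx e2⟩⟩

/-- `exists_rp` for the pair `(x₀, y₀)` if `δ.i = δ.j`, else for `(x₀, -x₀)` on component `δ.i` and
`(-y₀, y₀)` on all other components -/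
theorem StepFam.poles [Finite ι] (h : c.StepFam F δ) : ∃ F' t₀, c.StepAt F' δ t₀ npole (-npole) ∧
    c.Eqv (sl F 0) (sl F' 0) ∧ c.Eqv (sl F 1) (sl F' 1) := by
  obtain ⟨t₀, x₀, y₀, h⟩ := stepFam_iff.1 h
  have hn := npole_mem
  obtain ⟨η, hη, e1, e2⟩ : ∃ η : ι → ℝ × E 3 → E 3, (∀ k, Rp (η k)) ∧ η δ.i (1, npole) = x₀ ∧
      η δ.j (1, -npole) = y₀ := by
    by_cases e : δ.i = δ.j
    · obtain ⟨η, h1, h2, h3⟩ := exists_rp h.hx h.hy fun e' => h.ne ⟨e, e'⟩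
      exact ⟨fun _ => η, fun _ => h1, h2, h3⟩
    · obtain ⟨η, h1, h2, -⟩ := exists_rp h.hx (neg_mem_S2 h.hx) (ne_neg_S2 h.hx)
      obtain ⟨η', h3, -, h4⟩ := exists_rp (neg_mem_S2 h.hy) h.hy (ne_neg_S2 h.hy).symm
      refine ⟨fun k => if k = δ.i then η else η', fun k => ?_, by simpa using h2,
        by simpa [Ne.symm e] using h4⟩
      by_cases e' : k = δ.i <;> simpa [e']
  subst e1 e2
  exact ⟨_, t₀, h.rp hη hn (neg_mem_S2 hn),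
    (h.link (left_mem_Icc.2 zero_le_one) h.ht.1.ne).eqv_rp hη,
    (h.link (right_mem_Icc.2 zero_le_one) h.ht.2.ne').eqv_rp hη⟩

end Ctx

end Pool.Agent.CSP
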