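import Pool.Agent.Lib.MP_436e1a_gt.H.Pre2
import Pool.Agent.Lib.MP_436e1a_gt.H.Fin2
import Pool.Agent.Lib.MP_436e1a_gt.H.Thin
import Pool.Agent.Lib.MP_436e1a_gt.H.Flat
import Pool.Agent.Lib.MP_436e1a_gt.H.Rp2

/-! A crossing change is determined by its datum. -/

open scoped Manifold ContDiff Topology RealInnerProductSpace Classical
open Set

namespace Pool.Agent.CSP

namespace Ctx

variable {c : Ctx} {ι : Type} [Finite ι] {δ : Dat ι c.G} {x₀ y₀ : E 3} {L A B : ι → E 3 → c.Y}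

theorem join [SimplyConnectedSpace c.Y] {T₀ T₁ : ℝ} {Ψ₀ Ψ₁ : ℝ × E 3 → c.Y} (hL : c.Link L)
    (h₀ : c.Box L δ x₀ y₀ T₀ Ψ₀) (h₁ : c.Box L δ x₀ y₀ T₁ Ψ₁) (r₀ : c.Res L δ.i x₀ T₀ Ψ₀ A)
    (r₁ : c.Res L δ.i x₀ T₁ Ψ₁ B) : c.Eqv A B := by
  obtain ⟨T, G, hT, t₀, t₁, hs, hb, hc, e₀, e₁⟩ := exists_prefam hL h₀ h₁
  obtain ⟨Ψ, s, b, z, hΨ⟩ := fin (χ := fun u => u * (1 - u)) (o := fun _ => L δ.i x₀) (A := ∅) hL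
    h₀.hx h₀.hy hT h₀.ne hs (fun u hu => hb.mono fun x hx => hx u hu) hc (by fun_prop)
    ⟨∅, isOpen_empty, Subset.rfl, continuousOn_empty _, contDiffOn_empty⟩ (fun _ h => h.elim)
    fun _ h => h.elim
  have z₀ : (fun p => Ψ (0, p)) = fun p => G (0, p) := funext (z 0 (by simp))
  have z₁ : (fun p => Ψ (1, p)) = fun p => G (1, p) := funext (z 1 (by simp))
  have hB : ∀ u ∈ Icc (0 : ℝ) 1, c.Box L δ x₀ y₀ T fun p => Ψ (u, p) := fun u hu => by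
    rcases eq_or_ne u 0 with rfl | u0
    · exact z₀ ▸ h₀.germ hT t₀ e₀
    rcases eq_or_ne u 1 with rfl | u1
    · exact z₁ ▸ h₁.germ hT t₁ e₁
    exact (hΨ u hu (mul_ne_zero u0 (sub_ne_zero.2 u1.symm))).1
  have h2 := thin hL s hB (hb.mono fun x hx u hu => (b u x).trans (hx u hu))
  have h3 : c.Res L δ.i x₀ T (fun p => Ψ (0, p)) A := z₀ ▸ r₀.germ t₀ e₀
  have h4 : c.Res L δ.i x₀ T (fun p => Ψ (1, p)) B := z₁ ▸ r₁.germ t₁ e₁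
  obtain ⟨r, ⟨⟨h5, h6⟩, h7, h8⟩, hr⟩ := ((h2.and (h3.and h4)).and self_mem_nhdsWithin).exists
  obtain ⟨γ, hγ⟩ := exists_Ht x₀ hT hr
  exact ((h7 γ hγ).symm.trans (graph_eqv (γ := fun p => γ p.2) hL h5 h6
    (hγ.sm.comp contDiff_snd) fun _ _ => hγ)).trans (h8 γ hγ)

theorem Step.box (h : c.Step L δ A) : ∃ L₀ T Ψ, c.Link L₀ ∧ c.Box L₀ δ npole (-npole) T Ψ ∧
    c.Eqv L L₀ ∧ c.Res L₀ δ.i npole T Ψ A := by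
  obtain ⟨F, hF, e₀, e₁⟩ := h
  obtain ⟨F', t₀, hF', e₂, e₃⟩ := hF.poles
  obtain ⟨L₀, T, Ψ, hL, hB, e₄, hR⟩ := hF'.box
  exact ⟨L₀, T, Ψ, hL, hB, (e₀.trans e₂).trans e₄, hR.eqv (e₃.symm.trans e₁)⟩

theorem Step.uniq [SimplyConnectedSpace c.Y] (h : c.Step L δ A) (h' : c.Step L δ B) :
    c.Eqv A B := by
  obtain ⟨L₀, T₀, Ψ₀, l₀, b₀, e₀, r₀⟩ := h.box
  obtain ⟨L₁, T₁, Ψ₁, l₁, b₁, e₁, r₁⟩ := h'.box
  obtain ⟨φ, hφ⟩ := e₀.symm.trans e₁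
  exact join l₁ ((φ.box l₀ b₀).congr (φ.link l₀) l₁ hφ) b₁ ((φ.res r₀).congr hφ) r₁

end Ctx

end Pool.Agent.CSP
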