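import Pool.Agent.Lib.MP_436e1a_gt.H.Lin

/-! Complements of a tangent plane: existence and connectedness. -/

open scoped Manifold ContDiff Topology RealInnerProductSpace Classical
open Set

namespace Pool.Agent.CSP

/-- the coordinates `0, 1, 4` of `E 5` -/
noncomputable def lin2i : E 3 →L[ℝ] E 5 :=
  fr ![EuclideanSpace.single 0 1, EuclideanSpace.single 1 1, EuclideanSpace.single 4 1]

/-- the projection to the coordinates `0, 1, 4` -/
noncomputable def lin2p : E 5 →L[ℝ] E 3 :=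
  fr ![EuclideanSpace.single 0 1, EuclideanSpace.single 1 1, 0, 0, EuclideanSpace.single 2 1]

theorem lin2_pi (ξ : E 3) : lin2p (lin2i ξ) = ξ := by
  refine ml_ext ?_ ?_ ?_ <;> simp [lin2p, lin2i, fr_apply, Fin.sum_univ_five, Fin.sum_univ_three]

theorem lin2_p2 : lin2p (EuclideanSpace.single 2 1) = 0 := fr_single _ 2

theorem lin2_p3 : lin2p (EuclideanSpace.single 3 1) = 0 := fr_single _ 3

theorem lin2_ext {W : Type} [NormedAddCommGroup W] [NormedSpace ℝ W] {F F' : E 5 →L[ℝ] W}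
    (h : ∀ ξ, F (lin2i ξ) = F' (lin2i ξ))
    (h2 : F (EuclideanSpace.single 2 1) = F' (EuclideanSpace.single 2 1))
    (h3 : F (EuclideanSpace.single 3 1) = F' (EuclideanSpace.single 3 1)) : F = F' := by
  ext1 v
  have e : v = lin2i (lin2p v) + v 2 • EuclideanSpace.single 2 1
      + v 3 • EuclideanSpace.single 3 1 := by
    ext i
    fin_cases i <;> simp [lin2p, lin2i, fr_apply, Fin.sum_univ_five, Fin.sum_univ_three]
  rw [e]
  simp only [map_add, map_smul, h, h2, h3]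

theorem lin2_eq_fr {n : ℕ} {W : Type} [NormedAddCommGroup W] [NormedSpace ℝ W] (C : E n →L[ℝ] W) :
    C = fr fun k => C (EuclideanSpace.single k 1) := by
  rw [← comp_fr]
  refine ContinuousLinearMap.ext fun v => congrArg C ?_
  ext i
  simp [fr_apply, Pi.single_apply]

theorem lin2_det5 (a b c d e f g h i p₀ p₁ p₂ q₀ q₁ q₂ : ℝ) :
    (!![a, b, 0, 0, c; d, e, 0, 0, f; p₀, p₁, 1, 0, p₂; q₀, q₁, 0, 1, q₂; g, h, 0, 0, i]).det
      = (!![a, b, c; d, e, f; g, h, i]).det := by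
  simp [Matrix.det_succ_row_zero, Fin.sum_univ_succ, Fin.succAbove]
  ring

theorem lin2_det {C : E 5 →L[ℝ] E 5}
    (h2 : C (EuclideanSpace.single 2 1) = EuclideanSpace.single 2 1)
    (h3 : C (EuclideanSpace.single 3 1) = EuclideanSpace.single 3 1) :
    C.det = (lin2p.comp (C.comp lin2i)).det := by
  rw [lin2_eq_fr (lin2p.comp (C.comp lin2i)), det_fr]
  conv_lhs => rw [lin2_eq_fr C, det_fr]
  generalize hu : C (EuclideanSpace.single 0 1) = u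
  generalize hv : C (EuclideanSpace.single 1 1) = v
  generalize hw : C (EuclideanSpace.single 4 1) = w
  refine Eq.trans ?_ ((lin2_det5 (u 0) (v 0) (w 0) (u 1) (v 1) (w 1) (u 4) (v 4) (w 4)
    (u 2) (v 2) (w 2) (u 3) (v 3) (w 3)).trans ?_) <;> congr 1 <;> ext i k <;>
    fin_cases i <;> fin_cases k <;>
    simp [lin2p, lin2i, fr_apply, Fin.sum_univ_five, h2, h3, hu, hv, hw]

theorem lin2_inv {n : ℕ} {J : E n →L[ℝ] E n} (h : J.det ≠ 0) :
    ∃ K : E n →L[ℝ] E n, (∀ v, J (K v) = v) ∧ ∀ v, K (J v) = v :=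
  ⟨(J.toContinuousLinearEquivOfDetNeZero h).symm,
    (J.toContinuousLinearEquivOfDetNeZero h).apply_symm_apply,
    (J.toContinuousLinearEquivOfDetNeZero h).symm_apply_apply⟩

theorem lin2_det_comp {n : ℕ} (A B : E n →L[ℝ] E n) : (A.comp B).det = A.det * B.det :=
  map_mul LinearMap.det (A : E n →ₗ[ℝ] E n) B

theorem lin2_left {x v₁ v₂ : E 3} (hv : OB x v₁ v₂) : ∃ π : ℝ × E 3 →L[ℝ] E 3,
    ∀ ξ, π (fr ![((0 : ℝ), v₁), (0, v₂), (1, 0)] ξ) = ξ := by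
  obtain ⟨π, hπ⟩ := LinearMap.exists_leftInverse_of_injective
    ((fr ![((0 : ℝ), v₁), (0, v₂), (1, 0)] : E 3 →L[ℝ] ℝ × E 3) : E 3 →ₗ[ℝ] ℝ × E 3) (by
      rw [LinearMap.ker_eq_bot']
      intro ξ h
      have h1 := congrArg Prod.fst h
      have h2 := congrArg Prod.snd h
      simp [fr_apply, Fin.sum_univ_three] at h1 h2
      obtain ⟨h3, h4⟩ := hv.indep h2
      exact ml_ext h3 h4 h1)
  exact ⟨LinearMap.toContinuousLinearMap π, fun ξ => LinearMap.congr_fun hπ ξ⟩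

theorem lin2_fr_i {W : Type} [NormedAddCommGroup W] [NormedSpace ℝ W] (A : ℝ × E 3 →L[ℝ] W)
    (v₁ v₂ : E 3) (b₁ b₂ : W) (ξ : E 3) :
    fr ![A (0, v₁), A (0, v₂), b₁, b₂, A (1, 0)] (lin2i ξ)
      = A (fr ![((0 : ℝ), v₁), (0, v₂), (1, 0)] ξ) := by
  simp [lin2i, fr_apply, Fin.sum_univ_five, Fin.sum_univ_three, -Prod.smul_mk, -Prod.mk_add_mk]

namespace Ctx

variable {c : Ctx} {m : c.M} {ε : ℤˣ} {x v₁ v₂ : E 3} {b₁ b₂ : E c.N}

/-- a complement of a tangent plane with given sign -/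
theorem exists_compl (hv : OB x v₁ v₂) (h₁ : b₁ ∈ range (c.dι m)) (h₂ : b₂ ∈ range (c.dι m))
    (hb : ∀ p q : ℝ, p • b₁ + q • b₂ = 0 → p = 0 ∧ q = 0) (ε : ℤˣ) :
    ∃ A : ℝ × E 3 →L[ℝ] E c.N, (∀ ξ, A ξ ∈ range (c.dι m)) ∧
      c.Sgn m (fr ![A (0, v₁), A (0, v₂), b₁, b₂, A (1, 0)]) ε := by
  obtain ⟨β₁, rfl⟩ := h₁
  obtain ⟨β₂, rfl⟩ := h₂
  obtain ⟨π, hπ⟩ := lin2_left hv
  have l2 : LinearIndependent ℝ ![β₁, β₂] := LinearIndependent.pair_iff.2 fun s t h =>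
    hb s t (by rw [← map_smul, ← map_smul, ← map_add, h, map_zero])
  obtain ⟨a₁, l3⟩ := exists_linearIndependent_cons_of_lt_finrank l2 (by simp)
  obtain ⟨a₀, l4⟩ := exists_linearIndependent_cons_of_lt_finrank l3 (by simp)
  obtain ⟨a₄, l5⟩ := exists_linearIndependent_snoc_of_lt_finrank l4 (by simp)
  have l6 : LinearIndependent ℝ ![a₀, a₁, β₁, β₂, a₄] := by
    refine cast (congrArg (fun a : Fin 5 → E 5 => LinearIndependent ℝ a) ?_) l5
    ext1 k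
    fin_cases k <;> rfl
  have hi : Function.Injective (fr ![a₀, a₁, β₁, β₂, a₄]) := by
    refine (injective_iff_map_eq_zero _).2 fun u hu => ?_
    rw [fr_apply] at hu
    ext k
    exact Fintype.linearIndependent_iff.1 l6 _ hu k
  obtain ⟨ε', hε⟩ := exists_Sgn (A := (c.dι m).comp (fr ![a₀, a₁, β₁, β₂, a₄]))
    ((nd_dι_inj m).comp hi) fun ξ => ⟨_, rfl⟩
  have e : (c.dι m).comp (fr ![a₀, a₁, β₁, β₂, a₄])
      = fr ![c.dι m a₀, c.dι m a₁, c.dι m β₁, c.dι m β₂, c.dι m a₄] := by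
    rw [comp_fr]
    congr 1
    ext1 k
    fin_cases k <;> rfl
  rw [e] at hε
  have h := hε.last 0 0 (s := ε * ε'⁻¹) (τ := (((ε * ε'⁻¹ : ℤˣ) : ℤ) : ℝ))
    (mul_self_pos.2 (by exact_mod_cast (ε * ε'⁻¹).ne_zero))
  rw [zero_smul, add_zero, add_zero, inv_mul_cancel_right, ← map_smul] at h
  generalize (((ε * ε'⁻¹ : ℤˣ) : ℤ) : ℝ) • a₄ = a at h
  refine ⟨(c.dι m).comp ((fr ![a₀, a₁, a]).comp π), fun ξ => ⟨_, rfl⟩, ?_⟩
  have e0 := hπ (EuclideanSpace.single 0 1)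
  have e1 := hπ (EuclideanSpace.single 1 1)
  have e2 := hπ (EuclideanSpace.single 2 1)
  rw [fr_single] at e0 e1 e2
  simp only [Matrix.cons_val] at e0 e1 e2
  simpa only [ContinuousLinearMap.comp_apply, e0, e1, e2, fr_single, Matrix.cons_val] using h

/-- two complements with the same sign are joined by a path -/
theorem exists_path_compl (hv : OB x v₁ v₂) {A₀ A₁ : ℝ × E 3 →L[ℝ] E c.N}
    (h₀ : c.Sgn m (fr ![A₀ (0, v₁), A₀ (0, v₂), b₁, b₂, A₀ (1, 0)]) ε)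
    (h₁ : c.Sgn m (fr ![A₁ (0, v₁), A₁ (0, v₂), b₁, b₂, A₁ (1, 0)]) ε) :
    ∃ M₀ M₁ : ℝ → ℝ × E 3 →L[ℝ] ℝ × E 3, ContDiff ℝ ∞ M₀ ∧ ContDiff ℝ ∞ M₁ ∧
      (∀ u ≤ 0, M₀ u = 1) ∧ (∀ u ≥ 1, M₁ u = 1) ∧ ∀ (u s : ℝ) (A : ℝ × E 3 →L[ℝ] E c.N),
        A = (1 - s) • A₀.comp (M₀ u) + s • A₁.comp (M₁ u) →
          c.Sgn m (fr ![A (0, v₁), A (0, v₂), b₁, b₂, A (1, 0)]) ε := by
  obtain ⟨π, hπ⟩ := lin2_left hv
  have f₀ := lin2_fr_i A₀ v₁ v₂ b₁ b₂
  have f₁ := lin2_fr_i A₁ v₁ v₂ b₁ b₂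
  have fA := fun A : ℝ × E 3 →L[ℝ] E c.N => lin2_fr_i A v₁ v₂ b₁ b₂
  have g2 : ∀ A : ℝ × E 3 →L[ℝ] E c.N, fr ![A (0, v₁), A (0, v₂), b₁, b₂, A (1, 0)]
      (EuclideanSpace.single 2 1) = b₁ := fun A => fr_single _ 2
  have g3 : ∀ A : ℝ × E 3 →L[ℝ] E c.N, fr ![A (0, v₁), A (0, v₂), b₁, b₂, A (1, 0)]
      (EuclideanSpace.single 3 1) = b₂ := fun A => fr_single _ 3
  have a2 := g2 A₀
  have a3 := g3 A₀
  have c2 := g2 A₁
  have c3 := g3 A₁
  have hi := h₀.inj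
  generalize fr ![((0 : ℝ), v₁), (0, v₂), (1, 0)] = α at hπ f₀ f₁ fA
  generalize fr ![A₀ (0, v₁), A₀ (0, v₂), b₁, b₂, A₀ (1, 0)] = F₀ at h₀ f₀ a2 a3 hi
  generalize fr ![A₁ (0, v₁), A₁ (0, v₂), b₁, b₂, A₁ (1, 0)] = F₁ at h₁ f₁ c2 c3
  obtain ⟨B₀, e₀, d₀⟩ := h₀
  obtain ⟨B₁, e₁, d₁⟩ := h₁
  obtain ⟨K₀, hK, -⟩ := lin2_inv (J := B₀) (by
    rintro h
    simp [h] at d₀)
  obtain ⟨C, hC, hF⟩ : ∃ C : E 5 →L[ℝ] E 5, 0 < C.det ∧ ∀ v, F₀ (C v) = F₁ v := by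
    refine ⟨K₀.comp B₁, ?_, fun v => by simp [e₀, e₁, hK]⟩
    have e : B₁ = B₀.comp (K₀.comp B₁) := by
      ext1 v
      simp [hK]
    rw [e, lin2_det_comp, ← mul_assoc] at d₁
    exact (mul_pos_iff_of_pos_left d₀).1 d₁
  have C2 : C (EuclideanSpace.single 2 1) = EuclideanSpace.single 2 1 := hi (by rw [hF, a2, c2])
  have C3 : C (EuclideanSpace.single 3 1) = EuclideanSpace.single 3 1 := hi (by rw [hF, a3, c3])
  rw [lin2_det C2 C3] at hC
  obtain ⟨K, hK1, hK2⟩ := lin2_inv hC.ne'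
  obtain ⟨P, hP, hP0, hP1, hPd⟩ := glp_smooth hC
  refine ⟨fun u => 1 + α.comp ((P u - 1).comp π), fun u => 1 + α.comp ((K.comp (P u) - 1).comp π),
    contDiff_const.add (contDiff_const.clm_comp ((hP.sub contDiff_const).clm_comp contDiff_const)),
    contDiff_const.add (contDiff_const.clm_comp
      (((contDiff_const.clm_comp hP).sub contDiff_const).clm_comp contDiff_const)),
    fun u hu => ?_, fun u hu => ?_, fun u s A hA => ?_⟩
  · simp [hP0 u (by linarith)]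
  · refine ContinuousLinearMap.ext fun v => ?_
    have := hK2 (π v)
    rw [← hP1 u (by linarith)] at this
    simp [this]
  · obtain ⟨D, D2, D3, Di⟩ : ∃ D : E 5 →L[ℝ] E 5,
        D (EuclideanSpace.single 2 1) = EuclideanSpace.single 2 1 ∧
        D (EuclideanSpace.single 3 1) = EuclideanSpace.single 3 1 ∧
        ∀ ξ, D (lin2i ξ) = (1 - s) • lin2i (P u ξ) + s • C (lin2i (K (P u ξ))) := by
      refine ⟨(1 - s) • (1 + lin2i.comp ((P u - 1).comp lin2p))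
        + s • C.comp (1 + lin2i.comp ((K.comp (P u) - 1).comp lin2p)), ?_, ?_, fun ξ => ?_⟩
      · simp [lin2_p2, C2, ← add_smul]
      · simp [lin2_p3, C3, ← add_smul]
      · simp [lin2_pi]
        module
    have hD : lin2p.comp (D.comp lin2i) = P u := by
      ext1 ξ
      have := hK1 (P u ξ)
      simp only [ContinuousLinearMap.comp_apply] at this
      simp [Di, lin2_pi, this, ← add_smul]
    refine ⟨B₀.comp D, ?_, ?_⟩
    · rw [← ContinuousLinearMap.comp_assoc, ← e₀]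
      refine lin2_ext (fun ξ => ?_) ?_ ?_
      · rw [fA, hA]
        simp [Di, hF, f₀, f₁, hπ]
        module
      · rw [g2, ContinuousLinearMap.comp_apply, D2, a2]
      · rw [g3, ContinuousLinearMap.comp_apply, D3, a3]
    · rw [lin2_det_comp, ← mul_assoc, lin2_det D2 D3, hD]
      exact mul_pos d₀ (hPd u)

end Ctx

end Pool.Agent.CSP
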