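import Pool.Agent.Lib.MP_436e1a_gt.H.Def
import Pool.Agent.Lib.MP_436e1a_gt.A.Gen
import Pool.Agent.Lib.MP_436e1a_gt.A.LocInj
import Pool.Agent.Lib.MP_436e1a_gt.A.GLPath
import Pool.Agent.Lib.MP_436e1a_gt.A.MapsL
import Pool.Agent.Lib.MP_436e1a_gt.B.Ext

/-! What block H needs from the blocks A, B, D. -/

open scoped Manifold ContDiff Topology RealInnerProductSpace Classical
open Set MeasureTheory

namespace Pool.Agent.CSP

section
variable {V W Z : Type} [NormedAddCommGroup V] [NormedSpace ℝ V] [FiniteDimensional ℝ V]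
  [NormedAddCommGroup W] [NormedSpace ℝ W] [FiniteDimensional ℝ W]
  [NormedAddCommGroup Z] [NormedSpace ℝ Z] [FiniteDimensional ℝ Z]

theorem nd_locinj {f : V → Z} {x : V} (hf : ContDiffAt ℝ ∞ f x)
    (hi : Function.Injective (fderiv ℝ f x)) :
    ∃ U ∈ 𝓝 x, InjOn f U ∧ ∀ y ∈ U, Function.Injective (fderiv ℝ f y) := by
  obtain ⟨U, hU, h1⟩ := (hf.of_le (m := 1) (by simp)).contDiffOn le_rfl (by simp)
  have h2 : ContinuousAt (fderiv ℝ f) x := (hf.fderiv_right (m := 0) (by simp)).continuousAt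
  obtain ⟨K, hK, h3⟩ := (fderiv ℝ f x).toLinearMap.exists_antilipschitzWith
    (LinearMap.ker_eq_bot.2 hi)
  have h4 : HasStrictFDerivAt f (fderiv ℝ f x) x := hf.hasStrictFDerivAt (by simp)
  obtain ⟨s, hs, h5⟩ := h4.approximates_deriv_on_nhds (c := K⁻¹ / 2) (Or.inr (by positivity))
  have h6 : ∀ v, ‖v‖ ≤ K * ‖fderiv ℝ f x v‖ := fun v => by simpa using h3.le_mul_dist v 0
  have hK' : (0 : ℝ) < K := hK
  refine ⟨s ∩ {y | ‖fderiv ℝ f y - fderiv ℝ f x‖ < (K : ℝ)⁻¹ / 2}, Filter.inter_mem hs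
    ((h2.sub continuousAt_const).norm.eventually (gt_mem_nhds (by simpa using hK'))),
    fun a ha b hb hab => ?_, fun y hy => (injective_iff_map_eq_zero _).2 fun v hv => ?_⟩
  · have h7 := h5 a ha.1 b hb.1
    have h8 := h6 (a - b)
    rw [hab, sub_self, zero_sub, norm_neg] at h7
    have h9 : (K : ℝ) * ‖fderiv ℝ f x (a - b)‖ ≤ ‖a - b‖ / 2 := by
      refine (mul_le_mul_of_nonneg_left h7 hK'.le).trans (le_of_eq ?_)
      push_cast
      field_simp
    exact sub_eq_zero.1 (norm_le_zero_iff.1 (by linarith))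
  · have h7 := (fderiv ℝ f y - fderiv ℝ f x).le_opNorm v
    rw [ContinuousLinearMap.sub_apply, hv, zero_sub, norm_neg] at h7
    have h8 := h6 v
    have h9 : (K : ℝ) * ‖fderiv ℝ f x v‖ ≤ ‖v‖ / 2 := by
      refine (mul_le_mul_of_nonneg_left (h7.trans (mul_le_mul_of_nonneg_right (le_of_lt hy.2)
        (norm_nonneg v))) hK'.le).trans (le_of_eq ?_)
      field_simp
    exact norm_le_zero_iff.1 (by linarith)

end

namespace Ctx

variable {c : Ctx} {ι : Type} {V : Type} [NormedAddCommGroup V] [NormedSpace ℝ V]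

theorem nd_t2 : T2Space c.Y := inferInstance

theorem nd_q_cont : Continuous c.q := c.C.cov.toIsQuotientMap.continuous

theorem nd_q_smul (g : c.G) (y : c.Y) : c.q (g • y) = c.q y := c.q_smul g y

theorem nd_q_eq {y y' : c.Y} (h : c.q y = c.q y') : ∃ g : c.G, y = g • y' := c.q_eq_iff.1 h

theorem nd_free {g : c.G} {y : c.Y} (h : g • y = y) : g = 1 := c.smul_eq_self h

theorem nd_q_locinj (y : c.Y) : ∃ U ∈ 𝓝 y, InjOn c.q U := c.q_locInj y

theorem nd_proper {K : Set c.Y} (hK : IsCompact K) :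
    {g : c.G | ∃ y ∈ K, g • y ∈ K}.Finite :=
  (c.finite_meet hK hK).subset fun _ ⟨y, h1, h2⟩ => ⟨_, h2, y, h1, rfl⟩

theorem nd_ι_inj : Function.Injective c.ι := c.ι_inj

theorem nd_dι_inj (x : c.M) : Function.Injective (c.dι x) := c.dι_inj x

theorem nd_ρ_smooth : ContDiffOn ℝ ∞ c.ρ c.U := c.contDiffOn_ρ

/-- the differential of the retraction has the tangent space as its range -/
theorem nd_range_ρ {z : E c.N} (hz : z ∈ c.U) :
    range (fderiv ℝ c.ρ z) = range (c.dι (c.r z)) :=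
  congrArg (fun s : Submodule ℝ (E c.N) => (s : Set (E c.N))) (c.range_fderiv_ρ hz)

theorem nd_P_dι (x : c.M) (v : E 5) : c.P x (c.dι x v) = c.dι x v := c.P_dι x v

/-- the differential of a smooth map is tangent to the manifold -/
theorem nd_tangent {f : V → c.Y} {x : V} (hf : c.SmNear f {x}) (v : V) :
    fderiv ℝ (c.am f) x v ∈ range (c.dι (c.q (f x))) :=
  let ⟨u, hu⟩ := c.P_eq_self_iff.1 (P_fderiv_am (hf.differentiableAt rfl) v)
  ⟨u, hu.symm⟩

/-- the segment from `y` in the direction `w` stays in the domain of the retraction -/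
def Sg (c : Ctx) : Set (c.Y × E c.N) := {p | ∀ s ∈ Icc (0 : ℝ) 1, c.ι (c.q p.1) + s • p.2 ∈ c.U}

theorem nd_Sg_open : IsOpen c.Sg := by
  refine isOpen_iff_mem_nhds.2 fun p hp => ?_
  refine isCompact_Icc.eventually_forall_of_forall_eventually
    (P := fun (p : c.Y × E c.N) (s : ℝ) => c.ι (c.q p.1) + s • p.2 ∈ c.U) fun s hs => ?_
  have h : Continuous fun z : (c.Y × E c.N) × ℝ => c.ι (c.q z.1.1) + z.2 • z.1.2 :=
    ((c.continuous_ι.comp c.continuous_q).comp (by fun_prop)).add (by fun_prop)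
  exact h.continuousAt.eventually (c.A.U_open.mem_nhds (hp s hs))

/-- the lift of `(x, w) ↦ r (ι x + w)` -/
theorem nd_push (c : Ctx) : ∃ P : c.Y × E c.N → c.Y, ContinuousOn P c.Sg ∧ (∀ y, P (y, 0) = y) ∧
    ∀ p ∈ c.Sg, c.q (P p) = c.r (c.ι (c.q p.1) + p.2) := by
  obtain ⟨H, h1, h2, h3, h4⟩ := c.lift_push (O := c.Sg) (f := Prod.fst) continuousOn_fst
    (w := Prod.snd) continuousOn_snd fun v hv => hv
  have h0 : ∀ y, (y, 0) ∈ c.Sg := fun y s _ => by simpa using c.A.mem_U _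
  refine ⟨fun p => H (1, p), h1.comp (by fun_prop) fun p hp => ⟨by simp, hp⟩,
    fun y => h4 _ (h0 y) rfl 1 (by simp), fun p hp => c.ι_inj ?_⟩
  simpa [am, ρ] using h3 (1, p) ⟨by simp, hp⟩

theorem Eqv.nd_refl {L L' : ι → E 3 → c.Y} (h : ∀ i, ∀ x ∈ S2, L i x = L' i x) : c.Eqv L L' := Eqv.of_eq h

theorem Eqv.nd_symm {L L' : ι → E 3 → c.Y} (h : c.Eqv L L') : c.Eqv L' L := h.symm

theorem Eqv.nd_trans {L L' L'' : ι → E 3 → c.Y} (h : c.Eqv L L') (h' : c.Eqv L' L'') :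
    c.Eqv L L'' := h.trans h'

theorem Aut.nd_smOn (φ : c.Aut) {f : V → c.Y} {O : Set V} (_hO : IsOpen O) (hf : c.SmOn f O) :
    c.SmOn (φ.up ∘ f) O := hf.aut φ

theorem Aut.nd_inj (φ : c.Aut) : Function.Injective φ.dn := injOn_univ.1 φ.emb.2.1

/-- the differential of an automorphism on the tangent space at `x` -/
theorem Aut.nd_fderiv (φ : c.Aut) (x : c.M) : ∃ D : E c.N →L[ℝ] E c.N,
    (∀ A ε, c.Sgn x A ε → c.Sgn (φ.dn x) (D.comp A) ε) ∧
    ∀ {V : Type} [NormedAddCommGroup V] [NormedSpace ℝ V] (f : V → c.Y) (v : V),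
      c.SmNear f {v} → c.q (f v) = x →
        fderiv ℝ (c.am (φ.up ∘ f)) v = D.comp (fderiv ℝ (c.am f) v) :=
  ⟨φ.D x, fun _ _ h => φ.sgn h, fun _ _ h e => e ▸ φ.fderiv_am (h.differentiableAt rfl)⟩

theorem Iso.nd_eqv [Finite ι] {F : ι → ℝ × E 3 → c.Y} (h : c.Iso F) : c.Eqv (sl F 0) (sl F 1) := h.eqv

end Ctx

end Pool.Agent.CSP
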