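import Pool.Agent.Lib.MP_436e1a_gt.H.Fill
import Pool.Agent.Lib.MP_436e1a_gt.H.Lin2
import Pool.Agent.Lib.MP_436e1a_gt.H.Aut

/-! Maps with the right bottom and the right crossing: existence, and families between two boxes. -/

open scoped Manifold ContDiff Topology RealInnerProductSpace Classical
open Set

namespace Pool.Agent.CSP

theorem pre_s : ContDiff ℝ ∞ fun u : ℝ => Real.smoothTransition (5 * u - 2) :=
  Real.smoothTransition.contDiff.comp (by fun_prop)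

namespace Ctx

variable {c : Ctx} {ι : Type} {δ : Dat ι c.G} {x₀ y₀ : E 3} {L : ι → E 3 → c.Y} {T₀ T₁ : ℝ}
  {Ψ₀ Ψ₁ : ℝ × E 3 → c.Y}

theorem pre_fr {m : ℝ × E 3 → c.Y} {a : E 3 → c.Y} (ha : c.SmNear a {y₀}) (g : c.G) (t : ℝ)
    (v₁ v₂ w₁ w₂ : E 3) : c.crossFr m (fun p => g • a p.2) t x₀ y₀ v₁ v₂ w₁ w₂ =
      fr ![fderiv ℝ (c.am m) (t, x₀) (0, v₁), fderiv ℝ (c.am m) (t, x₀) (0, v₂),
        -fderiv ℝ (c.am a) y₀ w₁, -fderiv ℝ (c.am a) y₀ w₂, fderiv ℝ (c.am m) (t, x₀) (1, 0)] := by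
  have h : ∀ τ v, fderiv ℝ (c.am fun p : ℝ × E 3 => g • a p.2) (t, y₀) (τ, v) =
      fderiv ℝ (c.am a) y₀ v := fun τ v => by
    rw [c.am_smul g fun p : ℝ × E 3 => a p.2]
    exact fderiv_snd' (ha.differentiableAt rfl) v
  simp only [crossFr, h, map_zero, sub_zero]

theorem exists_crossgerm (hL : c.Link L) (δ : Dat ι c.G) (hx : x₀ ∈ S2) (hy : y₀ ∈ S2) :
    ∃ m : ℝ × E 3 → c.Y, c.SmNear m {(1, x₀)} ∧
      c.Cross m (fun p => δ.g • L δ.j p.2) δ.ε 1 x₀ y₀ := by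
  obtain ⟨v₁, v₂, hv⟩ := exists_OB (ne_zero_of_S2 hx)
  obtain ⟨w₁, w₂, hw⟩ := exists_OB (ne_zero_of_S2 hy)
  have ha := (hL.sm δ.j).at hy
  have ht : ∀ w, -fderiv ℝ (c.am (L δ.j)) y₀ w ∈ range (c.dι (c.q (δ.g • L δ.j y₀))) := fun w => by
    rw [c.q_smul, ← map_neg]
    exact nd_tangent ha _
  obtain ⟨A, h1, h2⟩ := exists_compl hv (ht w₁) (ht w₂) (fun p q h => hw.indep
    (hL.imm δ.j y₀ hy _ (lnk_inner_OB hw p q) (by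
      rw [map_add, map_smul, map_smul, ← neg_eq_zero, ← h, neg_add, smul_neg, smul_neg]))) δ.ε
  obtain ⟨m, h3, h4, h5⟩ := exists_jet (δ.g • L δ.j y₀) ((1 : ℝ), x₀) h1
  refine ⟨m, h3, h4, v₁, v₂, w₁, w₂, hv, hw, ?_⟩
  rw [pre_fr ha, h4, h5]
  exact h2

theorem exists_prebox [PathConnectedSpace c.Y] (hL : c.Link L) (δ : Dat ι c.G) (hx : x₀ ∈ S2)
    (hy : y₀ ∈ S2) : ∃ (T : ℝ) (G : ℝ × E 3 → c.Y), 1 < T ∧ c.SmNear G (Icc 0 T ×ˢ {x₀}) ∧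
      (∀ᶠ x in 𝓝[S2] x₀, G (0, x) = L δ.i x) ∧
      c.Cross G (fun p => δ.g • L δ.j p.2) δ.ε 1 x₀ y₀ := by
  obtain ⟨m, h1, h2⟩ := exists_crossgerm hL δ hx hy
  have h3 : ∀ᶠ t in 𝓝 (1 : ℝ), c.SmNear m {(t, x₀)} :=
    (Continuous.prodMk_left x₀).continuousAt.eventually h1.eventually
  obtain ⟨η, hη, h4⟩ := Metric.eventually_nhds_iff.1 (h3.and (lt_mem_nhds (by norm_num : (1 / 2 : ℝ) < 1)))
  have h5 := (h4 (y := 1 - η / 2) (by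
    rw [Real.dist_eq, sub_sub_cancel_left, abs_neg, abs_of_pos (half_pos hη)]; linarith)).2
  set g : ℝ × E 3 → c.Y := fun p => if p.1 ≤ 1 / 2 then L δ.i p.2 else m p with hg
  have g1 : ∀ t < 1 / 2, g =ᶠ[𝓝 (t, x₀)] fun p => L δ.i p.2 := fun t ht =>
    (continuous_fst.continuousAt.eventually (gt_mem_nhds ht)).mono fun p hp => if_pos (le_of_lt hp)
  have g2 : ∀ t > 1 / 2, g =ᶠ[𝓝 (t, x₀)] m := fun t ht =>
    (continuous_fst.continuousAt.eventually (lt_mem_nhds ht)).mono fun p hp => if_neg (not_le.2 hp)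
  have hab : (1 / 4 : ℝ) < 1 - η / 2 := by linarith
  obtain ⟨G₀, h6, h7⟩ := ext_interval hab fun t => g (t, x₀)
  obtain ⟨G, h8, h9⟩ := fill (c := c) (R := Icc 0 (1 + η / 2)) (g := g) isClosed_Icc
    (nonempty_Icc.2 hab.le) isCompact_Icc (smNear_of_forall (by
      rintro ⟨t, x⟩ ⟨⟨ht, ht'⟩, rfl⟩
      rw [interior_Icc, mem_Ioo, not_and_or, not_lt, not_lt] at ht'
      rcases ht' with e | e
      · exact (((hL.sm δ.i).const univ).at ⟨trivial, hx⟩).congr_at (g1 t (by linarith))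
      · refine (h4 (y := t) ?_).1.congr_at (g2 t (by linarith))
        rw [Real.dist_eq, abs_lt]
        constructor <;> linarith [ht.2])) h6 (fun p hp => h7 hp) (η := η / 5) (by linarith)
  have d : ∀ t : ℝ, (∀ s ∈ Icc (1 / 4 : ℝ) (1 - η / 2), η / 4 ≤ |t - s|) →
      η / 5 < Metric.infDist t (Icc (1 / 4 : ℝ) (1 - η / 2)) := fun t h =>
    lt_of_lt_of_le (by linarith) ((Metric.le_infDist (nonempty_Icc.2 hab.le)).2 fun s hs => h s hs)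
  have e0 := (h9 0 ⟨le_rfl, by linarith⟩ (d 0 fun s hs => le_abs.2 (.inr (by
    linarith [hs.1])))).trans
    (g1 0 (by norm_num))
  have e1 := (h9 1 ⟨zero_le_one, by linarith⟩ (d 1 fun s hs => le_abs.2 (.inl (by
    linarith [hs.2])))).trans (g2 1 (by norm_num))
  refine ⟨_, G, by linarith, h8, mem_nhdsWithin_of_mem_nhds
    ((Continuous.prodMk_right (0 : ℝ)).continuousAt.eventually e0), ?_⟩
  exact h2.congr_sm hx hy h1 (aut_sm hL _ _ _ hy) (h1.congr_at e1) (aut_sm hL _ _ _ hy)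
    (e1.symm.filter_mono nhdsWithin_le_nhds) (.refl _ _)

theorem exists_botfam (h₀ : c.Box L δ x₀ y₀ T₀ Ψ₀) (h₁ : c.Box L δ x₀ y₀ T₁ Ψ₁) :
    ∃ (m : ℝ × ℝ × E 3 → c.Y) (O : Set (ℝ × ℝ × E 3)), IsOpen O ∧ Icc 0 1 ×ˢ {(0, x₀)} ⊆ O ∧
      c.SmOn m O ∧ (∀ u ≤ 1 / 5, ∀ z, m (u, z) = Ψ₀ z) ∧ (∀ p ∈ O, 4 / 5 ≤ p.1 → m p = Ψ₁ p.2) ∧
      ∀ᶠ x in 𝓝[S2] x₀, ∀ u, m (u, 0, x) = L δ.i x := by
  obtain ⟨m, O, h1, h2, h3, h4, h5, h6, -⟩ := exists_mix (J := Icc 0 1)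
    ((h₀.aut_at ⟨le_rfl, by linarith [h₀.hT]⟩).const _)
    ((h₁.aut_at ⟨le_rfl, by linarith [h₁.hT]⟩).const _)
    (fun _ _ => h₀.bot.self_of_nhdsWithin h₀.hx) (fun _ _ => h₁.bot.self_of_nhdsWithin h₁.hx) pre_s
  refine ⟨m, O, h1, h2, h3, fun u hu z => h4 _ (Real.smoothTransition.zero_of_nonpos (by
    linarith)), fun p hp h => h6 p hp (Real.smoothTransition.one_of_one_le (by linarith)), ?_⟩
  filter_upwards [h₀.bot, h₁.bot] with x e₀ e₁ u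
  exact (h5 (u, 0, x) (e₀.trans e₁.symm)).trans e₀

theorem pre_lin {Ψ : ℝ × E 3 → c.Y} {z : ℝ × E 3} (h : c.SmNear Ψ {z})
    {M : ℝ → ℝ × E 3 →L[ℝ] ℝ × E 3} (hM : ContDiff ℝ ∞ M) :
    c.SmNear (fun p : ℝ × ℝ × E 3 => Ψ (z + M p.1 (p.2 - z))) (Icc 0 1 ×ˢ {z}) ∧
      ∀ u ∈ Icc (0 : ℝ) 1, ∀ v, fderiv ℝ (c.am fun p : ℝ × ℝ × E 3 => Ψ (z + M p.1 (p.2 - z))) (u, z)
        (0, v) = fderiv ℝ (c.am Ψ) z (M u v) := by
  have h1 := h.comp_cd (φ := fun p : ℝ × ℝ × E 3 => z + M p.1 (p.2 - z)) (K' := Icc 0 1 ×ˢ {z})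
    (contDiff_const.add ((hM.comp contDiff_fst).clm_apply (contDiff_snd.sub contDiff_const)))
    (by rintro ⟨u, _⟩ ⟨-, rfl⟩; simp)
  refine ⟨h1, fun u hu v => ?_⟩
  rw [← fderiv_slice (h1.differentiableAt ⟨hu, rfl⟩)]
  have h2 : HasFDerivAt (fun y => z + M u (y - z)) (M u) z :=
    ((M u).hasFDerivAt.comp z ((hasFDerivAt_id z).sub_const z)).const_add z
  have h3 : HasFDerivAt (c.am Ψ) (fderiv ℝ (c.am Ψ) z) (z + M u (z - z)) := by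
    simpa using (h.differentiableAt rfl).hasFDerivAt
  exact DFunLike.congr_fun (HasFDerivAt.comp z h3 h2).fderiv v

theorem exists_crossfam (hL : c.Link L) (h₀ : c.Box L δ x₀ y₀ T₀ Ψ₀) (h₁ : c.Box L δ x₀ y₀ T₁ Ψ₁) :
    ∃ (m : ℝ × ℝ × E 3 → c.Y) (O : Set (ℝ × ℝ × E 3)), IsOpen O ∧ Icc 0 1 ×ˢ {(1, x₀)} ⊆ O ∧
      c.SmOn m O ∧ (∀ u ≤ 1 / 5, ∀ z, m (u, z) = Ψ₀ z) ∧ (∀ p ∈ O, 4 / 5 ≤ p.1 → m p = Ψ₁ p.2) ∧
      ∀ u ∈ Icc (0 : ℝ) 1,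
        c.Cross (fun z => m (u, z)) (fun p => δ.g • L δ.j p.2) δ.ε 1 x₀ y₀ := by
  obtain ⟨v₁, v₂, hv⟩ := exists_OB (ne_zero_of_S2 h₀.hx)
  obtain ⟨w₁, w₂, hw⟩ := exists_OB (ne_zero_of_S2 h₀.hy)
  have ha := (hL.sm δ.j).at h₀.hy
  have s₀ := h₀.cross.all hv hw
  have s₁ := h₁.cross.all hv hw
  rw [pre_fr ha, h₀.cross.1] at s₀
  rw [pre_fr ha, h₁.cross.1] at s₁
  obtain ⟨M₀, M₁, m₀, m₁, e₀, e₁, hM⟩ := exists_path_compl hv s₀ s₁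
  have hσ : ContDiff ℝ ∞ fun u : ℝ => (u - 1 / 5) * (5 / 3) := by fun_prop
  obtain ⟨a₀, b₀⟩ := pre_lin (h₀.aut_at ⟨zero_le_one, h₀.hT.le⟩) (m₀.comp hσ)
  obtain ⟨a₁, b₁⟩ := pre_lin (h₁.aut_at ⟨zero_le_one, h₁.hT.le⟩) (m₁.comp hσ)
  obtain ⟨m, O, h1, h2, h3, h4, h5, h6, h7⟩ := exists_mix (y := δ.g • L δ.j y₀) a₀ a₁
    (fun _ _ => by simpa using h₀.cross.1) (fun _ _ => by simpa using h₁.cross.1) pre_s
  refine ⟨m, O, h1, h2, h3, fun u hu z => (h4 _ (Real.smoothTransition.zero_of_nonpos (by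
    linarith))).trans ?_, fun p hp h => (h6 p hp (Real.smoothTransition.one_of_one_le (by
      linarith))).trans ?_, fun u hu => ?_⟩
  · simp only [Function.comp, e₀ ((u - 1 / 5) * (5 / 3)) (by linarith)]
    simp
  · simp only [Function.comp, e₁ ((p.1 - 1 / 5) * (5 / 3)) (by linarith)]
    simp
  · have e : m (u, 1, x₀) = δ.g • L δ.j y₀ :=
      (h5 _ (by simpa using h₀.cross.1.trans h₁.cross.1.symm)).trans (by simpa using h₀.cross.1)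
    refine ⟨e, v₁, v₂, w₁, w₂, hv, hw, ?_⟩
    rw [pre_fr ha]
    simp only [e]
    refine hM ((u - 1 / 5) * (5 / 3)) (Real.smoothTransition (5 * u - 2)) _
      (ContinuousLinearMap.ext fun v => ?_)
    rw [fderiv_slice (SmNear.differentiableAt ⟨O, h1, h2, h3⟩ ⟨hu, rfl⟩), h7 u hu, b₀ u hu, b₁ u hu]
    rfl

end Ctx

end Pool.Agent.CSP
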