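import Pool.Agent.Lib.MP_436e1a_gt.H.Pre

/-! Two boxes with the same data are the ends of a family of maps. -/

open scoped Manifold ContDiff Topology RealInnerProductSpace Classical
open Set

namespace Pool.Agent.CSP

theorem pre2_tube {O : Set (ℝ × ℝ × E 3)} (hO : IsOpen O) {s : ℝ} {x : E 3}
    (h : Icc 0 1 ×ˢ {(s, x)} ⊆ O) : ∃ η > 0, ∀ u ∈ Icc (0 : ℝ) 1, ∀ t, |t - s| < η → (u, t, x) ∈ O := by
  have h1 : ∀ᶠ t in 𝓝 s, ∀ u ∈ Icc (0 : ℝ) 1, (u, t, x) ∈ O :=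
    isCompact_Icc.eventually_forall_of_forall_eventually (P := fun t u => (u, t, x) ∈ O)
      fun u hu => (show Continuous fun p : ℝ × ℝ => (p.2, p.1, x) by
        fun_prop).continuousAt.eventually (hO.mem_nhds (h ⟨hu, rfl⟩))
  obtain ⟨η, hη, h2⟩ := Metric.eventually_nhds_iff.1 h1
  exact ⟨η, hη, fun u hu t ht => h2 ht u hu⟩

namespace Ctx

variable {c : Ctx} {ι : Type} {δ : Dat ι c.G} {x₀ y₀ : E 3} {L : ι → E 3 → c.Y} {T₀ T₁ : ℝ}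
  {Ψ₀ Ψ₁ : ℝ × E 3 → c.Y}

theorem exists_frame {mb mc : ℝ × ℝ × E 3 → c.Y} {Ob Oc : Set (ℝ × ℝ × E 3)} (hT₀ : 1 < T₀)
    (hT₁ : 1 < T₁) (s₀ : c.SmNear Ψ₀ (Icc 0 T₀ ×ˢ {x₀})) (s₁ : c.SmNear Ψ₁ (Icc 0 T₁ ×ˢ {x₀}))
    (b₁ : IsOpen Ob) (b₂ : Icc 0 1 ×ˢ {(0, x₀)} ⊆ Ob) (b₃ : c.SmOn mb Ob)
    (b₄ : ∀ u ≤ 1 / 5, ∀ z, mb (u, z) = Ψ₀ z) (b₅ : ∀ p ∈ Ob, 4 / 5 ≤ p.1 → mb p = Ψ₁ p.2)
    (c₁ : IsOpen Oc) (c₂ : Icc 0 1 ×ˢ {(1, x₀)} ⊆ Oc) (c₃ : c.SmOn mc Oc)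
    (c₄ : ∀ u ≤ 1 / 5, ∀ z, mc (u, z) = Ψ₀ z) (c₅ : ∀ p ∈ Oc, 4 / 5 ≤ p.1 → mc p = Ψ₁ p.2) :
    ∃ (η : ℝ) (g : ℝ × ℝ × E 3 → c.Y), 0 < η ∧ η < 1 / 10 ∧ 1 + η ≤ T₀ ∧ 1 + η ≤ T₁ ∧
      (∀ u ∈ Icc (0 : ℝ) 1, ∀ t ∈ Icc 0 (1 + η),
        u ≤ 1 / 10 ∨ 9 / 10 ≤ u ∨ t ≤ 2 * η ∨ 1 - 2 * η ≤ t → c.SmNear g {(u, t, x₀)}) ∧
      (∀ z, g (0, z) = Ψ₀ z) ∧ (∀ z, g (1, z) = Ψ₁ z) ∧
      ∀ u ∈ Icc (0 : ℝ) 1, g =ᶠ[𝓝 (u, 0, x₀)] mb ∧ g =ᶠ[𝓝 (u, 1, x₀)] mc := by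
  obtain ⟨ηb, hb, tb⟩ := pre2_tube b₁ b₂
  obtain ⟨ηc, hc, tc⟩ := pre2_tube c₁ c₂
  obtain ⟨η, h0, h1⟩ := exists_between (show 0 < min (min (ηb / 2) (ηc / 2))
    (min (1 / 10) (min (T₀ - 1) (T₁ - 1))) by simp only [lt_min_iff]; refine ⟨⟨?_, ?_⟩, ?_, ?_, ?_⟩ <;> linarith)
  simp only [lt_min_iff] at h1
  obtain ⟨⟨h1, h2⟩, h3, h4, h5⟩ := h1
  set g : ℝ × ℝ × E 3 → c.Y := fun p => if p.1 ≤ 1 / 5 then Ψ₀ p.2 else if 4 / 5 ≤ p.1 then Ψ₁ p.2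
    else if p.2.1 ≤ 1 / 2 then mb p else mc p with hg
  have ct : Continuous fun p : ℝ × ℝ × E 3 => p.2.1 := by fun_prop
  have gb : ∀ p ∈ Ob, p.2.1 < 1 / 2 → g =ᶠ[𝓝 p] mb := fun p hp h => by
    filter_upwards [b₁.mem_nhds hp, ct.continuousAt.eventually (gt_mem_nhds h)] with z z1 z2
    simp only [hg, if_pos z2.le]
    split_ifs with e e'
    exacts [(b₄ z.1 e z.2).symm, (b₅ z z1 e').symm, rfl]
  have gc : ∀ p ∈ Oc, 1 / 2 < p.2.1 → g =ᶠ[𝓝 p] mc := fun p hp h => by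
    filter_upwards [c₁.mem_nhds hp, ct.continuousAt.eventually (lt_mem_nhds h)] with z z1 z2
    simp only [hg, if_neg (not_le.2 z2)]
    split_ifs with e e'
    exacts [(c₄ z.1 e z.2).symm, (c₅ z z1 e').symm, rfl]
  refine ⟨η, g, h0, h3, by linarith, by linarith, fun u hu t ht h => ?_, fun z => if_pos (by norm_num),
    fun z => (if_neg (by norm_num)).trans (if_pos (by norm_num)), fun u hu =>
    ⟨gb _ (b₂ ⟨hu, rfl⟩) (by norm_num), gc _ (c₂ ⟨hu, rfl⟩) (by norm_num)⟩⟩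
  rcases h with h | h | h | h
  · refine ((s₀.const univ).at (x := (u, t, x₀)) ⟨trivial, ⟨ht.1, by linarith [ht.2]⟩, rfl⟩).congr_at
      ((continuous_fst.continuousAt.eventually (gt_mem_nhds (show u < 1 / 5 by linarith))).mono
        fun p hp => if_pos (le_of_lt hp))
  · refine ((s₁.const univ).at (x := (u, t, x₀)) ⟨trivial, ⟨ht.1, by linarith [ht.2]⟩, rfl⟩).congr_at
      ((continuous_fst.continuousAt.eventually (lt_mem_nhds (show 4 / 5 < u by linarith))).mono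
        fun p hp => (if_neg (by linarith [show 4 / 5 < p.1 from hp])).trans (if_pos (le_of_lt hp)))
  · have m := tb u hu t (abs_lt.2 ⟨by linarith [ht.1], by linarith⟩)
    exact SmNear.congr_at ⟨Ob, b₁, singleton_subset_iff.2 m, b₃⟩ (gb _ m (by linarith))
  · have m := tc u hu t (abs_lt.2 ⟨by linarith, by linarith [ht.2]⟩)
    exact SmNear.congr_at ⟨Oc, c₁, singleton_subset_iff.2 m, c₃⟩ (gc _ m (by linarith))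

theorem exists_prefam [SimplyConnectedSpace c.Y] (hL : c.Link L) (h₀ : c.Box L δ x₀ y₀ T₀ Ψ₀)
    (h₁ : c.Box L δ x₀ y₀ T₁ Ψ₁) : ∃ (T : ℝ) (G : ℝ × ℝ × E 3 → c.Y), 1 < T ∧ T ≤ T₀ ∧ T ≤ T₁ ∧
      c.SmNear G (Icc 0 1 ×ˢ Icc 0 T ×ˢ {x₀}) ∧
      (∀ᶠ x in 𝓝[S2] x₀, ∀ u ∈ Icc (0 : ℝ) 1, G (u, 0, x) = L δ.i x) ∧
      (∀ u ∈ Icc (0 : ℝ) 1, c.Cross (fun z => G (u, z)) (fun p => δ.g • L δ.j p.2) δ.ε 1 x₀ y₀) ∧
      (fun z => G (0, z)) =ᶠ[𝓝ˢ (Icc 0 T ×ˢ {x₀})] Ψ₀ ∧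
      (fun z => G (1, z)) =ᶠ[𝓝ˢ (Icc 0 T ×ˢ {x₀})] Ψ₁ := by
  obtain ⟨mb, Ob, b₁, b₂, b₃, b₄, b₅, b₆⟩ := exists_botfam h₀ h₁
  obtain ⟨mc, Oc, c₁, c₂, c₃, c₄, c₅, c₆⟩ := exists_crossfam hL h₀ h₁
  obtain ⟨η, g, e₁, e₂, e₃, e₄, g₁, g₂, g₃, g₄⟩ := exists_frame h₀.hT h₁.hT h₀.sm h₁.sm b₁ b₂ b₃ b₄ b₅
    c₁ c₂ c₃ c₄ c₅
  have ha : (1 / 10 : ℝ) < 9 / 10 := by norm_num
  have hb : 2 * η < 1 - 2 * η := by linarith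
  set K : Set (ℝ × ℝ) := Icc (1 / 10) (9 / 10) ×ˢ Icc (2 * η) (1 - 2 * η) with hK
  have kc : IsClosed K := isClosed_Icc.prod isClosed_Icc
  have kn : K.Nonempty := (nonempty_Icc.2 ha.le).prod (nonempty_Icc.2 hb.le)
  have hs : c.SmNear (fun p : (ℝ × ℝ) × E 3 => g (p.1.1, p.1.2, p.2))
      ((Icc 0 1 ×ˢ Icc 0 (1 + η) \ interior K) ×ˢ {x₀}) := smNear_of_forall (by
    rintro ⟨⟨u, t⟩, x⟩ ⟨⟨⟨hu, ht⟩, hn⟩, rfl⟩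
    refine (g₁ u hu t ht ?_).comp_cd (by fun_prop) (by rintro _ rfl; rfl)
    simp only [hK, interior_prod_eq, interior_Icc, mem_prod, mem_Ioo, not_and_or, not_lt] at hn
    tauto)
  obtain ⟨G₀, h2, h3⟩ := ext_rect ha hb (g := fun p => g (p.1, p.2, x₀))
    (hs.continuousOn.comp (f := fun p : ℝ × ℝ => (p, x₀)) (by fun_prop) fun p hp => by
      have h := kc.frontier_subset hp
      exact ⟨⟨⟨⟨by linarith [h.1.1], by linarith [h.1.2]⟩, by linarith [h.2.1],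
        by linarith [h.2.2]⟩, hp.2⟩, rfl⟩)
  obtain ⟨G, h4, h5⟩ := fill kc kn (isCompact_Icc.prod isCompact_Icc) hs h2 (fun p hp => h3 hp)
    (half_pos e₁)
  have key : ∀ u ∈ Icc (0 : ℝ) 1, ∀ t ∈ Icc 0 (1 + η), u = 0 ∨ u = 1 ∨ t = 0 ∨ t = 1 →
      (fun p : ℝ × ℝ × E 3 => G ((p.1, p.2.1), p.2.2)) =ᶠ[𝓝 (u, t, x₀)] g := fun u hu t ht h => by
    refine ((show Continuous fun p : ℝ × ℝ × E 3 => ((p.1, p.2.1), p.2.2) by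
      fun_prop).tendsto (u, t, x₀)).eventually (h5 (u, t) ⟨hu, ht⟩
        ((half_lt_self e₁).trans_le ((Metric.le_infDist kn).2 fun s hs => ?_)))
    rw [Prod.dist_eq, le_max_iff, Real.dist_eq, Real.dist_eq, le_abs, le_abs]
    rcases h with rfl | rfl | rfl | rfl
    · exact .inl (.inr (by linarith [hs.1.1]))
    · exact .inl (.inl (by linarith [hs.1.2]))
    · exact .inr (.inr (by linarith [hs.2.1]))
    · exact .inr (.inl (by linarith [hs.2.2]))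
  have m0 : (0 : ℝ) ∈ Icc 0 (1 + η) := ⟨le_rfl, by linarith⟩
  have m1 : (1 : ℝ) ∈ Icc 0 (1 + η) := ⟨zero_le_one, by linarith⟩
  refine ⟨1 + η, fun p => G ((p.1, p.2.1), p.2.2), by linarith, e₃, e₄,
    h4.comp_cd (by fun_prop) fun p hp => ⟨⟨hp.1, hp.2.1⟩, hp.2.2⟩, ?_, fun u hu => ?_,
    eventually_nhdsSet_iff_forall.2 ?_, eventually_nhdsSet_iff_forall.2 ?_⟩
  · have h6 : ∀ᶠ x in 𝓝 x₀, ∀ u ∈ Icc (0 : ℝ) 1, G ((u, 0), x) = mb (u, 0, x) :=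
      isCompact_Icc.eventually_forall_of_forall_eventually
        (P := fun x u => G ((u, 0), x) = mb (u, 0, x)) fun u hu =>
        ((show Continuous fun p : E 3 × ℝ => (p.2, (0 : ℝ), p.1) by
          fun_prop).tendsto (x₀, u)).eventually ((key u hu 0 m0 (by simp)).trans (g₄ u hu).1)
    filter_upwards [mem_nhdsWithin_of_mem_nhds h6, b₆] with x x1 x2 u hu
    exact (x1 u hu).trans (x2 u)
  · have h6 : (fun z : ℝ × E 3 => G ((u, z.1), z.2)) =ᶠ[𝓝 (1, x₀)] fun z => mc (u, z) :=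
      (Continuous.prodMk_right u).continuousAt.eventually
        ((key u hu 1 m1 (by simp)).trans (g₄ u hu).2)
    have h7 := SmNear.slice ⟨Oc, c₁, c₂, c₃⟩ hu
    exact (c₆ u hu).congr_sm h₀.hx h₀.hy h7 (aut_sm hL _ _ _ h₀.hy) (h7.congr_at h6)
      (aut_sm hL _ _ _ h₀.hy) (h6.symm.filter_mono nhdsWithin_le_nhds) (.refl _ _)
  · rintro ⟨t, x⟩ ⟨ht, rfl⟩
    exact ((Continuous.prodMk_right (0 : ℝ)).continuousAt.eventually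
      (key 0 (by simp) t ht (by simp))).mono fun z hz => hz.trans (g₂ z)
  · rintro ⟨t, x⟩ ⟨ht, rfl⟩
    exact ((Continuous.prodMk_right (1 : ℝ)).continuousAt.eventually
      (key 1 (by simp) t ht (by simp))).mono fun z hz => hz.trans (g₃ z)

end Ctx

end Pool.Agent.CSP
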