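import Pool.Agent.Lib.MP_436e1a_gt.H.Def

/-! Cancelling crossings in pairs: the combinatorics. -/

open scoped Classical

namespace Pool.Agent.CSP

variable {ι G : Type} [Group G]

theorem chi_perm {l l' : List (Dat ι G)} (h : l.Perm l') (i j : ι) (g : G) :
    chi l i j g = chi l' i j g := (h.map _).sum_eq

omit [Group G] in
theorem cnt_perm {l l' : List (Dat ι G)} (h : l.Perm l') (i : ι) (g : G) :
    cnt l i g = cnt l' i g := h.countP_eq _

theorem red_sum {α : Type} {l : List α} {f : α → ℤ} (h : (l.map f).sum < 0) : ∃ a ∈ l, f a < 0 := by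
  by_contra hn
  push Not at hn
  exact h.not_ge (List.sum_nonneg fun x hx => by
    obtain ⟨a, ha, rfl⟩ := List.mem_map.1 hx
    exact hn a ha)

theorem exists_partner {δ : Dat ι G} {l : List (Dat ι G)}
    (h₁ : ∀ i j g, ¬ (i = j ∧ g = g⁻¹) → chi (δ :: l) i j g = 0)
    (h₂ : ∀ i g, g = g⁻¹ → Even (cnt (δ :: l) i g)) : δ.neg ∈ l ∨ δ.neg.flip ∈ l := by
  obtain ⟨i, j, g, ε⟩ := δ
  by_cases h : i = j ∧ g = g⁻¹
  · obtain ⟨rfl, hg⟩ := h
    have h3 := h₂ i g hg
    simp only [cnt, List.countP_cons, and_self, decide_true, if_true] at h3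
    have h4 : 0 < l.countP fun δ => decide (δ.i = i ∧ δ.j = i ∧ δ.g = g) :=
      Nat.pos_of_ne_zero fun e => by rw [e] at h3; simp at h3
    obtain ⟨⟨i', j', g', ε'⟩, h5, h6⟩ := List.countP_pos_iff.1 h4
    obtain ⟨rfl, rfl, rfl⟩ : i' = i ∧ j' = i ∧ g' = g := by simpa using h6
    rcases Int.units_eq_one_or ε with rfl | rfl <;> rcases Int.units_eq_one_or ε' with rfl | rfl <;>
      simp [Dat.neg, Dat.flip, ← hg, h5]
  · have h3 := h₁ i j g h
    have h4 : ¬ (i = j ∧ j = i ∧ g = g⁻¹) := fun e => h ⟨e.1, e.2.2⟩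
    simp only [chi, List.map_cons, List.sum_cons, and_self, if_true, if_neg h4, sub_zero] at h3
    have h5 := congrArg (fun z => (ε : ℤ) * z) h3
    simp only [mul_add, mul_zero, ← List.sum_map_mul_left] at h5
    have h6 : (ε : ℤ) * ε = 1 := by rcases Int.units_eq_one_or ε with rfl | rfl <;> simp
    obtain ⟨⟨i', j', g', ε'⟩, h7, h8⟩ := red_sum (h5 ▸ lt_add_of_pos_left _ (h6 ▸ one_pos))
    by_cases e : i' = i ∧ j' = j ∧ g' = g
    · obtain ⟨rfl, rfl, rfl⟩ := e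
      simp only [and_self, if_true, if_neg h4, sub_zero] at h8
      have : ε' = -ε := by
        rcases Int.units_eq_one_or ε with rfl | rfl <;>
          rcases Int.units_eq_one_or ε' with rfl | rfl <;> simp at h8 ⊢
      subst this
      exact .inl h7
    · by_cases e' : i' = j ∧ j' = i ∧ g' = g⁻¹
      · simp only [if_neg e, if_pos e', zero_sub] at h8
        obtain ⟨rfl, rfl, rfl⟩ := e'
        have : ε' = - -ε := by
          rcases Int.units_eq_one_or ε with rfl | rfl <;>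
            rcases Int.units_eq_one_or ε' with rfl | rfl <;> simp at h8 ⊢
        subst this
        exact .inr h7
      · simp [if_neg e, if_neg e'] at h8

theorem chi_pair {δ δ' : Dat ι G} (h : δ' = δ.neg ∨ δ' = δ.neg.flip) (l : List (Dat ι G)) (i j : ι)
    (g : G) : chi (δ :: δ' :: l) i j g = chi l i j g := by
  have e1 : (δ.j = i ∧ δ.i = j ∧ δ.g⁻¹ = g) ↔ (δ.i = j ∧ δ.j = i ∧ δ.g = g⁻¹) := by
    rw [inv_eq_iff_eq_inv]; tauto
  have e2 : (δ.j = j ∧ δ.i = i ∧ δ.g⁻¹ = g⁻¹) ↔ (δ.i = i ∧ δ.j = j ∧ δ.g = g) := by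
    rw [inv_inj]; tauto
  rcases h with rfl | rfl <;>
    simp only [chi, List.map_cons, List.sum_cons, Dat.neg, Dat.flip, e1, e2, neg_neg,
      Units.val_neg] <;> split_ifs <;> ring

theorem cnt_pair {δ δ' : Dat ι G} (h : δ' = δ.neg ∨ δ' = δ.neg.flip) (l : List (Dat ι G)) (i : ι)
    {g : G} (hg : g = g⁻¹) : Even (cnt (δ :: δ' :: l) i g) ↔ Even (cnt l i g) := by
  have e1 : (δ.j = i ∧ δ.i = i ∧ δ.g⁻¹ = g) ↔ (δ.i = i ∧ δ.j = i ∧ δ.g = g) := by
    rw [inv_eq_iff_eq_inv, ← hg]; tauto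
  rcases h with rfl | rfl <;>
    simp only [cnt, List.countP_cons, Dat.neg, Dat.flip, e1] <;> split_ifs <;>
      simp [Nat.even_add_one]

theorem dat_reduce {Q : List (Dat ι G) → Prop} (hp : ∀ l l', l.Perm l' → Q l → Q l')
    (hf : ∀ δ l, Q (δ :: l) → Q (δ.flip :: l)) (hc : ∀ δ l, Q (δ :: δ.neg :: l) → Q l)
    {l : List (Dat ι G)} (h₁ : ∀ i j g, ¬ (i = j ∧ g = g⁻¹) → chi l i j g = 0)
    (h₂ : ∀ i g, g = g⁻¹ → Even (cnt l i g)) (h : Q l) : Q [] := by
  induction hn : l.length using Nat.strong_induction_on generalizing l with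
  | _ n ih =>
    rcases l with _ | ⟨δ, l⟩
    · exact h
    obtain ⟨δ', h3, h4⟩ : ∃ δ', δ' ∈ l ∧ (δ' = δ.neg ∨ δ' = δ.neg.flip) :=
      (exists_partner h₁ h₂).elim (fun h => ⟨_, h, .inl rfl⟩) fun h => ⟨_, h, .inr rfl⟩
    have h5 := (List.perm_cons_erase h3).cons δ
    refine ih _ ?_ (l := l.erase δ') (fun i j g e => ?_) (fun i g e => ?_) ?_ rfl
    · rw [← hn, h5.length_eq]; simp only [List.length_cons]; omega
    · rw [← chi_pair h4, ← chi_perm h5, h₁ i j g e]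
    · rw [← cnt_pair h4 _ _ e, ← cnt_perm h5]; exact h₂ i g e
    · have h6 := hp _ _ h5 h
      rcases h4 with rfl | rfl
      · exact hc _ _ h6
      · have h7 := hf _ _ (hp _ _ (List.Perm.swap _ _ _) h6)
        have h8 : δ.neg.flip.flip = δ.neg := by simp [Dat.flip]
        exact hc _ _ (hp _ _ (List.Perm.swap _ _ _) (h8 ▸ h7))

end Pool.Agent.CSP
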