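import Pool.Agent.Lib.MP_436e1a_gt.H.Lin

/-! Smoothness near a set; notions that depend only on the values on the sphere. -/

open scoped Manifold ContDiff Topology RealInnerProductSpace Classical
open Set

namespace Pool.Agent.CSP

theorem contDiffAt_nrm {x : E 3} (hx : x ≠ 0) : ContDiffAt ℝ ∞ (nrm : E 3 → E 3) x :=
  contDiffOn_nrm.contDiffAt (isOpen_compl_singleton.mem_nhds hx)

theorem fderiv_nrm_tan {x v : E 3} (hx : x ∈ S2) (hv : ⟪x, v⟫ = 0) :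
    fderiv ℝ (nrm : E 3 → E 3) x v = v := by
  rw [fderiv_nrm (mem_sphere_zero_iff_norm.1 hx), hv, zero_smul, sub_zero]

theorem fderiv_norm_sq (x v : E 3) : fderiv ℝ (fun x : E 3 => ‖x‖ ^ 2 - 1) x v = 2 * ⟪x, v⟫ := by
  rw [((hasStrictFDerivAt_norm_sq x).hasFDerivAt.sub_const 1).fderiv]
  simp

section
variable {W : Type} [NormedAddCommGroup W] [NormedSpace ℝ W]

/-- compose both maps with `nrm` -/
theorem tan_congr₀ {f f' : E 3 → W} {x v : E 3} (hx : x ∈ S2) (hf : DifferentiableAt ℝ f x)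
    (hf' : DifferentiableAt ℝ f' x) (h : f =ᶠ[𝓝[S2] x] f') (hv : ⟪x, v⟫ = 0) :
    fderiv ℝ f x v = fderiv ℝ f' x v := by
  have hn := (contDiffAt_nrm (ne_zero_of_S2 hx)).differentiableAt (by simp)
  have e := nrm_of_S2 hx
  have ht : Filter.Tendsto (nrm : E 3 → E 3) (𝓝 x) (𝓝[S2] x) := by
    refine tendsto_nhdsWithin_iff.2 ⟨hn.continuousAt.tendsto.trans (by rw [e]), ?_⟩
    filter_upwards [isOpen_compl_singleton.mem_nhds (ne_zero_of_S2 hx)] with y hy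
    exact nrm_mem hy
  have h1 : f ∘ nrm =ᶠ[𝓝 x] f' ∘ nrm := ht.eventually h
  have h2 := congrArg (fun L : E 3 →L[ℝ] W => L v) h1.fderiv_eq
  rw [fderiv_comp x (by rwa [e]) hn, fderiv_comp x (by rwa [e]) hn, e] at h2
  simpa [fderiv_nrm_tan hx hv] using h2

theorem tan_congr {f f' : ℝ × E 3 → W} {t τ : ℝ} {x v : E 3} (hx : x ∈ S2)
    (hf : DifferentiableAt ℝ f (t, x)) (hf' : DifferentiableAt ℝ f' (t, x))
    (h : f =ᶠ[𝓝[univ ×ˢ S2] (t, x)] f') (hv : ⟪x, v⟫ = 0) :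
    fderiv ℝ f (t, x) (τ, v) = fderiv ℝ f' (t, x) (τ, v) := by
  have hn := (contDiffAt_nrm (ne_zero_of_S2 hx)).differentiableAt (by simp)
  have e := nrm_of_S2 hx
  let φ : ℝ × E 3 → ℝ × E 3 := fun p => (p.1, nrm p.2)
  have hφ : HasFDerivAt φ ((ContinuousLinearMap.fst ℝ ℝ (E 3)).prod
      ((fderiv ℝ nrm x).comp (ContinuousLinearMap.snd ℝ ℝ (E 3)))) (t, x) :=
    hasFDerivAt_fst.prodMk
      (HasFDerivAt.comp (f := Prod.snd) (t, x) hn.hasFDerivAt hasFDerivAt_snd)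
  have e' : φ (t, x) = (t, x) := Prod.ext rfl e
  have ht : Filter.Tendsto φ (𝓝 (t, x)) (𝓝[univ ×ˢ S2] (t, x)) := by
    refine tendsto_nhdsWithin_iff.2 ⟨hφ.continuousAt.tendsto.trans (by rw [e']), ?_⟩
    filter_upwards [(isOpen_compl_singleton.preimage continuous_snd).mem_nhds
      (show (t, x) ∈ Prod.snd ⁻¹' {(0 : E 3)}ᶜ from ne_zero_of_S2 hx)] with y hy
    exact ⟨trivial, nrm_mem hy⟩
  have h1 : f ∘ φ =ᶠ[𝓝 (t, x)] f' ∘ φ := ht.eventually h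
  have h2 := congrArg (fun L : ℝ × E 3 →L[ℝ] W => L (τ, v)) h1.fderiv_eq
  rw [fderiv_comp (t, x) (by rwa [e']) hφ.differentiableAt,
    fderiv_comp (t, x) (by rwa [e']) hφ.differentiableAt, e', hφ.fderiv] at h2
  simpa [fderiv_nrm_tan hx hv] using h2

theorem fderiv_slice' {U V : Type} [NormedAddCommGroup U] [NormedSpace ℝ U] [NormedAddCommGroup V]
    [NormedSpace ℝ V] {f : U × V → W} {u : U} {x : V} (hf : DifferentiableAt ℝ f (u, x)) (v : V) :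
    fderiv ℝ (fun x => f (u, x)) x v = fderiv ℝ f (u, x) (0, v) := by
  have h := (hf.hasFDerivAt.comp x (hasFDerivAt_prodMk_right u x)).fderiv
  exact congrArg (fun L : V →L[ℝ] W => L v) h

theorem fderiv_snd' {f : E 3 → W} {t τ : ℝ} {x : E 3} (hf : DifferentiableAt ℝ f x) (v : E 3) :
    fderiv ℝ (fun p : ℝ × E 3 => f p.2) (t, x) (τ, v) = fderiv ℝ f x v := by
  have h := (HasFDerivAt.comp (f := Prod.snd) (t, x) hf.hasFDerivAt hasFDerivAt_snd).fderiv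
  exact congrArg (fun L : ℝ × E 3 →L[ℝ] W => L (τ, v)) h

end

namespace Ctx

variable {c : Ctx} {ι : Type} {V V' : Type} [NormedAddCommGroup V] [NormedSpace ℝ V]
  [NormedAddCommGroup V'] [NormedSpace ℝ V'] {f f' : V → c.Y} {K K' : Set V}

theorem SmNear.at (h : c.SmNear f K) {x : V} (hx : x ∈ K) : c.SmNear f {x} :=
  h.mono (singleton_subset_iff.2 hx)

theorem SmNear.eventually {x : V} (h : c.SmNear f {x}) : ∀ᶠ y in 𝓝 x, c.SmNear f {y} := by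
  obtain ⟨O, hO, h1, h2⟩ := h
  filter_upwards [hO.mem_nhds (h1 rfl)] with y hy
  exact ⟨O, hO, singleton_subset_iff.2 hy, h2⟩

theorem smNear_of_forall (h : ∀ x ∈ K, c.SmNear f {x}) : c.SmNear f K := by
  refine ⟨interior {y | c.SmNear f {y}}, isOpen_interior,
    fun x hx => mem_interior_iff_mem_nhds.2 (h x hx).eventually, fun y hy => ?_, fun y hy => ?_⟩
  · exact (SmNear.continuousAt (K := {y}) (interior_subset hy :) rfl).continuousWithinAt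
  · exact (SmNear.contDiffAt (K := {y}) (interior_subset hy :) rfl).contDiffWithinAt

theorem SmNear.congr_at {x : V} (h : c.SmNear f {x}) (he : f' =ᶠ[𝓝 x] f) : c.SmNear f' {x} := by
  obtain ⟨O, hO, h1, h2⟩ := h
  obtain ⟨T, hT, hTo, hxT⟩ := mem_nhds_iff.1 he
  refine ⟨O ∩ T, hO.inter hTo, singleton_subset_iff.2 ⟨h1 rfl, hxT⟩,
    (h2.1.mono inter_subset_left).congr fun y hy => hT hy.2,
    (h2.2.mono inter_subset_left).congr fun y hy => ?_⟩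
  exact congrArg (fun z => c.ι (c.q z)) (hT hy.2)

theorem SmNear.comp_on (h : c.SmNear f K) {φ : V' → V} {K' O : Set V'} (hO : IsOpen O) (hK : K' ⊆ O)
    (hφ : ContDiffOn ℝ ∞ φ O) (hm : MapsTo φ K' K) : c.SmNear (fun v => f (φ v)) K' := by
  obtain ⟨O₁, hO₁, h1, h2⟩ := h
  exact ⟨O ∩ φ ⁻¹' O₁, hφ.continuousOn.isOpen_inter_preimage hO hO₁,
    fun x hx => ⟨hK hx, h1 (hm hx)⟩,
    h2.1.comp (hφ.continuousOn.mono inter_subset_left) fun x hx => hx.2,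
    h2.2.comp (hφ.mono inter_subset_left) fun x hx => hx.2⟩

theorem SmNear.comp_cd (h : c.SmNear f K) {φ : V' → V} {K' : Set V'} (hφ : ContDiff ℝ ∞ φ)
    (hm : MapsTo φ K' K) : c.SmNear (fun v => f (φ v)) K' :=
  h.comp_on isOpen_univ (subset_univ _) hφ.contDiffOn hm

theorem Cross.congr_sm {f g f' g' : ℝ × E 3 → c.Y} {ε : ℤˣ} {t : ℝ} {x y : E 3}
    (h : c.Cross f g ε t x y) (hx : x ∈ S2) (hy : y ∈ S2) (hf : c.SmNear f {(t, x)})
    (hg : c.SmNear g {(t, y)}) (hf' : c.SmNear f' {(t, x)}) (hg' : c.SmNear g' {(t, y)})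
    (ef : f =ᶠ[𝓝[univ ×ˢ S2] (t, x)] f') (eg : g =ᶠ[𝓝[univ ×ˢ S2] (t, y)] g') :
    c.Cross f' g' ε t x y := by
  obtain ⟨h0, v₁, v₂, w₁, w₂, hv, hw, hs⟩ := h
  have e1 : f (t, x) = f' (t, x) := ef.eq_of_nhdsWithin ⟨trivial, hx⟩
  have e2 : g (t, y) = g' (t, y) := eg.eq_of_nhdsWithin ⟨trivial, hy⟩
  have d1 : ∀ (τ : ℝ) (v : E 3), ⟪x, v⟫ = 0 →
      fderiv ℝ (c.am f) (t, x) (τ, v) = fderiv ℝ (c.am f') (t, x) (τ, v) := fun τ v h =>
    tan_congr hx (hf.differentiableAt rfl) (hf'.differentiableAt rfl)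
      (ef.mono fun z hz => congrArg (fun z => c.ι (c.q z)) hz) h
  have d2 : ∀ (τ : ℝ) (v : E 3), ⟪y, v⟫ = 0 →
      fderiv ℝ (c.am g) (t, y) (τ, v) = fderiv ℝ (c.am g') (t, y) (τ, v) := fun τ v h =>
    tan_congr hy (hg.differentiableAt rfl) (hg'.differentiableAt rfl)
      (eg.mono fun z hz => congrArg (fun z => c.ι (c.q z)) hz) h
  refine ⟨e1 ▸ e2 ▸ h0, v₁, v₂, w₁, w₂, hv, hw, ?_⟩
  rw [crossFr, d1 0 v₁ hv.1, d1 0 v₂ hv.2.1, d2 0 w₁ hw.1, d2 0 w₂ hw.2.1,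
    d1 1 0 (inner_zero_right _), d2 1 0 (inner_zero_right _), e1] at hs
  exact hs

variable {F : ι → ℝ × E 3 → c.Y}

theorem Fam.at (h : c.Fam F) (i : ι) {t : ℝ} (ht : t ∈ Icc (0 : ℝ) 1) {x : E 3} (hx : x ∈ S2) :
    c.SmNear (F i) {(t, x)} :=
  (h i).at (mk_mem_prod ht hx)

theorem Fam.link (h : c.Fam F) (hr : ∀ i, c.Reg (F i)) {t : ℝ} (ht : t ∈ Icc (0 : ℝ) 1)
    (hi : ∀ k l, ∀ x ∈ S2, ∀ y ∈ S2, c.q (F k (t, x)) = c.q (F l (t, y)) → k = l ∧ x = y) :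
    c.Link (sl F t) :=
  ⟨fun i => (h i).comp_cd (φ := fun x => (t, x)) (by fun_prop) fun _ hx => mk_mem_prod ht hx,
    fun i => hr i t ht, hi⟩

/-- a regular family is locally injective on each slice, uniformly in time: apply `nd_locinj` to
`(t, x) ↦ (t, am f (t, x), ‖x‖ ^ 2 - 1)` -/
theorem Reg.locinj {f : ℝ × E 3 → c.Y} (hr : c.Reg f) {t : ℝ} (ht : t ∈ Icc (0 : ℝ) 1) {x : E 3}
    (hx : x ∈ S2) (hs : c.SmNear f {(t, x)}) : ∀ᶠ p : ℝ × E 3 × E 3 in 𝓝 (t, x, x),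
      p.2.1 ∈ S2 → p.2.2 ∈ S2 → c.q (f (p.1, p.2.1)) = c.q (f (p.1, p.2.2)) → p.2.1 = p.2.2 := by
  have hd := hs.differentiableAt rfl
  obtain ⟨O, hO, h1, h2⟩ := hs
  have hn : ContDiff ℝ ∞ fun p : ℝ × E 3 => ‖p.2‖ ^ 2 - 1 :=
    ((contDiff_norm_sq ℝ).comp contDiff_snd).sub contDiff_const
  have hn' : DifferentiableAt ℝ (fun x : E 3 => ‖x‖ ^ 2 - 1) x :=
    ((hasStrictFDerivAt_norm_sq x).hasFDerivAt.sub_const 1).differentiableAt
  obtain ⟨A, B, hA, hB, ha, hb, -, hAB⟩ :=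
    locinj_at (f := fun p => (c.am f p, ‖p.2‖ ^ 2 - 1)) hO (h2.2.prodMk hn.contDiffOn) (h1 rfl)
      fun v hv => by
        rw [hd.fderiv_prodMk (hn.differentiable (by simp) _)] at hv
        have e1 : fderiv ℝ (c.am f) (t, x) (0, v) = 0 := congrArg Prod.fst hv
        have e2 : fderiv ℝ (fun p : ℝ × E 3 => ‖p.2‖ ^ 2 - 1) (t, x) (0, v) = 0 :=
          congrArg Prod.snd hv
        rw [fderiv_snd' (f := fun x : E 3 => ‖x‖ ^ 2 - 1) hn', fderiv_norm_sq] at e2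
        exact hr t ht x hx v (by linarith) ((fderiv_slice' hd v).trans e1)
  filter_upwards [(hA.prod (hB.prod hB)).mem_nhds (mk_mem_prod ha (mk_mem_prod hb hb))]
    with p hp hy hz e
  refine (hAB p.1 hp.1).1 hp.2.1 hp.2.2 (Prod.ext (congrArg c.ι e) ?_)
  simp only [mem_sphere_zero_iff_norm.1 hy, mem_sphere_zero_iff_norm.1 hz]

/-- a transverse coincidence is isolated: apply `nd_locinj` to
`(t, x, y) ↦ (am f (t, x) - am g (t, y), ‖x‖ ^ 2 - 1, ‖y‖ ^ 2 - 1)` -/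
theorem Tr.isolated {f g : ℝ × E 3 → c.Y} {t : ℝ} {x y : E 3} (h : c.Tr f g t x y) (hx : x ∈ S2)
    (hy : y ∈ S2) (he : c.q (f (t, x)) = c.q (g (t, y))) (hf : c.SmNear f {(t, x)})
    (hg : c.SmNear g {(t, y)}) : ∀ᶠ p : ℝ × E 3 × E 3 in 𝓝 (t, x, y), p.2.1 ∈ S2 → p.2.2 ∈ S2 →
      c.q (f (p.1, p.2.1)) = c.q (g (p.1, p.2.2)) → p = (t, x, y) := by
  let a : ℝ × E 3 × E 3 →L[ℝ] ℝ × E 3 := (ContinuousLinearMap.id ℝ ℝ).prodMap
    (ContinuousLinearMap.fst ℝ (E 3) (E 3))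
  let b : ℝ × E 3 × E 3 →L[ℝ] ℝ × E 3 := (ContinuousLinearMap.id ℝ ℝ).prodMap
    (ContinuousLinearMap.snd ℝ (E 3) (E 3))
  let n : ℝ × E 3 → ℝ := fun p => ‖p.2‖ ^ 2 - 1
  have hn : ContDiff ℝ ∞ n := ((contDiff_norm_sq ℝ).comp contDiff_snd).sub contDiff_const
  have dn : ∀ (z v : E 3) (τ : ℝ), fderiv ℝ n (t, z) (τ, v) = 2 * ⟪z, v⟫ := fun z v τ => by
    rw [← fderiv_norm_sq]
    exact fderiv_snd' (f := fun x : E 3 => ‖x‖ ^ 2 - 1)
      ((hasStrictFDerivAt_norm_sq z).hasFDerivAt.sub_const 1).differentiableAt v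
  let Φ : ℝ × E 3 × E 3 → E c.N × ℝ × ℝ := fun p => (c.am f (a p) - c.am g (b p), n (a p), n (b p))
  have hΦ : ContDiffAt ℝ ∞ Φ (t, x, y) :=
    ((ContDiffAt.comp (t, x, y) (hf.contDiffAt rfl) a.contDiff.contDiffAt).sub
      (ContDiffAt.comp (t, x, y) (hg.contDiffAt rfl) b.contDiff.contDiffAt)).prodMk
      ((hn.comp a.contDiff).prodMk (hn.comp b.contDiff)).contDiffAt
  have hD : HasFDerivAt Φ (((fderiv ℝ (c.am f) (t, x)).comp a -
      (fderiv ℝ (c.am g) (t, y)).comp b).prod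
      (((fderiv ℝ n (t, x)).comp a).prod ((fderiv ℝ n (t, y)).comp b))) (t, x, y) :=
    ((HasFDerivAt.comp (t, x, y) (hf.differentiableAt rfl).hasFDerivAt a.hasFDerivAt).sub
      (HasFDerivAt.comp (t, x, y) (hg.differentiableAt rfl).hasFDerivAt b.hasFDerivAt)).prodMk
      ((HasFDerivAt.comp (t, x, y) (hn.differentiable (by simp) _).hasFDerivAt
        a.hasFDerivAt).prodMk
        (HasFDerivAt.comp (t, x, y) (hn.differentiable (by simp) _).hasFDerivAt b.hasFDerivAt))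
  obtain ⟨U, hU, hi, -⟩ := nd_locinj hΦ (by
    rw [hD.fderiv, injective_iff_map_eq_zero]
    rintro ⟨τ, v, w⟩ h0
    have e1 : fderiv ℝ (c.am f) (t, x) (τ, v) - fderiv ℝ (c.am g) (t, y) (τ, w) = 0 :=
      congrArg Prod.fst h0
    have e2 : fderiv ℝ n (t, x) (τ, v) = 0 := congrArg (fun z => z.2.1) h0
    have e3 : fderiv ℝ n (t, y) (τ, w) = 0 := congrArg (fun z => z.2.2) h0
    rw [dn] at e2 e3
    obtain ⟨rfl, rfl, rfl⟩ := h τ v w (by linarith) (by linarith) (sub_eq_zero.1 e1)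
    rfl)
  have z : ∀ p : ℝ × E 3 × E 3, p.2.1 ∈ S2 → p.2.2 ∈ S2 →
      c.q (f (p.1, p.2.1)) = c.q (g (p.1, p.2.2)) → Φ p = 0 := fun p h1 h2 e => by
    refine Prod.ext (sub_eq_zero.2 (congrArg c.ι e)) (Prod.ext ?_ ?_)
    · change ‖p.2.1‖ ^ 2 - 1 = 0
      rw [mem_sphere_zero_iff_norm.1 h1, one_pow, sub_self]
    · change ‖p.2.2‖ ^ 2 - 1 = 0
      rw [mem_sphere_zero_iff_norm.1 h2, one_pow, sub_self]
  filter_upwards [hU] with p hp h1 h2 e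
  exact hi hp (mem_of_mem_nhds hU) ((z p h1 h2 e).trans (z (t, x, y) hx hy he).symm)

end Ctx

end Pool.Agent.CSP
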