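import Pool.Agent.Lib.MP_436e1a_gt.H.Lin
import Pool.Agent.Lib.MP_436e1a_gt.H.Tan

/-! A transverse double point is stable. -/

open scoped Manifold ContDiff Topology RealInnerProductSpace Classical
open Set Module

namespace Pool.Agent.CSP

theorem stab_zero {B V W : Type} [NormedAddCommGroup B] [NormedSpace ℝ B] [FiniteDimensional ℝ B]
    [NormedAddCommGroup V] [NormedSpace ℝ V] [FiniteDimensional ℝ V] [NormedAddCommGroup W]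
    [NormedSpace ℝ W] [FiniteDimensional ℝ W] (hd : finrank ℝ V = finrank ℝ W) {O : Set (B × V)}
    (hO : IsOpen O) {Φ : B × V → W} (hΦ : ContDiffOn ℝ ∞ Φ O) {v₀ : V} (h0 : (0, v₀) ∈ O)
    (hz : Φ (0, v₀) = 0) (hi : ∀ ξ, fderiv ℝ Φ (0, v₀) (0, ξ) = 0 → ξ = 0) :
    ∃ U₀ ∈ 𝓝 v₀, ∀ U ∈ 𝓝 v₀, U ⊆ U₀ → ∀ᶠ b in 𝓝 (0 : B), (∃! v, v ∈ U ∧ Φ (b, v) = 0) ∧
      ∀ v ∈ U, (b, v) ∈ O ∧ ∀ ξ, fderiv ℝ Φ (b, v) (0, ξ) = 0 → ξ = 0 := by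
  obtain ⟨A, K, hA, hK, a₀, k₀, hAK, h1⟩ := locinj_at hO hΦ h0 hi
  haveI := FiniteDimensional.complete ℝ B
  haveI := FiniteDimensional.complete ℝ V
  haveI := FiniteDimensional.complete ℝ W
  have h2 := (hasStrictFDerivAt_fst (𝕜 := ℝ) (p := ((0 : B), v₀))).prodMk
    ((hΦ.contDiffAt (hO.mem_nhds h0)).hasStrictFDerivAt (by simp))
  have h3 := h2.map_nhds_eq_of_surj (LinearMap.range_eq_top.2
    ((LinearMap.injective_iff_surjective_of_finrank_eq_finrank (by simp [hd])).1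
      ((injective_iff_map_eq_zero _).2 fun ⟨β, ξ⟩ e => by
        obtain rfl : β = 0 := congrArg Prod.fst e
        rw [hi ξ (congrArg Prod.snd e)]
        rfl)))
  refine ⟨K, hK.mem_nhds k₀, fun U hU hUK => ?_⟩
  have h4 : (fun p => (p.1, Φ p)) '' (univ ×ˢ U) ∈ 𝓝 ((0 : B), (0 : W)) := by
    rw [← hz, ← h3]
    exact Filter.image_mem_map (prod_mem_nhds Filter.univ_mem hU)
  filter_upwards [hA.mem_nhds a₀, (Continuous.prodMk_left (0 : W)).continuousAt.eventually h4]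
    with b hb ⟨p, p1, p2⟩
  obtain rfl : p.1 = b := congrArg Prod.fst p2
  have p3 : Φ p = 0 := congrArg Prod.snd p2
  exact ⟨⟨p.2, ⟨p1.2, p3⟩, fun v hv => (h1 _ hb).1 (hUK hv.1) (hUK p1.2) (hv.2.trans p3.symm)⟩,
    fun v hv => ⟨hAK ⟨hb, hUK hv⟩, (h1 _ hb).2 v (hUK hv)⟩⟩

namespace Ctx

variable {c : Ctx} {B : Type} [NormedAddCommGroup B] [NormedSpace ℝ B]
  {a : B × ℝ × E 3 → c.Y} {g : c.G}

theorem stab_fd (C : E c.N →L[ℝ] E 5) {b : B} {t : ℝ} {x y : E 3} (sx : c.SmNear a {(b, t, x)})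
    (sy : c.SmNear a {(b, t, y)}) (τ : ℝ) (v u : E 3) :
    fderiv ℝ (fun p : B × ℝ × E 3 × E 3 => (C (c.am a (p.1, p.2.1, p.2.2.1) -
      c.am a (p.1, p.2.1, p.2.2.2)), ‖p.2.2.1‖ ^ 2 - 1, ‖p.2.2.2‖ ^ 2 - 1)) (b, t, x, y) (0, τ, v, u) =
      (C (fderiv ℝ (c.am fun w => a (b, w)) (t, x) (τ, v) -
        fderiv ℝ (c.am fun w => a (b, w)) (t, y) (τ, u)), 2 * ⟪x, v⟫, 2 * ⟪y, u⟫) := by
  let π₁ : B × ℝ × E 3 × E 3 →L[ℝ] B × ℝ × E 3 := (ContinuousLinearMap.id ℝ B).prodMap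
    ((ContinuousLinearMap.id ℝ ℝ).prodMap (ContinuousLinearMap.fst ℝ _ _))
  let π₂ : B × ℝ × E 3 × E 3 →L[ℝ] B × ℝ × E 3 := (ContinuousLinearMap.id ℝ B).prodMap
    ((ContinuousLinearMap.id ℝ ℝ).prodMap (ContinuousLinearMap.snd ℝ _ _))
  let σ : B × ℝ × E 3 →L[ℝ] E 3 :=
    (ContinuousLinearMap.snd ℝ _ _).comp (ContinuousLinearMap.snd ℝ _ _)
  have n : ∀ z : E 3, HasFDerivAt (fun x : E 3 => ‖x‖ ^ 2 - 1)
      (fderiv ℝ (fun x : E 3 => ‖x‖ ^ 2 - 1) z) z := fun z =>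
    (((contDiff_norm_sq ℝ (n := 1)).sub contDiff_const).differentiable (by simp) z).hasFDerivAt
  have h := (C.hasFDerivAt.comp (b, t, x, y) ((HasFDerivAt.comp (b, t, x, y)
    (sx.differentiableAt rfl).hasFDerivAt π₁.hasFDerivAt).sub (HasFDerivAt.comp (b, t, x, y)
      (sy.differentiableAt rfl).hasFDerivAt π₂.hasFDerivAt))).prodMk
    ((HasFDerivAt.comp (b, t, x, y) (n x) (σ.comp π₁).hasFDerivAt).prodMk
      (HasFDerivAt.comp (b, t, x, y) (n y) (σ.comp π₂).hasFDerivAt))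
  refine (DFunLike.congr_fun h.fderiv _).trans (Prod.ext (congrArg C ?_)
    (Prod.ext (fderiv_norm_sq x v) (fderiv_norm_sq y u)))
  exact congrArg₂ (· - ·) (fderiv_slice' (sx.differentiableAt rfl) (τ, v)).symm
    (fderiv_slice' (sy.differentiableAt rfl) (τ, u)).symm

theorem stab_sl {b : B} {z : ℝ × E 3} (h : c.SmNear a {(b, z)}) : c.SmNear (fun w => a (b, w)) {z} :=
  h.comp_cd (by fun_prop) (by rintro _ rfl; rfl)

theorem stab_loc [FiniteDimensional ℝ B] {t : ℝ} {x y : E 3} {ε : ℤˣ} (ht : t ∈ Ioo (0 : ℝ) 1)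
    (hx : x ∈ S2) (hy : y ∈ S2)
    (hne : x ≠ y) (sx : c.SmNear a {(0, t, x)}) (sy : c.SmNear a {(0, t, y)})
    (hc : c.Cross (fun w => a (0, w)) (fun w => g • a (0, w)) ε t x y) :
    ∃ U₀ ∈ 𝓝 (t, x, y), ∀ U ∈ 𝓝 (t, x, y), U ⊆ U₀ → ∀ᶠ b in 𝓝 (0 : B),
      (∃! p, p ∈ U ∧ p ∈ c.Zs (fun w => a (b, w)) g) ∧ ∀ p ∈ U, p ∈ c.Zs (fun w => a (b, w)) g →
        ∃ ε, c.Cross (fun w => a (b, w)) (fun w => g • a (b, w)) ε p.1 p.2.1 p.2.2 := by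
  obtain ⟨C, hC⟩ := exists_cof (c.q (a (0, t, x)))
  obtain ⟨W, hW, iW⟩ := hC.locInj
  obtain ⟨W', hW', iW'⟩ := c.q_locInj (a (0, t, x))
  obtain ⟨O₁, o₁, m₁, s₁⟩ := id sx
  obtain ⟨O₂, o₂, m₂, s₂⟩ := id sy
  have π₁ : ContDiff ℝ ∞ fun p : B × ℝ × E 3 × E 3 => (p.1, p.2.1, p.2.2.1) := by fun_prop
  have π₂ : ContDiff ℝ ∞ fun p : B × ℝ × E 3 × E 3 => (p.1, p.2.1, p.2.2.2) := by fun_prop
  have e : a (0, t, x) = g • a (0, t, y) := hc.1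
  have eq : c.q (a (0, t, y)) = c.q (a (0, t, x)) := by rw [e, c.q_smul]
  obtain ⟨U₁, hU₁, h1⟩ := stab_zero (B := B) (V := ℝ × E 3 × E 3) (W := E 5 × ℝ × ℝ) (by simp)
    ((o₁.preimage π₁.continuous).inter (o₂.preimage π₂.continuous))
    (Φ := fun p => (C (c.am a (p.1, p.2.1, p.2.2.1) - c.am a (p.1, p.2.1, p.2.2.2)),
      ‖p.2.2.1‖ ^ 2 - 1, ‖p.2.2.2‖ ^ 2 - 1))
    ((C.contDiff.comp_contDiffOn ((s₁.2.comp π₁.contDiffOn fun _ h => h.1).sub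
      (s₂.2.comp π₂.contDiffOn fun _ h => h.2))).prodMk (ContDiff.prodMk
        (((contDiff_norm_sq ℝ).comp (by fun_prop)).sub contDiff_const)
        (((contDiff_norm_sq ℝ).comp (by fun_prop)).sub contDiff_const)).contDiffOn)
    (v₀ := (t, x, y)) ⟨m₁ rfl, m₂ rfl⟩
    (by simp [am, eq, mem_sphere_zero_iff_norm.1 hx, mem_sphere_zero_iff_norm.1 hy])
    (fun ⟨τ, v, u⟩ h => by
      rw [stab_fd C sx sy] at h
      simp only [Prod.mk_eq_zero, mul_eq_zero, two_ne_zero, false_or] at h ⊢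
      refine hc.tr τ v u h.2.1 h.2.2 ?_
      rw [c.am_smul g fun w => a (0, w)]
      refine sub_eq_zero.1 (hC.inj ?_ h.1)
      rw [map_sub, P_fderiv_am ((stab_sl sx).differentiableAt rfl), ← eq,
        P_fderiv_am ((stab_sl sy).differentiableAt rfl)])
  have c₁ : Filter.Tendsto (fun p : B × ℝ × E 3 × E 3 => a (p.1, p.2.1, p.2.2.1)) (𝓝 (0, t, x, y))
      (𝓝 (a (0, t, x))) := (sx.continuousAt rfl).tendsto.comp (π₁.continuous.tendsto _)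
  have c₂ : Filter.Tendsto (fun p : B × ℝ × E 3 × E 3 => g • a (p.1, p.2.1, p.2.2.2))
      (𝓝 (0, t, x, y)) (𝓝 (a (0, t, x))) := e ▸ ((c.continuous_smul g).tendsto _).comp
    ((sy.continuousAt rfl).tendsto.comp (π₂.continuous.tendsto _))
  have hW₂ : W' ∩ c.q ⁻¹' W ∈ 𝓝 (a (0, t, x)) :=
    Filter.inter_mem hW' (c.continuous_q.continuousAt hW)
  have h2 : ∀ᶠ p : B × ℝ × E 3 × E 3 in 𝓝 (0, t, x, y), (p.2.1 ∈ Ioo (0 : ℝ) 1 ∧ p.2.2.1 ≠ p.2.2.2) ∧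
      a (p.1, p.2.1, p.2.2.1) ∈ W' ∩ c.q ⁻¹' W ∧ g • a (p.1, p.2.1, p.2.2.2) ∈ W' ∩ c.q ⁻¹' W :=
    Filter.Eventually.and (Filter.Eventually.and ((isOpen_Ioo.preimage
      (f := fun p : B × ℝ × E 3 × E 3 => p.2.1) (by fun_prop)).mem_nhds ht)
      ((isOpen_ne_fun (f := fun p : B × ℝ × E 3 × E 3 => p.2.2.1) (g := fun p => p.2.2.2)
        (by fun_prop) (by fun_prop)).mem_nhds hne)) ((c₁.eventually hW₂).and (c₂.eventually hW₂))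
  obtain ⟨A, hA, U₂, hU₂, h3⟩ := mem_nhds_prod_iff.1 h2
  refine ⟨U₁ ∩ U₂, Filter.inter_mem hU₁ hU₂, fun U hU hUU => ?_⟩
  filter_upwards [hA, h1 U hU fun p hp => (hUU hp).1] with b hb ⟨h4, h5⟩
  refine ⟨(existsUnique_congr fun p => and_congr_right fun hp => ?_).1 h4, fun p hp hz => ?_⟩
  · obtain ⟨⟨i₁, i₂⟩, i₃, i₄⟩ := h3 (mk_mem_prod hb (hUU hp).2)
    simp only [Prod.mk_eq_zero, map_sub, sub_eq_zero,
      pow_eq_one_iff_of_nonneg (norm_nonneg _) two_ne_zero]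
    refine ⟨fun h => ⟨Ioo_subset_Icc_self i₁, mem_sphere_zero_iff_norm.2 h.2.1,
      mem_sphere_zero_iff_norm.2 h.2.2, i₂, iW' i₃.1 i₄.1 (iW i₃.2 i₄.2 ?_)⟩,
      fun h => ⟨?_, mem_sphere_zero_iff_norm.1 h.2.1, mem_sphere_zero_iff_norm.1 h.2.2.1⟩⟩
    · rw [c.q_smul]
      exact h.1
    · exact congrArg (fun z => C (c.ι z)) ((congrArg c.q h.2.2.2.2).trans (c.q_smul _ _))
  · have t₁ : c.SmNear a {(b, p.1, p.2.1)} := ⟨O₁, o₁, singleton_subset_iff.2 (h5 p hp).1.1, s₁⟩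
    have t₂ : c.SmNear a {(b, p.1, p.2.2)} := ⟨O₂, o₂, singleton_subset_iff.2 (h5 p hp).1.2, s₂⟩
    refine Tr.cross (fun τ v u hv hu h => ?_) hz.2.2.2.2 (stab_sl t₁) ((stab_sl t₂).smul g)
      (ne_zero_of_S2 hz.2.1) (ne_zero_of_S2 hz.2.2.1)
    rw [c.am_smul g fun w => a (b, w)] at h
    simpa using (h5 p hp).2 (τ, v, u) ((stab_fd C t₁ t₂ τ v u).trans (by simp [h, hv, hu]))

end Ctx

end Pool.Agent.CSP
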