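import Pool.Agent.Lib.MP_436e1a_gt.H.Join
import Pool.Agent.Lib.MP_436e1a_gt.H.Comm
import Pool.Agent.Lib.MP_436e1a_gt.H.Red

/-! A chain whose crossings cancel algebraically joins equivalent links. -/

open scoped Manifold ContDiff Topology RealInnerProductSpace Classical
open Set

namespace Pool.Agent.CSP

namespace Ctx

variable {c : Ctx} {ι : Type} [Finite ι] [SimplyConnectedSpace c.Y] {δ δ' : Dat ι c.G}
  {L L₁ L₂ L' : ι → E 3 → c.Y} {l l' : List (Dat ι c.G)}

theorem Step.swap (h : c.Step L δ L₁) (h' : c.Step L₁ δ' L₂) :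
    ∃ B, c.Step L δ' B ∧ c.Step B δ L₂ := by
  obtain ⟨L₀, hL, e⟩ := h.exists_link
  obtain ⟨A, B, C, s₁, s₂, s₃, s₄⟩ := comm hL δ δ'
  have e₁ := h.uniq (Step.eqv_left e s₁)
  exact ⟨B, Step.eqv_left e s₃, s₄.eqv_right ((Step.eqv_left e₁ s₂).uniq h')⟩

theorem Chain.perm (hp : l.Perm l') (h : c.Chain L l L') : c.Chain L l' L' := by
  induction hp generalizing L with
  | nil => exact h
  | cons x _ ih =>
    cases h with
    | cons s h => exact .cons s (ih h)
  | swap x y l =>
    cases h with
    | cons s h =>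
      cases h with
      | cons s' h =>
        obtain ⟨B, s₁, s₂⟩ := s.swap s'
        exact .cons s₁ (.cons s₂ h)
  | trans _ _ ih ih' => exact ih' (ih h)

theorem thmU (h : c.Chain L l L') (h₁ : ∀ i j g, ¬ (i = j ∧ g = g⁻¹) → chi l i j g = 0)
    (h₂ : ∀ i g, g = g⁻¹ → Even (cnt l i g)) : c.Eqv L L' := by
  have := dat_reduce (Q := fun l => c.Chain L l L') (fun _ _ hp h => h.perm hp)
    (fun δ l h => by
      cases h with
      | cons s h => exact .cons s.flip h)
    (fun δ l h => by
      cases h with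
      | cons s h =>
        cases h with
        | cons s' h => exact Chain.eqv_left (s.neg.uniq s') h) h₁ h₂ h
  cases this with
  | nil e => exact e

end Ctx

end Pool.Agent.CSP
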